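import Pool.Agent.HP89.Defs

/-!
# Project FI75 (MP_33e5ad_gt): contraction of the Fisher information

Convex bodies homothetic to their iterated projection bodies `Π_j^m K`, for `j² < (d - j)(d - 2j)`.

`V` Euclidean of dimension `d = finrank ℝ V`, `γ = stdGaussian V`. The support function of every projection body is
(up to a factor) `u ↦ ∫ |⟪x, u⟫| F x dγ(x)` with a density `F`, homogeneous of degree zero, and the next body of the
chain has the density `NN j F`. `TT j F T` is the (rotational) gradient of `NN j F` if `T` is the one of `F`,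
`JJ F T` the Fisher information and `AA F` the mean.
-/

set_option autoImplicit false

namespace Pool.Agent.FI75

open MeasureTheory ProbabilityTheory Set Filter Topology Metric
open Pool.Agent.HP89
open scoped RealInnerProductSpace ENNReal

section lin
variable {V : Type*} [NormedAddCommGroup V] [InnerProductSpace ℝ V]

/-- skew-symmetric linear maps. -/
def Skew (A : V →L[ℝ] V) : Prop := ∀ x, ⟪A x, x⟫ = 0

/-- the one-parameter group `exp (t A)`. -/
noncomputable def rt (A : V →L[ℝ] V) (t : ℝ) : V →L[ℝ] V := NormedSpace.exp (t • A)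

/-- projection to the orthogonal complement of the vectors `x i`. -/
noncomputable def rv {j : ℕ} (x : Fin j → V) (v : V) : V := res (List.ofFn x) v

/-- volume of the parallelepiped spanned by the vectors `x i`. -/
noncomputable def wv {j : ℕ} (x : Fin j → V) : ℝ := wn (List.ofFn x)

/-- `∏ F (x i)`. -/
noncomputable def pf {j : ℕ} (F : V → ℝ) (x : Fin j → V) : ℝ := ∏ i, F (x i)

/-- the vectors `g i` projected to `y^⊥`. -/
noncomputable def ov {j : ℕ} (y : V) (g : Fin j → V) : Fin j → V := fun i => ort y (g i)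

/-- the score `T / F`. -/
noncomputable def sc (F : V → ℝ) (T : V → V) (x : V) : V := (F x)⁻¹ • T x

/-- `√(ε² + |v|²)`. -/
noncomputable def rr (ε : ℝ) (v : V) : ℝ := √(ε ^ 2 + ‖v‖ ^ 2)

/-- second derivative of `h ↦ √(ε² + |P h|²)` in the directions `a, b`, `P = res X`. -/
noncomputable def ph (ε : ℝ) (X : List V) (h a b : V) : ℝ :=
  ⟪res X a, b⟫ * (rr ε (res X h))⁻¹ - ⟪res X h, a⟫ * ⟪res X h, b⟫ * (rr ε (res X h) ^ 3)⁻¹

/-- the gradient of `h ↦ ph ε X h a b`. -/
noncomputable def gph (ε : ℝ) (X : List V) (h a b : V) : V :=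
  -(⟪res X a, b⟫ * (rr ε (res X h) ^ 3)⁻¹) • res X h - (⟪res X h, b⟫ * (rr ε (res X h) ^ 3)⁻¹) • res X a
    - (⟪res X h, a⟫ * (rr ε (res X h) ^ 3)⁻¹) • res X b
    + (3 * (⟪res X h, a⟫ * ⟪res X h, b⟫) * (rr ε (res X h) ^ 5)⁻¹) • res X h

end lin

section meas
variable {V : Type*} [NormedAddCommGroup V] [InnerProductSpace ℝ V] [FiniteDimensional ℝ V]
  [MeasurableSpace V] [BorelSpace V]

/-- `f` is homogeneous of degree zero, bounded, and differentiable along rotations with gradient `T`. -/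
structure RD (f : V → ℝ) (T : V → V) : Prop where
  mf : Measurable f
  mT : Measurable T
  bdd : ∃ C : ℝ, ∀ x, |f x| ≤ C ∧ ‖x‖ * ‖T x‖ ≤ C
  homf : ∀ c : ℝ, c ≠ 0 → ∀ x, f (c • x) = f x
  homT : ∀ c : ℝ, c ≠ 0 → ∀ x, T (c • x) = c⁻¹ • T x
  der : ∀ A : V →L[ℝ] V, Skew A → ∀ x, x ≠ 0 → HasDerivAt (fun t : ℝ => f (rt A t x)) ⟪T x, A x⟫ 0

/-- the class of densities. -/
structure RC (F : V → ℝ) (T : V → V) : Prop extends RD F T where
  pos : ∃ c : ℝ, 0 < c ∧ ∀ x, c ≤ F x
  orth : ∀ x, ⟪T x, x⟫ = 0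

/-- `f` is rotationally differentiable. -/
def RDf (f : V → ℝ) : Prop := ∃ T, RD f T

variable (V) in
/-- the law of `j` independent standard Gaussian vectors. -/
noncomputable abbrev gp (j : ℕ) : Measure (Fin j → V) := Measure.pi fun _ => stdGaussian V

/-- density of the next body. -/
noncomputable def NN (j : ℕ) (F : V → ℝ) (y : V) : ℝ :=
  ∫ g, wv (ov y g) ^ 2 * pf F (ov y g) ∂(gp V j)

/-- its gradient. -/
noncomputable def TT (j : ℕ) (F : V → ℝ) (T : V → V) (y : V) : V :=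
  -(‖y‖ ^ 2)⁻¹ • ∫ g, (wv (ov y g) ^ 2 * pf F (ov y g)) • ∑ i, ⟪sc F T (ov y g i), y⟫ • ov y g i ∂(gp V j)

/-- mean. -/
noncomputable def AA (F : V → ℝ) : ℝ := ∫ x, F x ∂(stdGaussian V)

/-- Fisher information. -/
noncomputable def JJ (F : V → ℝ) (T : V → V) : ℝ := ∫ x, ‖x‖ ^ 2 * ‖T x‖ ^ 2 / F x ∂(stdGaussian V)

noncomputable def E0 (j : ℕ) (F : V → ℝ) : ℝ := ∫ x, wv x * pf F x ∂(gp V j)

noncomputable def E2 (j : ℕ) (F : V → ℝ) (T : V → V) : ℝ :=
  ∫ x, wv x * pf F x * ∑ i, ∑ l, ⟪x i, x l⟫ * ⟪rv x (sc F T (x i)), rv x (sc F T (x l))⟫ ∂(gp V j)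

noncomputable def E3 (j : ℕ) (F : V → ℝ) (T : V → V) : ℝ :=
  ∫ x, wv x * pf F x * ∑ i, ‖x i‖ ^ 2 * ‖sc F T (x i)‖ ^ 2 ∂(gp V j)

/-- the numerator after the Cauchy-Schwarz inequality. -/
noncomputable def QQ (j : ℕ) (F : V → ℝ) (T : V → V) (y : V) : ℝ :=
  ∫ g, wv (ov y g) ^ 2 * pf F (ov y g) * ‖∑ i, ⟪sc F T (ov y g i), y⟫ • ov y g i‖ ^ 2 ∂(gp V j)

/-- the error terms of pairs of vectors. -/
noncomputable def ee (n : ℕ) (F : V → ℝ) (T : V → V) (i l : Fin (n + 1)) : ℝ :=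
  ∫ x, wv (fun m => x (l.succAbove m)) * pf F x * (⟪x i, x l⟫ * ⟪rv (fun m => x (l.succAbove m)) (x l), sc F T (x i)⟫ /
    ‖rv (fun m => x (l.succAbove m)) (x l)‖) ∂(gp V (n + 1))

/-- cosine transform. -/
noncomputable def cosT (F : V → ℝ) (u : V) : ℝ := ∫ x, |⟪x, u⟫| * F x ∂(stdGaussian V)

/-- `1 / wn Z` (zero if `wn Z = 0`). -/
noncomputable def wi (Z : List V) : ℝ≥0∞ := ENNReal.ofReal (wn Z)⁻¹

/-- `1 / ‖y‖` (zero if `y = 0`). -/
noncomputable def ni (y : V) : ℝ≥0∞ := ENNReal.ofReal ‖y‖⁻¹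

/-- measurable families of measures. -/
def KM (κ : V → Measure V) : Prop :=
  ∀ (n : ℕ) (f : ((Fin n → V) × V) × V → ℝ≥0∞), Measurable f → Measurable (fun p => ∫⁻ u, f (p, u) ∂(κ p.2))

/-- jointly measurable functions of a list and a vector. -/
def JM (Ψ : List V → V → ℝ≥0∞) : Prop :=
  ∀ n : ℕ, Measurable (fun p : (Fin n → V) × V => Ψ (List.ofFn p.1) p.2)

/-- the symmetry property (Blaschke-Petkantschin in one variable). -/
def GS (n : ℕ) (μ : Measure V) (κ : V → Measure V) : Prop :=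
  ∀ X : List V, wn X ≠ 0 → X.length < n → ∀ ψ : V → V → ℝ≥0∞, Measurable (Function.uncurry ψ) →
    ∫⁻ x, ni (res X x) * ∫⁻ g, ψ x (res (x :: X) g) ∂(stdGaussian V) ∂μ =
      ∫⁻ g, ∫⁻ u, ψ u (res X g) ∂(κ (res X g)) ∂(stdGaussian V)

/-- the law of `P_{X^⊥} g` with weight `wn X`, `X ~ μ^j`: it generates the next projection body. -/
noncomputable def nuw (j : ℕ) (μ : Measure V) : Measure V :=
  (((Measure.pi fun _ : Fin j => μ).prod (stdGaussian V)).withDensity
    (fun p => ENNReal.ofReal (wv p.1))).map (fun p => rv p.1 p.2)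

/-- the kernel which belongs to `nuw j μ`. -/
noncomputable def kap (j : ℕ) (μ : Measure V) (y : V) : Measure V :=
  (((Measure.pi fun _ : Fin j => μ).prod (stdGaussian V)).withDensity
    (fun p => ENNReal.ofReal (wv p.1) * ni (rv p.1 y))).map (fun p => ort (rv p.1 y) (rv p.1 p.2))

/-- the density of `nuw j (nuw j μ)` with respect to the Gaussian measure. -/
noncomputable def Gd (j : ℕ) (μ : Measure V) (y : V) : ℝ≥0∞ := iter (kap j μ y) j (fun Z => ew Z ^ 2) []

/-- the measure with density `F` with respect to the Gaussian measure. -/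
noncomputable def dm (F : V → ℝ) : Measure V := (stdGaussian V).withDensity (fun x => ENNReal.ofReal (F x))

/-- Hessian of the support function (regularised for `ε > 0`). -/
noncomputable def Mh (ε : ℝ) (j : ℕ) (μ : Measure V) (h a b : V) : ℝ :=
  ∫ W, wv W * ph ε (List.ofFn W) h a b ∂(Measure.pi fun _ : Fin j => μ)

/-- its gradient. -/
noncomputable def Tm (ε : ℝ) (j : ℕ) (μ : Measure V) (h a b : V) : V :=
  ∫ W, wv W • gph ε (List.ofFn W) h a b ∂(Measure.pi fun _ : Fin j => μ)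

/-- `S` is on the sphere a multiple of the support function generated by `μ`. -/
def GenC (S : V → ℝ) (μ : Measure V) : Prop :=
  ∃ c : ℝ, 0 < c ∧ ∀ u, ‖u‖ = 1 → S u = c * ∫ x, |⟪x, u⟫| ∂μ

end meas

end Pool.Agent.FI75
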