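import Pool.Agent.HP89.A2b
import Pool.Agent.HP89.A1c
import Pool.Agent.FI75.Defs

/-! Module FI-B1 (iterated symmetry). `measurable_iter_kernel`: induction on `l`, `KM` for the parameter `(Fin n → V) × V`, and
`x :: List.ofFn X = List.ofFn (Fin.cons x X)`. `bpm`: if `wn X = 0` both sides vanish (`wn (x :: Z) = wn Z * _`, so `wi Z = 0` for
all `Z` that occur; `wi X = 0`). If `wn X ≠ 0`: induction on `l` (all `X`); step: `iter_succ`, induction hypothesis for
`x :: X`, `wi (x :: X) = wi X * ni (res X x)`, then `GS` with `ψ x y = iter (κ y) l (fun Z => Ψ Z y) (x :: X)` (measurable by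
the first lemma and a fixed tail `X`). -/

set_option autoImplicit false

namespace Pool.Agent.FI75
open MeasureTheory ProbabilityTheory Set Filter Topology Metric
open Pool.Agent.HP89
open scoped RealInnerProductSpace ENNReal

variable {V : Type*} [NormedAddCommGroup V] [InnerProductSpace ℝ V] [FiniteDimensional ℝ V]
  [MeasurableSpace V] [BorelSpace V]

theorem measurable_iter_kernel {κ : V → Measure V} (hκ : KM κ) {Ψ : List V → V → ℝ≥0∞} (hΨ : JM Ψ) (l n : ℕ) :
    Measurable (fun p : (Fin n → V) × V => iter (κ p.2) l (fun Z => Ψ Z p.2) (List.ofFn p.1)) := by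
  induction l generalizing n with
  | zero => exact hΨ n
  | succ l ih =>
    have hm : Measurable (fun q : ((Fin n → V) × V) × V =>
        ((Fin.cons q.2 q.1.1 : Fin (n + 1) → V), q.1.2)) := by
      refine Measurable.prodMk ?_ (measurable_snd.comp measurable_fst)
      refine measurable_pi_lambda _ fun i => ?_
      refine Fin.cases ?_ (fun i => ?_) i
      · simpa using measurable_snd
      · simpa [Function.comp_def] using
          (measurable_pi_apply i).comp ((measurable_fst (α := Fin n → V) (β := V)).comp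
            (measurable_fst (α := (Fin n → V) × V) (β := V)))
    have h1 := hκ n _ ((ih (n + 1)).comp hm)
    convert h1 using 1
    funext p
    symm
    change ∫⁻ u, iter (κ p.2) l (fun Z => Ψ Z p.2) (List.ofFn (Fin.cons u p.1 : Fin (n + 1) → V)) ∂(κ p.2) =
      ∫⁻ u, iter (κ p.2) l (fun Z => Ψ Z p.2) (u :: List.ofFn p.1) ∂(κ p.2)
    refine lintegral_congr fun u => ?_
    rw [List.ofFn_cons]

omit [FiniteDimensional ℝ V] [MeasurableSpace V] [BorelSpace V] in
private theorem wi_cons (x : V) (X : List V) : wi (x :: X) = wi X * ni (res X x) := by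
  unfold wi ni
  rw [wn_cons, mul_inv, ENNReal.ofReal_mul (inv_nonneg.2 (wn_nonneg X))]

theorem bpm {n : ℕ} {μ : Measure V} {κ : V → Measure V} (hκ : KM κ) (hGS : GS n μ κ)
    {Ψ : List V → V → ℝ≥0∞} (hΨ : JM Ψ) (l : ℕ) (X : List V) (h : X.length + l ≤ n) :
    iter μ l (fun Z => wi Z * ∫⁻ g, Ψ Z (res Z g) ∂(stdGaussian V)) X =
      wi X * ∫⁻ y, iter (κ (res X y)) l (fun Z => Ψ Z (res X y)) X ∂(stdGaussian V) := by
  induction l generalizing X with
  | zero => rfl
  | succ l ih =>
    set ψ : V → V → ℝ≥0∞ := fun x z => iter (κ z) l (fun Z => Ψ Z z) (x :: X) with hψ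
    have hψm : Measurable (Function.uncurry ψ) := by
      have h1 := measurable_iter_kernel hκ hΨ l (X.length + 1)
      have h2 : Measurable (fun q : V × V =>
          ((Fin.cons q.1 X.get : Fin (X.length + 1) → V), q.2)) := by
        refine Measurable.prodMk ?_ measurable_snd
        refine measurable_pi_lambda _ fun i => ?_
        refine Fin.cases ?_ (fun i => ?_) i
        · simpa using measurable_fst
        · simp
      convert h1.comp h2 using 1
      funext q
      symm
      change iter (κ q.2) l (fun Z => Ψ Z q.2) (List.ofFn (Fin.cons q.1 X.get : Fin (X.length + 1) → V)) =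
        iter (κ q.2) l (fun Z => Ψ Z q.2) (q.1 :: X)
      rw [List.ofFn_cons, List.ofFn_get]
    have h1 : iter μ (l + 1) (fun Z => wi Z * ∫⁻ g, Ψ Z (res Z g) ∂(stdGaussian V)) X =
        ∫⁻ x, wi X * (ni (res X x) * ∫⁻ g, ψ x (res (x :: X) g) ∂(stdGaussian V)) ∂μ := by
      change ∫⁻ x, iter μ l (fun Z => wi Z * ∫⁻ g, Ψ Z (res Z g) ∂(stdGaussian V)) (x :: X) ∂μ = _
      refine lintegral_congr fun x => ?_
      rw [ih (x :: X) (by rw [List.length_cons]; omega), wi_cons, mul_assoc]
    have hwi : wi X ≠ ⊤ := ENNReal.ofReal_ne_top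
    rw [h1, lintegral_const_mul' _ _ hwi]
    by_cases hX : wn X = 0
    · have h2 : wi X = 0 := by unfold wi; rw [hX, inv_zero, ENNReal.ofReal_zero]
      rw [h2, zero_mul, zero_mul]
    · rw [hGS X hX (by omega) ψ hψm]
      rfl

end Pool.Agent.FI75
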