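import Pool.Agent.FI75.G2
import Pool.Agent.HP89.A1c
import Pool.Agent.HP89.A2a

/-! Module FI-B2 (the Gaussian measure has the symmetry property). `gsym` with `E = ⊤`, `F = (span X)ᗮ` (`res_eq`,
`finrank_orth_of_wn_ne_zero`, `res (x :: X) g = ort (res X x) (res X g)`). `km_gauss`: `lintegral_smul_measure`,
`lintegral_map`, `Measurable.lintegral_prod_right'`, `measurable_ort`. -/

set_option autoImplicit false

namespace Pool.Agent.FI75
open MeasureTheory ProbabilityTheory Set Filter Topology Metric
open Pool.Agent.HP89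
open scoped RealInnerProductSpace ENNReal

variable {V : Type*} [NormedAddCommGroup V] [InnerProductSpace ℝ V] [FiniteDimensional ℝ V]
  [MeasurableSpace V] [BorelSpace V]

private theorem lint_gauss_kernel (y : V) {f : V → ℝ≥0∞} (hf : Measurable f) :
    ∫⁻ u, f u ∂(ni y • (stdGaussian V).map (ort y)) = ni y * ∫⁻ g, f (ort y g) ∂(stdGaussian V) := by
  rw [lintegral_smul_measure, lintegral_map hf (continuous_ort y).measurable, smul_eq_mul]

theorem km_gauss : KM (fun y : V => ni y • (stdGaussian V).map (ort y)) := by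
  intro n f hf
  have e : (fun p : (Fin n → V) × V => ∫⁻ u, f (p, u) ∂(ni p.2 • (stdGaussian V).map (ort p.2))) =
      fun p => ni p.2 * ∫⁻ g, f (p, ort p.2 g) ∂(stdGaussian V) := by
    funext p
    exact lint_gauss_kernel p.2 (hf.comp measurable_prodMk_left)
  rw [e]
  refine Measurable.mul ?_ ?_
  · unfold ni
    fun_prop
  · refine Measurable.lintegral_prod_right' (f := fun q : ((Fin n → V) × V) × V =>
      f (q.1, ort q.1.2 q.2)) ?_
    refine hf.comp (measurable_fst.prodMk ?_)
    exact measurable_ort.comp ((measurable_snd.comp measurable_fst).prodMk measurable_snd)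

theorem gs_gauss : GS (Module.finrank ℝ V - 1) (stdGaussian V) (fun y : V => ni y • (stdGaussian V).map (ort y)) := by
  intro X hX hlen ψ hψ
  have h2 : ∀ g : V, ∫⁻ u, ψ u (res X g) ∂(ni (res X g) • (stdGaussian V).map (ort (res X g))) =
      ni (res X g) * ∫⁻ ξ, ψ (ort (res X g) ξ) (res X g) ∂(stdGaussian V) := fun g =>
    lint_gauss_kernel (res X g) (hψ.comp measurable_prodMk_right)
  simp only [h2]
  have hfin := finrank_orth_of_wn_ne_zero hX
  have h := gsym (⊤ : Submodule ℝ V) (Submodule.span ℝ {x | x ∈ X})ᗮ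
    (by rw [hfin, finrank_top]; omega) hψ
  simp only [Submodule.starProjection_top, ContinuousLinearMap.id_apply, ← res_eq] at h
  exact h

end Pool.Agent.FI75
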