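import Pool.Agent.FI75.B1
import Pool.Agent.FI75.B2

/-! Module FI-B3 (Blaschke-Petkantschin formula for functions of `j` vectors and one vector). Apply `bpm` with `X = []`, `l = j`,
`n = finrank - 1` to `Ψ Z y = if h : Z.length = j then ofReal (wn Z ^ 2) * Φ (fun i => Z.get (i.cast h.symm)) y else 0`:
`wi Z * ofReal (wn Z ^ 2) = ofReal (wn Z)` (both zero if `wn Z = 0`). Left side: `iter_eq_pi`. Right side:
`iter_smul_measure` (`ni y ^ j`), `iter_eq_pi` for the finite measure `γ.map (ort y)` and `Measure.pi_map_pi`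
(`pi (fun _ => γ.map (ort y)) = (gp V j).map (ov y)`), `res [] y = y`, `wi [] = 1`. -/

set_option autoImplicit false

namespace Pool.Agent.FI75
open MeasureTheory ProbabilityTheory Set Filter Topology Metric
open Pool.Agent.HP89
open scoped RealInnerProductSpace ENNReal

variable {V : Type*} [NormedAddCommGroup V] [InnerProductSpace ℝ V] [FiniteDimensional ℝ V]
  [MeasurableSpace V] [BorelSpace V]

/-- the function of lists which belongs to `Φ` -/
private noncomputable def psiL {j : ℕ} (Φ : (Fin j → V) → V → ℝ≥0∞) (Z : List V) (y : V) : ℝ≥0∞ :=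
  if h : Z.length = j then ENNReal.ofReal (wn Z ^ 2) * Φ (fun i => Z.get (i.cast h.symm)) y else 0

omit [FiniteDimensional ℝ V] [MeasurableSpace V] [BorelSpace V] in
private theorem psiL_ofFn {j : ℕ} (Φ : (Fin j → V) → V → ℝ≥0∞) (X : Fin j → V) (y : V) :
    psiL Φ (List.ofFn X) y = ENNReal.ofReal (wv X ^ 2) * Φ X y := by
  unfold psiL
  rw [dif_pos List.length_ofFn]
  congr 2
  funext i
  simp

private theorem jm_psiL {j : ℕ} {Φ : (Fin j → V) → V → ℝ≥0∞} (hΦ : Measurable (Function.uncurry Φ)) :
    JM (psiL Φ) := by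
  intro n
  by_cases h : n = j
  · subst h
    simp only [psiL_ofFn]
    refine Measurable.mul (ENNReal.measurable_ofReal.comp (Measurable.pow_const ?_ 2)) hΦ
    exact (measurable_wn n).comp measurable_fst
  · have h1 : (fun p : (Fin n → V) × V => psiL Φ (List.ofFn p.1) p.2) = fun _ => 0 := by
      funext p
      unfold psiL
      rw [dif_neg (by rw [List.length_ofFn]; exact h)]
    rw [h1]
    exact measurable_const

omit [FiniteDimensional ℝ V] [MeasurableSpace V] [BorelSpace V] in
private theorem wi_mul {j : ℕ} (X : Fin j → V) :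
    wi (List.ofFn X) * ENNReal.ofReal (wv X ^ 2) = ENNReal.ofReal (wv X) := by
  unfold wi wv
  rw [← ENNReal.ofReal_mul (inv_nonneg.2 (wn_nonneg _))]
  congr 1
  rcases (wn_nonneg (List.ofFn X)).eq_or_lt with h | h
  · rw [← h]; simp
  · field_simp

theorem bpf {j : ℕ} (hj : j < Module.finrank ℝ V) {Φ : (Fin j → V) → V → ℝ≥0∞}
    (hΦ : Measurable (Function.uncurry Φ)) :
    ∫⁻ x, ENNReal.ofReal (wv x) * ∫⁻ g, Φ x (rv x g) ∂(stdGaussian V) ∂(gp V j) =
      ∫⁻ y, ni y ^ j * ∫⁻ g, ENNReal.ofReal (wv (ov y g) ^ 2) * Φ (ov y g) y ∂(gp V j) ∂(stdGaussian V) := by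
  have hJ := jm_psiL hΦ
  have key := bpm (V := V) km_gauss gs_gauss hJ j [] (by simp only [List.length_nil]; omega)
  -- the left side
  have hL : LMeas (fun Z : List V => wi Z * ∫⁻ g, psiL Φ Z (res Z g) ∂(stdGaussian V)) := by
    intro n
    refine Measurable.mul ?_ ?_
    · exact ENNReal.measurable_ofReal.comp (measurable_wn n).inv
    · have h1 : Measurable fun p : (Fin n → V) × V => psiL Φ (List.ofFn p.1) (res (List.ofFn p.1) p.2) :=
        (hJ n).comp (measurable_fst.prodMk (measurable_res n))
      exact h1.lintegral_prod_right'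
  have left : iter (stdGaussian V) j (fun Z => wi Z * ∫⁻ g, psiL Φ Z (res Z g) ∂(stdGaussian V)) [] =
      ∫⁻ x, ENNReal.ofReal (wv x) * ∫⁻ g, Φ x (rv x g) ∂(stdGaussian V) ∂(gp V j) := by
    rw [iter_eq_pi (stdGaussian V) j hL []]
    refine lintegral_congr fun x => ?_
    rw [List.append_nil]
    have h1 : Measurable fun g : V => Φ x (res (List.ofFn x) g) :=
      hΦ.comp (measurable_const.prodMk ((measurable_res j).comp (measurable_const.prodMk measurable_id)))
    simp only [psiL_ofFn]
    rw [lintegral_const_mul _ h1, ← mul_assoc, wi_mul]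
    rfl
  -- the right side
  have right : wi ([] : List V) * ∫⁻ y, iter (ni (res ([] : List V) y) •
      (stdGaussian V).map (ort (res ([] : List V) y))) j (fun Z => psiL Φ Z (res ([] : List V) y)) []
        ∂(stdGaussian V) =
      ∫⁻ y, ni y ^ j * ∫⁻ g, ENNReal.ofReal (wv (ov y g) ^ 2) * Φ (ov y g) y ∂(gp V j)
        ∂(stdGaussian V) := by
    have h0 : wi ([] : List V) = 1 := by
      unfold wi
      rw [wn_nil]
      simp
    rw [h0, one_mul]
    refine lintegral_congr fun y => ?_
    have hni : ni y ≠ ⊤ := ENNReal.ofReal_ne_top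
    rw [res_nil, iter_smul_measure _ _ _ _ hni]
    congr 1
    have hmo : Measurable (ort y) := (continuous_ort y).measurable
    haveI : IsFiniteMeasure ((stdGaussian V).map (ort y)) :=
      Measure.isFiniteMeasure_map _ _
    have hLM : LMeas (fun Z : List V => psiL Φ Z y) := fun n =>
      (hJ n).comp (measurable_id.prodMk measurable_const)
    rw [iter_eq_pi _ j hLM []]
    simp only [List.append_nil, psiL_ofFn]
    have h1 : Measurable fun X : Fin j → V => ENNReal.ofReal (wv X ^ 2) * Φ X y :=
      (ENNReal.measurable_ofReal.comp ((measurable_wn j).pow_const 2)).mul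
        (hΦ.comp (measurable_id.prodMk measurable_const))
    have hmm : Measurable fun (x : Fin j → V) (i : Fin j) => ort y (x i) :=
      measurable_pi_lambda _ fun i => hmo.comp (measurable_pi_apply i)
    rw [← Measure.pi_map_pi (μ := fun _ : Fin j => stdGaussian V) (f := fun _ => ort y)
      (fun _ => hmo.aemeasurable), lintegral_map h1 hmm]
    rfl
  rw [← left, ← right]
  exact key

end Pool.Agent.FI75
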