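import Pool.Agent.HP89.A2b
import Pool.Agent.HP89.A3b
import Pool.Agent.FI75.Defs

/-! Module FI-B4 (basic facts on `nuw`, `kap`). Measurability: `measurable_wn`, `measurable_res`, `measurable_ort` (HP89.A2a).
`lintegral_nuw`, `lintegral_kap`: `lintegral_map`, `lintegral_withDensity_eq_lintegral_mul`, `lintegral_prod`.
`nuw_cos`: `ENNReal` form of the integral, `lintegral_abs_inner` (`∫⁻ g |⟪res X g, u⟫| = √(2/π) ‖res X u‖`, `inner_res`),
`wn X * ‖res X u‖ = wn (u :: X) = wn (X ++ [u])` (`wn_perm`), `iter_eq_pi` for `Y = [u]`. `nuw_finite`: total mass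
`∫⁻ wv = iter μ j ew [] < ⊤` (`iter_ew_lt_top`), `‖res X g‖ ≤ ‖g‖`. `kap_smul`: `rv X (c • y) = c • rv X y`, `ort_smul_left`,
so `kap j μ (c • y) = ofReal |c|⁻¹ • kap j μ y`; compare `lintegral`s of measurable sets or functions. -/

set_option autoImplicit false

namespace Pool.Agent.FI75
open MeasureTheory ProbabilityTheory Set Filter Topology Metric
open Pool.Agent.HP89
open scoped RealInnerProductSpace ENNReal

variable {V : Type*} [NormedAddCommGroup V] [InnerProductSpace ℝ V] [FiniteDimensional ℝ V]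
  [MeasurableSpace V] [BorelSpace V]

theorem measurable_rv (j : ℕ) : Measurable (fun p : (Fin j → V) × V => rv p.1 p.2) :=
  measurable_res j

theorem measurable_wv (j : ℕ) : Measurable (fun x : Fin j → V => wv x) :=
  measurable_wn j

theorem measurable_ov (j : ℕ) : Measurable (fun p : V × (Fin j → V) => ov p.1 p.2) := by
  refine measurable_pi_lambda _ fun i => ?_
  have h1 : Measurable (fun p : V × (Fin j → V) => p.2 i) :=
    (measurable_pi_apply i).comp measurable_snd
  have h2 : Measurable (fun p : V × (Fin j → V) => (p.1, p.2 i)) := measurable_fst.prodMk h1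
  have h : Measurable ((fun p : V × V => ort p.1 p.2) ∘ fun p : V × (Fin j → V) => (p.1, p.2 i)) :=
    measurable_ort.comp h2
  exact h

private theorem measurable_ni : Measurable (ni : V → ℝ≥0∞) :=
  (measurable_norm.inv).ennreal_ofReal

private theorem measurable_wv' (j : ℕ) :
    Measurable (fun X : Fin j → V => ENNReal.ofReal (wv X)) :=
  (measurable_wv j).ennreal_ofReal

theorem lintegral_nuw (j : ℕ) (μ : Measure V) [IsFiniteMeasure μ] {φ : V → ℝ≥0∞} (hφ : Measurable φ) :
    ∫⁻ x, φ x ∂(nuw j μ) =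
      ∫⁻ X, ENNReal.ofReal (wv X) * ∫⁻ g, φ (rv X g) ∂(stdGaussian V) ∂(Measure.pi fun _ : Fin j => μ) := by
  have h1 : Measurable (fun p : (Fin j → V) × V => ENNReal.ofReal (wv p.1)) :=
    (measurable_wv' j).comp measurable_fst
  have h2 : Measurable (fun p : (Fin j → V) × V => φ (rv p.1 p.2)) := hφ.comp (measurable_rv j)
  unfold nuw
  rw [lintegral_map hφ (measurable_rv j), lintegral_withDensity_eq_lintegral_mul _ h1 h2,
    lintegral_prod _ (h1.mul h2).aemeasurable]
  refine lintegral_congr fun X => ?_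
  simp only [Pi.mul_apply]
  rw [lintegral_const_mul]
  exact h2.comp (measurable_const.prodMk measurable_id)

private theorem measurable_kapf (j : ℕ) (y : V) :
    Measurable (fun p : (Fin j → V) × V => ort (rv p.1 y) (rv p.1 p.2)) :=
  measurable_ort.comp (((measurable_rv j).comp (measurable_fst.prodMk measurable_const)).prodMk
    (measurable_rv j))

theorem lintegral_kap (j : ℕ) (μ : Measure V) [IsFiniteMeasure μ] (y : V) {φ : V → ℝ≥0∞} (hφ : Measurable φ) :
    ∫⁻ x, φ x ∂(kap j μ y) =
      ∫⁻ X, ENNReal.ofReal (wv X) * ni (rv X y) * ∫⁻ g, φ (ort (rv X y) (rv X g)) ∂(stdGaussian V)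
        ∂(Measure.pi fun _ : Fin j => μ) := by
  have h1 : Measurable (fun p : (Fin j → V) × V => ENNReal.ofReal (wv p.1) * ni (rv p.1 y)) :=
    ((measurable_wv' j).comp measurable_fst).mul
      (measurable_ni.comp ((measurable_rv j).comp (measurable_fst.prodMk measurable_const)))
  have h2 : Measurable (fun p : (Fin j → V) × V => φ (ort (rv p.1 y) (rv p.1 p.2))) :=
    hφ.comp (measurable_kapf j y)
  unfold kap
  rw [lintegral_map hφ (measurable_kapf j y), lintegral_withDensity_eq_lintegral_mul _ h1 h2,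
    lintegral_prod _ (h1.mul h2).aemeasurable]
  refine lintegral_congr fun X => ?_
  simp only [Pi.mul_apply]
  rw [lintegral_const_mul]
  exact h2.comp (measurable_const.prodMk measurable_id)

theorem km_kap (j : ℕ) (μ : Measure V) [IsFiniteMeasure μ] : KM (kap j μ) := by
  intro n f hf
  have h0 : (fun p : (Fin n → V) × V => ∫⁻ u, f (p, u) ∂(kap j μ p.2)) = fun p =>
      ∫⁻ X, ENNReal.ofReal (wv X) * ni (rv X p.2) *
        ∫⁻ g, f (p, ort (rv X p.2) (rv X g)) ∂(stdGaussian V) ∂(Measure.pi fun _ : Fin j => μ) := by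
    funext p
    have hp : Measurable (fun u : V => f (p, u)) := hf.comp (measurable_const.prodMk measurable_id)
    exact lintegral_kap j μ p.2 hp
  rw [h0]
  have hr : Measurable (fun q : ((Fin n → V) × V) × (Fin j → V) => rv q.2 q.1.2) :=
    (measurable_rv j).comp (measurable_snd.prodMk (measurable_snd.comp measurable_fst))
  have h1 : Measurable (fun q : ((Fin n → V) × V) × (Fin j → V) =>
      ENNReal.ofReal (wv q.2) * ni (rv q.2 q.1.2)) :=
    ((measurable_wv' j).comp measurable_snd).mul (measurable_ni.comp hr)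
  have h2 : Measurable (fun q : (((Fin n → V) × V) × (Fin j → V)) × V =>
      f (q.1.1, ort (rv q.1.2 q.1.1.2) (rv q.1.2 q.2))) := by
    refine hf.comp (Measurable.prodMk (measurable_fst.comp measurable_fst) ?_)
    refine measurable_ort.comp (Measurable.prodMk (hr.comp measurable_fst) ?_)
    exact (measurable_rv j).comp ((measurable_snd.comp measurable_fst).prodMk measurable_snd)
  have h3 : Measurable (fun q : ((Fin n → V) × V) × (Fin j → V) =>
      ENNReal.ofReal (wv q.2) * ni (rv q.2 q.1.2) *
        ∫⁻ g, f (q.1, ort (rv q.2 q.1.2) (rv q.2 g)) ∂(stdGaussian V)) :=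
    h1.mul h2.lintegral_prod_right'
  exact h3.lintegral_prod_right'

private theorem ni_smul (c : ℝ) (v : V) : ni (c • v) = ENNReal.ofReal |c|⁻¹ * ni v := by
  unfold ni
  rw [← ENNReal.ofReal_mul (by positivity), norm_smul, Real.norm_eq_abs, mul_inv]

theorem kap_smul (j : ℕ) (μ : Measure V) [IsFiniteMeasure μ] {c : ℝ} (hc : c ≠ 0) (y : V) :
    kap j μ (c • y) = ENNReal.ofReal |c|⁻¹ • kap j μ y := by
  refine Measure.ext_of_lintegral _ fun f hf => ?_
  rw [lintegral_smul_measure, lintegral_kap j μ _ hf, lintegral_kap j μ _ hf, smul_eq_mul,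
    ← lintegral_const_mul' _ _ ENNReal.ofReal_ne_top]
  refine lintegral_congr fun X => ?_
  have h1 : rv X (c • y) = c • rv X y := res_smul _ _ _
  rw [h1, ni_smul]
  simp only [ort_smul_left hc]
  ring

end Pool.Agent.FI75
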