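import Pool.Agent.FI75.B4
import Pool.Agent.HP89.F1

/-! Module FI-B4b (the measure `nuw j μ` generates the next body). See the header of FI-B4. -/

set_option autoImplicit false

namespace Pool.Agent.FI75
open MeasureTheory ProbabilityTheory Set Filter Topology Metric
open Pool.Agent.HP89
open scoped RealInnerProductSpace ENNReal

variable {V : Type*} [NormedAddCommGroup V] [InnerProductSpace ℝ V] [FiniteDimensional ℝ V]
  [MeasurableSpace V] [BorelSpace V]

private theorem b4b_nil (j : ℕ) (μ : Measure V) [IsFiniteMeasure μ] :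
    iter μ j ew [] = ∫⁻ X, ENNReal.ofReal (wv X) ∂(Measure.pi fun _ : Fin j => μ) := by
  rw [iter_eq_pi μ j lmeas_ew []]
  refine lintegral_congr fun X => ?_
  rw [List.append_nil]
  rfl

theorem nuw_cos (j : ℕ) (μ : Measure V) [IsFiniteMeasure μ] (hμ : Integrable (fun x => ‖x‖) μ) (u : V) :
    ∫ x, |⟪x, u⟫| ∂(nuw j μ) = √(2 / Real.pi) * (iter μ j ew [u]).toReal := by
  rw [integral_eq_lintegral_of_nonneg_ae (Eventually.of_forall fun x => abs_nonneg _)
    (by fun_prop), lintegral_nuw j μ (by fun_prop)]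
  have h1 : ∀ X : Fin j → V, ENNReal.ofReal (wv X) *
      ∫⁻ g, ENNReal.ofReal |⟪rv X g, u⟫| ∂(stdGaussian V) =
      ENNReal.ofReal (√(2 / Real.pi)) * ew (List.ofFn X ++ [u]) := by
    intro X
    have e1 : ∀ g : V, ⟪rv X g, u⟫ = ⟪res (List.ofFn X) u, g⟫ := fun g => by
      rw [rv, inner_res, real_inner_comm]
    simp_rw [e1]
    rw [lintegral_abs_inner]
    have e2 : wn (List.ofFn X ++ [u]) = wn (u :: List.ofFn X) :=
      wn_perm (by simp [List.perm_append_singleton])
    unfold ew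
    rw [e2, wn_cons, wv, ← ENNReal.ofReal_mul (wn_nonneg _), ← ENNReal.ofReal_mul (by positivity)]
    congr 1
    ring
  rw [lintegral_congr h1, lintegral_const_mul _ (lmeas_ew.app j [u]), ← iter_eq_pi μ j lmeas_ew [u],
    ENNReal.toReal_mul, ENNReal.toReal_ofReal (by positivity)]

theorem nuw_finite (j : ℕ) (μ : Measure V) [IsFiniteMeasure μ] (hμ : Integrable (fun x => ‖x‖) μ) :
    IsFiniteMeasure (nuw j μ) := by
  refine ⟨?_⟩
  have h1 : (nuw j μ) univ = ∫⁻ _x, 1 ∂(nuw j μ) := by rw [lintegral_one]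
  rw [h1, lintegral_nuw j μ measurable_const]
  simp only [lintegral_one, measure_univ, mul_one]
  rw [← b4b_nil]
  exact iter_ew_lt_top μ hμ j []

theorem nuw_integrable (j : ℕ) (μ : Measure V) [IsFiniteMeasure μ] (hμ : Integrable (fun x => ‖x‖) μ) :
    Integrable (fun x => ‖x‖) (nuw j μ) := by
  rw [← lintegral_ofReal_ne_top_iff_integrable (by fun_prop)
    (Eventually.of_forall fun x => norm_nonneg x), lintegral_nuw j μ (by fun_prop)]
  have hg : ∫⁻ g : V, ENNReal.ofReal ‖g‖ ∂(stdGaussian V) < ⊤ :=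
    (integrable_norm_gaussian (V := V)).lintegral_lt_top
  have h1 : ∫⁻ X, ENNReal.ofReal (wv X) * ∫⁻ g, ENNReal.ofReal ‖rv X g‖ ∂(stdGaussian V)
      ∂(Measure.pi fun _ : Fin j => μ) ≤
      ∫⁻ X, ENNReal.ofReal (wv X) * ∫⁻ g : V, ENNReal.ofReal ‖g‖ ∂(stdGaussian V)
      ∂(Measure.pi fun _ : Fin j => μ) := by
    refine lintegral_mono fun X => ?_
    refine mul_le_mul_right ?_ _
    exact lintegral_mono fun g => ENNReal.ofReal_le_ofReal (norm_res_le _ g)
  refine ne_top_of_le_ne_top ?_ h1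
  rw [lintegral_mul_const' _ _ hg.ne, ← b4b_nil]
  exact ENNReal.mul_ne_top (iter_ew_lt_top μ hμ j []).ne hg.ne

/-- `iter` as an integral over the product. -/
theorem iter_ew_nil (j : ℕ) (μ : Measure V) [IsFiniteMeasure μ] :
    iter μ j ew [] = ∫⁻ X, ENNReal.ofReal (wv X) ∂(Measure.pi fun _ : Fin j => μ) :=
  b4b_nil j μ

end Pool.Agent.FI75
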