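import Pool.Agent.FI75.RL
import Pool.Agent.HP89.A3b

/-! Module FI-NM (negative moments of the Gaussian norm). Polar coordinates as in FI-RL / HP89.A4 with `Irad`:
`∫⁻ ofReal ((‖x‖^s)⁻¹) = c * ∫⁻ r in Ioi 0, ofReal (r^(d-1-s) exp(-r²/2))`, finite and positive for `s < d`
(`Irad (d-1-s)`), and `Irad_succ` gives `nmom_sq` (exponents `d-1-s+2` and `d-1-s`). `nmom_proj`: by
`map_starProjection` the integral of `(‖W g‖^s)⁻¹` depends only on `n = finrank W`, `s < n ≤ d`: finitely many values; for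
`t > 0` use `radial_lintegral` with `ψ g = ofReal (‖g‖^s (‖W g‖^s)⁻¹)`, `ρ r = ofReal (r^t (r^s)⁻¹)` (finite integral as
`‖g‖^t (‖g‖^s)⁻¹ ≤ ‖g‖^t + (‖g‖^s)⁻¹`) and `ρ r = ofReal ((r^s)⁻¹)` (positive integral). -/

set_option autoImplicit false

namespace Pool.Agent.FI75
open MeasureTheory ProbabilityTheory Set Filter Topology Metric
open Pool.Agent.HP89
open scoped RealInnerProductSpace ENNReal

variable {V : Type*} [NormedAddCommGroup V] [InnerProductSpace ℝ V] [FiniteDimensional ℝ V]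
  [MeasurableSpace V] [BorelSpace V]

/-- radial moments: integrability and value -/
private theorem nm_key0 [Nontrivial V] {s : ℕ} (hs : s < Module.finrank ℝ V) (t : ℕ) :
    Integrable (fun x : V => ‖x‖ ^ t * (‖x‖ ^ s)⁻¹) (stdGaussian V) ∧
      ∫ x : V, ‖x‖ ^ t * (‖x‖ ^ s)⁻¹ ∂(stdGaussian V) =
        cG V * (Module.finrank ℝ V • (volume : Measure V).real (ball 0 1) •
          Irad (Module.finrank ℝ V - 1 - s + t)) := by
  have e : ∀ y ∈ Ioi (0 : ℝ), y ^ (Module.finrank ℝ V - 1) •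
      (Real.exp (-(1 / 2) * y ^ 2) * (y ^ t * (y ^ s)⁻¹)) =
      y ^ (Module.finrank ℝ V - 1 - s + t) * Real.exp (-(1 / 2) * y ^ 2) := by
    intro y hy
    have hy0 : (y : ℝ) ≠ 0 := ne_of_gt hy
    have h1 : Module.finrank ℝ V - 1 = (Module.finrank ℝ V - 1 - s) + s := by omega
    have h2 : y ^ (Module.finrank ℝ V - 1) = y ^ (Module.finrank ℝ V - 1 - s) * y ^ s := by
      conv_lhs => rw [h1, pow_add]
    rw [smul_eq_mul, h2, pow_add]
    have h3 : y ^ s ≠ 0 := pow_ne_zero _ hy0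
    field_simp
  have hI : IntegrableOn (fun y : ℝ => y ^ (Module.finrank ℝ V - 1) •
      (Real.exp (-(1 / 2) * y ^ 2) * (y ^ t * (y ^ s)⁻¹))) (Ioi 0) := by
    rw [integrableOn_congr_fun e measurableSet_Ioi]
    by_contra hcon
    have h1 := Irad_pos (Module.finrank ℝ V - 1 - s + t)
    unfold Irad at h1
    rw [integral_undef hcon] at h1
    exact lt_irrefl _ h1
  constructor
  · rw [stdGaussian_density, integrable_withDensity_iff_integrable_smul' (by fun_prop)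
      (Eventually.of_forall fun x => by simp)]
    have h1 : Integrable (fun x : V => Real.exp (-(1 / 2) * ‖x‖ ^ 2) * (‖x‖ ^ t * (‖x‖ ^ s)⁻¹)) :=
      (integrable_fun_norm_addHaar (volume : Measure V)
        (f := fun y : ℝ => Real.exp (-(1 / 2) * y ^ 2) * (y ^ t * (y ^ s)⁻¹))).mpr hI
    refine (h1.const_mul (cG V)).congr (Eventually.of_forall fun x => ?_)
    have hpos : 0 ≤ cG V * Real.exp (-(1 / 2) * ‖x‖ ^ 2) := by
      have := cG_pos (V := V); positivity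
    show cG V * (Real.exp (-(1 / 2) * ‖x‖ ^ 2) * (‖x‖ ^ t * (‖x‖ ^ s)⁻¹)) =
      (ENNReal.ofReal (cG V * Real.exp (-(1 / 2) * ‖x‖ ^ 2))).toReal • (‖x‖ ^ t * (‖x‖ ^ s)⁻¹)
    rw [ENNReal.toReal_ofReal hpos, smul_eq_mul, mul_assoc]
  · rw [Pool.Agent.HP89.integral_gaussian, integral_fun_norm_addHaar (volume : Measure V)
      (fun y : ℝ => Real.exp (-(1 / 2) * y ^ 2) * (y ^ t * (y ^ s)⁻¹)),
      setIntegral_congr_fun measurableSet_Ioi e]
    rfl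

private theorem nm_key [Nontrivial V] {s : ℕ} (hs : s < Module.finrank ℝ V) (t : ℕ) :
    Integrable (fun x : V => ‖x‖ ^ t * (‖x‖ ^ s)⁻¹) (stdGaussian V) ∧
      ∫ x : V, ‖x‖ ^ t * (‖x‖ ^ s)⁻¹ ∂(stdGaussian V) =
        Irad (Module.finrank ℝ V - 1 - s + t) / Irad (Module.finrank ℝ V - 1) := by
  obtain ⟨h1, h2⟩ := nm_key0 hs t
  obtain ⟨-, h3⟩ := nm_key0 (V := V) (s := 0) (by omega) 0
  have h4 : ∫ x : V, ‖x‖ ^ 0 * (‖x‖ ^ 0)⁻¹ ∂(stdGaussian V) = 1 := by simp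
  rw [h4] at h3
  refine ⟨h1, ?_⟩
  have hI := Irad_pos (Module.finrank ℝ V - 1)
  rw [h2, eq_div_iff hI.ne']
  have h5 : Module.finrank ℝ V - 1 - 0 + 0 = Module.finrank ℝ V - 1 := by omega
  rw [h5] at h3
  simp only [nsmul_eq_mul, smul_eq_mul] at h3 ⊢
  linear_combination -(Irad (Module.finrank ℝ V - 1 - s + t)) * h3

private theorem nm_l [Nontrivial V] {s : ℕ} (hs : s < Module.finrank ℝ V) (t : ℕ) :
    ∫⁻ x : V, ENNReal.ofReal (‖x‖ ^ t * (‖x‖ ^ s)⁻¹) ∂(stdGaussian V) =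
      ENNReal.ofReal (Irad (Module.finrank ℝ V - 1 - s + t) / Irad (Module.finrank ℝ V - 1)) := by
  obtain ⟨h1, h2⟩ := nm_key hs t
  rw [← h2, ofReal_integral_eq_lintegral_ofReal h1 (Eventually.of_forall fun x => by
    show 0 ≤ ‖x‖ ^ t * (‖x‖ ^ s)⁻¹
    positivity)]

omit [FiniteDimensional ℝ V] [MeasurableSpace V] [BorelSpace V] in
private theorem nm_nontriv (hd : 1 ≤ Module.finrank ℝ V) : Nontrivial V :=
  Module.nontrivial_of_finrank_pos (R := ℝ) (by omega)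

private theorem nm_ae [Nontrivial V] : ∀ᵐ x : V ∂(stdGaussian V), x ≠ 0 := by
  have h0 : (stdGaussian V) {(0 : V)} = 0 := by
    rw [stdGaussian_density, withDensity_apply _ (measurableSet_singleton _)]
    simp
  rw [ae_iff]
  simpa using h0

private theorem nm_l0 [Nontrivial V] {s : ℕ} (hs : s < Module.finrank ℝ V) :
    ∫⁻ x : V, ENNReal.ofReal ((‖x‖ ^ s)⁻¹) ∂(stdGaussian V) =
      ENNReal.ofReal (Irad (Module.finrank ℝ V - 1 - s) / Irad (Module.finrank ℝ V - 1)) := by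
  have h := nm_l hs 0
  simpa using h

theorem nmom_lt_top {s : ℕ} (hs : s < Module.finrank ℝ V) :
    ∫⁻ x : V, ENNReal.ofReal ((‖x‖ ^ s)⁻¹) ∂(stdGaussian V) < ⊤ := by
  have : Nontrivial V := nm_nontriv (by omega)
  rw [nm_l0 hs]
  exact ENNReal.ofReal_lt_top

theorem nmom_pos (hd : 1 ≤ Module.finrank ℝ V) (s : ℕ) :
    0 < ∫⁻ x : V, ENNReal.ofReal ((‖x‖ ^ s)⁻¹) ∂(stdGaussian V) := by
  have : Nontrivial V := nm_nontriv hd
  rw [pos_iff_ne_zero]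
  intro h0
  rw [lintegral_eq_zero_iff (by fun_prop)] at h0
  have h1 : ∀ᵐ _x : V ∂(stdGaussian V), False := by
    filter_upwards [h0, nm_ae (V := V)] with x hx hx0
    have h2 : 0 < (‖x‖ ^ s)⁻¹ := inv_pos.mpr (pow_pos (norm_pos_iff.mpr hx0) s)
    have h3 : ENNReal.ofReal ((‖x‖ ^ s)⁻¹) = 0 := hx
    rw [ENNReal.ofReal_eq_zero] at h3
    linarith
  rw [eventually_false_iff_eq_bot, ae_eq_bot] at h1
  have h2 : (stdGaussian V) univ = 1 := measure_univ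
  rw [h1] at h2
  simp at h2

theorem nmom_sq {s : ℕ} (hs : s < Module.finrank ℝ V) :
    ∫⁻ x : V, ENNReal.ofReal (‖x‖ ^ 2 * (‖x‖ ^ s)⁻¹) ∂(stdGaussian V) =
      ENNReal.ofReal ((Module.finrank ℝ V : ℝ) - s) * ∫⁻ x : V, ENNReal.ofReal ((‖x‖ ^ s)⁻¹) ∂(stdGaussian V) := by
  have : Nontrivial V := nm_nontriv (by omega)
  have hle : (s : ℝ) ≤ Module.finrank ℝ V := by exact_mod_cast hs.le
  rw [nm_l hs 2, nm_l0 hs, ← ENNReal.ofReal_mul (by linarith), Irad_succ]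
  congr 1
  have h1 : ((Module.finrank ℝ V - 1 - s : ℕ) : ℝ) + 1 = (Module.finrank ℝ V : ℝ) - s := by
    have h2 : (Module.finrank ℝ V - 1 - s) + 1 + s = Module.finrank ℝ V := by omega
    have h3 : (((Module.finrank ℝ V - 1 - s) + 1 + s : ℕ) : ℝ) = Module.finrank ℝ V := by
      rw [h2]
    push_cast at h3
    linarith
  rw [h1]
  ring

theorem nmom_proj (s t : ℕ) : ∃ C : ℝ≥0∞, C ≠ ⊤ ∧ ∀ W : Submodule ℝ V, s < Module.finrank ℝ W →
    ∫⁻ g, ENNReal.ofReal (‖g‖ ^ t * (‖W.starProjection g‖ ^ s)⁻¹) ∂(stdGaussian V) ≤ C := by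
  rcases Nat.lt_or_ge s (Module.finrank ℝ V) with hsd | hsd
  swap
  · refine ⟨0, ENNReal.zero_ne_top, fun W hW => ?_⟩
    have := Submodule.finrank_le W
    omega
  have hN : Nontrivial V := nm_nontriv (by omega)
  have hd : 1 ≤ Module.finrank ℝ V := by omega
  -- the radial factors
  obtain ⟨a, ha⟩ : ∃ a : ℝ≥0∞, a = ∫⁻ x : V, ENNReal.ofReal (‖x‖ ^ t * (‖x‖ ^ s)⁻¹) ∂(stdGaussian V) :=
    ⟨_, rfl⟩
  obtain ⟨b, hb⟩ : ∃ b : ℝ≥0∞, b = ∫⁻ x : V, ENNReal.ofReal ((‖x‖ ^ s)⁻¹) ∂(stdGaussian V) :=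
    ⟨_, rfl⟩
  have haT : a ≠ ⊤ := by rw [ha, nm_l hsd t]; exact ENNReal.ofReal_ne_top
  have hbT : b ≠ ⊤ := by rw [hb]; exact (nmom_lt_top hsd).ne
  have hb0 : b ≠ 0 := by rw [hb]; exact (nmom_pos hd s).ne'
  obtain ⟨S, hS⟩ : ∃ S : ℝ≥0∞, S = ∑ n ∈ Finset.range (Module.finrank ℝ V + 1),
    ENNReal.ofReal (Irad (n - 1 - s) / Irad (n - 1)) := ⟨_, rfl⟩
  have hST : S ≠ ⊤ := by
    rw [hS]
    exact ENNReal.sum_ne_top.mpr fun n _ => ENNReal.ofReal_ne_top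
  refine ⟨a * (S / b), ENNReal.mul_ne_top haT (ENNReal.div_ne_top hST hb0), fun W hW => ?_⟩
  have hWle := Submodule.finrank_le W
  have hWN : Nontrivial W := nm_nontriv (by omega)
  -- the angular factor
  have hψm : Measurable (fun x : V => ENNReal.ofReal (‖x‖ ^ s * (‖W.starProjection x‖ ^ s)⁻¹)) := by
    fun_prop
  have hψh : ∀ c : ℝ, 0 < c → ∀ x : V, ENNReal.ofReal (‖c • x‖ ^ s * (‖W.starProjection (c • x)‖ ^ s)⁻¹) =
      ENNReal.ofReal (‖x‖ ^ s * (‖W.starProjection x‖ ^ s)⁻¹) := by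
    intro c hc x
    congr 1
    rw [map_smul, norm_smul, norm_smul, mul_pow, mul_pow, mul_inv, Real.norm_eq_abs]
    have : |c| ^ s ≠ 0 := pow_ne_zero _ (abs_pos.mpr hc.ne').ne'
    field_simp
  obtain ⟨p, hp⟩ : ∃ p : ℝ≥0∞, p = ∫⁻ x : V,
    ENNReal.ofReal (‖x‖ ^ s * (‖W.starProjection x‖ ^ s)⁻¹) ∂(stdGaussian V) := ⟨_, rfl⟩
  have h1 : ∫⁻ g, ENNReal.ofReal (‖g‖ ^ t * (‖W.starProjection g‖ ^ s)⁻¹) ∂(stdGaussian V) = a * p := by
    have h := radial_lintegral (V := V) hd (ρ := fun r => ENNReal.ofReal (r ^ t * (r ^ s)⁻¹))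
      (by fun_prop) hψm hψh
    rw [← ha, ← hp] at h
    rw [← h]
    refine lintegral_congr_ae ?_
    filter_upwards [nm_ae (V := V)] with x hx
    have hx0 : 0 < ‖x‖ := norm_pos_iff.mpr hx
    show ENNReal.ofReal (‖x‖ ^ t * (‖W.starProjection x‖ ^ s)⁻¹) =
      ENNReal.ofReal (‖x‖ ^ t * (‖x‖ ^ s)⁻¹) *
        ENNReal.ofReal (‖x‖ ^ s * (‖W.starProjection x‖ ^ s)⁻¹)
    rw [← ENNReal.ofReal_mul (by positivity)]
    congr 1
    field_simp
  have h2 : ∫⁻ g, ENNReal.ofReal ((‖W.starProjection g‖ ^ s)⁻¹) ∂(stdGaussian V) = b * p := by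
    have h := radial_lintegral (V := V) hd (ρ := fun r => ENNReal.ofReal ((r ^ s)⁻¹))
      (by fun_prop) hψm hψh
    rw [← hb, ← hp] at h
    rw [← h]
    refine lintegral_congr_ae ?_
    filter_upwards [nm_ae (V := V)] with x hx
    have hx0 : 0 < ‖x‖ := norm_pos_iff.mpr hx
    show ENNReal.ofReal ((‖W.starProjection x‖ ^ s)⁻¹) =
      ENNReal.ofReal ((‖x‖ ^ s)⁻¹) * ENNReal.ofReal (‖x‖ ^ s * (‖W.starProjection x‖ ^ s)⁻¹)
    rw [← ENNReal.ofReal_mul (by positivity)]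
    congr 1
    field_simp
  have h3 : ∫⁻ g, ENNReal.ofReal ((‖W.starProjection g‖ ^ s)⁻¹) ∂(stdGaussian V) =
      ENNReal.ofReal (Irad (Module.finrank ℝ W - 1 - s) / Irad (Module.finrank ℝ W - 1)) := by
    have e1 : ∫⁻ g, ENNReal.ofReal ((‖W.starProjection g‖ ^ s)⁻¹) ∂(stdGaussian V) =
        ∫⁻ y, ENNReal.ofReal ((‖y‖ ^ s)⁻¹) ∂((stdGaussian V).map (fun g => W.starProjection g)) := by
      rw [lintegral_map (by fun_prop) (by fun_prop)]
    rw [e1, map_starProjection, lintegral_map (by fun_prop) (by fun_prop)]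
    exact nm_l0 (V := W) hW
  have h4 : p ≤ S / b := by
    rw [ENNReal.le_div_iff_mul_le (Or.inl hb0) (Or.inl hbT), mul_comm, ← h2, h3, hS]
    exact Finset.single_le_sum (f := fun n : ℕ => ENNReal.ofReal (Irad (n - 1 - s) / Irad (n - 1)))
      (fun n _ => zero_le) (Finset.mem_range.mpr (by omega))
  rw [h1]
  gcongr

end Pool.Agent.FI75
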