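import Pool.Agent.HP89.A5
import Pool.Agent.HP89.A2a
import Pool.Agent.FI75.NM

/-! Module FI-G1 (symmetric tilt, limit for bounded continuous functions). For `ε > 0` let
`I ε = ∫⁻ ξ, ∫⁻ g, ofReal (ε⁻¹ exp(-⟪Eξ, Fg⟫²/(2ε²))) * Ψ (Eξ) (Fg)`. For fixed `ξ` put `y = F (E ξ)`; then
`⟪Eξ, Fg⟫ = ⟪y, Fg⟫` and `tilt` (HP89.A5) gives the inner integral
`ofReal (1/√(ε²+‖y‖²)) * ∫⁻ g, Ψ (Eξ) (ort y (Fg) + (ε/√(ε²+‖y‖²) * (⟪y,Fg⟫/‖y‖²)) • y)`, which tends for `y ≠ 0` to
`ni y * ∫⁻ g, Ψ (Eξ) (ort y (Fg))` (dominated convergence, `Ψ` bounded and continuous) and is bounded by `C * ni y`, whose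
`ξ`-integral is finite: `‖F (E ξ)‖ ≥ ‖(E ⊓ F).starProjection ξ‖`, `finrank (E ⊓ F) ≥ 2`, `nmom_proj 1 0`. (`y = 0` happens
only on a null set: `ni y < ⊤` integrability or the same bound.) See `JM_tendsto` in HP89.A6a for the same argument. -/

set_option autoImplicit false

namespace Pool.Agent.FI75
open MeasureTheory ProbabilityTheory Set Filter Topology Metric
open Pool.Agent.HP89
open scoped RealInnerProductSpace ENNReal

variable {V : Type*} [NormedAddCommGroup V] [InnerProductSpace ℝ V] [FiniteDimensional ℝ V]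
  [MeasurableSpace V] [BorelSpace V]

private theorem ae_proj_ne_zero (W : Submodule ℝ V) (hW : 1 ≤ Module.finrank ℝ W) :
    ∀ᵐ ξ ∂(stdGaussian V), W.starProjection ξ ≠ 0 := by
  have hne : Wᗮ ≠ ⊤ := by
    intro h
    have : W = ⊥ := by
      rw [← Submodule.orthogonal_orthogonal W, h, Submodule.top_orthogonal_eq_bot]
    rw [this, finrank_bot] at hW
    omega
  have h0 : (volume : Measure V) (Wᗮ : Submodule ℝ V) = 0 := Measure.addHaar_submodule volume Wᗮ hne
  have hac : (stdGaussian V) ≪ (volume : Measure V) := by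
    rw [stdGaussian_density]
    exact withDensity_absolutelyContinuous _ _
  have h1 : (stdGaussian V) (Wᗮ : Submodule ℝ V) = 0 := hac h0
  rw [ae_iff]
  refine measure_mono_null ?_ h1
  intro ξ hξ
  simp only [ne_eq, not_not, Set.mem_ofPred_eq] at hξ
  exact (Submodule.starProjection_apply_eq_zero_iff (K := W)).1 hξ

omit [MeasurableSpace V] [BorelSpace V] in
private theorem norm_inf_le (E F : Submodule ℝ V) (ξ : V) :
    ‖(E ⊓ F).starProjection ξ‖ ≤ ‖F.starProjection (E.starProjection ξ)‖ := by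
  have h1 : (E ⊓ F).starProjection (F.starProjection (E.starProjection ξ)) = (E ⊓ F).starProjection ξ := by
    rw [← ContinuousLinearMap.comp_apply, Submodule.starProjection_comp_starProjection_of_le inf_le_right,
      ← ContinuousLinearMap.comp_apply, Submodule.starProjection_comp_starProjection_of_le inf_le_left]
  rw [← h1]
  exact Submodule.norm_starProjection_apply_le _ _

omit [MeasurableSpace V] [BorelSpace V] in
private theorem two_le_inf (E F : Submodule ℝ V)
    (h : Module.finrank ℝ V + 2 ≤ Module.finrank ℝ E + Module.finrank ℝ F) :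
    2 ≤ Module.finrank ℝ (E ⊓ F : Submodule ℝ V) := by
  have h1 := Submodule.finrank_sup_add_finrank_inf_eq E F
  have h2 := Submodule.finrank_le (E ⊔ F)
  omega

theorem lintegral_ni_proj_proj_lt_top (E F : Submodule ℝ V)
    (h : Module.finrank ℝ V + 2 ≤ Module.finrank ℝ E + Module.finrank ℝ F) :
    ∫⁻ ξ, ni (F.starProjection (E.starProjection ξ)) ∂(stdGaussian V) < ⊤ := by
  obtain ⟨C, hC, hb⟩ := nmom_proj (V := V) 1 0
  have hW := two_le_inf E F h
  refine lt_of_le_of_lt ?_ (lt_of_le_of_lt (hb (E ⊓ F) (by omega)) hC.lt_top)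
  refine lintegral_mono_ae ?_
  filter_upwards [ae_proj_ne_zero (E ⊓ F) (by omega)] with ξ hξ
  unfold ni
  apply ENNReal.ofReal_le_ofReal
  rw [pow_zero, pow_one, one_mul]
  have h0 : 0 < ‖(E ⊓ F).starProjection ξ‖ := norm_pos_iff.2 hξ
  exact inv_anti₀ h0 (norm_inf_le E F ξ)

/-- the tilted integrand. -/
private noncomputable def kk (Ψ : V → V → ℝ≥0∞) (ε : ℝ) (x y w : V) : ℝ≥0∞ :=
  ENNReal.ofReal (√(ε ^ 2 + ‖y‖ ^ 2))⁻¹ *
    Ψ x (ort y w + (ε / √(ε ^ 2 + ‖y‖ ^ 2) * (⟪y, w⟫ / ‖y‖ ^ 2)) • y)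

omit [FiniteDimensional ℝ V] [MeasurableSpace V] [BorelSpace V] in
private theorem kk_le {Ψ : V → V → ℝ≥0∞} {C : NNReal} (hC : ∀ x y, Ψ x y ≤ C) {ε : ℝ}
    (x : V) {y : V} (hy : y ≠ 0) (w : V) : kk Ψ ε x y w ≤ ni y * C := by
  unfold kk ni
  have hyn : 0 < ‖y‖ := norm_pos_iff.2 hy
  have h1 : ENNReal.ofReal (√(ε ^ 2 + ‖y‖ ^ 2))⁻¹ ≤ ENNReal.ofReal ‖y‖⁻¹ := by
    apply ENNReal.ofReal_le_ofReal
    refine inv_anti₀ hyn ?_
    exact Real.le_sqrt_of_sq_le (by nlinarith [sq_nonneg ε])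
  exact mul_le_mul' h1 (hC _ _)

private theorem kk_meas {Ψ : V → V → ℝ≥0∞} (hΨ : Continuous (Function.uncurry Ψ)) (ε : ℝ) (L M N : V → V)
    (hL : Measurable L) (hM : Measurable M) (hN : Measurable N) :
    Measurable (fun p : V × V => kk Ψ ε (L p.1) (M p.1) (N p.2)) := by
  unfold kk
  have h1 : Measurable (fun p : V × V => ort (M p.1) (N p.2)) :=
    measurable_ort.comp ((hM.comp measurable_fst).prodMk (hN.comp measurable_snd))
  have h2 : Measurable (fun p : V × V => ‖M p.1‖) := (hM.comp measurable_fst).norm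
  have h3 : Measurable (fun p : V × V => ⟪M p.1, N p.2⟫) :=
    (hM.comp measurable_fst).inner (hN.comp measurable_snd)
  have h4 : Measurable (fun p : V × V => √(ε ^ 2 + ‖M p.1‖ ^ 2)) :=
    (measurable_const.add (h2.pow_const 2)).sqrt
  refine (h4.inv.ennreal_ofReal).mul ?_
  refine hΨ.measurable.comp ((hL.comp measurable_fst).prodMk ?_)
  refine h1.add ?_
  refine Measurable.smul ?_ (hM.comp measurable_fst)
  exact (measurable_const.div h4).mul (h3.div (h2.pow_const 2))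

omit [FiniteDimensional ℝ V] [MeasurableSpace V] [BorelSpace V] in
private theorem kk_tendsto {Ψ : V → V → ℝ≥0∞} (hΨ : Continuous (Function.uncurry Ψ)) {C : NNReal}
    (hC : ∀ x y, Ψ x y ≤ C) (x : V) {y : V} (hy : y ≠ 0) (w : V) :
    Tendsto (fun n : ℕ => kk Ψ (1 / ((n : ℝ) + 1)) x y w) atTop (𝓝 (ni y * Ψ x (ort y w))) := by
  have hyn : 0 < ‖y‖ := norm_pos_iff.2 hy
  have h0 : Tendsto (fun n : ℕ => 1 / ((n : ℝ) + 1)) atTop (𝓝 0) := tendsto_one_div_add_atTop_nhds_zero_nat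
  have hsq : ContinuousAt (fun ε : ℝ => √(ε ^ 2 + ‖y‖ ^ 2)) 0 := by fun_prop
  have hne : √((0 : ℝ) ^ 2 + ‖y‖ ^ 2) ≠ 0 := by
    rw [zero_pow two_ne_zero, zero_add, Real.sqrt_sq hyn.le]; exact hyn.ne'
  have hcont1 : ContinuousAt (fun ε : ℝ => ENNReal.ofReal (√(ε ^ 2 + ‖y‖ ^ 2))⁻¹) 0 :=
    ENNReal.continuous_ofReal.continuousAt.comp (hsq.inv₀ hne)
  have hcont2 : ContinuousAt (fun ε : ℝ =>
      Ψ x (ort y w + (ε / √(ε ^ 2 + ‖y‖ ^ 2) * (⟪y, w⟫ / ‖y‖ ^ 2)) • y)) 0 := by
    have h1 : ContinuousAt (fun ε : ℝ =>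
        (x, ort y w + (ε / √(ε ^ 2 + ‖y‖ ^ 2) * (⟪y, w⟫ / ‖y‖ ^ 2)) • y)) 0 := by
      refine continuousAt_const.prodMk (continuousAt_const.add ?_)
      exact ((continuousAt_id.div hsq hne).mul continuousAt_const).smul continuousAt_const
    exact ContinuousAt.comp (f := fun ε : ℝ =>
        (x, ort y w + (ε / √(ε ^ 2 + ‖y‖ ^ 2) * (⟪y, w⟫ / ‖y‖ ^ 2)) • y)) hΨ.continuousAt h1
  have h1 := hcont1.tendsto.comp h0
  have h2 := hcont2.tendsto.comp h0
  have hv1 : √((0 : ℝ) ^ 2 + ‖y‖ ^ 2) = ‖y‖ := by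
    rw [zero_pow two_ne_zero, zero_add, Real.sqrt_sq hyn.le]
  rw [hv1] at h1
  have hv2 : ort y w + ((0 : ℝ) / √(0 ^ 2 + ‖y‖ ^ 2) * (⟪y, w⟫ / ‖y‖ ^ 2)) • y = ort y w := by
    rw [zero_div, zero_mul, zero_smul, add_zero]
  rw [hv2] at h2
  have := ENNReal.Tendsto.mul h1 (Or.inr (ne_top_of_le_ne_top ENNReal.coe_ne_top (hC _ _))) h2
    (Or.inr ENNReal.ofReal_ne_top)
  exact this

private theorem inner_eq (E F : Submodule ℝ V) {Ψ : V → V → ℝ≥0∞} (hΨ : Continuous (Function.uncurry Ψ))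
    (n : ℕ) (ξ : V) :
    ∫⁻ g, ENNReal.ofReal (((n : ℝ) + 1) *
        Real.exp (-⟪E.starProjection ξ, F.starProjection g⟫ ^ 2 / (2 * (1 / ((n : ℝ) + 1)) ^ 2))) *
        Ψ (E.starProjection ξ) (F.starProjection g) ∂(stdGaussian V) =
    ∫⁻ g, kk Ψ (1 / ((n : ℝ) + 1)) (E.starProjection ξ) (F.starProjection (E.starProjection ξ))
      (F.starProjection g) ∂(stdGaussian V) := by
  set ε : ℝ := 1 / ((n : ℝ) + 1) with hεd
  have hε : 0 < ε := by rw [hεd]; positivity
  have hεi : (n : ℝ) + 1 = ε⁻¹ := by rw [hεd, one_div, inv_inv]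
  set x : V := E.starProjection ξ with hx
  obtain ⟨y, hy⟩ : ∃ y, y = F.starProjection x := ⟨_, rfl⟩
  have hyF : y ∈ F := by rw [hy]; exact Submodule.starProjection_apply_mem _ _
  have hin : ∀ g : V, ⟪x, F.starProjection g⟫ = ⟪y, F.starProjection g⟫ := by
    intro g
    rw [hy, Submodule.inner_starProjection_left_eq_right F x (F.starProjection g),
      Submodule.starProjection_eq_self_iff.2 (Submodule.starProjection_apply_mem F g)]
  rw [← hy]
  have hΦ : Measurable (fun v : V => ENNReal.ofReal ε⁻¹ * Ψ x v) :=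
    (hΨ.measurable.comp (measurable_const.prodMk measurable_id)).const_mul _
  have h1 := tilt F hyF hε hΦ
  have h2 : ∀ g : V, ENNReal.ofReal (((n : ℝ) + 1) *
        Real.exp (-⟪x, F.starProjection g⟫ ^ 2 / (2 * ε ^ 2))) * Ψ x (F.starProjection g) =
      ENNReal.ofReal (Real.exp (-⟪y, F.starProjection g⟫ ^ 2 / (2 * ε ^ 2))) *
        (ENNReal.ofReal ε⁻¹ * Ψ x (F.starProjection g)) := by
    intro g
    rw [hin g, hεi, mul_comm ε⁻¹, ENNReal.ofReal_mul (Real.exp_pos _).le, mul_assoc]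
  simp_rw [h2]
  rw [h1, ← lintegral_const_mul' _ _ ENNReal.ofReal_ne_top]
  refine lintegral_congr fun g => ?_
  unfold kk
  rw [← mul_assoc, ← ENNReal.ofReal_mul (by positivity)]
  congr 2
  field_simp

theorem gsym_tendsto (E F : Submodule ℝ V)
    (h : Module.finrank ℝ V + 2 ≤ Module.finrank ℝ E + Module.finrank ℝ F)
    {Ψ : V → V → ℝ≥0∞} (hΨ : Continuous (Function.uncurry Ψ)) {C : NNReal} (hC : ∀ x y, Ψ x y ≤ C) :
    Tendsto (fun n : ℕ => ∫⁻ ξ, ∫⁻ g, ENNReal.ofReal (((n : ℝ) + 1) *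
        Real.exp (-⟪E.starProjection ξ, F.starProjection g⟫ ^ 2 / (2 * (1 / ((n : ℝ) + 1)) ^ 2))) *
        Ψ (E.starProjection ξ) (F.starProjection g) ∂(stdGaussian V) ∂(stdGaussian V)) atTop
      (𝓝 (∫⁻ ξ, ni (F.starProjection (E.starProjection ξ)) *
        ∫⁻ g, Ψ (E.starProjection ξ) (ort (F.starProjection (E.starProjection ξ)) (F.starProjection g))
          ∂(stdGaussian V) ∂(stdGaussian V))) := by
  have hJ : (fun n : ℕ => ∫⁻ ξ, ∫⁻ g, ENNReal.ofReal (((n : ℝ) + 1) *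
        Real.exp (-⟪E.starProjection ξ, F.starProjection g⟫ ^ 2 / (2 * (1 / ((n : ℝ) + 1)) ^ 2))) *
        Ψ (E.starProjection ξ) (F.starProjection g) ∂(stdGaussian V) ∂(stdGaussian V)) =
      fun n : ℕ => ∫⁻ ξ, ∫⁻ g, kk Ψ (1 / ((n : ℝ) + 1)) (E.starProjection ξ)
        (F.starProjection (E.starProjection ξ)) (F.starProjection g) ∂(stdGaussian V) ∂(stdGaussian V) := by
    funext n
    exact lintegral_congr fun ξ => inner_eq E F hΨ n ξ
  rw [hJ]
  have hFm : Measurable (fun g : V => F.starProjection g) := F.starProjection.continuous.measurable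
  have hEm : Measurable (fun g : V => E.starProjection g) := E.starProjection.continuous.measurable
  have hFEm : Measurable (fun g : V => F.starProjection (E.starProjection g)) :=
    (F.starProjection.continuous.comp E.starProjection.continuous).measurable
  have hW := two_le_inf E F h
  have hW1 : 1 ≤ Module.finrank ℝ (E ⊓ F : Submodule ℝ V) := le_trans one_le_two hW
  have hne : ∀ᵐ ξ ∂(stdGaussian V), F.starProjection (E.starProjection ξ) ≠ 0 := by
    filter_upwards [ae_proj_ne_zero (E ⊓ F) hW1] with ξ hξ h0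
    have h1 := norm_inf_le E F ξ
    rw [h0, norm_zero] at h1
    exact hξ (norm_le_zero_iff.1 h1)
  have hmeas : ∀ n : ℕ, Measurable (fun p : V × V => kk Ψ (1 / ((n : ℝ) + 1)) (E.starProjection p.1)
      (F.starProjection (E.starProjection p.1)) (F.starProjection p.2)) :=
    fun n => kk_meas hΨ (1 / ((n : ℝ) + 1)) (fun g => E.starProjection g)
      (fun g => F.starProjection (E.starProjection g)) (fun g => F.starProjection g) hEm hFEm hFm
  refine tendsto_lintegral_of_dominated_convergence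
    (fun ξ => ni (F.starProjection (E.starProjection ξ)) * C)
    (fun n => (hmeas n).lintegral_prod_right') (fun n => ?_) ?_ ?_
  · filter_upwards [hne] with ξ hξ
    calc ∫⁻ g, kk Ψ (1 / ((n : ℝ) + 1)) (E.starProjection ξ)
          (F.starProjection (E.starProjection ξ)) (F.starProjection g) ∂(stdGaussian V)
        ≤ ∫⁻ _g, ni (F.starProjection (E.starProjection ξ)) * C ∂(stdGaussian V) :=
          lintegral_mono fun g => kk_le hC _ hξ _
      _ = _ := by rw [lintegral_const, measure_univ, mul_one]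
  · rw [lintegral_mul_const' _ _ ENNReal.coe_ne_top]
    exact ENNReal.mul_ne_top (lintegral_ni_proj_proj_lt_top E F h).ne ENNReal.coe_ne_top
  · filter_upwards [hne] with ξ hξ
    have hm' : ∀ n : ℕ, Measurable (fun g : V => kk Ψ (1 / ((n : ℝ) + 1)) (E.starProjection ξ)
        (F.starProjection (E.starProjection ξ)) (F.starProjection g)) := by
      intro n
      have := (hmeas n).comp (measurable_prodMk_left (x := ξ))
      exact this
    have hnt : ni (F.starProjection (E.starProjection ξ)) ≠ ⊤ := by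
      unfold ni; exact ENNReal.ofReal_ne_top
    rw [← lintegral_const_mul' _ _ hnt]
    refine tendsto_lintegral_of_dominated_convergence
      (fun _ => ni (F.starProjection (E.starProjection ξ)) * C) hm'
      (fun n => Eventually.of_forall fun g => kk_le hC _ hξ _) ?_
      (Eventually.of_forall fun g => kk_tendsto hΨ hC _ hξ _)
    rw [lintegral_const, measure_univ, mul_one]
    exact ENNReal.mul_ne_top hnt ENNReal.coe_ne_top

end Pool.Agent.FI75
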