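import Pool.Agent.HP89.A2a
import Pool.Agent.FI75.G1

/-! Module FI-G2 (GSym). Swap the two integrals in the prelimit of `gsym_tendsto` (`lintegral_lintegral_swap`) and use
`gsym_tendsto` also for `(F, E, fun y x => Ψ x y)` (`⟪Eξ, Fg⟫ = ⟪Fg, Eξ⟫`): equality for bounded continuous `Ψ`. Both
sides are integrals of `Ψ` against finite measures on `V × V` (images of `(γ ⊗ γ).withDensity (ni ...)` under
`(ξ, g) ↦ (Eξ, ort (F(Eξ)) (Fg))` resp. `(ort (E(Fg)) (Eξ), Fg)`; total mass finite by `lintegral_ni_proj_proj_lt_top`), so
they agree by `ext_of_forall_lintegral_eq_of_IsFiniteMeasure`. -/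

set_option autoImplicit false

namespace Pool.Agent.FI75
open MeasureTheory ProbabilityTheory Set Filter Topology Metric
open Pool.Agent.HP89
open scoped RealInnerProductSpace ENNReal

variable {V : Type*} [NormedAddCommGroup V] [InnerProductSpace ℝ V] [FiniteDimensional ℝ V]
  [MeasurableSpace V] [BorelSpace V]

theorem g2_ni : Measurable (ni : V → ℝ≥0∞) := by
  unfold ni
  fun_prop

/-- the measure belonging to the left side -/
private noncomputable def mlft (E F : Submodule ℝ V) : Measure (V × V) :=
  (((stdGaussian V).prod (stdGaussian V)).withDensity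
    (fun p => ni (F.starProjection (E.starProjection p.1)))).map
    (fun p => (E.starProjection p.1, ort (F.starProjection (E.starProjection p.1)) (F.starProjection p.2)))

private theorem lint_mlft (E F : Submodule ℝ V) {φ : V × V → ℝ≥0∞} (hφ : Measurable φ) :
    ∫⁻ q, φ q ∂(mlft E F) =
      ∫⁻ ξ, ni (F.starProjection (E.starProjection ξ)) *
        ∫⁻ g, φ (E.starProjection ξ, ort (F.starProjection (E.starProjection ξ)) (F.starProjection g))
          ∂(stdGaussian V) ∂(stdGaussian V) := by
  have hE : Measurable fun x : V => E.starProjection x := E.starProjection.continuous.measurable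
  have hF : Measurable fun x : V => F.starProjection x := F.starProjection.continuous.measurable
  have hFE : Measurable fun x : V => F.starProjection (E.starProjection x) := hF.comp hE
  have hm : Measurable fun p : V × V => (E.starProjection p.1,
      ort (F.starProjection (E.starProjection p.1)) (F.starProjection p.2)) :=
    (hE.comp measurable_fst).prodMk (measurable_ort.comp
      ((hFE.comp measurable_fst).prodMk (hF.comp measurable_snd)))
  have hn : Measurable fun p : V × V => ni (F.starProjection (E.starProjection p.1)) :=
    g2_ni.comp (hFE.comp measurable_fst)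
  have hφm : Measurable fun p : V × V => φ (E.starProjection p.1,
      ort (F.starProjection (E.starProjection p.1)) (F.starProjection p.2)) := hφ.comp hm
  unfold mlft
  rw [lintegral_map hφ hm, lintegral_withDensity_eq_lintegral_mul _ hn hφm,
    lintegral_prod _ (hn.mul hφm).aemeasurable]
  refine lintegral_congr fun ξ => ?_
  have h1 : Measurable fun g : V => φ (E.starProjection ξ,
      ort (F.starProjection (E.starProjection ξ)) (F.starProjection g)) :=
    (hφ.comp hm).comp (measurable_const.prodMk measurable_id)
  rw [← lintegral_const_mul _ h1]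
  rfl

private theorem mlft_finite (E F : Submodule ℝ V)
    (h : Module.finrank ℝ V + 2 ≤ Module.finrank ℝ E + Module.finrank ℝ F) :
    IsFiniteMeasure (mlft E F) := by
  refine ⟨?_⟩
  have h1 := lint_mlft E F (φ := fun _ => 1) measurable_const
  simp only [lintegral_one, measure_univ, mul_one] at h1
  rw [h1]
  exact lintegral_ni_proj_proj_lt_top E F h

private theorem mlft_swap (E F : Submodule ℝ V)
    (h : Module.finrank ℝ V + 2 ≤ Module.finrank ℝ E + Module.finrank ℝ F) :
    mlft E F = (mlft F E).map Prod.swap := by
  haveI := mlft_finite E F h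
  refine ext_of_forall_lintegral_eq_of_IsFiniteMeasure fun f => ?_
  have hf : Continuous f := f.continuous
  have hm : Measurable fun q : V × V => (f q : ℝ≥0∞) := hf.measurable.coe_nnreal_ennreal
  have hms : Measurable fun q : V × V => (f q.swap : ℝ≥0∞) := hm.comp measurable_swap
  rw [lintegral_map hm measurable_swap, lint_mlft E F hm, lint_mlft F E hms]
  have hb : ∀ q, (f q : ℝ≥0∞) ≤ ((nndist f 0 : NNReal) : ℝ≥0∞) := by
    intro q
    have h1 : nndist (f q) ((0 : BoundedContinuousFunction (V × V) NNReal) q) ≤ nndist f 0 :=
      BoundedContinuousFunction.nndist_coe_le_nndist q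
    have h2 : f q ≤ nndist f 0 := by
      rw [BoundedContinuousFunction.coe_zero, Pi.zero_apply, NNReal.nndist_zero_eq_val'] at h1
      exact h1
    exact_mod_cast h2
  have hce : Continuous fun q : V × V => (f q : ℝ≥0∞) := ENNReal.continuous_coe.comp hf
  have t1 := gsym_tendsto E F h (Ψ := fun x y => (f (x, y) : ℝ≥0∞)) hce (C := nndist f 0)
    (fun x y => hb _)
  have t2 := gsym_tendsto F E (by omega) (Ψ := fun x y => (f (y, x) : ℝ≥0∞))
    (hce.comp continuous_swap) (C := nndist f 0) (fun x y => hb _)
  refine tendsto_nhds_unique t1 ?_
  refine t2.congr fun n => ?_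
  have hE : Measurable fun x : V => E.starProjection x := E.starProjection.continuous.measurable
  have hF : Measurable fun x : V => F.starProjection x := F.starProjection.continuous.measurable
  rw [lintegral_lintegral_swap]
  · refine lintegral_congr fun ξ => lintegral_congr fun g => ?_
    rw [real_inner_comm]
  · have h3 : Measurable fun p : V × V => ENNReal.ofReal (((n : ℝ) + 1) *
        Real.exp (-⟪F.starProjection p.1, E.starProjection p.2⟫ ^ 2 / (2 * (1 / ((n : ℝ) + 1)) ^ 2))) := by
      refine ENNReal.measurable_ofReal.comp (measurable_const.mul (Real.measurable_exp.comp ?_))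
      exact (((hF.comp measurable_fst).inner (hE.comp measurable_snd)).pow_const 2).neg.div_const _
    have h4 : Measurable fun p : V × V => (f (E.starProjection p.2, F.starProjection p.1) : ℝ≥0∞) :=
      hm.comp ((hE.comp measurable_snd).prodMk (hF.comp measurable_fst))
    exact (h3.mul h4).aemeasurable

theorem gsym (E F : Submodule ℝ V) (h : Module.finrank ℝ V + 2 ≤ Module.finrank ℝ E + Module.finrank ℝ F)
    {ψ : V → V → ℝ≥0∞} (hψ : Measurable (Function.uncurry ψ)) :
    ∫⁻ ξ, ni (F.starProjection (E.starProjection ξ)) *
        ∫⁻ g, ψ (E.starProjection ξ) (ort (F.starProjection (E.starProjection ξ)) (F.starProjection g))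
          ∂(stdGaussian V) ∂(stdGaussian V) =
      ∫⁻ g, ni (E.starProjection (F.starProjection g)) *
        ∫⁻ ξ, ψ (ort (E.starProjection (F.starProjection g)) (E.starProjection ξ)) (F.starProjection g)
          ∂(stdGaussian V) ∂(stdGaussian V) := by
  have h1 := lint_mlft E F hψ
  have h2 := lint_mlft F E (hψ.comp measurable_swap)
  rw [mlft_swap E F h, lintegral_map hψ measurable_swap] at h1
  exact h1.symm.trans h2

end Pool.Agent.FI75
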