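import Pool.Agent.FI75.B4
import Pool.Agent.FI75.G2
import Pool.Agent.HP89.A1c

/-! Module FI-B5 (the measure `nuw j μ` has the symmetry property, kernel `kap j μ`). `lintegral_nuw`: the left side is
`∫⁻ W, ofReal (wv W) * ∫⁻ ξ, ni (res X (rv W ξ)) * ∫⁻ g, ψ (rv W ξ) (ort (res X (rv W ξ)) (res X g))`. For `wv W ≠ 0` apply
`gsym` with `E = (span W)ᗮ` (dimension `d - j`), `F = (span X)ᗮ` (dimension `d - |X| ≥ d - j + 1`); `2j + 2 ≤ d`
gives the hypothesis. Then exchange `∫⁻ W` and `∫⁻ g` and use `lintegral_kap` at `y = res X g`. -/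

set_option autoImplicit false

namespace Pool.Agent.FI75
open MeasureTheory ProbabilityTheory Set Filter Topology Metric
open Pool.Agent.HP89
open scoped RealInnerProductSpace ENNReal

variable {V : Type*} [NormedAddCommGroup V] [InnerProductSpace ℝ V] [FiniteDimensional ℝ V]
  [MeasurableSpace V] [BorelSpace V]

theorem gs_nuw {j : ℕ} (hj : 2 * j + 2 ≤ Module.finrank ℝ V + 1) (μ : Measure V) [IsFiniteMeasure μ] :
    GS j (nuw j μ) (kap j μ) := by
  intro X hX hXj ψ hψ
  have hr : Measurable (res X : V → V) := (continuous_res X).measurable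
  have hni : Measurable (ni : V → ℝ≥0∞) := g2_ni
  have hrv : Measurable (fun p : (Fin j → V) × V => rv p.1 p.2) := measurable_rv j
  -- the integrand on the left
  have hφ : Measurable (fun x : V => ni (res X x) *
      ∫⁻ g, ψ x (res (x :: X) g) ∂(stdGaussian V)) := by
    refine (hni.comp hr).mul ?_
    have h1 : Measurable (fun p : V × V => ψ p.1 (res (p.1 :: X) p.2)) :=
      hψ.comp (measurable_fst.prodMk (measurable_res_cons X))
    exact h1.lintegral_prod_right'
  rw [lintegral_nuw j μ hφ]
  -- the integrand on the right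
  have hρ : Measurable (fun p : (V × (Fin j → V)) × V =>
      ψ (ort (rv p.1.2 (res X p.1.1)) (rv p.1.2 p.2)) (res X p.1.1)) := by
    have h1 : Measurable (fun p : (V × (Fin j → V)) × V => res X p.1.1) :=
      hr.comp (measurable_fst.comp measurable_fst)
    have h2 : Measurable (fun p : (V × (Fin j → V)) × V => rv p.1.2 (res X p.1.1)) :=
      hrv.comp ((measurable_snd.comp measurable_fst).prodMk h1)
    have h3 : Measurable (fun p : (V × (Fin j → V)) × V => rv p.1.2 p.2) :=
      hrv.comp ((measurable_snd.comp measurable_fst).prodMk measurable_snd)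
    exact hψ.comp ((measurable_ort.comp (h2.prodMk h3)).prodMk h1)
  have hG : Measurable (fun p : V × (Fin j → V) =>
      ENNReal.ofReal (wv p.2) * ni (rv p.2 (res X p.1)) *
        ∫⁻ ξ, ψ (ort (rv p.2 (res X p.1)) (rv p.2 ξ)) (res X p.1) ∂(stdGaussian V)) := by
    have m1 : Measurable (fun p : V × (Fin j → V) => ENNReal.ofReal (wv p.2)) :=
      ((measurable_wv j).comp measurable_snd).ennreal_ofReal
    have m2 : Measurable (fun p : V × (Fin j → V) => ni (rv p.2 (res X p.1))) :=
      hni.comp (hrv.comp (measurable_snd.prodMk (hr.comp measurable_fst)))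
    exact (m1.mul m2).mul hρ.lintegral_prod_right'
  have hR : ∫⁻ g, ∫⁻ u, ψ u (res X g) ∂(kap j μ (res X g)) ∂(stdGaussian V) =
      ∫⁻ g, ∫⁻ W, ENNReal.ofReal (wv W) * ni (rv W (res X g)) *
        ∫⁻ ξ, ψ (ort (rv W (res X g)) (rv W ξ)) (res X g) ∂(stdGaussian V)
        ∂(Measure.pi fun _ : Fin j => μ) ∂(stdGaussian V) := by
    refine lintegral_congr fun g => ?_
    exact lintegral_kap j μ (res X g) (φ := fun u => ψ u (res X g))
      (hψ.comp (measurable_id.prodMk measurable_const))
  rw [hR, lintegral_lintegral_swap hG.aemeasurable]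
  refine lintegral_congr fun W => ?_
  by_cases hW : wv W = 0
  · rw [hW, ENNReal.ofReal_zero, zero_mul]
    simp
  · have hWne : wn (List.ofFn W) ≠ 0 := hW
    have d1 := finrank_orth_of_wn_ne_zero hWne
    have d2 := finrank_orth_of_wn_ne_zero hX
    rw [List.length_ofFn] at d1
    have hdim : Module.finrank ℝ V + 2 ≤
        Module.finrank ℝ (Submodule.span ℝ {x | x ∈ List.ofFn W})ᗮ +
          Module.finrank ℝ (Submodule.span ℝ {x | x ∈ X})ᗮ := by
      rw [d1, d2]; omega
    have h1 := gsym _ _ hdim hψ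
    have h2 : ∫⁻ ξ, (ni (res X (rv W ξ)) * ∫⁻ g, ψ (rv W ξ) (res (rv W ξ :: X) g) ∂(stdGaussian V))
          ∂(stdGaussian V) =
        ∫⁻ g, ni (rv W (res X g)) *
          ∫⁻ ξ, ψ (ort (rv W (res X g)) (rv W ξ)) (res X g) ∂(stdGaussian V) ∂(stdGaussian V) := by
      have e : ∀ x g : V, res (x :: X) g = ort (res X x) (res X g) := fun x g => rfl
      simp only [rv, e]
      simpa only [res_eq] using h1
    rw [h2, ← lintegral_const_mul' _ _ ENNReal.ofReal_ne_top]
    refine lintegral_congr fun g => ?_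
    rw [mul_assoc]

end Pool.Agent.FI75
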