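import Pool.Agent.FI75.B1
import Pool.Agent.FI75.B5
import Pool.Agent.FI75.B4b

/-! Module FI-B6 (density of `nuw j (nuw j μ)`). `lintegral_nuw` for the finite measure `nuw j μ`, `iter_eq_pi`, and `bpm` with `X = []`,
`l = n = j`, `Ψ Z y = ew Z ^ 2 * φ y` (`wi Z * ew Z ^ 2 = ew Z`); on the right `iter (κ y) j (fun Z => ew Z ^ 2 * φ y) [] =
Gd j μ y * φ y`: constants can be taken out; if `φ y = ⊤` is a problem, first reduce to bounded `φ` or prove a version of
`iter_const_mul` for a measurable function and an arbitrary constant (`lintegral_mul_const`). `Gd_smul`: `kap_smul` and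
`iter_smul_measure`. `measurable_Gd`: `measurable_iter_kernel` with `n = 0`. -/

set_option autoImplicit false

namespace Pool.Agent.FI75
open MeasureTheory ProbabilityTheory Set Filter Topology Metric
open Pool.Agent.HP89
open scoped RealInnerProductSpace ENNReal

variable {V : Type*} [NormedAddCommGroup V] [InnerProductSpace ℝ V] [FiniteDimensional ℝ V]
  [MeasurableSpace V] [BorelSpace V]

private theorem jm_b6 {φ : V → ℝ≥0∞} (hφ : Measurable φ) :
    JM (fun (Z : List V) (y : V) => ew Z ^ 2 * φ y) := fun n =>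
  (((lmeas_ew n).comp measurable_fst).pow_const 2).mul (hφ.comp measurable_snd)

theorem measurable_Gd (j : ℕ) (μ : Measure V) [IsFiniteMeasure μ] : Measurable (Gd j μ) := by
  have hJ : JM (fun (Z : List V) (_ : V) => ew Z ^ 2) := fun n =>
    ((lmeas_ew n).comp measurable_fst).pow_const 2
  have h1 := measurable_iter_kernel (km_kap j μ) hJ j 0
  have h2 : Measurable fun y : V => ((fun i => i.elim0 : Fin 0 → V), y) :=
    measurable_const.prodMk measurable_id
  have h3 := h1.comp h2
  have h4 : Gd j μ = (fun p : (Fin 0 → V) × V =>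
      iter (kap j μ p.2) j (fun Z => ew Z ^ 2) (List.ofFn p.1)) ∘
      fun y : V => ((fun i => i.elim0 : Fin 0 → V), y) := by
    funext y
    simp only [Function.comp, List.ofFn_zero]
    rfl
  rw [h4]
  exact h3

theorem Gd_smul (j : ℕ) (μ : Measure V) [IsFiniteMeasure μ] {c : ℝ} (hc : c ≠ 0) (y : V) :
    Gd j μ (c • y) = ENNReal.ofReal ((|c| ^ j)⁻¹) * Gd j μ y := by
  unfold Gd
  rw [kap_smul j μ hc y, iter_smul_measure _ _ _ _ ENNReal.ofReal_ne_top,
    ← ENNReal.ofReal_pow (inv_nonneg.2 (abs_nonneg c)), inv_pow]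

omit [FiniteDimensional ℝ V] [MeasurableSpace V] [BorelSpace V] in
private theorem wi_mul_ew (Z : List V) : wi Z * ew Z ^ 2 = ew Z := by
  unfold wi ew
  rw [← ENNReal.ofReal_pow (wn_nonneg Z), ← ENNReal.ofReal_mul (inv_nonneg.2 (wn_nonneg Z))]
  congr 1
  rcases (wn_nonneg Z).eq_or_lt with h | h
  · rw [← h]; simp
  · field_simp

private theorem iter_mul_const' (κ : Measure V) [SFinite κ] (l : ℕ) {F : List V → ℝ≥0∞}
    (hF : LMeas F) (c : ℝ≥0∞) (Y : List V) :
    iter κ l (fun Z => F Z * c) Y = iter κ l F Y * c := by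
  induction l generalizing Y with
  | zero => rfl
  | succ l ih =>
    rw [iter_succ, iter_succ, ← lintegral_mul_const _ ((hF.iter κ l).cons Y)]
    exact lintegral_congr fun x => ih (x :: Y)

theorem nuw_nuw {j : ℕ} (hj : 2 * j + 2 ≤ Module.finrank ℝ V + 1) (μ : Measure V) [IsFiniteMeasure μ]
    (hμ : Integrable (fun x => ‖x‖) μ) {φ : V → ℝ≥0∞} (hφ : Measurable φ) :
    ∫⁻ x, φ x ∂(nuw j (nuw j μ)) = ∫⁻ y, φ y * Gd j μ y ∂(stdGaussian V) := by
  haveI := nuw_finite j μ hμ
  have hJ := jm_b6 hφ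
  have key := bpm (km_kap j μ) (gs_nuw hj μ) hJ j [] (by simp)
  have hL : LMeas (fun Z : List V => ew Z * ∫⁻ g, φ (res Z g) ∂(stdGaussian V)) := by
    intro n
    refine (lmeas_ew n).mul ?_
    have h1 : Measurable fun p : (Fin n → V) × V => φ (res (List.ofFn p.1) p.2) :=
      hφ.comp (measurable_res n)
    exact h1.lintegral_prod_right'
  have h1 : ∫⁻ x, φ x ∂(nuw j (nuw j μ)) =
      iter (nuw j μ) j (fun Z => ew Z * ∫⁻ g, φ (res Z g) ∂(stdGaussian V)) [] := by
    rw [lintegral_nuw j (nuw j μ) hφ, iter_eq_pi _ j hL []]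
    refine lintegral_congr fun X => ?_
    rw [List.append_nil]
    rfl
  have h2 : iter (nuw j μ) j (fun Z => ew Z * ∫⁻ g, φ (res Z g) ∂(stdGaussian V)) [] =
      iter (nuw j μ) j (fun Z => wi Z * ∫⁻ g, ew Z ^ 2 * φ (res Z g) ∂(stdGaussian V)) [] := by
    refine iter_congr' _ j [] fun Z _ => ?_
    have h3 : ew Z ^ 2 ≠ ⊤ := ENNReal.pow_ne_top ENNReal.ofReal_ne_top
    rw [lintegral_const_mul' _ _ h3, ← mul_assoc, wi_mul_ew]
  rw [h1, h2, key]
  have h0 : wi ([] : List V) = 1 := by
    unfold wi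
    rw [wn_nil]
    simp
  rw [h0, one_mul]
  refine lintegral_congr fun y => ?_
  rw [res_nil]
  haveI : SFinite (kap j μ y) := by
    unfold kap
    infer_instance
  have hE : LMeas (fun Z : List V => ew Z ^ 2) := fun n => (lmeas_ew n).pow_const 2
  rw [iter_mul_const' _ j hE, mul_comm]
  rfl

end Pool.Agent.FI75
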