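import Pool.Agent.FI75.C0a

/-! Module FI-C0 (bounds and integrability in the class `RC`). `c ≤ F ≤ C`, `‖x‖ ‖T x‖ ≤ C`; `integrable_mul`: dominated by
`C' * wv x` (`integrable_wv`), `integrable_sq_mul`: dominated by `C' * wv (ov y g) ^ 2` (`integrable_wv_sq`); measurability:
`measurable_wv`, `measurable_pf`, `measurable_ov`. `E0_pos`: `E0 ≥ c ^ j ∫ wv > 0` (`integral_wv_pos`). -/

set_option autoImplicit false
set_option linter.unusedSectionVars false

namespace Pool.Agent.FI75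
open MeasureTheory ProbabilityTheory Set Filter Topology Metric
open Pool.Agent.HP89
open scoped RealInnerProductSpace ENNReal

variable {V : Type*} [NormedAddCommGroup V] [InnerProductSpace ℝ V] [FiniteDimensional ℝ V]
  [MeasurableSpace V] [BorelSpace V]

theorem RC.F_pos {F : V → ℝ} {T : V → V} (h : RC F T) (x : V) : 0 < F x := by
  obtain ⟨c, hc, hF⟩ := h.pos
  exact hc.trans_le (hF x)

theorem RC.sc_bdd {F : V → ℝ} {T : V → V} (h : RC F T) : ∃ C : ℝ, 0 ≤ C ∧ ∀ x, ‖x‖ * ‖sc F T x‖ ≤ C := by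
  obtain ⟨c, hc, hF⟩ := h.pos
  obtain ⟨C, hC⟩ := h.bdd
  have hC0 : 0 ≤ C := (abs_nonneg _).trans (hC 0).1
  refine ⟨c⁻¹ * C, by positivity, fun x => ?_⟩
  have hFx := h.F_pos x
  have h1 : (F x)⁻¹ ≤ c⁻¹ := inv_anti₀ hc (hF x)
  unfold sc
  rw [norm_smul, norm_inv, Real.norm_of_nonneg hFx.le]
  calc ‖x‖ * ((F x)⁻¹ * ‖T x‖) = (F x)⁻¹ * (‖x‖ * ‖T x‖) := by ring
    _ ≤ c⁻¹ * C := mul_le_mul h1 (hC x).2 (by positivity) (by positivity)

theorem RC.measurable_sc {F : V → ℝ} {T : V → V} (h : RC F T) : Measurable (sc F T) :=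
  h.mf.inv.smul h.mT

theorem RC.sc_smul {F : V → ℝ} {T : V → V} (h : RC F T) {c : ℝ} (hc : c ≠ 0) (x : V) :
    sc F T (c • x) = c⁻¹ • sc F T x := by
  unfold sc
  rw [h.homf c hc, h.homT c hc, smul_comm]

theorem RC.sc_orth {F : V → ℝ} {T : V → V} (h : RC F T) (x : V) : ⟪sc F T x, x⟫ = 0 := by
  unfold sc
  rw [real_inner_smul_left, h.orth, mul_zero]

theorem RC.pf_pos {F : V → ℝ} {T : V → V} (h : RC F T) {j : ℕ} (x : Fin j → V) : 0 < pf F x :=
  Finset.prod_pos fun i _ => h.F_pos (x i)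

theorem RC.pf_le {F : V → ℝ} {T : V → V} (h : RC F T) (j : ℕ) : ∃ C : ℝ, 0 ≤ C ∧ ∀ x : Fin j → V, pf F x ≤ C := by
  obtain ⟨C, hC⟩ := h.bdd
  have hC0 : 0 ≤ C := (abs_nonneg _).trans (hC 0).1
  refine ⟨C ^ j, by positivity, fun x => ?_⟩
  unfold pf
  calc ∏ i, F (x i) ≤ ∏ _i : Fin j, C :=
        Finset.prod_le_prod (fun i _ => (h.F_pos (x i)).le)
          (fun i _ => (le_abs_self _).trans (hC (x i)).1)
    _ = C ^ j := by simp

theorem measurable_pf {F : V → ℝ} (hF : Measurable F) (j : ℕ) : Measurable (fun x : Fin j → V => pf F x) := by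
  unfold pf
  exact Finset.measurable_fun_prod _ fun i _ => hF.comp (measurable_pi_apply i)

theorem RC.integrable_F {F : V → ℝ} {T : V → V} (h : RC F T) : Integrable F (stdGaussian V) := by
  obtain ⟨C, hC⟩ := h.bdd
  exact Integrable.of_bound h.mf.aestronglyMeasurable C
    (Eventually.of_forall fun x => (Real.norm_eq_abs _).le.trans (hC x).1)

omit [FiniteDimensional ℝ V] [MeasurableSpace V] [BorelSpace V] in
private theorem wv_nonneg {j : ℕ} (x : Fin j → V) : 0 ≤ wv x := wn_nonneg _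

theorem RC.integrable_mul {F : V → ℝ} {T : V → V} (h : RC F T) {j : ℕ} {φ : (Fin j → V) → ℝ} (hφ : Measurable φ)
    {C : ℝ} (hC : ∀ x, |φ x| ≤ C) : Integrable (fun x => wv x * pf F x * φ x) (gp V j) := by
  obtain ⟨D, hD0, hD⟩ := h.pf_le j
  refine ((integrable_wv (V := V) j).const_mul (D * C)).mono' ?_ (Eventually.of_forall fun x => ?_)
  · exact (((measurable_wv j).mul (measurable_pf h.mf j)).mul hφ).aestronglyMeasurable
  · have h1 : 0 ≤ wv x := wv_nonneg x
    have h2 : 0 < pf F x := h.pf_pos x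
    rw [Real.norm_eq_abs, abs_mul, abs_mul, abs_of_nonneg h1, abs_of_pos h2]
    have h3 : pf F x * |φ x| ≤ D * C := mul_le_mul (hD x) (hC x) (abs_nonneg _) hD0
    calc wv x * pf F x * |φ x| = wv x * (pf F x * |φ x|) := by ring
      _ ≤ wv x * (D * C) := mul_le_mul_of_nonneg_left h3 h1
      _ = D * C * wv x := by ring

theorem RC.integrable_sq_mul {F : V → ℝ} {T : V → V} (h : RC F T) {j : ℕ} (y : V) {φ : (Fin j → V) → ℝ}
    (hφ : Measurable φ) {C : ℝ} (hC : ∀ x, |φ x| ≤ C) :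
    Integrable (fun g => wv (ov y g) ^ 2 * pf F (ov y g) * φ g) (gp V j) := by
  obtain ⟨D, hD0, hD⟩ := h.pf_le j
  have hov : Measurable (fun g : Fin j → V => ov y g) :=
    (measurable_ov j).comp (measurable_const.prodMk measurable_id)
  refine ((integrable_wv_sq (V := V) j y).const_mul (D * C)).mono' ?_
    (Eventually.of_forall fun g => ?_)
  · exact (((((measurable_wv j).comp hov).pow_const 2).mul ((measurable_pf h.mf j).comp hov)).mul
      hφ).aestronglyMeasurable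
  · have h1 : 0 ≤ wv (ov y g) ^ 2 := sq_nonneg _
    have h2 : 0 < pf F (ov y g) := h.pf_pos _
    rw [Real.norm_eq_abs, abs_mul, abs_mul, abs_of_nonneg h1, abs_of_pos h2]
    have h3 : pf F (ov y g) * |φ g| ≤ D * C := mul_le_mul (hD _) (hC g) (abs_nonneg _) hD0
    calc wv (ov y g) ^ 2 * pf F (ov y g) * |φ g| = wv (ov y g) ^ 2 * (pf F (ov y g) * |φ g|) := by
          ring
      _ ≤ wv (ov y g) ^ 2 * (D * C) := mul_le_mul_of_nonneg_left h3 h1
      _ = D * C * wv (ov y g) ^ 2 := by ring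

theorem RC.E0_pos {F : V → ℝ} {T : V → V} (h : RC F T) {j : ℕ} (hj : j ≤ Module.finrank ℝ V) : 0 < E0 j F := by
  obtain ⟨c, hc, hF⟩ := h.pos
  have h1 : Integrable (fun x : Fin j → V => wv x * pf F x) (gp V j) := by
    have h2 := h.integrable_mul (j := j) (φ := fun _ => (1 : ℝ)) measurable_const (C := 1)
      (fun _ => by simp)
    simpa using h2
  have h3 : 0 < ∫ x : Fin j → V, c ^ j * wv x ∂(gp V j) := by
    rw [integral_const_mul]
    exact mul_pos (pow_pos hc j) (integral_wv_pos hj)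
  refine h3.trans_le ?_
  unfold E0
  refine integral_mono ((integrable_wv (V := V) j).const_mul _) h1 fun x => ?_
  have h4 : c ^ j ≤ pf F x := by
    unfold pf
    calc c ^ j = ∏ _i : Fin j, c := by simp
      _ ≤ ∏ i, F (x i) := Finset.prod_le_prod (fun _ _ => hc.le) (fun i _ => hF (x i))
  change c ^ j * wv x ≤ wv x * pf F x
  rw [mul_comm]
  exact mul_le_mul_of_nonneg_left h4 (wv_nonneg x)

theorem RC.AA_pos {F : V → ℝ} {T : V → V} (h : RC F T) : 0 < AA F := by
  obtain ⟨c, hc, hF⟩ := h.pos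
  have h1 : ∫ _x : V, c ∂(stdGaussian V) = c := by simp
  have h2 : ∫ _x : V, c ∂(stdGaussian V) ≤ AA F :=
    integral_mono (integrable_const c) h.integrable_F fun x => hF x
  linarith

theorem RC.integrable_JJ {F : V → ℝ} {T : V → V} (h : RC F T) :
    Integrable (fun x => ‖x‖ ^ 2 * ‖T x‖ ^ 2 / F x) (stdGaussian V) := by
  obtain ⟨c, hc, hF⟩ := h.pos
  obtain ⟨C, hC⟩ := h.bdd
  refine Integrable.of_bound
    (((measurable_norm.pow_const 2).mul (h.mT.norm.pow_const 2)).div h.mf).aestronglyMeasurable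
    (C ^ 2 / c) (Eventually.of_forall fun x => ?_)
  have h1 : 0 < F x := h.F_pos x
  have h2 : 0 ≤ ‖x‖ * ‖T x‖ := by positivity
  have h3 : (‖x‖ * ‖T x‖) ^ 2 ≤ C ^ 2 := pow_le_pow_left₀ h2 (hC x).2 2
  rw [Real.norm_of_nonneg (by positivity), ← mul_pow]
  exact div_le_div₀ (sq_nonneg C) h3 hc (hF x)

theorem RC.JJ_nonneg {F : V → ℝ} {T : V → V} (h : RC F T) : 0 ≤ JJ F T := by
  unfold JJ
  refine integral_nonneg fun x => ?_
  have h1 : 0 < F x := h.F_pos x
  positivity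

end Pool.Agent.FI75
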