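import Pool.Agent.FI75.B4
import Pool.Agent.HP89.A2b
import Pool.Agent.HP89.A1c

/-! Module FI-C0a (moments of the Gaussian parallelepiped). `wv x ≤ ∏ ‖x i‖` (`wn_le_prod`), Gaussian vectors have all moments
(`Integrable.fintype_prod` or `iter_ew_lt_top`; squares: `integrable_norm_sq_gaussian`, `‖ort y g‖ ≤ ‖g‖`). `iter_ew_sq`:
induction on `l`, `ew (x :: Y) ^ 2 = ew Y ^ 2 * ofReal ‖res Y x‖²`, and `∫ ‖res Y x‖² dγ = finrank (span Y)ᗮ = d - |Y|` if
`wn Y ≠ 0` (`integral_norm_sq_proj`, `finrank_orth_of_wn_ne_zero`; both sides vanish if `wn Y = 0`).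
`wv_sq_bounds`: `wv (ov y g) ^ 2 * ‖y‖² = wn (List.ofFn g ++ [y]) ^ 2` (`wn_append_singleton`, `List.map_ofFn`), so for
`y ≠ 0` the integral is `∏_{s<j} (d-1-s)` (`iter_ew_sq`, `iter_eq_pi` with `Y = [y]`); for `y = 0` (`ort 0 g = g`) it is
`∏_{s<j} (d-s)`. Both are positive for `j < d`. `ae_wv_ne_zero`: from `ae_res_ne_zero`-type arguments or by induction
(`wn (x :: Y) = wn Y * ‖res Y x‖`; the kernel of `res Y` is a proper subspace, a null set). -/

set_option autoImplicit false

namespace Pool.Agent.FI75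
open MeasureTheory ProbabilityTheory Set Filter Topology Metric
open Pool.Agent.HP89
open scoped RealInnerProductSpace ENNReal

variable {V : Type*} [NormedAddCommGroup V] [InnerProductSpace ℝ V] [FiniteDimensional ℝ V]
  [MeasurableSpace V] [BorelSpace V]

omit [FiniteDimensional ℝ V] [MeasurableSpace V] [BorelSpace V] in
private theorem ew_cons_sq (x : V) (Y : List V) :
    ew (x :: Y) ^ 2 = ew Y ^ 2 * ENNReal.ofReal (‖res Y x‖ ^ 2) := by
  unfold ew
  rw [wn_cons, ENNReal.ofReal_mul (wn_nonneg Y), mul_pow, ENNReal.ofReal_pow (norm_nonneg _)]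

private theorem lintegral_res_sq {Y : List V} (hY : wn Y ≠ 0) :
    ∫⁻ x, ENNReal.ofReal (‖res Y x‖ ^ 2) ∂(stdGaussian V) =
      ENNReal.ofReal ((Module.finrank ℝ V : ℝ) - Y.length) := by
  have h1 := integral_norm_sq_proj (V := V) (Submodule.span ℝ {x | x ∈ Y})ᗮ
  rw [finrank_orth_of_wn_ne_zero hY] at h1
  have h2 : ((Module.finrank ℝ V - Y.length : ℕ) : ℝ) = (Module.finrank ℝ V : ℝ) - Y.length :=
    Nat.cast_sub (length_le_of_wn_ne_zero hY)
  rw [h2] at h1
  have hint : Integrable (fun x : V => ‖res Y x‖ ^ 2) (stdGaussian V) := by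
    refine Integrable.mono' (integrable_norm_sq_gaussian (V := V))
      ((continuous_res Y).norm.pow 2).aestronglyMeasurable (Filter.Eventually.of_forall fun x => ?_)
    rw [Real.norm_of_nonneg (by positivity)]
    exact pow_le_pow_left₀ (norm_nonneg _) (norm_res_le Y x) 2
  rw [← ofReal_integral_eq_lintegral_ofReal hint (Filter.Eventually.of_forall fun x => by positivity)]
  congr 1
  rw [← h1]
  simp_rw [res_eq]

theorem iter_ew_sq (l : ℕ) (Y : List V) (h : Y.length + l ≤ Module.finrank ℝ V) :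
    iter (stdGaussian V) l (fun Z => ew Z ^ 2) Y =
      ENNReal.ofReal (∏ s ∈ Finset.range l, ((Module.finrank ℝ V : ℝ) - Y.length - s)) * ew Y ^ 2 := by
  induction l generalizing Y with
  | zero => rw [iter_zero]; simp
  | succ l ih =>
    rw [iter_succ]
    have h1 : ∀ x : V, iter (stdGaussian V) l (fun Z => ew Z ^ 2) (x :: Y) =
        (ENNReal.ofReal (∏ s ∈ Finset.range l, ((Module.finrank ℝ V : ℝ) - Y.length - (s + 1 : ℕ))) *
          ew Y ^ 2) * ENNReal.ofReal (‖res Y x‖ ^ 2) := by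
      intro x
      rw [ih (x :: Y) (by rw [List.length_cons]; omega), ew_cons_sq, ← mul_assoc]
      congr 3
      refine Finset.prod_congr rfl fun s _ => ?_
      rw [List.length_cons]
      push_cast
      ring
    simp_rw [h1]
    have hne : ENNReal.ofReal (∏ s ∈ Finset.range l,
        ((Module.finrank ℝ V : ℝ) - Y.length - (s + 1 : ℕ))) * ew Y ^ 2 ≠ ⊤ := by
      refine ENNReal.mul_ne_top ENNReal.ofReal_ne_top (ENNReal.pow_ne_top ?_)
      exact ENNReal.ofReal_ne_top
    rw [lintegral_const_mul' _ _ hne]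
    by_cases hY : wn Y = 0
    · have h2 : ew Y = 0 := by unfold ew; rw [hY, ENNReal.ofReal_zero]
      rw [h2]
      simp
    · rw [lintegral_res_sq hY, Finset.prod_range_succ']
      have h3 : (0 : ℝ) ≤ (Module.finrank ℝ V : ℝ) - Y.length := by
        have : (Y.length : ℝ) ≤ Module.finrank ℝ V := by exact_mod_cast (by omega : Y.length ≤ _)
        linarith
      have h4 : ENNReal.ofReal ((∏ k ∈ Finset.range l,
          ((Module.finrank ℝ V : ℝ) - Y.length - (k + 1 : ℕ))) *
            ((Module.finrank ℝ V : ℝ) - Y.length - (0 : ℕ))) =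
          ENNReal.ofReal (∏ k ∈ Finset.range l,
          ((Module.finrank ℝ V : ℝ) - Y.length - (k + 1 : ℕ))) *
            ENNReal.ofReal ((Module.finrank ℝ V : ℝ) - Y.length) := by
        rw [Nat.cast_zero, sub_zero, ENNReal.ofReal_mul' h3]
      rw [h4]
      ring

omit [FiniteDimensional ℝ V] [MeasurableSpace V] [BorelSpace V] in
private theorem wv_le_prod {j : ℕ} (x : Fin j → V) : wv x ≤ ∏ i, ‖x i‖ := by
  unfold wv
  refine (wn_le_prod _).trans_eq ?_
  rw [List.map_ofFn, List.prod_ofFn]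
  rfl

omit [FiniteDimensional ℝ V] [MeasurableSpace V] [BorelSpace V] in
private theorem wv_nonneg {j : ℕ} (x : Fin j → V) : 0 ≤ wv x := wn_nonneg _

theorem integrable_wv (j : ℕ) : Integrable (fun x : Fin j → V => wv x) (gp V j) := by
  have h1 : Integrable (fun x : Fin j → V => ∏ i, ‖x i‖) (gp V j) :=
    Integrable.fintype_prod (f := fun _ v => ‖v‖) (fun _ => integrable_norm_gaussian)
  refine Integrable.mono' h1 (measurable_wv j).aestronglyMeasurable
    (Filter.Eventually.of_forall fun x => ?_)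
  rw [Real.norm_of_nonneg (wv_nonneg x)]
  exact wv_le_prod x

theorem integrable_wv_sq (j : ℕ) (y : V) : Integrable (fun g : Fin j → V => wv (ov y g) ^ 2) (gp V j) := by
  have h1 : Integrable (fun x : Fin j → V => ∏ i, ‖x i‖ ^ 2) (gp V j) :=
    Integrable.fintype_prod (f := fun _ v => ‖v‖ ^ 2) (fun _ => integrable_norm_sq_gaussian)
  have hm : Measurable (fun g : Fin j → V => ov y g) :=
    (measurable_ov j).comp (measurable_const.prodMk measurable_id)
  refine Integrable.mono' h1 (((measurable_wv j).comp hm).pow_const 2).aestronglyMeasurable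
    (Filter.Eventually.of_forall fun x => ?_)
  rw [Real.norm_of_nonneg (by positivity), Finset.prod_pow]
  refine pow_le_pow_left₀ (wv_nonneg _) ((wv_le_prod _).trans ?_) 2
  exact Finset.prod_le_prod (fun i _ => norm_nonneg _) (fun i _ => norm_ort_le y (x i))

/-- second moments of the parallelepiped with fixed vectors `Y` -/
private theorem moment (j : ℕ) (Y : List V) (h : Y.length + j ≤ Module.finrank ℝ V) :
    ∫ g, wn (List.ofFn g ++ Y) ^ 2 ∂(gp V j) =
      (∏ s ∈ Finset.range j, ((Module.finrank ℝ V : ℝ) - Y.length - s)) * wn Y ^ 2 := by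
  have hL : LMeas (fun Z : List V => ew Z ^ 2) := fun n => by
    unfold ew
    exact ((measurable_wn n).ennreal_ofReal).pow_const 2
  have h1 := iter_eq_pi (stdGaussian V) j hL Y
  rw [iter_ew_sq j Y h] at h1
  have h2 : ∫ g, wn (List.ofFn g ++ Y) ^ 2 ∂(gp V j) =
      (∫⁻ g : Fin j → V, ew (List.ofFn g ++ Y) ^ 2 ∂(gp V j)).toReal := by
    have hc : Continuous (fun g : Fin j → V => wn (List.ofFn g ++ Y) ^ 2) := (continuous_wn j Y).pow 2
    rw [integral_eq_lintegral_of_nonneg_ae (f := fun g : Fin j → V => wn (List.ofFn g ++ Y) ^ 2)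
      (Filter.Eventually.of_forall fun g => sq_nonneg _) hc.aestronglyMeasurable]
    congr 1
    refine lintegral_congr fun g => ?_
    unfold ew
    rw [ENNReal.ofReal_pow (wn_nonneg _)]
  have hP : 0 ≤ ∏ s ∈ Finset.range j, ((Module.finrank ℝ V : ℝ) - Y.length - s) := by
    refine Finset.prod_nonneg fun s hs => ?_
    have hs' := Finset.mem_range.1 hs
    have : (Y.length : ℝ) + s ≤ Module.finrank ℝ V := by
      exact_mod_cast (by omega : Y.length + s ≤ Module.finrank ℝ V)
    linarith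
  rw [h2]
  change (∫⁻ g : Fin j → V, ew (List.ofFn g ++ Y) ^ 2 ∂(Measure.pi fun _ => stdGaussian V)).toReal = _
  rw [← h1]
  unfold ew
  rw [ENNReal.toReal_mul, ENNReal.toReal_ofReal hP, ENNReal.toReal_pow,
    ENNReal.toReal_ofReal (wn_nonneg _)]

private theorem prod_pos' {d m j : ℕ} (h : m + j ≤ d) :
    0 < ∏ s ∈ Finset.range j, ((d : ℝ) - m - s) := by
  refine Finset.prod_pos fun s hs => ?_
  have hs' := Finset.mem_range.1 hs
  have : (m : ℝ) + s + 1 ≤ d := by exact_mod_cast (by omega : m + s + 1 ≤ d)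
  linarith

private theorem moment_zero {j : ℕ} (hj : j ≤ Module.finrank ℝ V) :
    ∫ g, wv g ^ 2 ∂(gp V j) = ∏ s ∈ Finset.range j, ((Module.finrank ℝ V : ℝ) - (0 : ℕ) - s) := by
  have h := moment (V := V) j [] (by simpa using hj)
  simpa [wv] using h

theorem wv_sq_bounds {j : ℕ} (hj : j < Module.finrank ℝ V) :
    ∃ c C : ℝ, 0 < c ∧ ∀ y : V, c ≤ ∫ g, wv (ov y g) ^ 2 ∂(gp V j) ∧ ∫ g, wv (ov y g) ^ 2 ∂(gp V j) ≤ C := by
  set P0 := ∏ s ∈ Finset.range j, ((Module.finrank ℝ V : ℝ) - (0 : ℕ) - s) with hP0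
  set P1 := ∏ s ∈ Finset.range j, ((Module.finrank ℝ V : ℝ) - (1 : ℕ) - s) with hP1
  have h0 : 0 < P0 := prod_pos' (by omega)
  have h1 : 0 < P1 := prod_pos' (by omega)
  refine ⟨min P0 P1, max P0 P1, lt_min h0 h1, fun y => ?_⟩
  by_cases hy : y = 0
  · have e : ∫ g, wv (ov y g) ^ 2 ∂(gp V j) = P0 := by
      rw [hP0, ← moment_zero hj.le]
      have : ∀ g : Fin j → V, ov y g = g := fun g => by
        funext i
        simp [ov, hy]
      simp_rw [this]
    rw [e]
    exact ⟨min_le_left _ _, le_max_left _ _⟩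
  · have hy2 : ‖y‖ ^ 2 ≠ 0 := pow_ne_zero 2 (norm_ne_zero_iff.2 hy)
    have e : ∫ g, wv (ov y g) ^ 2 ∂(gp V j) = P1 := by
      have h2 := moment (V := V) j [y] (by rw [List.length_singleton]; omega)
      rw [List.length_singleton, wn_singleton] at h2
      have h3 : ∀ g : Fin j → V, wn (List.ofFn g ++ [y]) ^ 2 = ‖y‖ ^ 2 * wv (ov y g) ^ 2 := by
        intro g
        rw [wn_append_singleton, mul_pow, List.map_ofFn]
        rfl
      simp_rw [h3] at h2
      rw [integral_const_mul, mul_comm] at h2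
      exact mul_right_cancel₀ hy2 h2
    rw [e]
    exact ⟨min_le_right _ _, le_max_right _ _⟩

theorem integral_wv_pos {j : ℕ} (hj : j ≤ Module.finrank ℝ V) : 0 < ∫ x, wv x ∂(gp V j) := by
  have h0 : 0 ≤ ∫ x, wv x ∂(gp V j) := integral_nonneg fun x => wv_nonneg x
  refine lt_of_le_of_ne h0 fun h => ?_
  have h1 := (integral_eq_zero_iff_of_nonneg (fun x => wv_nonneg x) (integrable_wv (V := V) j)).1 h.symm
  have h2 : ∫ g, wv g ^ 2 ∂(gp V j) = 0 := by
    have h3 : ∫ g, wv g ^ 2 ∂(gp V j) = ∫ _g, (0 : ℝ) ∂(gp V j) := by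
      refine integral_congr_ae ?_
      filter_upwards [h1] with g hg
      have hg' : wv g = 0 := hg
      rw [hg']
      norm_num
    rw [h3, integral_zero]
  rw [moment_zero hj] at h2
  exact absurd h2 (prod_pos' (by omega)).ne'

end Pool.Agent.FI75
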