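import Pool.Agent.FI75.C0

/-! Module FI-C1a (measurability, homogeneity and bounds of `NN`, `TT`). Measurability: `StronglyMeasurable.integral_prod_right`
(joint measurability of the integrands: `measurable_ov`, `measurable_wv`, `measurable_pf`). Homogeneity: `ort_smul_left`.
Bounds: `c₀ ≤ F ≤ C₀` gives `c₀^j ∫ wv² ≤ NN ≤ C₀^j ∫ wv²` (`wv_sq_bounds`), and
`|⟪sc F T (ov y g i), y⟫| ‖ov y g i‖ ≤ C ‖y‖`. `TT_orth`: `⟪ort y g, y⟫ = 0` (`inner_ort`), move the inner product inside. -/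

set_option autoImplicit false

namespace Pool.Agent.FI75
open MeasureTheory ProbabilityTheory Set Filter Topology Metric
open Pool.Agent.HP89
open scoped RealInnerProductSpace ENNReal

variable {V : Type*} [NormedAddCommGroup V] [InnerProductSpace ℝ V] [FiniteDimensional ℝ V]
  [MeasurableSpace V] [BorelSpace V]

private theorem ov_smul {j : ℕ} {c : ℝ} (hc : c ≠ 0) (y : V) (g : Fin j → V) :
    ov (c • y) g = ov y g := by
  funext i
  exact ort_smul_left hc y (g i)

private theorem int_NN {F : V → ℝ} {T : V → V} (h : RC F T) {j : ℕ} (y : V) :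
    Integrable (fun g => wv (ov y g) ^ 2 * pf F (ov y g)) (gp V j) := by
  have h1 := h.integrable_sq_mul (j := j) y (φ := fun _ => (1 : ℝ)) measurable_const (C := 1)
    (fun x => by simp)
  simpa only [mul_one] using h1

theorem measurable_NN {F : V → ℝ} (hF : Measurable F) (j : ℕ) : Measurable (NN j F) := by
  unfold NN
  exact (((((measurable_wv j).comp (measurable_ov j)).pow_const 2).mul
    ((measurable_pf hF j).comp (measurable_ov j))).stronglyMeasurable.integral_prod_right').measurable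

theorem measurable_TT {F : V → ℝ} {T : V → V} (hF : Measurable F) (hT : Measurable T) (j : ℕ) :
    Measurable (TT j F T) := by
  unfold TT
  have hsc : Measurable (sc F T) := hF.inv.smul hT
  have hov : ∀ i : Fin j, Measurable (fun p : V × (Fin j → V) => ov p.1 p.2 i) := fun i =>
    (measurable_pi_apply i).comp (measurable_ov j)
  have hs : Measurable (fun p : V × (Fin j → V) =>
      (wv (ov p.1 p.2) ^ 2 * pf F (ov p.1 p.2)) • ∑ i, ⟪sc F T (ov p.1 p.2 i), p.1⟫ • ov p.1 p.2 i) := by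
    refine ((((measurable_wv j).comp (measurable_ov j)).pow_const 2).mul
      ((measurable_pf hF j).comp (measurable_ov j))).smul ?_
    refine Finset.measurable_sum _ fun i _ => ?_
    exact (((hsc.comp (hov i)).inner measurable_fst)).smul (hov i)
  have hI : Measurable (fun y : V => ∫ g, (wv (ov y g) ^ 2 * pf F (ov y g)) •
      ∑ i, ⟪sc F T (ov y g i), y⟫ • ov y g i ∂(gp V j)) :=
    (hs.stronglyMeasurable.integral_prod_right').measurable
  exact ((measurable_norm.pow_const 2).inv.neg).smul hI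

theorem NN_smul (j : ℕ) (F : V → ℝ) {c : ℝ} (hc : c ≠ 0) (y : V) : NN j F (c • y) = NN j F y := by
  unfold NN
  simp only [ov_smul hc]

theorem TT_smul (j : ℕ) (F : V → ℝ) (T : V → V) {c : ℝ} (hc : c ≠ 0) (y : V) :
    TT j F T (c • y) = c⁻¹ • TT j F T y := by
  unfold TT
  have e : ∀ g : Fin j → V, (wv (ov (c • y) g) ^ 2 * pf F (ov (c • y) g)) •
      ∑ i, ⟪sc F T (ov (c • y) g i), c • y⟫ • ov (c • y) g i =
      c • ((wv (ov y g) ^ 2 * pf F (ov y g)) • ∑ i, ⟪sc F T (ov y g i), y⟫ • ov y g i) := by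
    intro g
    simp only [ov_smul hc, real_inner_smul_right, mul_smul, ← Finset.smul_sum]
    rw [smul_comm c, smul_comm c (pf F (ov y g))]
  simp only [e]
  rw [integral_smul, norm_smul, mul_pow, Real.norm_eq_abs, sq_abs, smul_smul, smul_smul]
  congr 1
  by_cases hy : y = 0
  · rw [hy, norm_zero]
    simp
  · have hy' : ‖y‖ ≠ 0 := norm_ne_zero_iff.2 hy
    field_simp

theorem NN_bounds {j : ℕ} (hj : j < Module.finrank ℝ V) {F : V → ℝ} {T : V → V} (h : RC F T) :
    ∃ c C : ℝ, 0 < c ∧ ∀ y, c ≤ NN j F y ∧ NN j F y ≤ C := by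
  obtain ⟨c₀, hc₀, hF⟩ := h.pos
  obtain ⟨C₀, hC₀⟩ := h.bdd
  obtain ⟨c, C, hc, hb⟩ := wv_sq_bounds (V := V) hj
  have hFC : ∀ x, F x ≤ C₀ := fun x => (le_abs_self _).trans (hC₀ x).1
  have hC₀0 : 0 ≤ C₀ := (hc₀.le.trans (hF 0)).trans (hFC 0)
  have h1 : ∀ x : Fin j → V, c₀ ^ j ≤ pf F x := by
    intro x
    unfold pf
    have := Finset.prod_le_prod (s := (Finset.univ : Finset (Fin j))) (f := fun _ => c₀)
      (g := fun i => F (x i)) (fun i _ => hc₀.le) (fun i _ => hF (x i))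
    simpa using this
  have h2 : ∀ x : Fin j → V, pf F x ≤ C₀ ^ j := by
    intro x
    unfold pf
    have := Finset.prod_le_prod (s := (Finset.univ : Finset (Fin j))) (f := fun i => F (x i))
      (g := fun _ => C₀) (fun i _ => hc₀.le.trans (hF (x i))) (fun i _ => hFC (x i))
    simpa using this
  refine ⟨c₀ ^ j * c, C₀ ^ j * C, by positivity, fun y => ⟨?_, ?_⟩⟩
  · calc c₀ ^ j * c ≤ c₀ ^ j * ∫ g, wv (ov y g) ^ 2 ∂(gp V j) :=
          mul_le_mul_of_nonneg_left (hb y).1 (by positivity)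
      _ = ∫ g, c₀ ^ j * wv (ov y g) ^ 2 ∂(gp V j) := (integral_const_mul _ _).symm
      _ ≤ NN j F y := by
          unfold NN
          refine integral_mono ((integrable_wv_sq j y).const_mul _) (int_NN h y) fun g => ?_
          have := mul_le_mul_of_nonneg_left (h1 (ov y g)) (sq_nonneg (wv (ov y g)))
          simp only
          linarith
  · calc NN j F y ≤ ∫ g, C₀ ^ j * wv (ov y g) ^ 2 ∂(gp V j) := by
          unfold NN
          refine integral_mono (int_NN h y) ((integrable_wv_sq j y).const_mul _) fun g => ?_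
          have := mul_le_mul_of_nonneg_left (h2 (ov y g)) (sq_nonneg (wv (ov y g)))
          simp only
          linarith
      _ = C₀ ^ j * ∫ g, wv (ov y g) ^ 2 ∂(gp V j) := integral_const_mul _ _
      _ ≤ C₀ ^ j * C := mul_le_mul_of_nonneg_left (hb y).2 (by positivity)

theorem TT_bounds {j : ℕ} (hj : j < Module.finrank ℝ V) {F : V → ℝ} {T : V → V} (h : RC F T) :
    ∃ C : ℝ, ∀ y, ‖y‖ * ‖TT j F T y‖ ≤ C := by
  obtain ⟨C', hC'0, hC'⟩ := h.sc_bdd
  obtain ⟨c, C, hc, hb⟩ := NN_bounds hj h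
  have hC0 : 0 ≤ C := (hc.le.trans (hb 0).1).trans (hb 0).2
  refine ⟨(j : ℝ) * C' * C, fun y => ?_⟩
  by_cases hy : y = 0
  · rw [hy, norm_zero, zero_mul]
    positivity
  have hy' : 0 < ‖y‖ := norm_pos_iff.2 hy
  have hI : ‖∫ g, (wv (ov y g) ^ 2 * pf F (ov y g)) • ∑ i, ⟪sc F T (ov y g i), y⟫ • ov y g i ∂(gp V j)‖ ≤
      ∫ g, wv (ov y g) ^ 2 * pf F (ov y g) * ((j : ℝ) * C' * ‖y‖) ∂(gp V j) := by
    refine norm_integral_le_of_norm_le ((int_NN h y).mul_const _) (Filter.Eventually.of_forall fun g => ?_)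
    rw [norm_smul, Real.norm_eq_abs, abs_of_nonneg (mul_nonneg (sq_nonneg _) (h.pf_pos _).le)]
    refine mul_le_mul_of_nonneg_left ?_ (mul_nonneg (sq_nonneg _) (h.pf_pos _).le)
    calc ‖∑ i, ⟪sc F T (ov y g i), y⟫ • ov y g i‖ ≤ ∑ i : Fin j, ‖⟪sc F T (ov y g i), y⟫ • ov y g i‖ :=
          norm_sum_le _ _
      _ ≤ ∑ _i : Fin j, C' * ‖y‖ := by
          refine Finset.sum_le_sum fun i _ => ?_
          rw [norm_smul]
          calc ‖⟪sc F T (ov y g i), y⟫‖ * ‖ov y g i‖ ≤ (‖sc F T (ov y g i)‖ * ‖y‖) * ‖ov y g i‖ :=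
                mul_le_mul_of_nonneg_right (norm_inner_le_norm _ _) (norm_nonneg _)
            _ = (‖ov y g i‖ * ‖sc F T (ov y g i)‖) * ‖y‖ := by ring
            _ ≤ C' * ‖y‖ := mul_le_mul_of_nonneg_right (hC' _) (norm_nonneg _)
      _ = (j : ℝ) * C' * ‖y‖ := by
          rw [Finset.sum_const, Finset.card_univ, Fintype.card_fin, nsmul_eq_mul]
          ring
  rw [integral_mul_const] at hI
  change _ ≤ NN j F y * _ at hI
  have hN : NN j F y ≤ C := (hb y).2
  have hNN0 : 0 ≤ NN j F y := hc.le.trans (hb y).1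
  unfold TT
  rw [norm_smul, norm_neg, norm_inv, norm_pow, norm_norm]
  calc ‖y‖ * ((‖y‖ ^ 2)⁻¹ * ‖∫ g, (wv (ov y g) ^ 2 * pf F (ov y g)) •
        ∑ i, ⟪sc F T (ov y g i), y⟫ • ov y g i ∂(gp V j)‖) ≤
        ‖y‖ * ((‖y‖ ^ 2)⁻¹ * (NN j F y * ((j : ℝ) * C' * ‖y‖))) := by
        refine mul_le_mul_of_nonneg_left (mul_le_mul_of_nonneg_left hI (by positivity)) (by positivity)
    _ = (j : ℝ) * C' * NN j F y := by field_simp
    _ ≤ (j : ℝ) * C' * C := mul_le_mul_of_nonneg_left hN (by positivity)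

theorem TT_orth {F : V → ℝ} {T : V → V} (j : ℕ) (h : RC F T) (y : V) : ⟪TT j F T y, y⟫ = 0 := by
  unfold TT
  rw [real_inner_smul_left, real_inner_comm]
  by_cases hI : Integrable (fun g => (wv (ov y g) ^ 2 * pf F (ov y g)) •
      ∑ i, ⟪sc F T (ov y g i), y⟫ • ov y g i) (gp V j)
  · rw [← integral_inner hI y]
    have e : ∀ g : Fin j → V, ⟪y, (wv (ov y g) ^ 2 * pf F (ov y g)) •
        ∑ i, ⟪sc F T (ov y g i), y⟫ • ov y g i⟫ = 0 := by
      intro g
      rw [real_inner_smul_right, inner_sum]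
      have : ∀ i : Fin j, ⟪y, ⟪sc F T (ov y g i), y⟫ • ov y g i⟫ = 0 := by
        intro i
        rw [real_inner_smul_right]
        change _ * ⟪y, ort y (g i)⟫ = 0
        rw [inner_ort, mul_zero]
      simp only [this, Finset.sum_const_zero, mul_zero]
    simp only [e, integral_zero, mul_zero]
  · rw [integral_undef hI, inner_zero_right, mul_zero]

end Pool.Agent.FI75
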