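import Pool.Agent.HP89.A3b
import Pool.Agent.HP89.A1c
import Pool.Agent.HP89.A4
import Pool.Agent.FI75.Defs

/-! Module FI-M1 (second moments). Polarise `integral_inner_sq` (HP89.A3b); `inner_res`. Integrability:
`|⟪g,a⟫ ⟪g,b⟫| ≤ ‖a‖ ‖b‖ ‖g‖²`, `integrable_norm_sq_gaussian`. Last statement: `ae_res_ne_zero`: the map
`g ↦ res X (res Y g)` is linear and not zero (if it were, `(span Y)ᗮ ≤ span X`, against the dimensions), so its kernel is a
proper subspace, which is a null set (`Measure.addHaar_submodule` and `stdGaussian_density`, or: there are `a, b` with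
`⟪g, a'⟫ = 0` on it for a nonzero `a'` and `⟪g, a'⟫` is Gaussian). -/

set_option autoImplicit false

namespace Pool.Agent.FI75
open MeasureTheory ProbabilityTheory Set Filter Topology Metric
open Pool.Agent.HP89
open scoped RealInnerProductSpace ENNReal

variable {V : Type*} [NormedAddCommGroup V] [InnerProductSpace ℝ V] [FiniteDimensional ℝ V]
  [MeasurableSpace V] [BorelSpace V]

theorem integrable_inner_mul (a b : V) : Integrable (fun g => ⟪g, a⟫ * ⟪g, b⟫) (stdGaussian V) := by
  refine Integrable.mono' ((integrable_norm_sq_gaussian (V := V)).const_mul (‖a‖ * ‖b‖)) (by fun_prop) ?_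
  filter_upwards with g
  rw [norm_mul]
  have h1 : ‖⟪g, a⟫‖ ≤ ‖g‖ * ‖a‖ := norm_inner_le_norm g a
  have h2 : ‖⟪g, b⟫‖ ≤ ‖g‖ * ‖b‖ := norm_inner_le_norm g b
  calc ‖⟪g, a⟫‖ * ‖⟪g, b⟫‖ ≤ (‖g‖ * ‖a‖) * (‖g‖ * ‖b‖) :=
        mul_le_mul h1 h2 (norm_nonneg _) (by positivity)
    _ = ‖a‖ * ‖b‖ * ‖g‖ ^ 2 := by ring

theorem integral_inner_mul (a b : V) : ∫ g, ⟪g, a⟫ * ⟪g, b⟫ ∂(stdGaussian V) = ⟪a, b⟫ := by
  have hi : ∀ y : V, Integrable (fun g => ⟪y, g⟫ ^ 2) (stdGaussian V) := fun y => by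
    refine (integrable_inner_mul y y).congr (Filter.Eventually.of_forall fun g => ?_)
    change ⟪g, y⟫ * ⟪g, y⟫ = ⟪y, g⟫ ^ 2
    rw [real_inner_comm, sq]
  have h1 : ∀ g : V, ⟪g, a⟫ * ⟪g, b⟫ = (⟪a + b, g⟫ ^ 2 - ⟪a, g⟫ ^ 2 - ⟪b, g⟫ ^ 2) / 2 := fun g => by
    rw [inner_add_left, real_inner_comm g a, real_inner_comm g b]
    ring
  simp_rw [h1]
  have h2 := integral_sub (μ := stdGaussian V) ((hi (a + b)).sub (hi a)) (hi b)
  have h3 := integral_sub (μ := stdGaussian V) (hi (a + b)) (hi a)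
  simp only [Pi.sub_apply] at h2
  rw [integral_div, h2, h3, integral_inner_sq, integral_inner_sq, integral_inner_sq, norm_add_sq_real]
  ring

omit [MeasurableSpace V] [BorelSpace V] in
private theorem res_res (X : List V) (a : V) : res X (res X a) = res X a := by
  rw [res_eq X (res X a), res_eq X a]
  exact (Submodule.starProjection_eq_self_iff).2 (Submodule.starProjection_apply_mem _ _)

theorem integral_res_mul (X : List V) (a b : V) :
    ∫ g, ⟪res X g, a⟫ * ⟪res X g, b⟫ ∂(stdGaussian V) = ⟪res X a, b⟫ := by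
  have h1 : ∀ g : V, ⟪res X g, a⟫ * ⟪res X g, b⟫ = ⟪g, res X a⟫ * ⟪g, res X b⟫ := fun g => by
    rw [inner_res, inner_res]
  simp_rw [h1]
  rw [integral_inner_mul, ← inner_res, res_res]

theorem integral_norm_res_sq_le (X : List V) :
    ∫ g, ‖res X g‖ ^ 2 ∂(stdGaussian V) ≤ Module.finrank ℝ V := by
  have h1 : ∫ g, ‖g‖ ^ 2 ∂(stdGaussian V) = Module.finrank ℝ V := by
    have h := integral_norm_sq_proj (⊤ : Submodule ℝ V)
    rw [finrank_top] at h
    rw [← h]
    refine integral_congr_ae (Filter.Eventually.of_forall fun g => ?_)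
    change ‖g‖ ^ 2 = ‖(⊤ : Submodule ℝ V).starProjection g‖ ^ 2
    rw [(Submodule.starProjection_eq_self_iff).2 Submodule.mem_top]
  rw [← h1]
  refine integral_mono_of_nonneg (Filter.Eventually.of_forall fun g => by positivity)
    integrable_norm_sq_gaussian (Filter.Eventually.of_forall fun g => ?_)
  exact pow_le_pow_left₀ (norm_nonneg _) (norm_res_le X g) 2

private theorem ae_inner_ne_zero {v : V} (hv : v ≠ 0) : ∀ᵐ g ∂(stdGaussian V), ⟪v, g⟫ ≠ 0 := by
  have hac : stdGaussian V ≪ (volume : Measure V) := by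
    rw [stdGaussian_density]
    exact withDensity_absolutelyContinuous _ _
  have hne : (ℝ ∙ v)ᗮ ≠ ⊤ := by
    intro h
    rw [Submodule.orthogonal_eq_top_iff, Submodule.span_singleton_eq_bot] at h
    exact hv h
  have h0 : (volume : Measure V) ((ℝ ∙ v)ᗮ : Submodule ℝ V) = 0 :=
    Measure.addHaar_submodule _ _ hne
  have h1 := hac h0
  rw [ae_iff]
  refine measure_mono_null (fun g hg => ?_) h1
  have hg' : ⟪v, g⟫ = 0 := not_not.1 hg
  rw [SetLike.mem_coe, Submodule.mem_orthogonal_singleton_iff_inner_right]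
  exact hg'

omit [FiniteDimensional ℝ V] [MeasurableSpace V] [BorelSpace V] in
private theorem finrank_span_list_le (X : List V) :
    Module.finrank ℝ (Submodule.span ℝ {x | x ∈ X}) ≤ X.length := by
  classical
  have h1 : {x : V | x ∈ X} = (X.toFinset : Set V) := by
    ext x; simp
  rw [h1]
  exact (finrank_span_finset_le_card X.toFinset).trans (List.toFinset_card_le X)

theorem ae_res_ne_zero {X Y : List V} (h : X.length + Y.length < Module.finrank ℝ V) :
    ∀ᵐ g ∂(stdGaussian V), res X (res Y g) ≠ 0 := by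
  set S := Submodule.span ℝ {x | x ∈ X} with hS
  set T := Submodule.span ℝ {x | x ∈ Y} with hT
  have h1 : Module.finrank ℝ (S ⊔ T : Submodule ℝ V) < Module.finrank ℝ V :=
    (Submodule.finrank_add_le_finrank_add_finrank S T).trans_lt
      (lt_of_le_of_lt (add_le_add (finrank_span_list_le X) (finrank_span_list_le Y)) h)
  have h2 : (S ⊔ T)ᗮ ≠ ⊥ := by
    intro h3
    rw [Submodule.orthogonal_eq_bot_iff] at h3
    rw [h3, finrank_top] at h1
    exact lt_irrefl _ h1
  obtain ⟨v, hv, hv0⟩ := (Submodule.ne_bot_iff _).1 h2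
  have hvX : res X v = v := by
    rw [res_eq]
    exact (Submodule.starProjection_eq_self_iff).2 (Submodule.orthogonal_le le_sup_left hv)
  have hvY : res Y v = v := by
    rw [res_eq]
    exact (Submodule.starProjection_eq_self_iff).2 (Submodule.orthogonal_le le_sup_right hv)
  filter_upwards [ae_inner_ne_zero hv0] with g hg h0
  apply hg
  have h3 : ⟪res X (res Y g), v⟫ = ⟪g, v⟫ := by
    rw [inner_res, hvX, inner_res, hvY]
  rw [real_inner_comm, ← h3, h0, inner_zero_left]

theorem ae_ort_ne_zero (hd : 2 ≤ Module.finrank ℝ V) (y : V) : ∀ᵐ g ∂(stdGaussian V), ort y g ≠ 0 := by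
  have h := ae_res_ne_zero (V := V) (X := []) (Y := [y]) (by simp only [List.length_nil, List.length_singleton]; omega)
  filter_upwards [h] with g hg
  simpa [res_cons] using hg

end Pool.Agent.FI75
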