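import Pool.Agent.FI75.R1

/-! Module FI-R2 (rotation invariance and integration by parts). -/

set_option autoImplicit false

namespace Pool.Agent.FI75
open MeasureTheory ProbabilityTheory Set Filter Topology Metric
open Pool.Agent.HP89
open scoped RealInnerProductSpace ENNReal

variable {V : Type*} [NormedAddCommGroup V] [InnerProductSpace ℝ V] [FiniteDimensional ℝ V]
  [MeasurableSpace V] [BorelSpace V]

theorem map_rt {A : V →L[ℝ] V} (hA : Skew A) (t : ℝ) :
    (stdGaussian V).map (fun x => rt A t x) = stdGaussian V := by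
  obtain ⟨e, he⟩ := hA.iso t
  have h1 : (fun x => rt A t x) = (e : V → V) := by
    funext x
    exact (he x).symm
  rw [h1]
  exact stdGaussian_map e

theorem mp_rt {A : V →L[ℝ] V} (hA : Skew A) (t : ℝ) :
    MeasurePreserving (fun x : V => rt A t x) (stdGaussian V) (stdGaussian V) :=
  ⟨(rt A t).continuous.measurable, map_rt hA t⟩

theorem mp_rt_pi {A : V →L[ℝ] V} (hA : Skew A) (t : ℝ) (j : ℕ) :
    MeasurePreserving (fun (g : Fin j → V) (i : Fin j) => rt A t (g i)) (gp V j) (gp V j) :=
  measurePreserving_pi (fun _ => stdGaussian V) (fun _ => stdGaussian V) (fun _ => mp_rt hA t)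

theorem rot_zero {A : V →L[ℝ] V} (hA : Skew A) {Θ Θ' B : V → ℝ} (hΘ : Integrable Θ (stdGaussian V))
    (hΘ' : AEStronglyMeasurable Θ' (stdGaussian V)) (hB : Integrable B (stdGaussian V))
    (hlip : ∀ᵐ x ∂(stdGaussian V), ∀ s t : ℝ, |Θ (rt A s x) - Θ (rt A t x)| ≤ B x * |s - t|)
    (hder : ∀ᵐ x ∂(stdGaussian V), HasDerivAt (fun t : ℝ => Θ (rt A t x)) (Θ' x) 0) :
    ∫ x, Θ' x ∂(stdGaussian V) = 0 := by
  have hint : ∀ t : ℝ, Integrable (fun x => Θ (rt A t x)) (stdGaussian V) := fun t =>
    (mp_rt hA t).integrable_comp_of_integrable hΘ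
  have hmain := hasDerivAt_integral_of_dominated_loc_of_lip (μ := stdGaussian V) (F := fun t x => Θ (rt A t x))
    (F' := Θ') (x₀ := (0 : ℝ)) (bound := fun x => |B x|) (s := univ) univ_mem
    (Eventually.of_forall fun t => (hint t).aestronglyMeasurable) (hint 0) hΘ' ?_ hB.abs hder
  · obtain ⟨-, h2⟩ := hmain
    have h3 : (fun t : ℝ => ∫ x, Θ (rt A t x) ∂(stdGaussian V)) = fun _ => ∫ x, Θ x ∂(stdGaussian V) := by
      funext t
      have h4 : ∫ x, Θ x ∂((stdGaussian V).map (fun x => rt A t x)) = ∫ x, Θ (rt A t x) ∂(stdGaussian V) := by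
        apply integral_map (mp_rt hA t).measurable.aemeasurable
        rw [map_rt hA t]
        exact hΘ.aestronglyMeasurable
      rw [← h4, map_rt hA t]
    rw [h3] at h2
    exact h2.unique (hasDerivAt_const _ _)
  · filter_upwards [hlip] with x hx
    apply LipschitzOnWith.of_dist_le_mul
    intro s _ t _
    rw [Real.dist_eq, Real.dist_eq]
    refine (hx s t).trans ?_
    apply mul_le_mul_of_nonneg_right _ (abs_nonneg _)
    have : ((Real.nnabs |B x| : NNReal) : ℝ) = |(|B x|)| := rfl
    rw [this, abs_abs]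
    exact le_abs_self _

end Pool.Agent.FI75
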