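import Pool.Agent.FI75.C0
import Pool.Agent.FI75.R2
import Pool.Agent.FI75.M1

/-! Module FI-C1b (derivative of `NN` along rotations, first form). `NN_rt`: substitute `g ↦ rt A t g` (`mp_rt_pi`),
`ort (rt A t y) (rt A t g) = rt A t (ort y g)` (`Skew.inner_rt`, `Skew.norm_rt`), `wn` is invariant under isometries
(`wn_map` with `Skew.iso`). `hasDerivAt_pf`: `RD.der` at the point `rt A s (x i)` and `rt_add` give the derivative at every `s`;
`HasDerivAt.finset_prod` (`∏_{l ≠ i} F * ⟪T, ·⟫ = ∏ F * ⟪sc F T, ·⟫`). `NN_hasDerivAt`: differentiation under the integral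
(`hasDerivAt_integral_of_dominated_loc_of_deriv_le`), dominated by `C * wv (ov y g) ^ 2`; `ort y (g i) ≠ 0` for all `i` holds
almost surely (`ae_ort_ne_zero`). -/

set_option autoImplicit false

namespace Pool.Agent.FI75
open MeasureTheory ProbabilityTheory Set Filter Topology Metric
open Pool.Agent.HP89
open scoped RealInnerProductSpace ENNReal

variable {V : Type*} [NormedAddCommGroup V] [InnerProductSpace ℝ V] [FiniteDimensional ℝ V]
  [MeasurableSpace V] [BorelSpace V]

private theorem ort_rt {A : V →L[ℝ] V} (hA : Skew A) (t : ℝ) (y z : V) :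
    ort (rt A t y) (rt A t z) = rt A t (ort y z) := by
  unfold ort
  rw [hA.inner_rt, hA.norm_rt, map_sub, map_smul]

private theorem wv_rt {A : V →L[ℝ] V} (hA : Skew A) (t : ℝ) {j : ℕ} (x : Fin j → V) :
    wv (fun i => rt A t (x i)) = wv x := by
  obtain ⟨e, he⟩ := hA.iso t
  unfold wv
  have h1 : List.ofFn (fun i => rt A t (x i)) = (List.ofFn x).map e.toLinearIsometry := by
    rw [List.map_ofFn]
    congr 1
    funext i
    exact (he (x i)).symm
  rw [h1, wn_map]

private theorem measurable_ov' (j : ℕ) (y : V) : Measurable (fun g : Fin j → V => ov y g) :=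
  (measurable_ov j).comp (measurable_const.prodMk measurable_id)

private theorem measurable_rt (A : V →L[ℝ] V) (t : ℝ) : Measurable (fun x : V => rt A t x) :=
  (rt A t).continuous.measurable

private theorem measurable_rt_pi (A : V →L[ℝ] V) (t : ℝ) (j : ℕ) :
    Measurable (fun (x : Fin j → V) (i : Fin j) => rt A t (x i)) :=
  measurable_pi_lambda _ fun i => (measurable_rt A t).comp (measurable_pi_apply i)

theorem NN_rt {A : V →L[ℝ] V} (hA : Skew A) (t : ℝ) (j : ℕ) {F : V → ℝ} (hF : Measurable F) (y : V) :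
    NN j F (rt A t y) = ∫ g, wv (ov y g) ^ 2 * pf F (fun i => rt A t (ov y g i)) ∂(gp V j) := by
  have hm : Measurable (fun g : Fin j → V =>
      wv (ov (rt A t y) g) ^ 2 * pf F (ov (rt A t y) g)) :=
    (((measurable_wv j).comp (measurable_ov' j _)).pow_const 2).mul
      ((measurable_pf hF j).comp (measurable_ov' j _))
  have hmp := mp_rt_pi hA t j
  unfold NN
  conv_lhs => rw [← hmp.map_eq]
  rw [integral_map hmp.measurable.aemeasurable hm.aestronglyMeasurable]
  refine integral_congr_ae (Eventually.of_forall fun g => ?_)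
  have h1 : ov (rt A t y) (fun i => rt A t (g i)) = fun i => rt A t (ov y g i) := by
    funext i
    exact ort_rt hA t y (g i)
  change wv (ov (rt A t y) (fun i => rt A t (g i))) ^ 2 *
    pf F (ov (rt A t y) (fun i => rt A t (g i))) = _
  rw [h1, wv_rt hA]

private theorem RC.der_at {F : V → ℝ} {T : V → V} (h : RC F T) {A : V →L[ℝ] V} (hA : Skew A)
    {x : V} (hx : x ≠ 0) (s : ℝ) :
    HasDerivAt (fun t : ℝ => F (rt A t x)) (F (rt A s x) * ⟪sc F T (rt A s x), A (rt A s x)⟫) s := by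
  have h1 := h.der A hA (rt A s x) (hA.rt_ne_zero s hx)
  have h2 : HasDerivAt (fun t : ℝ => F (rt A t (rt A s x))) ⟪T (rt A s x), A (rt A s x)⟫ (s - s) := by
    rw [sub_self]
    exact h1
  have h3 := h2.comp_sub_const s s
  have h4 : (fun t : ℝ => F (rt A (t - s) (rt A s x))) = fun t : ℝ => F (rt A t x) := by
    funext t
    rw [← rt_add, sub_add_cancel]
  rw [h4] at h3
  have h5 : F (rt A s x) * ⟪sc F T (rt A s x), A (rt A s x)⟫ = ⟪T (rt A s x), A (rt A s x)⟫ := by
    unfold sc
    rw [real_inner_smul_left, ← mul_assoc, mul_inv_cancel₀ (h.F_pos _).ne', one_mul]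
  rw [h5]
  exact h3

theorem RC.hasDerivAt_pf {F : V → ℝ} {T : V → V} (h : RC F T) {A : V →L[ℝ] V} (hA : Skew A) {j : ℕ} {x : Fin j → V}
    (hx : ∀ i, x i ≠ 0) (s : ℝ) :
    HasDerivAt (fun t : ℝ => pf F (fun i => rt A t (x i)))
      (pf F (fun i => rt A s (x i)) * ∑ i, ⟪sc F T (rt A s (x i)), A (rt A s (x i))⟫) s := by
  have h1 := HasDerivAt.fun_finsetProd (u := Finset.univ) (f := fun i t => F (rt A t (x i)))
    (x := s) (fun i _ => RC.der_at h hA (hx i) s)
  have h2 : (∑ i, (∏ l ∈ Finset.univ.erase i, F (rt A s (x l))) •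
      (F (rt A s (x i)) * ⟪sc F T (rt A s (x i)), A (rt A s (x i))⟫)) =
      pf F (fun i => rt A s (x i)) * ∑ i, ⟪sc F T (rt A s (x i)), A (rt A s (x i))⟫ := by
    rw [Finset.mul_sum]
    refine Finset.sum_congr rfl fun i _ => ?_
    unfold pf
    rw [smul_eq_mul, ← mul_assoc, Finset.prod_erase_mul _ _ (Finset.mem_univ i)]
  rw [h2] at h1
  exact h1

theorem RC.NN_hasDerivAt (hd : 2 ≤ Module.finrank ℝ V) {F : V → ℝ} {T : V → V} (h : RC F T) {A : V →L[ℝ] V}
    (hA : Skew A) (j : ℕ) (y : V) :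
    HasDerivAt (fun t : ℝ => NN j F (rt A t y))
      (∫ g, wv (ov y g) ^ 2 * pf F (ov y g) * ∑ i, ⟪sc F T (ov y g i), A (ov y g i)⟫ ∂(gp V j)) 0 := by
  obtain ⟨C, hC0, hC⟩ := h.sc_bdd
  obtain ⟨C', hC'0, hC'⟩ := h.pf_le j
  have hnn : (fun t : ℝ => NN j F (rt A t y)) =
      fun t => ∫ g, wv (ov y g) ^ 2 * pf F (fun i => rt A t (ov y g i)) ∂(gp V j) := by
    funext t
    exact NN_rt hA t j h.mf y
  rw [hnn]
  have hwm : Measurable (fun g : Fin j → V => wv (ov y g) ^ 2) :=
    ((measurable_wv j).comp (measurable_ov' j y)).pow_const 2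
  have hpm : ∀ t : ℝ, Measurable (fun g : Fin j → V => pf F (fun i => rt A t (ov y g i))) :=
    fun t => (measurable_pf h.mf j).comp ((measurable_rt_pi A t j).comp (measurable_ov' j y))
  have hin : ∀ v : V, |⟪sc F T v, A v⟫| ≤ ‖A‖ * C := by
    intro v
    calc |⟪sc F T v, A v⟫| ≤ ‖sc F T v‖ * ‖A v‖ := abs_real_inner_le_norm _ _
      _ ≤ ‖sc F T v‖ * (‖A‖ * ‖v‖) :=
          mul_le_mul_of_nonneg_left (A.le_opNorm v) (norm_nonneg _)
      _ = ‖A‖ * (‖v‖ * ‖sc F T v‖) := by ring
      _ ≤ ‖A‖ * C := mul_le_mul_of_nonneg_left (hC v) (norm_nonneg _)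
  have hsm : Measurable (fun v : V => ⟪sc F T v, A v⟫) :=
    h.measurable_sc.inner A.continuous.measurable
  have hS : Measurable (fun g : Fin j → V =>
      ∑ i, ⟪sc F T (rt A 0 (ov y g i)), A (rt A 0 (ov y g i))⟫) := by
    refine Finset.measurable_fun_sum _ fun i _ => ?_
    exact hsm.comp ((measurable_rt A 0).comp ((measurable_pi_apply i).comp (measurable_ov' j y)))
  have hae : ∀ᵐ g ∂(gp V j), ∀ i, ov y g i ≠ 0 := by
    rw [ae_all_iff]
    intro i
    exact (Measure.tendsto_eval_ae_ae (μ := fun _ : Fin j => stdGaussian V)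
      (i := i)).eventually (ae_ort_ne_zero hd y)
  have key := hasDerivAt_integral_of_dominated_loc_of_deriv_le (μ := gp V j) (𝕜 := ℝ)
    (F := fun t g => wv (ov y g) ^ 2 * pf F (fun i => rt A t (ov y g i)))
    (F' := fun t g => wv (ov y g) ^ 2 * (pf F (fun i => rt A t (ov y g i)) *
      ∑ i, ⟪sc F T (rt A t (ov y g i)), A (rt A t (ov y g i))⟫))
    (x₀ := (0 : ℝ)) (s := univ) (bound := fun g => wv (ov y g) ^ 2 * (C' * (j * (‖A‖ * C))))
    univ_mem (Eventually.of_forall fun t => (hwm.mul (hpm t)).aestronglyMeasurable) ?_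
    (hwm.mul ((hpm 0).mul hS)).aestronglyMeasurable ?_ ((integrable_wv_sq j y).mul_const _) ?_
  · obtain ⟨-, h2⟩ := key
    refine h2.congr_deriv ?_
    refine integral_congr_ae (Eventually.of_forall fun g => ?_)
    simp only [rt_zero]
    ring
  · have h3 := h.integrable_sq_mul (j := j) y (φ := fun _ => (1 : ℝ)) measurable_const (C := 1)
      (fun x => by simp)
    refine h3.congr (Eventually.of_forall fun g => ?_)
    simp only [rt_zero, mul_one]
  · refine Eventually.of_forall fun g t _ => ?_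
    rw [norm_mul, norm_mul, Real.norm_of_nonneg (sq_nonneg _),
      Real.norm_of_nonneg (h.pf_pos _).le]
    refine mul_le_mul_of_nonneg_left ?_ (sq_nonneg _)
    refine mul_le_mul (hC' _) ?_ (norm_nonneg _) hC'0
    refine (norm_sum_le _ _).trans ?_
    refine (Finset.sum_le_card_nsmul _ _ (‖A‖ * C) fun i _ => ?_).trans ?_
    · exact hin _
    · simp
  · filter_upwards [hae] with g hg t _
    exact (h.hasDerivAt_pf hA hg t).const_mul _

end Pool.Agent.FI75
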