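import Pool.Agent.FI75.C1a
import Pool.Agent.FI75.C1b

/-! Module FI-C1c (`NN` preserves the class `RC`). Derivative: let `P = ort y` (a continuous linear map), `A' = P ∘ A ∘ P`, which is
skew with `A' y = 0`; so `rt A' t y = y` (`rt_of_apply_eq_zero`) and the derivative in `NN_hasDerivAt` for `A'` is `0`. For
`u = ov y g i` (`⟪u, y⟫ = 0`, `P u = u`): `A u = A' u - (⟪A y, u⟫ / ‖y‖²) • y`. Hence the derivative for `A` equals
`-(‖y‖²)⁻¹ ∫ wv² pf ∑ ⟪sc, y⟫ ⟪u, A y⟫ = ⟪TT j F T y, A y⟫` (`y ≠ 0`). -/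

set_option autoImplicit false

namespace Pool.Agent.FI75
open MeasureTheory ProbabilityTheory Set Filter Topology Metric
open Pool.Agent.HP89
open scoped RealInnerProductSpace ENNReal

variable {V : Type*} [NormedAddCommGroup V] [InnerProductSpace ℝ V] [FiniteDimensional ℝ V]
  [MeasurableSpace V] [BorelSpace V]

private theorem meas_ov (j : ℕ) (y : V) : Measurable (fun g : Fin j → V => ov y g) :=
  (measurable_ov j).comp (measurable_const.prodMk measurable_id)

private theorem int_sum {F : V → ℝ} {T : V → V} (h : RC F T) (B : V →L[ℝ] V) (j : ℕ) (y : V) :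
    Integrable (fun g : Fin j → V => wv (ov y g) ^ 2 * pf F (ov y g) *
      ∑ i, ⟪sc F T (ov y g i), B (ov y g i)⟫) (gp V j) := by
  obtain ⟨C, hC0, hC⟩ := h.sc_bdd
  have hu : ∀ i : Fin j, Measurable (fun g : Fin j → V => ov y g i) := fun i =>
    (measurable_pi_apply i).comp (meas_ov j y)
  refine h.integrable_sq_mul y (φ := fun g => ∑ i, ⟪sc F T (ov y g i), B (ov y g i)⟫) ?_
    (C := (j : ℝ) * (‖B‖ * C)) fun g => ?_
  · refine Finset.measurable_fun_sum _ fun i _ => ?_
    exact (h.measurable_sc.comp (hu i)).inner (B.continuous.measurable.comp (hu i))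
  · calc |∑ i, ⟪sc F T (ov y g i), B (ov y g i)⟫| ≤
          ∑ i, |⟪sc F T (ov y g i), B (ov y g i)⟫| := Finset.abs_sum_le_sum_abs _ _
      _ ≤ ∑ _i : Fin j, ‖B‖ * C := by
          refine Finset.sum_le_sum fun i _ => ?_
          calc |⟪sc F T (ov y g i), B (ov y g i)⟫| ≤ ‖sc F T (ov y g i)‖ * ‖B (ov y g i)‖ :=
                abs_real_inner_le_norm _ _
            _ ≤ ‖sc F T (ov y g i)‖ * (‖B‖ * ‖ov y g i‖) :=
                mul_le_mul_of_nonneg_left (B.le_opNorm _) (norm_nonneg _)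
            _ = ‖B‖ * (‖ov y g i‖ * ‖sc F T (ov y g i)‖) := by ring
            _ ≤ ‖B‖ * C := mul_le_mul_of_nonneg_left (hC _) (norm_nonneg _)
      _ = (j : ℝ) * (‖B‖ * C) := by
          rw [Finset.sum_const, Finset.card_univ, Fintype.card_fin, nsmul_eq_mul]

private theorem int_vec {F : V → ℝ} {T : V → V} (h : RC F T) (j : ℕ) (y : V) :
    Integrable (fun g : Fin j → V => (wv (ov y g) ^ 2 * pf F (ov y g)) •
      ∑ i, ⟪sc F T (ov y g i), y⟫ • ov y g i) (gp V j) := by
  obtain ⟨C, hC0, hC⟩ := h.sc_bdd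
  have hu : ∀ i : Fin j, Measurable (fun g : Fin j → V => ov y g i) := fun i =>
    (measurable_pi_apply i).comp (meas_ov j y)
  have h1 := h.integrable_sq_mul (j := j) y (φ := fun _ => (j : ℝ) * (C * ‖y‖)) measurable_const
    (C := (j : ℝ) * (C * ‖y‖)) (fun g => by rw [abs_of_nonneg (by positivity)])
  refine Integrable.mono' h1 ?_ (Filter.Eventually.of_forall fun g => ?_)
  · refine Measurable.aestronglyMeasurable ?_
    refine Measurable.smul ((((measurable_wv j).comp (meas_ov j y)).pow_const 2).mul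
      ((measurable_pf h.mf j).comp (meas_ov j y))) ?_
    refine Finset.measurable_fun_sum _ fun i _ => ?_
    exact ((h.measurable_sc.comp (hu i)).inner measurable_const).smul (hu i)
  · rw [norm_smul, Real.norm_eq_abs, abs_of_nonneg (mul_nonneg (sq_nonneg _) (h.pf_pos _).le)]
    refine mul_le_mul_of_nonneg_left ?_ (mul_nonneg (sq_nonneg _) (h.pf_pos _).le)
    calc ‖∑ i, ⟪sc F T (ov y g i), y⟫ • ov y g i‖ ≤ ∑ i : Fin j, ‖⟪sc F T (ov y g i), y⟫ • ov y g i‖ :=
          norm_sum_le _ _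
      _ ≤ ∑ _i : Fin j, C * ‖y‖ := by
          refine Finset.sum_le_sum fun i _ => ?_
          rw [norm_smul]
          calc ‖⟪sc F T (ov y g i), y⟫‖ * ‖ov y g i‖ ≤ (‖sc F T (ov y g i)‖ * ‖y‖) * ‖ov y g i‖ :=
                mul_le_mul_of_nonneg_right (norm_inner_le_norm _ _) (norm_nonneg _)
            _ = (‖ov y g i‖ * ‖sc F T (ov y g i)‖) * ‖y‖ := by ring
            _ ≤ C * ‖y‖ := mul_le_mul_of_nonneg_right (hC _) (norm_nonneg _)
      _ = (j : ℝ) * (C * ‖y‖) := by
          rw [Finset.sum_const, Finset.card_univ, Fintype.card_fin, nsmul_eq_mul]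

theorem RC.NN_der (hd : 2 ≤ Module.finrank ℝ V) {F : V → ℝ} {T : V → V} (h : RC F T) {A : V →L[ℝ] V}
    (hA : Skew A) (j : ℕ) {y : V} (hy : y ≠ 0) :
    HasDerivAt (fun t : ℝ => NN j F (rt A t y)) ⟪TT j F T y, A y⟫ 0 := by
  have hy2 : ‖y‖ ^ 2 ≠ 0 := pow_ne_zero 2 (norm_ne_zero_iff.2 hy)
  set P : V →L[ℝ] V := (ℝ ∙ y)ᗮ.starProjection with hP
  have hPo : ∀ z, P z = ort y z := fun z => (ort_eq y z).symm
  have hPP : ∀ z w, ⟪P z, w⟫ = ⟪z, P w⟫ := fun z w =>
    Submodule.inner_starProjection_left_eq_right _ _ _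
  have hPid : ∀ z, P (P z) = P z := fun z =>
    (Submodule.starProjection_eq_self_iff).2 (Submodule.starProjection_apply_mem _ _)
  have hPy : P y = 0 := by
    rw [hPo, ort, real_inner_self_eq_norm_sq, div_self hy2, one_smul, sub_self]
  set A' : V →L[ℝ] V := P ∘L A ∘L P with hA'
  have hA'e : ∀ x, A' x = P (A (P x)) := fun x => rfl
  have hsk : Skew A' := fun x => by
    rw [hA'e, hPP]
    exact hA _
  have hA'y : A' y = 0 := by rw [hA'e, hPy, map_zero, map_zero]
  have h1 := h.NN_hasDerivAt hd hA j y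
  have h2 := h.NN_hasDerivAt hd hsk j y
  have h3 : HasDerivAt (fun t : ℝ => NN j F (rt A' t y)) 0 0 := by
    simp_rw [rt_of_apply_eq_zero hA'y]
    exact hasDerivAt_const _ _
  have h4 := h2.unique h3
  have key : ∫ g, wv (ov y g) ^ 2 * pf F (ov y g) * ∑ i, ⟪sc F T (ov y g i), A (ov y g i)⟫ ∂(gp V j) =
      ⟪TT j F T y, A y⟫ := by
    have e : ∀ g : Fin j → V,
        wv (ov y g) ^ 2 * pf F (ov y g) * ∑ i, ⟪sc F T (ov y g i), A (ov y g i)⟫ =
        wv (ov y g) ^ 2 * pf F (ov y g) * ∑ i, ⟪sc F T (ov y g i), A' (ov y g i)⟫ +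
        (-(‖y‖ ^ 2)⁻¹) * ⟪A y, (wv (ov y g) ^ 2 * pf F (ov y g)) •
          ∑ i, ⟪sc F T (ov y g i), y⟫ • ov y g i⟫ := by
      intro g
      have e1 : ∀ i, ⟪sc F T (ov y g i), A (ov y g i)⟫ = ⟪sc F T (ov y g i), A' (ov y g i)⟫ +
          (-(‖y‖ ^ 2)⁻¹) * (⟪sc F T (ov y g i), y⟫ * ⟪A y, ov y g i⟫) := by
        intro i
        have hPu : P (ov y g i) = ov y g i := by
          change P (ort y (g i)) = ort y (g i)
          rw [← hPo, hPid]
        have e2 : A' (ov y g i) = A (ov y g i) - (⟪y, A (ov y g i)⟫ / ‖y‖ ^ 2) • y := by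
          rw [hA'e, hPu, hPo]
          rfl
        have e3 : ⟪y, A (ov y g i)⟫ = -⟪A y, ov y g i⟫ := by
          rw [hA.inner, neg_neg]
        rw [e2, e3, inner_sub_right, real_inner_smul_right]
        field_simp
        ring
      simp_rw [e1]
      rw [Finset.sum_add_distrib, mul_add, real_inner_smul_right, inner_sum, ← Finset.mul_sum]
      congr 1
      simp_rw [real_inner_smul_right]
      ring
    simp_rw [e]
    rw [integral_add (int_sum h A' j y) (((int_vec h j y).const_inner (A y)).const_mul _), h4, zero_add,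
      integral_const_mul, integral_inner (int_vec h j y)]
    unfold TT
    rw [real_inner_smul_left, real_inner_comm]
  rw [key] at h1
  exact h1

theorem RC.next (hd : 2 ≤ Module.finrank ℝ V) {j : ℕ} (hj : j < Module.finrank ℝ V) {F : V → ℝ} {T : V → V}
    (h : RC F T) : RC (NN j F) (TT j F T) := by
  obtain ⟨c, C, hc, hb⟩ := NN_bounds hj h
  obtain ⟨C', hC'⟩ := TT_bounds hj h
  refine { mf := measurable_NN h.mf j, mT := measurable_TT h.mf h.mT j, bdd := ?_,
           homf := fun a ha x => NN_smul j F ha x, homT := fun a ha x => TT_smul j F T ha x,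
           der := fun A hA x hx => h.NN_der hd hA j hx, pos := ⟨c, hc, fun x => (hb x).1⟩,
           orth := fun x => TT_orth j h x }
  refine ⟨max C C', fun x => ⟨?_, (hC' x).trans (le_max_right _ _)⟩⟩
  rw [abs_of_nonneg (hc.le.trans (hb x).1)]
  exact (hb x).2.trans (le_max_left _ _)

end Pool.Agent.FI75
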