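import Pool.Agent.FI75.C1a

/-! Module FI-C2a (Cauchy-Schwarz). With `ρ g = wv (ov y g)² pf F (ov y g) ≥ 0`, `v g = ∑ ⟪sc, y⟫ • ov y g i`:
`‖∫ ρ v‖² ≤ (∫ ρ) (∫ ρ ‖v‖²)` (for a unit vector `e`: `⟪∫ ρ v, e⟫ = ∫ ρ ⟪v, e⟫`, and
`(∫ ρ f)² ≤ ∫ ρ ∫ ρ f²` from `∫ ρ (f - c)² ≥ 0`, `c = ∫ ρ f / ∫ ρ`), `v` is bounded (`RC.sc_bdd`), and
`TT = -(‖y‖²)⁻¹ ∫ ρ v`, `NN = ∫ ρ > 0`. `QQ_smul`: `ort_smul_left`; measurability as in FI-C1a. -/

set_option autoImplicit false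

namespace Pool.Agent.FI75
open MeasureTheory ProbabilityTheory Set Filter Topology Metric
open Pool.Agent.HP89
open scoped RealInnerProductSpace ENNReal

variable {V : Type*} [NormedAddCommGroup V] [InnerProductSpace ℝ V] [FiniteDimensional ℝ V]
  [MeasurableSpace V] [BorelSpace V]

private theorem c2a_ov (j : ℕ) (y : V) : Measurable (fun g : Fin j → V => ov y g) :=
  (measurable_ov j).comp (measurable_const.prodMk measurable_id)

private theorem c2a_meas {F : V → ℝ} {T : V → V} (hF : Measurable F) (hT : Measurable T) (j : ℕ) :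
    Measurable (fun p : V × (Fin j → V) => ∑ i, ⟪sc F T (ov p.1 p.2 i), p.1⟫ • ov p.1 p.2 i) := by
  have hsc : Measurable (sc F T) := hF.inv.smul hT
  have hov : ∀ i : Fin j, Measurable (fun p : V × (Fin j → V) => ov p.1 p.2 i) := fun i =>
    (measurable_pi_apply i).comp (measurable_ov j)
  refine Finset.measurable_sum _ fun i _ => ?_
  exact (((hsc.comp (hov i)).inner measurable_fst)).smul (hov i)

private theorem c2a_meas' {F : V → ℝ} {T : V → V} (hF : Measurable F) (hT : Measurable T) (j : ℕ)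
    (y : V) : Measurable (fun g : Fin j → V => ∑ i, ⟪sc F T (ov y g i), y⟫ • ov y g i) :=
  (c2a_meas hF hT j).comp (measurable_const.prodMk measurable_id)

private theorem c2a_bd {F : V → ℝ} {T : V → V} (h : RC F T) (j : ℕ) (y : V) :
    ∃ C : ℝ, 0 ≤ C ∧ ∀ g : Fin j → V, ‖∑ i, ⟪sc F T (ov y g i), y⟫ • ov y g i‖ ≤ C := by
  obtain ⟨C', hC'0, hC'⟩ := h.sc_bdd
  refine ⟨(j : ℝ) * C' * ‖y‖, by positivity, fun g => ?_⟩
  calc ‖∑ i, ⟪sc F T (ov y g i), y⟫ • ov y g i‖ ≤ ∑ i : Fin j, ‖⟪sc F T (ov y g i), y⟫ • ov y g i‖ :=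
        norm_sum_le _ _
    _ ≤ ∑ _i : Fin j, C' * ‖y‖ := by
        refine Finset.sum_le_sum fun i _ => ?_
        rw [norm_smul]
        calc ‖⟪sc F T (ov y g i), y⟫‖ * ‖ov y g i‖ ≤ (‖sc F T (ov y g i)‖ * ‖y‖) * ‖ov y g i‖ :=
              mul_le_mul_of_nonneg_right (norm_inner_le_norm _ _) (norm_nonneg _)
          _ = (‖ov y g i‖ * ‖sc F T (ov y g i)‖) * ‖y‖ := by ring
          _ ≤ C' * ‖y‖ := mul_le_mul_of_nonneg_right (hC' _) (norm_nonneg _)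
    _ = (j : ℝ) * C' * ‖y‖ := by
        rw [Finset.sum_const, Finset.card_univ, Fintype.card_fin, nsmul_eq_mul]
        ring

/-- the vector valued Cauchy-Schwarz inequality with a weight -/
private theorem c2a_cs {Z : Type*} [MeasurableSpace Z] (ν : Measure Z) (ρ : Z → ℝ) (v : Z → V)
    (h0 : ∀ z, 0 ≤ ρ z) (i1 : Integrable ρ ν) (i2 : Integrable (fun z => ρ z • v z) ν)
    (i3 : Integrable (fun z => ρ z * ‖v z‖ ^ 2) ν) (hpos : 0 < ∫ z, ρ z ∂ν) :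
    ‖∫ z, ρ z • v z ∂ν‖ ^ 2 / (∫ z, ρ z ∂ν) ≤ ∫ z, ρ z * ‖v z‖ ^ 2 ∂ν := by
  obtain ⟨N, hN⟩ : ∃ N : ℝ, N = ∫ z, ρ z ∂ν := ⟨_, rfl⟩
  obtain ⟨w, hw⟩ : ∃ w : V, w = ∫ z, ρ z • v z ∂ν := ⟨_, rfl⟩
  rw [← hN] at hpos ⊢
  rw [← hw]
  obtain ⟨c, hc⟩ : ∃ c : V, c = N⁻¹ • w := ⟨_, rfl⟩
  have e : ∀ z, ρ z * ‖v z - c‖ ^ 2 = (ρ z * ‖v z‖ ^ 2 - 2 * ⟪c, ρ z • v z⟫) + ‖c‖ ^ 2 * ρ z := by
    intro z
    rw [norm_sub_sq_real, real_inner_smul_right, real_inner_comm c (v z)]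
    ring
  have j2 : Integrable (fun z => 2 * ⟪c, ρ z • v z⟫) ν := (i2.const_inner c).const_mul 2
  have h1 : 0 ≤ ∫ z, ρ z * ‖v z - c‖ ^ 2 ∂ν :=
    integral_nonneg fun z => mul_nonneg (h0 z) (sq_nonneg _)
  have j4 : Integrable (fun z => ρ z * ‖v z‖ ^ 2 - 2 * ⟪c, ρ z • v z⟫) ν := i3.sub j2
  simp_rw [e] at h1
  rw [integral_add j4 (i1.const_mul _), integral_sub i3 j2, integral_const_mul, integral_const_mul,
    integral_inner i2, ← hN, ← hw] at h1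
  have h2 : ⟪c, w⟫ = N⁻¹ * ‖w‖ ^ 2 := by
    rw [hc, real_inner_smul_left, real_inner_self_eq_norm_sq]
  have h3 : ‖c‖ ^ 2 * N = N⁻¹ * ‖w‖ ^ 2 := by
    rw [hc, norm_smul, norm_inv, Real.norm_of_nonneg hpos.le]
    field_simp
  rw [h2, h3] at h1
  rw [div_eq_inv_mul]
  linarith

theorem RC.tt_cs {j : ℕ} (hj : j < Module.finrank ℝ V) {F : V → ℝ} {T : V → V} (h : RC F T) {y : V} (hy : y ≠ 0) :
    ‖y‖ ^ 2 * ‖TT j F T y‖ ^ 2 / NN j F y ≤ (‖y‖ ^ 2)⁻¹ * QQ j F T y := by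
  obtain ⟨c, C, hc, hb⟩ := NN_bounds hj h
  have hNpos : 0 < NN j F y := hc.trans_le (hb y).1
  obtain ⟨B, hB0, hB⟩ := c2a_bd h j y
  have hm := c2a_meas' h.mf h.mT j y
  have i1 : Integrable (fun g => wv (ov y g) ^ 2 * pf F (ov y g)) (gp V j) := by
    have h1 := h.integrable_sq_mul (j := j) y (φ := fun _ => (1 : ℝ)) measurable_const (C := 1)
      (fun x => by simp)
    simpa only [mul_one] using h1
  have i3 : Integrable (fun g => wv (ov y g) ^ 2 * pf F (ov y g) *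
      ‖∑ i, ⟪sc F T (ov y g i), y⟫ • ov y g i‖ ^ 2) (gp V j) := by
    refine h.integrable_sq_mul (j := j) y (hm.norm.pow_const 2) (C := B ^ 2) fun g => ?_
    rw [abs_of_nonneg (sq_nonneg _)]
    exact pow_le_pow_left₀ (norm_nonneg _) (hB g) 2
  have i2 : Integrable (fun g => (wv (ov y g) ^ 2 * pf F (ov y g)) •
      ∑ i, ⟪sc F T (ov y g i), y⟫ • ov y g i) (gp V j) := by
    refine (i1.mul_const B).mono' ?_ (Eventually.of_forall fun g => ?_)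
    · exact (((((measurable_wv j).comp (c2a_ov j y)).pow_const 2).mul
        ((measurable_pf h.mf j).comp (c2a_ov j y))).smul hm).aestronglyMeasurable
    · rw [norm_smul, Real.norm_eq_abs, abs_of_nonneg (mul_nonneg (sq_nonneg _) (h.pf_pos _).le)]
      exact mul_le_mul_of_nonneg_left (hB g) (mul_nonneg (sq_nonneg _) (h.pf_pos _).le)
  have key := c2a_cs (gp V j) (fun g => wv (ov y g) ^ 2 * pf F (ov y g))
    (fun g => ∑ i, ⟪sc F T (ov y g i), y⟫ • ov y g i)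
    (fun g => mul_nonneg (sq_nonneg _) (h.pf_pos _).le) i1 i2 i3 hNpos
  have hy' : 0 < ‖y‖ := norm_pos_iff.2 hy
  unfold TT
  rw [norm_smul, norm_neg, norm_inv, norm_pow, norm_norm]
  obtain ⟨w, hw⟩ : ∃ w : V, w = ∫ g, (wv (ov y g) ^ 2 * pf F (ov y g)) •
    ∑ i, ⟪sc F T (ov y g i), y⟫ • ov y g i ∂(gp V j) := ⟨_, rfl⟩
  rw [← hw] at key ⊢
  calc ‖y‖ ^ 2 * ((‖y‖ ^ 2)⁻¹ * ‖w‖) ^ 2 / NN j F y = (‖y‖ ^ 2)⁻¹ * (‖w‖ ^ 2 / NN j F y) := by
        field_simp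
    _ ≤ (‖y‖ ^ 2)⁻¹ * QQ j F T y := mul_le_mul_of_nonneg_left key (by positivity)

theorem measurable_QQ {F : V → ℝ} {T : V → V} (hF : Measurable F) (hT : Measurable T) (j : ℕ) :
    Measurable (QQ j F T) := by
  unfold QQ
  exact (((((measurable_wv j).comp (measurable_ov j)).pow_const 2).mul
    ((measurable_pf hF j).comp (measurable_ov j))).mul
    ((c2a_meas hF hT j).norm.pow_const 2)).stronglyMeasurable.integral_prod_right'.measurable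

theorem RC.QQ_nonneg {F : V → ℝ} {T : V → V} (h : RC F T) (j : ℕ) (y : V) : 0 ≤ QQ j F T y :=
  integral_nonneg fun g => mul_nonneg (mul_nonneg (sq_nonneg _) (h.pf_pos _).le) (sq_nonneg _)

theorem QQ_smul (F : V → ℝ) (T : V → V) (j : ℕ) {c : ℝ} (hc : c ≠ 0) (y : V) :
    QQ j F T (c • y) = c ^ 2 * QQ j F T y := by
  unfold QQ
  rw [← integral_const_mul]
  refine integral_congr_ae (Eventually.of_forall fun g => ?_)
  have e1 : ov (c • y) g = ov y g := by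
    funext i
    exact ort_smul_left hc y (g i)
  have e2 : ∑ i, ⟪sc F T (ov y g i), c • y⟫ • ov y g i = c • ∑ i, ⟪sc F T (ov y g i), y⟫ • ov y g i := by
    rw [Finset.smul_sum]
    refine Finset.sum_congr rfl fun i _ => ?_
    rw [real_inner_smul_right, mul_smul]
  show wv (ov (c • y) g) ^ 2 * pf F (ov (c • y) g) *
      ‖∑ i, ⟪sc F T (ov (c • y) g i), c • y⟫ • ov (c • y) g i‖ ^ 2 =
    c ^ 2 * (wv (ov y g) ^ 2 * pf F (ov y g) * ‖∑ i, ⟪sc F T (ov y g i), y⟫ • ov y g i‖ ^ 2)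
  rw [e1, e2, norm_smul, mul_pow, Real.norm_eq_abs, sq_abs]
  ring

end Pool.Agent.FI75
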