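import Pool.Agent.FI75.C2a
import Pool.Agent.FI75.B3
import Pool.Agent.FI75.M1
import Pool.Agent.FI75.NM

/-! Module FI-C2b (Blaschke-Petkantschin for `E0`, `E2`). `bpf0`: `bpf` with `Φ x y = ofReal (pf F x)`, the right side is
`∫⁻ y, ofReal ((‖y‖^j)⁻¹) * ofReal (NN j F y)`, then `radial_lintegral` (`NN_smul`). `bpf2`: `bpf` with
`Φ x y = ofReal (pf F x * ‖∑ ⟪sc F T (x i), y⟫ • x i‖²)`; on the left expand the square,
`∫ g, ⟪S_i, rv x g⟫ ⟪S_l, rv x g⟫ = ⟪rv x S_i, rv x S_l⟫` (`integral_res_mul`, `inner_res`, and `rv x (rv x v) = rv x v`).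
All integrands are nonnegative and integrable (FI-C0). -/

set_option autoImplicit false
set_option linter.unusedSectionVars false

namespace Pool.Agent.FI75
open MeasureTheory ProbabilityTheory Set Filter Topology Metric
open Pool.Agent.HP89
open scoped RealInnerProductSpace ENNReal

variable {V : Type*} [NormedAddCommGroup V] [InnerProductSpace ℝ V] [FiniteDimensional ℝ V]
  [MeasurableSpace V] [BorelSpace V]

private theorem ni_pow (y : V) (j : ℕ) : ni y ^ j = ENNReal.ofReal ((‖y‖ ^ j)⁻¹) := by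
  unfold ni
  rw [← ENNReal.ofReal_pow (by positivity), inv_pow]

private theorem wv_nn {j : ℕ} (x : Fin j → V) : 0 ≤ wv x := wn_nonneg _

private theorem meas_ov (j : ℕ) (y : V) : Measurable (fun g : Fin j → V => ov y g) :=
  (measurable_ov j).comp (measurable_const.prodMk measurable_id)

theorem RC.bpf0 {j : ℕ} (hj : j < Module.finrank ℝ V) {F : V → ℝ} {T : V → V} (h : RC F T) :
    ENNReal.ofReal (E0 j F) =
      (∫⁻ x : V, ENNReal.ofReal ((‖x‖ ^ j)⁻¹) ∂(stdGaussian V)) * ENNReal.ofReal (AA (NN j F)) := by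
  have hΦ : Measurable (Function.uncurry fun (x : Fin j → V) (_ : V) => ENNReal.ofReal (pf F x)) :=
    ENNReal.measurable_ofReal.comp ((measurable_pf h.mf j).comp measurable_fst)
  have hb := bpf hj hΦ
  have hL : ∫⁻ x, ENNReal.ofReal (wv x) * ∫⁻ _g : V, ENNReal.ofReal (pf F x) ∂(stdGaussian V)
      ∂(gp V j) = ENNReal.ofReal (E0 j F) := by
    have h1 : Integrable (fun x : Fin j → V => wv x * pf F x) (gp V j) := by
      have h2 := h.integrable_mul (j := j) (φ := fun _ => (1 : ℝ)) measurable_const (C := 1)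
        (fun _ => by simp)
      simpa using h2
    unfold E0
    rw [ofReal_integral_eq_lintegral_ofReal h1
      (Eventually.of_forall fun x => mul_nonneg (wn_nonneg _) (h.pf_pos x).le)]
    refine lintegral_congr fun x => ?_
    rw [lintegral_const, measure_univ, mul_one, ← ENNReal.ofReal_mul (wv_nn x)]
  have hR : ∀ y : V, ni y ^ j * ∫⁻ g, ENNReal.ofReal (wv (ov y g) ^ 2) *
      ENNReal.ofReal (pf F (ov y g)) ∂(gp V j) =
      ENNReal.ofReal ((‖y‖ ^ j)⁻¹) * ENNReal.ofReal (NN j F y) := by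
    intro y
    rw [ni_pow]
    congr 1
    have h1 : Integrable (fun g : Fin j → V => wv (ov y g) ^ 2 * pf F (ov y g)) (gp V j) := by
      have h2 := h.integrable_sq_mul (j := j) y (φ := fun _ => (1 : ℝ)) measurable_const (C := 1)
        (fun _ => by simp)
      simpa using h2
    unfold NN
    rw [ofReal_integral_eq_lintegral_ofReal h1
      (Eventually.of_forall fun g => mul_nonneg (sq_nonneg _) (h.pf_pos _).le)]
    refine lintegral_congr fun g => ?_
    rw [← ENNReal.ofReal_mul (sq_nonneg _)]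
  rw [hL] at hb
  rw [hb]
  simp only [hR]
  have hρ : Measurable fun r : ℝ => ENNReal.ofReal ((r ^ j)⁻¹) := by fun_prop
  rw [radial_lintegral (by omega) hρ (ψ := fun y => ENNReal.ofReal (NN j F y))
    (ENNReal.measurable_ofReal.comp (measurable_NN h.mf j))
    (fun c hc x => by rw [NN_smul j F hc.ne'])]
  congr 1
  obtain ⟨c, C, hc, hN⟩ := NN_bounds hj h
  unfold AA
  rw [ofReal_integral_eq_lintegral_ofReal]
  · refine Integrable.of_bound (measurable_NN h.mf j).aestronglyMeasurable C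
      (Eventually.of_forall fun y => ?_)
    rw [Real.norm_of_nonneg (hc.le.trans (hN y).1)]
    exact (hN y).2
  · exact Eventually.of_forall fun y => hc.le.trans (hN y).1

private theorem norm_sum_sq {j : ℕ} (f : Fin j → ℝ) (x : Fin j → V) :
    ‖∑ i, f i • x i‖ ^ 2 = ∑ i, ∑ l, ⟪x i, x l⟫ * (f i * f l) := by
  rw [← real_inner_self_eq_norm_sq, sum_inner]
  refine Finset.sum_congr rfl fun i _ => ?_
  rw [inner_sum]
  refine Finset.sum_congr rfl fun l _ => ?_
  rw [real_inner_smul_left, real_inner_smul_right]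
  ring

private theorem norm_rv_le {j : ℕ} (x : Fin j → V) (v : V) : ‖rv x v‖ ≤ ‖v‖ := norm_res_le _ _

theorem RC.bpf2 {j : ℕ} (hj : j < Module.finrank ℝ V) {F : V → ℝ} {T : V → V} (h : RC F T) :
    ENNReal.ofReal (E2 j F T) =
      ∫⁻ y, ENNReal.ofReal ((‖y‖ ^ j)⁻¹) * ENNReal.ofReal (QQ j F T y) ∂(stdGaussian V) := by
  obtain ⟨C, hC0, hC⟩ := h.sc_bdd
  have hms := h.measurable_sc
  have hΦ : Measurable (Function.uncurry fun (x : Fin j → V) (y : V) =>
      ENNReal.ofReal (pf F x * ‖∑ i, ⟪sc F T (x i), y⟫ • x i‖ ^ 2)) := by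
    refine ENNReal.measurable_ofReal.comp
      (((measurable_pf h.mf j).comp measurable_fst).mul (Measurable.pow_const (Measurable.norm ?_) 2))
    refine Finset.measurable_fun_sum _ fun i _ => ?_
    have hi : Measurable fun p : (Fin j → V) × V => p.1 i :=
      (measurable_pi_apply i).comp measurable_fst
    exact ((hms.comp hi).inner measurable_snd).smul hi
  have hb := bpf hj hΦ
  -- the left side
  set φ : (Fin j → V) → ℝ := fun x => ∑ i, ∑ l, ⟪x i, x l⟫ *
    ⟪rv x (sc F T (x i)), rv x (sc F T (x l))⟫ with hφdef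
  have hinner : ∀ x : Fin j → V, Integrable (fun g => ‖∑ i, ⟪sc F T (x i), rv x g⟫ • x i‖ ^ 2)
      (stdGaussian V) ∧ ∫ g, ‖∑ i, ⟪sc F T (x i), rv x g⟫ • x i‖ ^ 2 ∂(stdGaussian V) = φ x := by
    intro x
    have e1 : (fun g => ‖∑ i, ⟪sc F T (x i), rv x g⟫ • x i‖ ^ 2) = fun g => ∑ i, ∑ l, ⟪x i, x l⟫ *
        (⟪g, rv x (sc F T (x i))⟫ * ⟪g, rv x (sc F T (x l))⟫) := by
      funext g
      rw [norm_sum_sq]
      refine Finset.sum_congr rfl fun i _ => Finset.sum_congr rfl fun l _ => ?_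
      have e2 : ∀ v : V, ⟪v, rv x g⟫ = ⟪g, rv x v⟫ := by
        intro v
        unfold rv
        rw [real_inner_comm, inner_res]
      rw [e2, e2]
    have hint : ∀ i l : Fin j, Integrable (fun g => ⟪x i, x l⟫ *
        (⟪g, rv x (sc F T (x i))⟫ * ⟪g, rv x (sc F T (x l))⟫)) (stdGaussian V) := fun i l =>
      (integrable_inner_mul _ _).const_mul _
    rw [e1]
    refine ⟨integrable_finsetSum _ fun i _ => integrable_finsetSum _ fun l _ => hint i l, ?_⟩
    rw [integral_finsetSum _ fun i _ => integrable_finsetSum _ fun l _ => hint i l]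
    refine Finset.sum_congr rfl fun i _ => ?_
    rw [integral_finsetSum _ fun l _ => hint i l]
    refine Finset.sum_congr rfl fun l _ => ?_
    rw [integral_const_mul, integral_inner_mul]
  have hφ0 : ∀ x, 0 ≤ φ x := fun x => by
    rw [← (hinner x).2]
    exact integral_nonneg fun g => by positivity
  have hrvm : ∀ i : Fin j, Measurable fun x : Fin j → V => rv x (sc F T (x i)) := fun i =>
    (measurable_rv j).comp (measurable_id.prodMk (hms.comp (measurable_pi_apply i)))
  have hφm : Measurable φ := by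
    refine Finset.measurable_fun_sum _ fun i _ => Finset.measurable_fun_sum _ fun l _ => ?_
    exact ((measurable_pi_apply i).inner (measurable_pi_apply l)).mul ((hrvm i).inner (hrvm l))
  have hφb : ∀ x, |φ x| ≤ ∑ _i : Fin j, ∑ _l : Fin j, C * C := by
    intro x
    refine (Finset.abs_sum_le_sum_abs _ _).trans (Finset.sum_le_sum fun i _ => ?_)
    refine (Finset.abs_sum_le_sum_abs _ _).trans (Finset.sum_le_sum fun l _ => ?_)
    rw [abs_mul]
    have h1 : |⟪x i, x l⟫| ≤ ‖x i‖ * ‖x l‖ := abs_real_inner_le_norm _ _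
    have h2 : |⟪rv x (sc F T (x i)), rv x (sc F T (x l))⟫| ≤ ‖sc F T (x i)‖ * ‖sc F T (x l)‖ :=
      (abs_real_inner_le_norm _ _).trans
        (mul_le_mul (norm_rv_le _ _) (norm_rv_le _ _) (norm_nonneg _) (norm_nonneg _))
    calc |⟪x i, x l⟫| * |⟪rv x (sc F T (x i)), rv x (sc F T (x l))⟫|
        ≤ (‖x i‖ * ‖x l‖) * (‖sc F T (x i)‖ * ‖sc F T (x l)‖) :=
          mul_le_mul h1 h2 (abs_nonneg _) (by positivity)
      _ = (‖x i‖ * ‖sc F T (x i)‖) * (‖x l‖ * ‖sc F T (x l)‖) := by ring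
      _ ≤ C * C := mul_le_mul (hC _) (hC _) (by positivity) hC0
  have hL : ∫⁻ x, ENNReal.ofReal (wv x) * ∫⁻ g : V, ENNReal.ofReal
      (pf F x * ‖∑ i, ⟪sc F T (x i), rv x g⟫ • x i‖ ^ 2) ∂(stdGaussian V)
      ∂(gp V j) = ENNReal.ofReal (E2 j F T) := by
    unfold E2
    rw [ofReal_integral_eq_lintegral_ofReal (h.integrable_mul hφm hφb)
      (Eventually.of_forall fun x =>
        mul_nonneg (mul_nonneg (wn_nonneg _) (h.pf_pos x).le) (hφ0 x))]
    refine lintegral_congr fun x => ?_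
    rw [← ofReal_integral_eq_lintegral_ofReal ((hinner x).1.const_mul _)
      (Eventually.of_forall fun g => mul_nonneg (h.pf_pos x).le (sq_nonneg _)),
      integral_const_mul, (hinner x).2, ← ENNReal.ofReal_mul (wv_nn x), mul_assoc]
  have hR : ∀ y : V, ni y ^ j * ∫⁻ g, ENNReal.ofReal (wv (ov y g) ^ 2) *
      ENNReal.ofReal (pf F (ov y g) * ‖∑ i, ⟪sc F T (ov y g i), y⟫ • ov y g i‖ ^ 2) ∂(gp V j) =
      ENNReal.ofReal ((‖y‖ ^ j)⁻¹) * ENNReal.ofReal (QQ j F T y) := by
    intro y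
    rw [ni_pow]
    congr 1
    have hm : Measurable fun g : Fin j → V => ‖∑ i, ⟪sc F T (ov y g i), y⟫ • ov y g i‖ ^ 2 := by
      refine Measurable.pow_const (Measurable.norm ?_) 2
      refine Finset.measurable_fun_sum _ fun i _ => ?_
      have hi : Measurable fun g : Fin j → V => ov y g i :=
        (measurable_pi_apply i).comp (meas_ov j y)
      exact ((hms.comp hi).inner measurable_const).smul hi
    have hbd : ∀ g : Fin j → V, |‖∑ i, ⟪sc F T (ov y g i), y⟫ • ov y g i‖ ^ 2| ≤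
        (∑ _i : Fin j, C * ‖y‖) ^ 2 := by
      intro g
      rw [abs_of_nonneg (sq_nonneg _)]
      refine pow_le_pow_left₀ (norm_nonneg _) ?_ 2
      refine (norm_sum_le _ _).trans (Finset.sum_le_sum fun i _ => ?_)
      rw [norm_smul, Real.norm_eq_abs]
      calc |⟪sc F T (ov y g i), y⟫| * ‖ov y g i‖ ≤ (‖sc F T (ov y g i)‖ * ‖y‖) * ‖ov y g i‖ :=
            mul_le_mul_of_nonneg_right (abs_real_inner_le_norm _ _) (norm_nonneg _)
        _ = (‖ov y g i‖ * ‖sc F T (ov y g i)‖) * ‖y‖ := by ring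
        _ ≤ C * ‖y‖ := mul_le_mul_of_nonneg_right (hC _) (norm_nonneg _)
    unfold QQ
    rw [ofReal_integral_eq_lintegral_ofReal (h.integrable_sq_mul y hm hbd)
      (Eventually.of_forall fun g =>
        mul_nonneg (mul_nonneg (sq_nonneg _) (h.pf_pos _).le) (sq_nonneg _))]
    refine lintegral_congr fun g => ?_
    rw [← ENNReal.ofReal_mul (sq_nonneg _), mul_assoc]
  rw [hL] at hb
  rw [hb]
  simp only [hR]

end Pool.Agent.FI75
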