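import Pool.Agent.FI75.C2b
import Pool.Agent.FI75.C1c

/-! Module FI-C2c (first half of the contraction). Write `(‖y‖^j)⁻¹ QQ y = (‖y‖^2 (‖y‖^j)⁻¹) * ((‖y‖²)⁻¹ QQ y)` (`y ≠ 0`), the second
factor is homogeneous of degree `0` (`QQ_smul`): `radial_lintegral` and `nmom_sq` give
`ofReal E2 = ofReal (d - j) * I_j * ∫⁻ ofReal ((‖y‖²)⁻¹ QQ y) ≥ ofReal (d - j) * I_j * ofReal (JJ (NN j F) (TT j F T))`
(`RC.tt_cs`), `I_j = ∫⁻ ofReal ((‖x‖^j)⁻¹)` finite and positive. With `bpf0` eliminate `I_j`. -/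

set_option autoImplicit false

namespace Pool.Agent.FI75
open MeasureTheory ProbabilityTheory Set Filter Topology Metric
open Pool.Agent.HP89
open scoped RealInnerProductSpace ENNReal

variable {V : Type*} [NormedAddCommGroup V] [InnerProductSpace ℝ V] [FiniteDimensional ℝ V]
  [MeasurableSpace V] [BorelSpace V]

private theorem c2_ae (hd : 1 ≤ Module.finrank ℝ V) : ∀ᵐ x : V ∂(stdGaussian V), x ≠ 0 := by
  have hN : Nontrivial V := Module.nontrivial_of_finrank_pos (R := ℝ) (by omega)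
  have h0 : (stdGaussian V) {(0 : V)} = 0 := by
    rw [stdGaussian_density, withDensity_apply _ (measurableSet_singleton _)]
    simp
  rw [ae_iff]
  simpa using h0

omit [MeasurableSpace V] [BorelSpace V] in
/-- the Hadamard product of two Gram matrices is positive semidefinite (tested on the vector of ones) -/
private theorem schur_nonneg {j : ℕ} (x R : Fin j → V) : 0 ≤ ∑ i, ∑ l, ⟪x i, x l⟫ * ⟪R i, R l⟫ := by
  let b := stdOrthonormalBasis ℝ V
  have e : ∑ i, ∑ l, ⟪x i, x l⟫ * ⟪R i, R l⟫ = ∑ m, ‖∑ i, ⟪x i, b m⟫ • R i‖ ^ 2 := by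
    have h1 : ∀ m, ‖∑ i, ⟪x i, b m⟫ • R i‖ ^ 2 =
        ∑ i, ∑ l, (⟪x i, b m⟫ * ⟪b m, x l⟫) * ⟪R i, R l⟫ := by
      intro m
      rw [← real_inner_self_eq_norm_sq, sum_inner]
      refine Finset.sum_congr rfl fun i _ => ?_
      rw [inner_sum]
      refine Finset.sum_congr rfl fun l _ => ?_
      rw [real_inner_smul_left, real_inner_smul_right, real_inner_comm (x l) (b m)]
      ring
    simp only [h1]
    symm
    rw [Finset.sum_comm]
    refine Finset.sum_congr rfl fun i _ => ?_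
    rw [Finset.sum_comm]
    refine Finset.sum_congr rfl fun l _ => ?_
    rw [← Finset.sum_mul, b.sum_inner_mul_inner]
  rw [e]
  exact Finset.sum_nonneg fun m _ => sq_nonneg _

private theorem E2_nonneg {F : V → ℝ} {T : V → V} (h : RC F T) (j : ℕ) : 0 ≤ E2 j F T := by
  unfold E2
  exact integral_nonneg fun x =>
    mul_nonneg (mul_nonneg (wn_nonneg _) (h.pf_pos x).le) (schur_nonneg x _)

theorem RC.k123 (hd : 2 ≤ Module.finrank ℝ V) {j : ℕ} (hj : j < Module.finrank ℝ V) {F : V → ℝ} {T : V → V}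
    (h : RC F T) :
    ((Module.finrank ℝ V : ℝ) - j) * JJ (NN j F) (TT j F T) * E0 j F ≤ E2 j F T * AA (NN j F) := by
  have hRC := h.next hd hj
  have hae := c2_ae (V := V) (by omega)
  have hdj : (0 : ℝ) ≤ (Module.finrank ℝ V : ℝ) - j := by
    have : (j : ℝ) ≤ Module.finrank ℝ V := by exact_mod_cast hj.le
    linarith
  have hAA : 0 ≤ AA (NN j F) := hRC.AA_pos.le
  have hJJ : 0 ≤ JJ (NN j F) (TT j F T) := hRC.JJ_nonneg
  have hE2 : 0 ≤ E2 j F T := E2_nonneg h j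
  -- the angular function
  have hψm : Measurable fun y : V => ENNReal.ofReal ((‖y‖ ^ 2)⁻¹ * QQ j F T y) :=
    ENNReal.measurable_ofReal.comp ((measurable_norm.pow_const 2).inv.mul (measurable_QQ h.mf h.mT j))
  have hψh : ∀ c : ℝ, 0 < c → ∀ y : V, ENNReal.ofReal ((‖c • y‖ ^ 2)⁻¹ * QQ j F T (c • y)) =
      ENNReal.ofReal ((‖y‖ ^ 2)⁻¹ * QQ j F T y) := by
    intro c hc y
    congr 1
    rw [QQ_smul F T j hc.ne', norm_smul, Real.norm_of_nonneg hc.le, mul_pow, mul_inv]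
    have : c ^ 2 ≠ 0 := pow_ne_zero _ hc.ne'
    field_simp
  have hρm : Measurable fun r : ℝ => ENNReal.ofReal (r ^ 2 * (r ^ j)⁻¹) := by fun_prop
  have h2 : ENNReal.ofReal (E2 j F T) =
      (ENNReal.ofReal ((Module.finrank ℝ V : ℝ) - j) *
        ∫⁻ x : V, ENNReal.ofReal ((‖x‖ ^ j)⁻¹) ∂(stdGaussian V)) *
        ∫⁻ y, ENNReal.ofReal ((‖y‖ ^ 2)⁻¹ * QQ j F T y) ∂(stdGaussian V) := by
    rw [h.bpf2 hj, ← nmom_sq hj, ← radial_lintegral (by omega) hρm hψm hψh]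
    refine lintegral_congr_ae ?_
    filter_upwards [hae] with y hy
    have hy' : 0 < ‖y‖ := norm_pos_iff.2 hy
    rw [← ENNReal.ofReal_mul (by positivity), ← ENNReal.ofReal_mul (by positivity)]
    congr 1
    field_simp
  have h3 : ENNReal.ofReal (JJ (NN j F) (TT j F T)) ≤
      ∫⁻ y, ENNReal.ofReal ((‖y‖ ^ 2)⁻¹ * QQ j F T y) ∂(stdGaussian V) := by
    unfold JJ
    rw [ofReal_integral_eq_lintegral_ofReal hRC.integrable_JJ (Eventually.of_forall fun x => by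
      have := hRC.F_pos x
      show 0 ≤ ‖x‖ ^ 2 * ‖TT j F T x‖ ^ 2 / NN j F x
      positivity)]
    refine lintegral_mono_ae ?_
    filter_upwards [hae] with y hy
    exact ENNReal.ofReal_le_ofReal (h.tt_cs hj hy)
  have h0 := h.bpf0 hj
  rw [← ENNReal.ofReal_le_ofReal_iff (mul_nonneg hE2 hAA),
    ENNReal.ofReal_mul (mul_nonneg hdj hJJ), ENNReal.ofReal_mul hdj, ENNReal.ofReal_mul hE2, h0, h2]
  calc ENNReal.ofReal ((Module.finrank ℝ V : ℝ) - j) * ENNReal.ofReal (JJ (NN j F) (TT j F T)) *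
        ((∫⁻ x : V, ENNReal.ofReal ((‖x‖ ^ j)⁻¹) ∂(stdGaussian V)) * ENNReal.ofReal (AA (NN j F)))
      = (ENNReal.ofReal ((Module.finrank ℝ V : ℝ) - j) *
        ∫⁻ x : V, ENNReal.ofReal ((‖x‖ ^ j)⁻¹) ∂(stdGaussian V)) *
        ENNReal.ofReal (JJ (NN j F) (TT j F T)) * ENNReal.ofReal (AA (NN j F)) := by ring
    _ ≤ _ := by gcongr

end Pool.Agent.FI75
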