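import Pool.Agent.FI75.R2
import Pool.Agent.FI75.M1

/-! Module FI-C3b (integration by parts in the plane of `p` and `τ`). -/

set_option autoImplicit false

namespace Pool.Agent.FI75
open MeasureTheory ProbabilityTheory Set Filter Topology Metric
open Pool.Agent.HP89
open scoped RealInnerProductSpace ENNReal

variable {V : Type*} [NormedAddCommGroup V] [InnerProductSpace ℝ V] [FiniteDimensional ℝ V]
  [MeasurableSpace V] [BorelSpace V]

omit [FiniteDimensional ℝ V] [MeasurableSpace V] [BorelSpace V] in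
theorem hasDerivAt_norm' {c : ℝ → V} {c' : V} {t : ℝ} (h : HasDerivAt c c' t) (h0 : c t ≠ 0) :
    HasDerivAt (fun t => ‖c t‖) (⟪c t, c'⟫ / ‖c t‖) t := by
  have h1 : HasDerivAt (fun t => ‖c t‖ ^ 2) (2 * ⟪c t, c'⟫) t := h.norm_sq
  have h2 := h1.sqrt (pow_ne_zero 2 (norm_ne_zero_iff.2 h0))
  have h3 : (fun t => √(‖c t‖ ^ 2)) = fun t => ‖c t‖ := by
    funext t
    exact Real.sqrt_sq (norm_nonneg _)
  rw [h3, Real.sqrt_sq (norm_nonneg _)] at h2
  convert h2 using 1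
  rw [mul_div_mul_left _ _ two_ne_zero]

omit [MeasurableSpace V] [BorelSpace V] in
theorem norm_rt_sub_le {A : V →L[ℝ] V} (hA : Skew A) (x : V) (s t : ℝ) :
    ‖rt A s x - rt A t x‖ ≤ ‖A‖ * ‖x‖ * |s - t| := by
  have h1 := Convex.norm_image_sub_le_of_norm_hasDerivWithin_le (f := fun s : ℝ => rt A s x)
    (f' := fun s => A (rt A s x)) (s := univ) (x := t) (y := s) (C := ‖A‖ * ‖x‖)
    (fun u _ => (hasDerivAt_rt A x u).hasDerivWithinAt)
    (fun u _ => by
      have := A.le_opNorm (rt A u x)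
      rwa [hA.norm_rt] at this) convex_univ (mem_univ _) (mem_univ _)
  rwa [Real.norm_eq_abs] at h1

theorem RD.hasDerivAt_rt' {F : V → ℝ} {T : V → V} (h : RD F T) {A : V →L[ℝ] V} (hA : Skew A) {x : V} (hx : x ≠ 0)
    (t : ℝ) : HasDerivAt (fun t : ℝ => F (rt A t x)) ⟪T (rt A t x), A (rt A t x)⟫ t := by
  have h1 := h.der A hA (rt A t x) (hA.rt_ne_zero t hx)
  have h2 : HasDerivAt (fun s : ℝ => F (rt A s (rt A t x))) ⟪T (rt A t x), A (rt A t x)⟫ (t - t) := by
    rw [sub_self]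
    exact h1
  have h3 := h2.comp_sub_const t t
  have h4 : (fun s : ℝ => F (rt A (s - t) (rt A t x))) = fun s : ℝ => F (rt A s x) := by
    funext s
    rw [← rt_add, sub_add_cancel]
  rwa [h4] at h3

theorem RD.lip {F : V → ℝ} {T : V → V} (h : RD F T) {A : V →L[ℝ] V} (hA : Skew A) {C : ℝ}
    (hC : ∀ x, ‖x‖ * ‖T x‖ ≤ C) {x : V} (hx : x ≠ 0) (s t : ℝ) :
    |F (rt A s x) - F (rt A t x)| ≤ C * ‖A‖ * |s - t| := by
  have h1 := Convex.norm_image_sub_le_of_norm_hasDerivWithin_le (f := fun s : ℝ => F (rt A s x))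
    (f' := fun s => ⟪T (rt A s x), A (rt A s x)⟫) (s := univ) (x := t) (y := s) (C := C * ‖A‖)
    (fun u _ => (h.hasDerivAt_rt' hA hx u).hasDerivWithinAt)
    (fun u _ => by
      have h2 := A.le_opNorm (rt A u x)
      calc ‖⟪T (rt A u x), A (rt A u x)⟫‖ ≤ ‖T (rt A u x)‖ * ‖A (rt A u x)‖ := norm_inner_le_norm _ _
        _ ≤ ‖T (rt A u x)‖ * (‖A‖ * ‖rt A u x‖) := mul_le_mul_of_nonneg_left h2 (norm_nonneg _)
        _ = (‖rt A u x‖ * ‖T (rt A u x)‖) * ‖A‖ := by ring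
        _ ≤ C * ‖A‖ := mul_le_mul_of_nonneg_right (hC _) (norm_nonneg _)) convex_univ (mem_univ _) (mem_univ _)
  rwa [Real.norm_eq_abs, Real.norm_eq_abs] at h1

omit [MeasurableSpace V] [BorelSpace V] in
theorem res_mem_eq_zero {R : List V} {p : V} (hp : p ∈ R) : res R p = 0 := by
  rw [res_eq, Submodule.starProjection_orthogonal_val, sub_eq_zero]
  symm
  rw [Submodule.starProjection_eq_self_iff]
  exact Submodule.subset_span hp

omit [MeasurableSpace V] [BorelSpace V] in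
theorem hasDerivAt_res_rt (R : List V) (A : V →L[ℝ] V) (x : V) (t : ℝ) :
    HasDerivAt (fun t : ℝ => res R (rt A t x)) (res R (A (rt A t x))) t := by
  have h1 := ((Submodule.span ℝ {x | x ∈ R})ᗮ.starProjection).hasFDerivAt.comp_hasDerivAt t (hasDerivAt_rt A x t)
  have h2 : (fun t : ℝ => res R (rt A t x)) =
      ((Submodule.span ℝ {x | x ∈ R})ᗮ.starProjection : V → V) ∘ (fun s : ℝ => rt A s x) := by
    funext t
    exact res_eq R _
  rw [h2, res_eq]
  exact h1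

omit [MeasurableSpace V] [BorelSpace V] in
theorem res_sub (R : List V) (x y : V) : res R (x - y) = res R x - res R y := by
  have h1 := res_add R x (-y)
  have h2 := res_smul R (-1) y
  rw [neg_one_smul, neg_one_smul] at h2
  rw [sub_eq_add_neg, h1, h2, ← sub_eq_add_neg]

theorem ae_res_ne_zero' {R : List V} (h : R.length < Module.finrank ℝ V) :
    ∀ᵐ g ∂(stdGaussian V), res R g ≠ 0 := by
  have := ae_res_ne_zero (V := V) (X := R) (Y := []) (by simpa using h)
  simpa using this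

theorem RD.i2 {F : V → ℝ} {T : V → V} (h : RD F T) {R : List V}
    (hl : R.length < Module.finrank ℝ V) {p : V} (hp : p ∈ R) (τ : V) :
    ∫ x, ‖res R x‖ * (⟪p, x⟫ * ⟪τ, T x⟫ - ⟪p, T x⟫ * ⟪τ, x⟫) ∂(stdGaussian V) =
      -∫ x, ⟪p, x⟫ * ⟪res R x, τ⟫ / ‖res R x‖ * F x ∂(stdGaussian V) := by
  obtain ⟨C, hC⟩ := h.bdd
  have hC0 : 0 ≤ C := (abs_nonneg _).trans (hC 0).1
  obtain ⟨A, hA, hAx⟩ := exists_skew τ p
  have hm := h.mf
  have hmT := h.mT
  have hresm : Measurable (fun x : V => res R x) := (continuous_res R).measurable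
  have hg := integrable_norm_gaussian (V := V)
  set G1 : V → ℝ := fun x => ‖res R x‖ * (⟪p, x⟫ * ⟪τ, T x⟫ - ⟪p, T x⟫ * ⟪τ, x⟫) with hG1
  set G2 : V → ℝ := fun x => ⟪p, x⟫ * ⟪res R x, τ⟫ / ‖res R x‖ * F x with hG2
  have mG1 : Measurable G1 := by fun_prop
  have mG2 : Measurable G2 := by fun_prop
  have bG1 : ∀ x, |G1 x| ≤ 2 * ‖p‖ * ‖τ‖ * C * ‖x‖ := by
    intro x
    have h1 : |⟪p, x⟫ * ⟪τ, T x⟫ - ⟪p, T x⟫ * ⟪τ, x⟫| ≤ 2 * ‖p‖ * ‖τ‖ * C := by
      have a1 := abs_real_inner_le_norm p x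
      have a2 := abs_real_inner_le_norm τ (T x)
      have a3 := abs_real_inner_le_norm p (T x)
      have a4 := abs_real_inner_le_norm τ x
      calc |⟪p, x⟫ * ⟪τ, T x⟫ - ⟪p, T x⟫ * ⟪τ, x⟫| ≤ |⟪p, x⟫ * ⟪τ, T x⟫| + |⟪p, T x⟫ * ⟪τ, x⟫| := abs_sub _ _
        _ = |⟪p, x⟫| * |⟪τ, T x⟫| + |⟪p, T x⟫| * |⟪τ, x⟫| := by rw [abs_mul, abs_mul]
        _ ≤ (‖p‖ * ‖x‖) * (‖τ‖ * ‖T x‖) + (‖p‖ * ‖T x‖) * (‖τ‖ * ‖x‖) := by
            apply add_le_add
            · exact mul_le_mul a1 a2 (abs_nonneg _) (by positivity)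
            · exact mul_le_mul a3 a4 (abs_nonneg _) (by positivity)
        _ = 2 * ‖p‖ * ‖τ‖ * (‖x‖ * ‖T x‖) := by ring
        _ ≤ 2 * ‖p‖ * ‖τ‖ * C := mul_le_mul_of_nonneg_left (hC x).2 (by positivity)
    simp only [hG1]
    rw [abs_mul, abs_norm, mul_comm]
    exact mul_le_mul h1 (norm_res_le R x) (norm_nonneg _) (by positivity)
  have bG2 : ∀ x, |G2 x| ≤ ‖p‖ * ‖τ‖ * C * ‖x‖ := by
    intro x
    simp only [hG2]
    rw [abs_mul, abs_div, abs_mul, abs_norm]
    have a1 := abs_real_inner_le_norm p x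
    have a2 := abs_real_inner_le_norm (res R x) τ
    have h3 : |⟪p, x⟫| * |⟪res R x, τ⟫| / ‖res R x‖ ≤ ‖p‖ * ‖x‖ * ‖τ‖ := by
      by_cases h0 : ‖res R x‖ = 0
      · rw [h0, div_zero]
        positivity
      · have hpos : 0 < ‖res R x‖ := lt_of_le_of_ne (norm_nonneg _) (Ne.symm h0)
        rw [div_le_iff₀ hpos]
        calc |⟪p, x⟫| * |⟪res R x, τ⟫| ≤ (‖p‖ * ‖x‖) * (‖res R x‖ * ‖τ‖) :=
              mul_le_mul a1 a2 (abs_nonneg _) (by positivity)
          _ = ‖p‖ * ‖x‖ * ‖τ‖ * ‖res R x‖ := by ring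
    calc |⟪p, x⟫| * |⟪res R x, τ⟫| / ‖res R x‖ * |F x| ≤ (‖p‖ * ‖x‖ * ‖τ‖) * C :=
          mul_le_mul h3 (hC x).1 (abs_nonneg _) (by positivity)
      _ = ‖p‖ * ‖τ‖ * C * ‖x‖ := by ring
  have iG1 : Integrable G1 (stdGaussian V) :=
    Integrable.mono' (hg.const_mul (2 * ‖p‖ * ‖τ‖ * C)) mG1.aestronglyMeasurable
      (Eventually.of_forall fun x => by rw [Real.norm_eq_abs]; exact bG1 x)
  have iG2 : Integrable G2 (stdGaussian V) :=
    Integrable.mono' (hg.const_mul (‖p‖ * ‖τ‖ * C)) mG2.aestronglyMeasurable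
      (Eventually.of_forall fun x => by rw [Real.norm_eq_abs]; exact bG2 x)
  have hΘ : Integrable (fun x => ‖res R x‖ * F x) (stdGaussian V) := by
    refine Integrable.mono' (hg.const_mul C) (by fun_prop) (Eventually.of_forall fun x => ?_)
    rw [Real.norm_eq_abs, abs_mul, abs_norm, mul_comm]
    exact mul_le_mul (hC x).1 (norm_res_le R x) (norm_nonneg _) hC0
  have hae := ae_res_ne_zero' hl
  have key := rot_zero hA (Θ := fun x => ‖res R x‖ * F x) (Θ' := fun x => G1 x + G2 x)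
    (B := fun x => 2 * (C * ‖A‖) * ‖x‖) hΘ (mG1.add mG2).aestronglyMeasurable (hg.const_mul _) ?_ ?_
  · rw [integral_add iG1 iG2] at key
    linarith
  · filter_upwards [hae] with x hx s t
    have hx0 : x ≠ 0 := by
      intro h0
      apply hx
      rw [h0]
      have := res_smul R 0 (0 : V)
      simpa using this
    have e1 := h.lip hA (fun y => (hC y).2) hx0 s t
    have e2 : |‖res R (rt A s x)‖ - ‖res R (rt A t x)‖| ≤ ‖A‖ * ‖x‖ * |s - t| := by
      refine (abs_norm_sub_norm_le _ _).trans ?_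
      rw [← res_sub]
      exact (norm_res_le R _).trans (norm_rt_sub_le hA x s t)
    have e3 : ‖res R (rt A t x)‖ ≤ ‖x‖ := by
      have := norm_res_le R (rt A t x)
      rwa [hA.norm_rt] at this
    have e4 : ‖res R (rt A s x)‖ * F (rt A s x) - ‖res R (rt A t x)‖ * F (rt A t x) =
        (‖res R (rt A s x)‖ - ‖res R (rt A t x)‖) * F (rt A s x) +
          ‖res R (rt A t x)‖ * (F (rt A s x) - F (rt A t x)) := by ring
    rw [e4]
    calc |(‖res R (rt A s x)‖ - ‖res R (rt A t x)‖) * F (rt A s x) +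
          ‖res R (rt A t x)‖ * (F (rt A s x) - F (rt A t x))|
        ≤ |(‖res R (rt A s x)‖ - ‖res R (rt A t x)‖) * F (rt A s x)| +
          |‖res R (rt A t x)‖ * (F (rt A s x) - F (rt A t x))| := abs_add_le _ _
      _ = |‖res R (rt A s x)‖ - ‖res R (rt A t x)‖| * |F (rt A s x)| +
          ‖res R (rt A t x)‖ * |F (rt A s x) - F (rt A t x)| := by rw [abs_mul, abs_mul, abs_norm]
      _ ≤ (‖A‖ * ‖x‖ * |s - t|) * C + ‖x‖ * (C * ‖A‖ * |s - t|) := by
          apply add_le_add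
          · exact mul_le_mul e2 (hC _).1 (abs_nonneg _) (by positivity)
          · exact mul_le_mul e3 e1 (abs_nonneg _) (norm_nonneg _)
      _ = 2 * (C * ‖A‖) * ‖x‖ * |s - t| := by ring
  · filter_upwards [hae] with x hx
    have hx0 : x ≠ 0 := by
      intro h0
      apply hx
      rw [h0]
      have := res_smul R 0 (0 : V)
      simpa using this
    have d1 := hasDerivAt_norm' (hasDerivAt_res_rt R A x 0) (by rw [rt_zero]; exact hx)
    have d2 := h.der A hA x hx0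
    have d3 := d1.mul d2
    rw [rt_zero] at d3
    refine HasDerivAt.congr_deriv (f := fun t : ℝ => ‖res R (rt A t x)‖ * F (rt A t x)) d3 ?_
    simp only [hG1, hG2, hAx]
    have r1 : res R (⟪p, x⟫ • τ - ⟪τ, x⟫ • p) = ⟪p, x⟫ • res R τ := by
      rw [res_sub, res_smul, res_smul, res_mem_eq_zero hp, smul_zero, sub_zero]
    rw [r1, inner_smul_right, inner_sub_right, inner_smul_right, inner_smul_right,
      real_inner_comm τ (T x), real_inner_comm p (T x)]
    have r2 : ⟪res R x, res R τ⟫ = ⟪res R x, τ⟫ := by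
      rw [← inner_res]
      congr 1
      rw [res_eq, res_eq]
      exact Submodule.starProjection_eq_self_iff.2 (Submodule.starProjection_apply_mem _ _)
    rw [r2]
    ring

end Pool.Agent.FI75
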