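import Pool.Agent.FI75.R2
import Pool.Agent.FI75.M1
import Pool.Agent.FI75.C3b

/-! Module FI-C3a (integration by parts on the spheres of `(span R)ᗮ`). -/

set_option autoImplicit false

namespace Pool.Agent.FI75
open MeasureTheory ProbabilityTheory Set Filter Topology Metric
open Pool.Agent.HP89
open scoped RealInnerProductSpace ENNReal

variable {V : Type*} [NormedAddCommGroup V] [InnerProductSpace ℝ V] [FiniteDimensional ℝ V]
  [MeasurableSpace V] [BorelSpace V]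

omit [MeasurableSpace V] [BorelSpace V] in
theorem res_res (R : List V) (x : V) : res R (res R x) = res R x := by
  rw [res_eq, res_eq]
  exact Submodule.starProjection_eq_self_iff.2 (Submodule.starProjection_apply_mem _ _)

omit [MeasurableSpace V] [BorelSpace V] in
theorem inner_res_res (R : List V) (x y : V) : ⟪res R x, res R y⟫ = ⟪res R x, y⟫ := by
  rw [← inner_res, res_res]

/-- the trace of `res R`. -/
theorem sum_norm_res_sq {R : List V} (hR : wn R ≠ 0) :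
    ∑ a, ‖res R (stdOrthonormalBasis ℝ V a)‖ ^ 2 = (Module.finrank ℝ V : ℝ) - R.length := by
  have h1 := integral_norm_sq_proj (V := V) (Submodule.span ℝ {x | x ∈ R})ᗮ
  rw [finrank_orth_of_wn_ne_zero hR, Nat.cast_sub (length_le_of_wn_ne_zero hR)] at h1
  rw [← h1]
  have h2 : ∀ g : V, ‖(Submodule.span ℝ {x | x ∈ R})ᗮ.starProjection g‖ ^ 2 =
      ∑ a, ⟪res R (stdOrthonormalBasis ℝ V a), g⟫ ^ 2 := by
    intro g
    rw [← res_eq, ← (stdOrthonormalBasis ℝ V).sum_sq_inner_right]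
    refine Finset.sum_congr rfl fun a _ => ?_
    rw [inner_res]
  simp_rw [h2]
  rw [integral_finsetSum]
  · refine Finset.sum_congr rfl fun a _ => ?_
    rw [integral_inner_sq]
  · intro a _
    have h3 := integrable_inner_mul (V := V) (res R (stdOrthonormalBasis ℝ V a)) (res R (stdOrthonormalBasis ℝ V a))
    refine h3.congr (Eventually.of_forall fun g => ?_)
    simp only []
    rw [real_inner_comm]
    ring

/-- one rotation. -/
theorem RD.i1_aux {F : V → ℝ} {T : V → V} (h : RD F T) {R : List V}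
    (hl : R.length < Module.finrank ℝ V) {p : V} (hp : p ∈ R) (τ e : V) (he : ‖e‖ = 1) :
    ∃ Θ : V → ℝ, Integrable Θ (stdGaussian V) ∧ ∫ x, Θ x ∂(stdGaussian V) = 0 ∧
      ∀ x, Θ x = ((⟪res R e, x⟫ * ⟪T x, res R τ⟫ - ⟪res R τ, x⟫ * ⟪T x, res R e⟫) * ⟪res R e, x⟫ +
        F x * (⟪res R e, x⟫ * ⟪res R e, res R τ⟫ - ⟪res R τ, x⟫ * ‖res R e‖ ^ 2)) * ⟪p, x⟫ / ‖res R x‖ := by
  obtain ⟨C, hC⟩ := h.bdd
  have hC0 : 0 ≤ C := (abs_nonneg _).trans (hC 0).1
  obtain ⟨A, hA, hAx⟩ := exists_skew (res R τ) (res R e)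
  have hm := h.mf
  have hmT := h.mT
  have hresm : Measurable (fun x : V => res R x) := (continuous_res R).measurable
  have hg := integrable_norm_gaussian (V := V)
  set P : V →L[ℝ] V := (Submodule.span ℝ {x | x ∈ R})ᗮ.starProjection with hPdef
  have hP : ∀ x, P x = res R x := fun x => (res_eq R x).symm
  have e1 : ∀ x, ⟪res R e, x⟫ = ⟪e, res R x⟫ := fun x => inner_res R e x
  have t1 : ∀ x, ⟪res R τ, x⟫ = ⟪τ, res R x⟫ := fun x => inner_res R τ x
  have hcomm : ∀ x, A (P x) = P (A x) := by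
    intro x
    rw [hP, hP, hAx, hAx, res_sub, res_smul, res_smul, res_res, res_res, inner_res_res, inner_res_res]
  have hPt : ∀ t x, res R (rt A t x) = rt A t (res R x) := by
    intro t x
    rw [← hP, ← hP, rt_comm hcomm]
  have hnorm : ∀ t x, ‖res R (rt A t x)‖ = ‖res R x‖ := by
    intro t x
    rw [hPt, hA.norm_rt]
  have hAp : A p = 0 := by
    rw [hAx, e1, t1, res_mem_eq_zero hp, inner_zero_right, inner_zero_right, zero_smul, zero_smul, sub_zero]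
  have hpt : ∀ t x, ⟪p, rt A t x⟫ = ⟪p, x⟫ := by
    intro t x
    have h1 := hA.inner_rt t p x
    rwa [rt_of_apply_eq_zero hAp] at h1
  have be : ∀ x, |⟪res R e, x⟫| ≤ ‖res R x‖ := by
    intro x
    rw [e1]
    have := abs_real_inner_le_norm e (res R x)
    rwa [he, one_mul] at this
  have bt : ∀ x, |⟪res R τ, x⟫| ≤ ‖τ‖ * ‖res R x‖ := by
    intro x
    rw [t1]
    exact abs_real_inner_le_norm τ (res R x)
  have ne : ‖res R e‖ ≤ 1 := by
    rw [← he]
    exact norm_res_le R e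
  have nt : ‖res R τ‖ ≤ ‖τ‖ := norm_res_le R τ
  have bA : ∀ x, ‖A x‖ ≤ 2 * ‖τ‖ * ‖res R x‖ := by
    intro x
    rw [hAx]
    calc ‖⟪res R e, x⟫ • res R τ - ⟪res R τ, x⟫ • res R e‖ ≤
          ‖⟪res R e, x⟫ • res R τ‖ + ‖⟪res R τ, x⟫ • res R e‖ := norm_sub_le _ _
      _ = |⟪res R e, x⟫| * ‖res R τ‖ + |⟪res R τ, x⟫| * ‖res R e‖ := by
          rw [norm_smul, norm_smul, Real.norm_eq_abs, Real.norm_eq_abs]
      _ ≤ ‖res R x‖ * ‖τ‖ + (‖τ‖ * ‖res R x‖) * 1 := by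
          apply add_le_add
          · exact mul_le_mul (be x) nt (norm_nonneg _) (norm_nonneg _)
          · exact mul_le_mul (bt x) ne (norm_nonneg _) (by positivity)
      _ = 2 * ‖τ‖ * ‖res R x‖ := by ring
  set Θ' : V → ℝ := fun x => (⟪T x, A x⟫ * ⟪res R e, x⟫ + F x * ⟪res R e, A x⟫) * ⟪p, x⟫ / ‖res R x‖ with hΘ'
  have mΘ' : Measurable Θ' := by
    have hAm : Measurable (fun x => A x) := A.continuous.measurable
    fun_prop
  have bΘ' : ∀ x, |Θ' x| ≤ 4 * C * ‖τ‖ * ‖p‖ * ‖x‖ := by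
    intro x
    simp only [hΘ']
    rw [abs_div, abs_norm, abs_mul]
    by_cases h0 : ‖res R x‖ = 0
    · rw [h0, div_zero]
      positivity
    have hpos : 0 < ‖res R x‖ := lt_of_le_of_ne (norm_nonneg _) (Ne.symm h0)
    rw [div_le_iff₀ hpos]
    have q1 : |⟪T x, A x⟫ * ⟪res R e, x⟫ + F x * ⟪res R e, A x⟫| ≤
        (‖T x‖ * ‖res R x‖ + C) * (2 * ‖τ‖ * ‖res R x‖) := by
      calc |⟪T x, A x⟫ * ⟪res R e, x⟫ + F x * ⟪res R e, A x⟫| ≤
            |⟪T x, A x⟫ * ⟪res R e, x⟫| + |F x * ⟪res R e, A x⟫| := abs_add_le _ _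
        _ = |⟪T x, A x⟫| * |⟪res R e, x⟫| + |F x| * |⟪res R e, A x⟫| := by rw [abs_mul, abs_mul]
        _ ≤ (‖T x‖ * ‖A x‖) * ‖res R x‖ + C * (1 * ‖A x‖) := by
            apply add_le_add
            · exact mul_le_mul (abs_real_inner_le_norm _ _) (be x) (abs_nonneg _) (by positivity)
            · apply mul_le_mul (hC x).1 _ (abs_nonneg _) hC0
              exact (abs_real_inner_le_norm _ _).trans (mul_le_mul_of_nonneg_right ne (norm_nonneg _))
        _ = (‖T x‖ * ‖res R x‖ + C) * ‖A x‖ := by ring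
        _ ≤ (‖T x‖ * ‖res R x‖ + C) * (2 * ‖τ‖ * ‖res R x‖) :=
            mul_le_mul_of_nonneg_left (bA x) (by positivity)
    have q2 : ‖T x‖ * ‖res R x‖ + C ≤ 2 * C := by
      have := (hC x).2
      have h3 : ‖T x‖ * ‖res R x‖ ≤ ‖x‖ * ‖T x‖ := by
        rw [mul_comm ‖x‖]
        exact mul_le_mul_of_nonneg_left (norm_res_le R x) (norm_nonneg _)
      linarith
    calc |⟪T x, A x⟫ * ⟪res R e, x⟫ + F x * ⟪res R e, A x⟫| * |⟪p, x⟫|
        ≤ ((‖T x‖ * ‖res R x‖ + C) * (2 * ‖τ‖ * ‖res R x‖)) * (‖p‖ * ‖x‖) :=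
          mul_le_mul q1 (abs_real_inner_le_norm _ _) (abs_nonneg _) (by positivity)
      _ ≤ ((2 * C) * (2 * ‖τ‖ * ‖res R x‖)) * (‖p‖ * ‖x‖) := by gcongr
      _ = 4 * C * ‖τ‖ * ‖p‖ * ‖x‖ * ‖res R x‖ := by ring
  have iΘ' : Integrable Θ' (stdGaussian V) :=
    Integrable.mono' (hg.const_mul (4 * C * ‖τ‖ * ‖p‖)) mΘ'.aestronglyMeasurable
      (Eventually.of_forall fun x => by rw [Real.norm_eq_abs]; exact bΘ' x)
  refine ⟨Θ', iΘ', ?_, fun x => ?_⟩
  swap
  · simp only [hΘ', hAx, inner_sub_right, inner_smul_right, real_inner_self_eq_norm_sq]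
  have hae := ae_res_ne_zero' hl
  refine rot_zero hA (Θ := fun x => F x * ⟪res R e, x⟫ * ⟪p, x⟫ / ‖res R x‖)
    (B := fun x => 2 * C * ‖A‖ * ‖p‖ * ‖x‖) ?_ mΘ'.aestronglyMeasurable (hg.const_mul _) ?_ ?_
  · have hmΘ : Measurable (fun x => F x * ⟪res R e, x⟫ * ⟪p, x⟫ / ‖res R x‖) := by fun_prop
    refine Integrable.mono' (hg.const_mul (C * ‖p‖)) hmΘ.aestronglyMeasurable (Eventually.of_forall fun x => ?_)
    rw [Real.norm_eq_abs, abs_div, abs_norm, abs_mul, abs_mul]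
    by_cases h0 : ‖res R x‖ = 0
    · rw [h0, div_zero]
      positivity
    have hpos : 0 < ‖res R x‖ := lt_of_le_of_ne (norm_nonneg _) (Ne.symm h0)
    rw [div_le_iff₀ hpos]
    calc |F x| * |⟪res R e, x⟫| * |⟪p, x⟫| ≤ (C * ‖res R x‖) * (‖p‖ * ‖x‖) := by
          apply mul_le_mul _ (abs_real_inner_le_norm _ _) (abs_nonneg _) (by positivity)
          exact mul_le_mul (hC x).1 (be x) (abs_nonneg _) hC0
      _ = C * ‖p‖ * ‖x‖ * ‖res R x‖ := by ring
  · filter_upwards [hae] with x hx s t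
    have hx0 : x ≠ 0 := by
      intro h0
      apply hx
      rw [h0]
      have := res_smul R 0 (0 : V)
      simpa using this
    have hpos : 0 < ‖res R x‖ := norm_pos_iff.2 hx
    have l1 := h.lip hA (fun y => (hC y).2) hx0 s t
    have l2 : |⟪res R e, rt A s x⟫ - ⟪res R e, rt A t x⟫| ≤ ‖A‖ * ‖res R x‖ * |s - t| := by
      rw [e1, e1, hPt, hPt, ← inner_sub_right]
      refine (abs_real_inner_le_norm _ _).trans ?_
      rw [he, one_mul]
      exact norm_rt_sub_le hA _ s t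
    have l3 : |⟪res R e, rt A t x⟫| ≤ ‖res R x‖ := by
      have := be (rt A t x)
      rwa [hnorm] at this
    simp only [hnorm, hpt]
    have l4 : F (rt A s x) * ⟪res R e, rt A s x⟫ * ⟪p, x⟫ / ‖res R x‖ -
        F (rt A t x) * ⟪res R e, rt A t x⟫ * ⟪p, x⟫ / ‖res R x‖ =
        (F (rt A s x) * (⟪res R e, rt A s x⟫ - ⟪res R e, rt A t x⟫) +
          ⟪res R e, rt A t x⟫ * (F (rt A s x) - F (rt A t x))) * ⟪p, x⟫ / ‖res R x‖ := by ring
    rw [l4, abs_div, abs_norm, abs_mul, div_le_iff₀ hpos]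
    have l5 : |F (rt A s x) * (⟪res R e, rt A s x⟫ - ⟪res R e, rt A t x⟫) +
          ⟪res R e, rt A t x⟫ * (F (rt A s x) - F (rt A t x))| ≤ 2 * C * ‖A‖ * ‖res R x‖ * |s - t| := by
      calc |F (rt A s x) * (⟪res R e, rt A s x⟫ - ⟪res R e, rt A t x⟫) +
          ⟪res R e, rt A t x⟫ * (F (rt A s x) - F (rt A t x))| ≤
            |F (rt A s x)| * |⟪res R e, rt A s x⟫ - ⟪res R e, rt A t x⟫| +
            |⟪res R e, rt A t x⟫| * |F (rt A s x) - F (rt A t x)| := by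
              rw [← abs_mul, ← abs_mul]
              exact abs_add_le _ _
        _ ≤ C * (‖A‖ * ‖res R x‖ * |s - t|) + ‖res R x‖ * (C * ‖A‖ * |s - t|) := by
            apply add_le_add
            · exact mul_le_mul (hC _).1 l2 (abs_nonneg _) hC0
            · exact mul_le_mul l3 l1 (abs_nonneg _) (norm_nonneg _)
        _ = 2 * C * ‖A‖ * ‖res R x‖ * |s - t| := by ring
    calc |F (rt A s x) * (⟪res R e, rt A s x⟫ - ⟪res R e, rt A t x⟫) +
          ⟪res R e, rt A t x⟫ * (F (rt A s x) - F (rt A t x))| * |⟪p, x⟫| ≤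
          (2 * C * ‖A‖ * ‖res R x‖ * |s - t|) * (‖p‖ * ‖x‖) :=
          mul_le_mul l5 (abs_real_inner_le_norm _ _) (abs_nonneg _) (by positivity)
      _ = 2 * C * ‖A‖ * ‖p‖ * ‖x‖ * |s - t| * ‖res R x‖ := by ring
  · filter_upwards [hae] with x hx
    have hx0 : x ≠ 0 := by
      intro h0
      apply hx
      rw [h0]
      have := res_smul R 0 (0 : V)
      simpa using this
    have d1 := h.der A hA x hx0
    have d2 : HasDerivAt (fun t : ℝ => ⟪res R e, rt A t x⟫) ⟪res R e, A x⟫ 0 := by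
      have h3 := hasDerivAt_rt A x 0
      rw [rt_zero] at h3
      have h4 := (innerSL ℝ (res R e)).hasFDerivAt.comp_hasDerivAt (0 : ℝ) h3
      exact h4
    have d3 := ((d1.mul d2).mul_const ⟪p, x⟫).div_const ‖res R x‖
    rw [rt_zero] at d3
    have h5 : (fun t : ℝ => F (rt A t x) * ⟪res R e, rt A t x⟫ * ⟪p, rt A t x⟫ / ‖res R (rt A t x)‖) =
        fun t : ℝ => F (rt A t x) * ⟪res R e, rt A t x⟫ * ⟪p, x⟫ / ‖res R x‖ := by
      funext t
      rw [hnorm, hpt]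
    rw [h5]
    refine HasDerivAt.congr_deriv d3 ?_
    simp only [hΘ']

theorem RD.i1 {F : V → ℝ} {T : V → V} (h : RD F T) {R : List V} (hR : wn R ≠ 0)
    (hl : R.length < Module.finrank ℝ V) {p : V} (hp : p ∈ R) (τ : V) :
    ∫ x, ‖res R x‖ * ⟪p, x⟫ * ⟪T x, ort (res R x) (res R τ)⟫ ∂(stdGaussian V) =
      ((Module.finrank ℝ V : ℝ) - R.length - 1) *
        ∫ x, ⟪p, x⟫ * ⟪res R x, τ⟫ / ‖res R x‖ * F x ∂(stdGaussian V) := by
  obtain ⟨C, hC⟩ := h.bdd
  have hC0 : 0 ≤ C := (abs_nonneg _).trans (hC 0).1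
  have hm := h.mf
  have hmT := h.mT
  have hresm : Measurable (fun x : V => res R x) := (continuous_res R).measurable
  have hg := integrable_norm_gaussian (V := V)
  set b := stdOrthonormalBasis ℝ V with hb
  have hb1 : ∀ a, ‖b a‖ = 1 := fun a => b.orthonormal.1 a
  choose Θ hΘi hΘ0 hΘx using fun a => h.i1_aux hl hp τ (b a) (hb1 a)
  set n1 : ℝ := (Module.finrank ℝ V : ℝ) - R.length - 1 with hn1
  -- the sum of all rotations
  have hsum : ∀ x, ∑ a, Θ a x = ‖res R x‖ * ⟪p, x⟫ * ⟪T x, ort (res R x) (res R τ)⟫ -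
      n1 * (⟪p, x⟫ * ⟪res R x, τ⟫ / ‖res R x‖ * F x) := by
    intro x
    have hx : ∀ a, Θ a x = ((⟪b a, res R x⟫ * ⟪T x, res R τ⟫ - ⟪res R x, τ⟫ * ⟪T x, res R (b a)⟫) * ⟪b a, res R x⟫ +
        F x * (⟪b a, res R x⟫ * ⟪b a, res R τ⟫ - ⟪res R x, τ⟫ * ‖res R (b a)‖ ^ 2)) * (⟪p, x⟫ / ‖res R x‖) := by
      intro a
      rw [hΘx a x, inner_res R (b a) x, inner_res_res R (b a) τ, inner_res R (b a) τ]
      have : ⟪res R τ, x⟫ = ⟪res R x, τ⟫ := by rw [real_inner_comm, inner_res]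
      rw [this, mul_div_assoc]
    rw [Finset.sum_congr rfl fun a _ => hx a, ← Finset.sum_mul]
    have s1 : ∑ a, ⟪b a, res R x⟫ * ⟪b a, res R x⟫ = ‖res R x‖ ^ 2 := by
      rw [← b.sum_sq_inner_right (res R x)]
      exact Finset.sum_congr rfl fun a _ => (sq _).symm
    have s2 : ∑ a, ⟪T x, res R (b a)⟫ * ⟪b a, res R x⟫ = ⟪T x, res R x⟫ := by
      have h1 := b.sum_inner_mul_inner (res R (T x)) (res R x)
      rw [inner_res_res, inner_res] at h1
      rw [← h1]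
      refine Finset.sum_congr rfl fun a _ => ?_
      rw [inner_res]
    have s3 : ∑ a, ⟪b a, res R x⟫ * ⟪b a, res R τ⟫ = ⟪res R x, τ⟫ := by
      have h1 := b.sum_inner_mul_inner (res R x) (res R τ)
      rw [inner_res_res] at h1
      rw [← h1]
      refine Finset.sum_congr rfl fun a _ => ?_
      rw [real_inner_comm (res R x)]
    have s4 := sum_norm_res_sq hR
    have s5 : ∑ a, ((⟪b a, res R x⟫ * ⟪T x, res R τ⟫ - ⟪res R x, τ⟫ * ⟪T x, res R (b a)⟫) * ⟪b a, res R x⟫ +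
        F x * (⟪b a, res R x⟫ * ⟪b a, res R τ⟫ - ⟪res R x, τ⟫ * ‖res R (b a)‖ ^ 2)) =
        (‖res R x‖ ^ 2 * ⟪T x, res R τ⟫ - ⟪res R x, τ⟫ * ⟪T x, res R x⟫) +
        F x * (⟪res R x, τ⟫ - ⟪res R x, τ⟫ * ((Module.finrank ℝ V : ℝ) - R.length)) := by
      rw [Finset.sum_add_distrib, ← Finset.mul_sum, Finset.sum_sub_distrib, ← Finset.mul_sum, s3, s4]
      congr 1
      have h2 : ∀ a, (⟪b a, res R x⟫ * ⟪T x, res R τ⟫ - ⟪res R x, τ⟫ * ⟪T x, res R (b a)⟫) * ⟪b a, res R x⟫ =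
          ⟪T x, res R τ⟫ * (⟪b a, res R x⟫ * ⟪b a, res R x⟫) -
            ⟪res R x, τ⟫ * (⟪T x, res R (b a)⟫ * ⟪b a, res R x⟫) := fun a => by ring
      rw [Finset.sum_congr rfl fun a _ => h2 a, Finset.sum_sub_distrib, ← Finset.mul_sum, ← Finset.mul_sum, s1, s2]
      ring
    rw [s5]
    by_cases h0 : ‖res R x‖ = 0
    · rw [h0]
      simp
    · have h3 : ⟪T x, ort (res R x) (res R τ)⟫ =
          ⟪T x, res R τ⟫ - ⟪res R x, τ⟫ / ‖res R x‖ ^ 2 * ⟪T x, res R x⟫ := by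
        unfold ort
        rw [inner_sub_right, inner_smul_right, inner_res_res]
      rw [h3, hn1]
      field_simp
      ring
  -- integrability of the right function
  have iG2 : Integrable (fun x => ⟪p, x⟫ * ⟪res R x, τ⟫ / ‖res R x‖ * F x) (stdGaussian V) := by
    have hmG : Measurable (fun x => ⟪p, x⟫ * ⟪res R x, τ⟫ / ‖res R x‖ * F x) := by fun_prop
    refine Integrable.mono' (hg.const_mul (‖p‖ * ‖τ‖ * C)) hmG.aestronglyMeasurable (Eventually.of_forall fun x => ?_)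
    rw [Real.norm_eq_abs, abs_mul, abs_div, abs_mul, abs_norm]
    have a1 := abs_real_inner_le_norm p x
    have a2 := abs_real_inner_le_norm (res R x) τ
    have h3 : |⟪p, x⟫| * |⟪res R x, τ⟫| / ‖res R x‖ ≤ ‖p‖ * ‖x‖ * ‖τ‖ := by
      by_cases h0 : ‖res R x‖ = 0
      · rw [h0, div_zero]
        positivity
      · have hpos : 0 < ‖res R x‖ := lt_of_le_of_ne (norm_nonneg _) (Ne.symm h0)
        rw [div_le_iff₀ hpos]
        calc |⟪p, x⟫| * |⟪res R x, τ⟫| ≤ (‖p‖ * ‖x‖) * (‖res R x‖ * ‖τ‖) :=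
              mul_le_mul a1 a2 (abs_nonneg _) (by positivity)
          _ = ‖p‖ * ‖x‖ * ‖τ‖ * ‖res R x‖ := by ring
    calc |⟪p, x⟫| * |⟪res R x, τ⟫| / ‖res R x‖ * |F x| ≤ (‖p‖ * ‖x‖ * ‖τ‖) * C :=
          mul_le_mul h3 (hC x).1 (abs_nonneg _) (by positivity)
      _ = ‖p‖ * ‖τ‖ * C * ‖x‖ := by ring
  have key : ∫ x, ∑ a, Θ a x ∂(stdGaussian V) = 0 := by
    rw [integral_finsetSum _ fun a _ => hΘi a]
    exact Finset.sum_eq_zero fun a _ => hΘ0 a
  have iS : Integrable (fun x => ∑ a, Θ a x) (stdGaussian V) := integrable_finsetSum _ fun a _ => hΘi a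
  have hL : (fun x => ‖res R x‖ * ⟪p, x⟫ * ⟪T x, ort (res R x) (res R τ)⟫) =
      fun x => ∑ a, Θ a x + n1 * (⟪p, x⟫ * ⟪res R x, τ⟫ / ‖res R x‖ * F x) := by
    funext x
    rw [hsum x]
    ring
  rw [hL, integral_add iS (iG2.const_mul n1), key, zero_add, integral_const_mul]

end Pool.Agent.FI75
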