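import Pool.Agent.FI75.C0

/-! Module FI-C4a (one vector of the tuple separately). -/

set_option autoImplicit false

namespace Pool.Agent.FI75
open MeasureTheory ProbabilityTheory Set Filter Topology Metric
open Pool.Agent.HP89
open scoped RealInnerProductSpace ENNReal

variable {V : Type*} [NormedAddCommGroup V] [InnerProductSpace ℝ V] [FiniteDimensional ℝ V]
  [MeasurableSpace V] [BorelSpace V]

private theorem integrable_symm {n : ℕ} (l : Fin (n + 1)) {f : (Fin (n + 1) → V) → ℝ}
    (hf : Integrable f (gp V (n + 1))) :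
    Integrable (fun p : V × (Fin n → V) => f (l.insertNth (α := fun _ => V) p.1 p.2))
      ((stdGaussian V).prod (gp V n)) := by
  have h1 := measurePreserving_piFinSuccAbove (fun _ : Fin (n + 1) => stdGaussian V) l
  have h2 := h1.symm
  exact h2.integrable_comp_of_integrable hf

theorem integral_insertNth {n : ℕ} (l : Fin (n + 1)) {f : (Fin (n + 1) → V) → ℝ} (hf : Integrable f (gp V (n + 1))) :
    ∫ x, f x ∂(gp V (n + 1)) =
      ∫ x', ∫ y, f (l.insertNth (α := fun _ => V) y x') ∂(stdGaussian V) ∂(gp V n) := by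
  have h1 := measurePreserving_piFinSuccAbove (fun _ : Fin (n + 1) => stdGaussian V) l
  have h2 := h1.symm.integral_comp' (g := f)
  have h3 := integral_prod_symm _ (integrable_symm l hf)
  rw [← h3]
  exact h2.symm

theorem integrable_insertNth {n : ℕ} (l : Fin (n + 1)) {f : (Fin (n + 1) → V) → ℝ} (hf : Integrable f (gp V (n + 1))) :
    Integrable (fun x' => ∫ y, f (l.insertNth (α := fun _ => V) y x') ∂(stdGaussian V)) (gp V n) :=
  (integrable_symm l hf).integral_prod_right

omit [InnerProductSpace ℝ V] [FiniteDimensional ℝ V] [MeasurableSpace V] [BorelSpace V] in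
theorem perm_insertNth {n : ℕ} (l : Fin (n + 1)) (y : V) (x : Fin n → V) :
    (List.ofFn (l.insertNth (α := fun _ => V) y x)).Perm (y :: List.ofFn x) := by
  rw [← Multiset.coe_eq_coe, ← Multiset.cons_coe, ← Fin.univ_val_map, ← Fin.univ_val_map, Fin.univ_succAbove n l,
    Finset.cons_val, Multiset.map_cons, Fin.insertNth_apply_same]
  congr 1
  rw [Finset.map_val, Multiset.map_map]
  refine Multiset.map_congr rfl fun m _ => ?_
  exact Fin.insertNth_apply_succAbove _ _ _ _

omit [MeasurableSpace V] [BorelSpace V] in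
theorem wv_insertNth {n : ℕ} (l : Fin (n + 1)) (y : V) (x : Fin n → V) :
    wv (l.insertNth (α := fun _ => V) y x) = wv x * ‖rv x y‖ := by
  unfold wv rv
  rw [wn_perm (perm_insertNth l y x), wn_cons]

omit [MeasurableSpace V] [BorelSpace V] in
theorem rv_insertNth {n : ℕ} (l : Fin (n + 1)) (y : V) (x : Fin n → V) (v : V) :
    rv (l.insertNth (α := fun _ => V) y x) v = ort (rv x y) (rv x v) := by
  unfold rv
  rw [res_perm (perm_insertNth l y x), res_cons]

omit [FiniteDimensional ℝ V] [MeasurableSpace V] [BorelSpace V] in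
theorem pf_insertNth {n : ℕ} (F : V → ℝ) (l : Fin (n + 1)) (y : V) (x : Fin n → V) :
    pf F (l.insertNth (α := fun _ => V) y x) = F y * pf F x := by
  unfold pf
  rw [Fin.prod_univ_succAbove _ l, Fin.insertNth_apply_same]
  congr 1
  refine Finset.prod_congr rfl fun m _ => ?_
  rw [Fin.insertNth_apply_succAbove]

end Pool.Agent.FI75
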