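import Pool.Agent.FI75.C4a
import Pool.Agent.FI75.C3a
import Pool.Agent.FI75.C3b

/-! Module FI-C4b (pairs). -/

set_option autoImplicit false

namespace Pool.Agent.FI75
open MeasureTheory ProbabilityTheory Set Filter Topology Metric
open Pool.Agent.HP89
open scoped RealInnerProductSpace ENNReal

variable {V : Type*} [NormedAddCommGroup V] [InnerProductSpace ℝ V] [FiniteDimensional ℝ V]
  [MeasurableSpace V] [BorelSpace V]

omit [FiniteDimensional ℝ V] [MeasurableSpace V] [BorelSpace V] in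
theorem wv_le_prod {n : ℕ} (x : Fin n → V) : wv x ≤ ∏ m, ‖x m‖ := by
  unfold wv
  refine (wn_le_prod _).trans (le_of_eq ?_)
  rw [List.map_ofFn, List.prod_ofFn]
  rfl

theorem integrable_prod_norm (n : ℕ) : Integrable (fun x : Fin n → V => ∏ m, ‖x m‖) (gp V n) :=
  Integrable.fintype_prod (f := fun (_ : Fin n) (v : V) => ‖v‖) fun _ => integrable_norm_gaussian

theorem measurable_rv_comp {n m : ℕ} {a : (Fin n → V) → (Fin m → V)} {b : (Fin n → V) → V} (ha : Measurable a)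
    (hb : Measurable b) : Measurable (fun x : Fin n → V => rv (a x) (b x)) :=
  (measurable_rv m).comp (ha.prodMk hb)

theorem RC.ee_integrable {n : ℕ} {F : V → ℝ} {T : V → V} (h : RC F T) {i l : Fin (n + 1)} :
    Integrable (fun x : Fin (n + 1) → V => wv (fun m => x (l.succAbove m)) * pf F x *
      (⟪x i, x l⟫ * ⟪rv (fun m => x (l.succAbove m)) (x l), sc F T (x i)⟫ /
        ‖rv (fun m => x (l.succAbove m)) (x l)‖)) (gp V (n + 1)) := by
  obtain ⟨C1, hC10, hC1⟩ := h.sc_bdd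
  obtain ⟨C2, hC20, hC2⟩ := h.pf_le (n + 1)
  have hsm := h.measurable_sc
  have hx : ∀ i : Fin (n + 1), Measurable (fun x : Fin (n + 1) → V => x i) := fun i => measurable_pi_apply i
  have hsub : Measurable (fun x : Fin (n + 1) → V => fun m => x (l.succAbove m)) :=
    measurable_pi_lambda _ fun m => hx _
  have hr := measurable_rv_comp hsub (hx l)
  have hw : Measurable (fun x : Fin (n + 1) → V => wv (fun m => x (l.succAbove m))) := (measurable_wv n).comp hsub
  have hp := measurable_pf (V := V) h.mf (n + 1)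
  have hsi := hsm.comp (hx i)
  have hmeas : Measurable (fun x : Fin (n + 1) → V => wv (fun m => x (l.succAbove m)) * pf F x *
      (⟪x i, x l⟫ * ⟪rv (fun m => x (l.succAbove m)) (x l), sc F T (x i)⟫ /
        ‖rv (fun m => x (l.succAbove m)) (x l)‖)) := by
    exact (hw.mul hp).mul ((((hx i).inner (hx l)).mul (hr.inner hsi)).div hr.norm)
  refine Integrable.mono' ((integrable_prod_norm (V := V) (n + 1)).const_mul (C2 * C1)) hmeas.aestronglyMeasurable
    (Eventually.of_forall fun x => ?_)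
  have hw0 : 0 ≤ wv (fun m => x (l.succAbove m)) := wn_nonneg _
  rw [Real.norm_eq_abs, abs_mul, abs_mul, abs_of_nonneg hw0, abs_of_pos (h.pf_pos x)]
  set r := rv (fun m => x (l.succAbove m)) (x l) with hrdef
  have h1 : |⟪x i, x l⟫ * ⟪r, sc F T (x i)⟫ / ‖r‖| ≤ C1 * ‖x l‖ := by
    rw [abs_div, abs_norm, abs_mul]
    by_cases h0 : ‖r‖ = 0
    · rw [h0, div_zero]
      positivity
    have hpos : 0 < ‖r‖ := lt_of_le_of_ne (norm_nonneg _) (Ne.symm h0)
    rw [div_le_iff₀ hpos]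
    calc |⟪x i, x l⟫| * |⟪r, sc F T (x i)⟫| ≤ (‖x i‖ * ‖x l‖) * (‖r‖ * ‖sc F T (x i)‖) :=
          mul_le_mul (abs_real_inner_le_norm _ _) (abs_real_inner_le_norm _ _) (abs_nonneg _) (by positivity)
      _ = (‖x i‖ * ‖sc F T (x i)‖) * (‖x l‖ * ‖r‖) := by ring
      _ ≤ C1 * (‖x l‖ * ‖r‖) := mul_le_mul_of_nonneg_right (hC1 _) (by positivity)
      _ = C1 * ‖x l‖ * ‖r‖ := by ring
  have h2 : wv (fun m => x (l.succAbove m)) ≤ ∏ m, ‖x (l.succAbove m)‖ := wv_le_prod _
  calc wv (fun m => x (l.succAbove m)) * pf F x * |⟪x i, x l⟫ * ⟪r, sc F T (x i)⟫ / ‖r‖|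
      ≤ ((∏ m, ‖x (l.succAbove m)‖) * C2) * (C1 * ‖x l‖) := by
        apply mul_le_mul _ h1 (abs_nonneg _) (by positivity)
        exact mul_le_mul h2 (hC2 x) (h.pf_pos x).le (by positivity)
    _ = C2 * C1 * ∏ m, ‖x m‖ := by
        rw [Fin.prod_univ_succAbove (fun m => ‖x m‖) l]
        ring

theorem RC.pair1 {n : ℕ} (hn : n + 1 < Module.finrank ℝ V) {F : V → ℝ} {T : V → V} (h : RC F T) {i l : Fin (n + 1)}
    (hil : i ≠ l) :
    ∫ x, wv x * pf F x * (⟪x i, x l⟫ * ⟪rv x (sc F T (x i)), rv x (sc F T (x l))⟫) ∂(gp V (n + 1)) =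
      ((Module.finrank ℝ V : ℝ) - (n + 1)) * ee n F T i l := by
  obtain ⟨C1, hC10, hC1⟩ := h.sc_bdd
  have hsm := h.measurable_sc
  have hx : ∀ i : Fin (n + 1), Measurable (fun x : Fin (n + 1) → V => x i) := fun i => measurable_pi_apply i
  have hmφ : Measurable (fun x : Fin (n + 1) → V => ⟪x i, x l⟫ * ⟪rv x (sc F T (x i)), rv x (sc F T (x l))⟫) :=
    ((hx i).inner (hx l)).mul ((measurable_rv_comp measurable_id (hsm.comp (hx i))).inner
      (measurable_rv_comp measurable_id (hsm.comp (hx l))))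
  have hbφ : ∀ x : Fin (n + 1) → V, |⟪x i, x l⟫ * ⟪rv x (sc F T (x i)), rv x (sc F T (x l))⟫| ≤ C1 * C1 := by
    intro x
    rw [abs_mul]
    calc |⟪x i, x l⟫| * |⟪rv x (sc F T (x i)), rv x (sc F T (x l))⟫|
        ≤ (‖x i‖ * ‖x l‖) * (‖sc F T (x i)‖ * ‖sc F T (x l)‖) := by
          apply mul_le_mul (abs_real_inner_le_norm _ _) _ (abs_nonneg _) (by positivity)
          refine (abs_real_inner_le_norm _ _).trans ?_
          exact mul_le_mul (norm_res_le _ _) (norm_res_le _ _) (norm_nonneg _) (norm_nonneg _)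
      _ = (‖x i‖ * ‖sc F T (x i)‖) * (‖x l‖ * ‖sc F T (x l)‖) := by ring
      _ ≤ C1 * C1 := mul_le_mul (hC1 _) (hC1 _) (by positivity) hC10
  rw [integral_insertNth l (h.integrable_mul hmφ hbφ)]
  unfold ee
  rw [integral_insertNth l h.ee_integrable, ← integral_const_mul]
  congr 1
  funext x'
  obtain ⟨i', hi'⟩ := Fin.exists_succAbove_eq hil
  have hsame : ∀ y : V, (l.insertNth (α := fun _ => V) y x') l = y := fun y => Fin.insertNth_apply_same _ _ _
  have hsucc : ∀ (y : V) (m : Fin n), (l.insertNth (α := fun _ => V) y x') (l.succAbove m) = x' m :=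
    fun y m => Fin.insertNth_apply_succAbove _ _ _ _
  have hi : ∀ y : V, (l.insertNth (α := fun _ => V) y x') i = x' i' := fun y => by rw [← hi', hsucc]
  have hfun : ∀ y : V, (fun m => (l.insertNth (α := fun _ => V) y x') (l.succAbove m)) = x' := fun y => by
    funext m
    exact hsucc y m
  simp only [hsame, hi, hfun, wv_insertNth, pf_insertNth, rv_insertNth]
  by_cases hw : wv x' = 0
  · simp [hw]
  have hlen : (List.ofFn x').length = n := List.length_ofFn
  have hmem : x' i' ∈ List.ofFn x' := by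
    rw [List.mem_ofFn]
    exact ⟨i', rfl⟩
  have key := h.i1 (R := List.ofFn x') hw (by rw [hlen]; omega) hmem (sc F T (x' i'))
  rw [hlen] at key
  have hL : ∀ y : V, wv x' * ‖rv x' y‖ * (F y * pf F x') *
      (⟪x' i', y⟫ * ⟪ort (rv x' y) (rv x' (sc F T (x' i'))), ort (rv x' y) (rv x' (sc F T y))⟫) =
      wv x' * pf F x' * (‖res (List.ofFn x') y‖ * ⟪x' i', y⟫ *
        ⟪T y, ort (res (List.ofFn x') y) (res (List.ofFn x') (sc F T (x' i')))⟫) := by
    intro y
    have h1 : ⟪ort (rv x' y) (rv x' (sc F T (x' i'))), ort (rv x' y) (rv x' (sc F T y))⟫ =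
        ⟪ort (rv x' y) (rv x' (sc F T (x' i'))), sc F T y⟫ :=
      inner_res_res (y :: List.ofFn x') (sc F T (x' i')) (sc F T y)
    have h2 : F y * ⟪ort (rv x' y) (rv x' (sc F T (x' i'))), sc F T y⟫ =
        ⟪T y, ort (res (List.ofFn x') y) (res (List.ofFn x') (sc F T (x' i')))⟫ := by
      unfold sc
      rw [inner_smul_right, ← mul_assoc, mul_inv_cancel₀ (h.F_pos y).ne', one_mul, real_inner_comm]
      rfl
    rw [h1, ← h2]
    unfold rv
    ring
  have hRr : ∀ y : V, wv x' * (F y * pf F x') * (⟪x' i', y⟫ * ⟪rv x' y, sc F T (x' i')⟫ / ‖rv x' y‖) =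
      wv x' * pf F x' * (⟪x' i', y⟫ * ⟪res (List.ofFn x') y, sc F T (x' i')⟫ / ‖res (List.ofFn x') y‖ * F y) := by
    intro y
    unfold rv
    ring
  simp only [hL, hRr]
  rw [integral_const_mul, integral_const_mul, key]
  ring

theorem RC.pair2 {n : ℕ} (hn : n + 1 < Module.finrank ℝ V) {F : V → ℝ} {T : V → V} (h : RC F T) {i l : Fin (n + 1)}
    (hil : i ≠ l) :
    ∫ x, wv x * pf F x * (⟪x i, x l⟫ * ⟪sc F T (x i), sc F T (x l)⟫ - ⟪x i, sc F T (x l)⟫ * ⟪sc F T (x i), x l⟫)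
      ∂(gp V (n + 1)) = -ee n F T i l := by
  obtain ⟨C1, hC10, hC1⟩ := h.sc_bdd
  have hsm := h.measurable_sc
  have hx : ∀ i : Fin (n + 1), Measurable (fun x : Fin (n + 1) → V => x i) := fun i => measurable_pi_apply i
  have hmφ : Measurable (fun x : Fin (n + 1) → V =>
      ⟪x i, x l⟫ * ⟪sc F T (x i), sc F T (x l)⟫ - ⟪x i, sc F T (x l)⟫ * ⟪sc F T (x i), x l⟫) :=
    (((hx i).inner (hx l)).mul ((hsm.comp (hx i)).inner (hsm.comp (hx l)))).sub
      (((hx i).inner (hsm.comp (hx l))).mul ((hsm.comp (hx i)).inner (hx l)))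
  have hbφ : ∀ x : Fin (n + 1) → V,
      |⟪x i, x l⟫ * ⟪sc F T (x i), sc F T (x l)⟫ - ⟪x i, sc F T (x l)⟫ * ⟪sc F T (x i), x l⟫| ≤ C1 * C1 + C1 * C1 := by
    intro x
    refine (abs_sub _ _).trans (add_le_add ?_ ?_)
    · rw [abs_mul]
      calc |⟪x i, x l⟫| * |⟪sc F T (x i), sc F T (x l)⟫|
          ≤ (‖x i‖ * ‖x l‖) * (‖sc F T (x i)‖ * ‖sc F T (x l)‖) :=
            mul_le_mul (abs_real_inner_le_norm _ _) (abs_real_inner_le_norm _ _) (abs_nonneg _) (by positivity)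
        _ = (‖x i‖ * ‖sc F T (x i)‖) * (‖x l‖ * ‖sc F T (x l)‖) := by ring
        _ ≤ C1 * C1 := mul_le_mul (hC1 _) (hC1 _) (by positivity) hC10
    · rw [abs_mul]
      calc |⟪x i, sc F T (x l)⟫| * |⟪sc F T (x i), x l⟫|
          ≤ (‖x i‖ * ‖sc F T (x l)‖) * (‖sc F T (x i)‖ * ‖x l‖) :=
            mul_le_mul (abs_real_inner_le_norm _ _) (abs_real_inner_le_norm _ _) (abs_nonneg _) (by positivity)
        _ = (‖x i‖ * ‖sc F T (x i)‖) * (‖x l‖ * ‖sc F T (x l)‖) := by ring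
        _ ≤ C1 * C1 := mul_le_mul (hC1 _) (hC1 _) (by positivity) hC10
  rw [integral_insertNth l (h.integrable_mul hmφ hbφ)]
  unfold ee
  rw [integral_insertNth l h.ee_integrable, ← integral_neg]
  congr 1
  funext x'
  obtain ⟨i', hi'⟩ := Fin.exists_succAbove_eq hil
  have hsame : ∀ y : V, (l.insertNth (α := fun _ => V) y x') l = y := fun y => Fin.insertNth_apply_same _ _ _
  have hsucc : ∀ (y : V) (m : Fin n), (l.insertNth (α := fun _ => V) y x') (l.succAbove m) = x' m :=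
    fun y m => Fin.insertNth_apply_succAbove _ _ _ _
  have hi : ∀ y : V, (l.insertNth (α := fun _ => V) y x') i = x' i' := fun y => by rw [← hi', hsucc]
  have hfun : ∀ y : V, (fun m => (l.insertNth (α := fun _ => V) y x') (l.succAbove m)) = x' := fun y => by
    funext m
    exact hsucc y m
  simp only [hsame, hi, hfun, wv_insertNth, pf_insertNth]
  have hlen : (List.ofFn x').length = n := List.length_ofFn
  have hmem : x' i' ∈ List.ofFn x' := by
    rw [List.mem_ofFn]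
    exact ⟨i', rfl⟩
  have key := h.i2 (R := List.ofFn x') (by rw [hlen]; omega) hmem (sc F T (x' i'))
  have hL : ∀ y : V, wv x' * ‖rv x' y‖ * (F y * pf F x') *
      (⟪x' i', y⟫ * ⟪sc F T (x' i'), sc F T y⟫ - ⟪x' i', sc F T y⟫ * ⟪sc F T (x' i'), y⟫) =
      wv x' * pf F x' * (‖res (List.ofFn x') y‖ *
        (⟪x' i', y⟫ * ⟪sc F T (x' i'), T y⟫ - ⟪x' i', T y⟫ * ⟪sc F T (x' i'), y⟫)) := by
    intro y
    have h1 : ∀ a : V, F y * ⟪a, sc F T y⟫ = ⟪a, T y⟫ := by
      intro a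
      unfold sc
      rw [inner_smul_right, ← mul_assoc, mul_inv_cancel₀ (h.F_pos y).ne', one_mul]
    rw [← h1, ← h1]
    unfold rv
    ring
  have hRr : ∀ y : V, wv x' * (F y * pf F x') * (⟪x' i', y⟫ * ⟪rv x' y, sc F T (x' i')⟫ / ‖rv x' y‖) =
      wv x' * pf F x' * (⟪x' i', y⟫ * ⟪res (List.ofFn x') y, sc F T (x' i')⟫ / ‖res (List.ofFn x') y‖ * F y) := by
    intro y
    unfold rv
    ring
  simp only [hL, hRr]
  rw [integral_const_mul, integral_const_mul, key]
  ring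

end Pool.Agent.FI75
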