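import Pool.Agent.FI75.Defs

/-! Module FI-C4c (norm of a sum of bivectors). -/

set_option autoImplicit false

namespace Pool.Agent.FI75
open MeasureTheory ProbabilityTheory Set Filter Topology Metric
open Pool.Agent.HP89
open scoped RealInnerProductSpace ENNReal

variable {V : Type*} [NormedAddCommGroup V] [InnerProductSpace ℝ V] [FiniteDimensional ℝ V]

theorem wedge_nonneg {ι : Type*} [Fintype ι] (a b : ι → V) :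
    0 ≤ ∑ i, ∑ l, (⟪a i, a l⟫ * ⟪b i, b l⟫ - ⟪a i, b l⟫ * ⟪b i, a l⟫) := by
  set e := stdOrthonormalBasis ℝ V
  set P : ι → Fin (Module.finrank ℝ V) → Fin (Module.finrank ℝ V) → ℝ :=
    fun i s t => ⟪a i, e s⟫ * ⟪b i, e t⟫ - ⟪a i, e t⟫ * ⟪b i, e s⟫ with hP
  have hpar : ∀ u v : V, ⟪u, v⟫ = ∑ s, ⟪u, e s⟫ * ⟪v, e s⟫ := by
    intro u v
    rw [← e.sum_inner_mul_inner u v]
    refine Finset.sum_congr rfl fun s _ => ?_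
    rw [real_inner_comm v]
  have h1 : ∀ i l, 2 * (⟪a i, a l⟫ * ⟪b i, b l⟫ - ⟪a i, b l⟫ * ⟪b i, a l⟫) = ∑ s, ∑ t, P i s t * P l s t := by
    intro i l
    have e1 : ⟪a i, a l⟫ * ⟪b i, b l⟫ = ∑ s, ∑ t, (⟪a i, e s⟫ * ⟪a l, e s⟫) * (⟪b i, e t⟫ * ⟪b l, e t⟫) := by
      rw [hpar (a i) (a l), hpar (b i) (b l), Finset.sum_mul_sum]
    have e1' : ⟪a i, a l⟫ * ⟪b i, b l⟫ = ∑ s, ∑ t, (⟪a i, e t⟫ * ⟪a l, e t⟫) * (⟪b i, e s⟫ * ⟪b l, e s⟫) := by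
      rw [e1, Finset.sum_comm]
    have e2 : ⟪a i, b l⟫ * ⟪b i, a l⟫ = ∑ s, ∑ t, (⟪a i, e s⟫ * ⟪b l, e s⟫) * (⟪b i, e t⟫ * ⟪a l, e t⟫) := by
      rw [hpar (a i) (b l), hpar (b i) (a l), Finset.sum_mul_sum]
    have e2' : ⟪a i, b l⟫ * ⟪b i, a l⟫ = ∑ s, ∑ t, (⟪a i, e t⟫ * ⟪b l, e t⟫) * (⟪b i, e s⟫ * ⟪a l, e s⟫) := by
      rw [e2, Finset.sum_comm]
    calc 2 * (⟪a i, a l⟫ * ⟪b i, b l⟫ - ⟪a i, b l⟫ * ⟪b i, a l⟫)
        = (⟪a i, a l⟫ * ⟪b i, b l⟫ - ⟪a i, b l⟫ * ⟪b i, a l⟫) +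
          (⟪a i, a l⟫ * ⟪b i, b l⟫ - ⟪a i, b l⟫ * ⟪b i, a l⟫) := by ring
      _ = ((∑ s, ∑ t, (⟪a i, e s⟫ * ⟪a l, e s⟫) * (⟪b i, e t⟫ * ⟪b l, e t⟫)) -
            ∑ s, ∑ t, (⟪a i, e s⟫ * ⟪b l, e s⟫) * (⟪b i, e t⟫ * ⟪a l, e t⟫)) +
          ((∑ s, ∑ t, (⟪a i, e t⟫ * ⟪a l, e t⟫) * (⟪b i, e s⟫ * ⟪b l, e s⟫)) -
            ∑ s, ∑ t, (⟪a i, e t⟫ * ⟪b l, e t⟫) * (⟪b i, e s⟫ * ⟪a l, e s⟫)) := by
          rw [← e1, ← e1', ← e2, ← e2']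
      _ = ∑ s, ∑ t, P i s t * P l s t := by
          simp only [← Finset.sum_sub_distrib, ← Finset.sum_add_distrib]
          refine Finset.sum_congr rfl fun s _ => Finset.sum_congr rfl fun t _ => ?_
          simp only [hP]
          ring
  have h2 : 2 * ∑ i, ∑ l, (⟪a i, a l⟫ * ⟪b i, b l⟫ - ⟪a i, b l⟫ * ⟪b i, a l⟫) = ∑ s, ∑ t, (∑ i, P i s t) ^ 2 := by
    rw [Finset.mul_sum]
    calc ∑ i, 2 * ∑ l, (⟪a i, a l⟫ * ⟪b i, b l⟫ - ⟪a i, b l⟫ * ⟪b i, a l⟫)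
        = ∑ i, ∑ l, ∑ s, ∑ t, P i s t * P l s t := by
          refine Finset.sum_congr rfl fun i _ => ?_
          rw [Finset.mul_sum]
          exact Finset.sum_congr rfl fun l _ => h1 i l
      _ = ∑ s, ∑ t, ∑ i, ∑ l, P i s t * P l s t := by
          rw [show (∑ i, ∑ l, ∑ s, ∑ t, P i s t * P l s t) = ∑ i, ∑ s, ∑ l, ∑ t, P i s t * P l s t from
            Finset.sum_congr rfl fun i _ => Finset.sum_comm, Finset.sum_comm]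
          refine Finset.sum_congr rfl fun s _ => ?_
          rw [show (∑ i, ∑ l, ∑ t, P i s t * P l s t) = ∑ i, ∑ t, ∑ l, P i s t * P l s t from
            Finset.sum_congr rfl fun i _ => Finset.sum_comm, Finset.sum_comm]
      _ = ∑ s, ∑ t, (∑ i, P i s t) ^ 2 := by
          refine Finset.sum_congr rfl fun s _ => Finset.sum_congr rfl fun t _ => ?_
          rw [sq, Finset.sum_mul_sum]
  have h3 : 0 ≤ ∑ s, ∑ t, (∑ i, P i s t) ^ 2 :=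
    Finset.sum_nonneg fun s _ => Finset.sum_nonneg fun t _ => sq_nonneg _
  linarith

end Pool.Agent.FI75
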