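import Pool.Agent.FI75.C4b
import Pool.Agent.FI75.C4c

/-! Module FI-C4d (the heart of the contraction: `E2 ≤ E3`). -/

set_option autoImplicit false

namespace Pool.Agent.FI75
open MeasureTheory ProbabilityTheory Set Filter Topology Metric
open Pool.Agent.HP89
open scoped RealInnerProductSpace ENNReal

variable {V : Type*} [NormedAddCommGroup V] [InnerProductSpace ℝ V] [FiniteDimensional ℝ V]
  [MeasurableSpace V] [BorelSpace V]

theorem RC.k4 {j : ℕ} (hj : 1 ≤ j) (hjd : j < Module.finrank ℝ V) {F : V → ℝ} {T : V → V} (h : RC F T) :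
    E2 j F T ≤ E3 j F T := by
  obtain ⟨n, rfl⟩ : ∃ n, j = n + 1 := ⟨j - 1, by omega⟩
  obtain ⟨C1, hC10, hC1⟩ := h.sc_bdd
  have hsm := h.measurable_sc
  have hx : ∀ i : Fin (n + 1), Measurable (fun x : Fin (n + 1) → V => x i) := fun i => measurable_pi_apply i
  set S : V → V := sc F T with hS
  -- the three families of functions
  set fO : Fin (n + 1) → Fin (n + 1) → (Fin (n + 1) → V) → ℝ :=
    fun i l x => ⟪x i, x l⟫ * ⟪rv x (S (x i)), rv x (S (x l))⟫ with hfO
  set fW : Fin (n + 1) → Fin (n + 1) → (Fin (n + 1) → V) → ℝ :=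
    fun i l x => ⟪x i, x l⟫ * ⟪S (x i), S (x l)⟫ - ⟪x i, S (x l)⟫ * ⟪S (x i), x l⟫ with hfW
  have mO : ∀ i l, Measurable (fO i l) := fun i l =>
    ((hx i).inner (hx l)).mul ((measurable_rv_comp measurable_id (hsm.comp (hx i))).inner
      (measurable_rv_comp measurable_id (hsm.comp (hx l))))
  have mW : ∀ i l, Measurable (fW i l) := fun i l =>
    (((hx i).inner (hx l)).mul ((hsm.comp (hx i)).inner (hsm.comp (hx l)))).sub
      (((hx i).inner (hsm.comp (hx l))).mul ((hsm.comp (hx i)).inner (hx l)))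
  have hprod : ∀ (x : Fin (n + 1) → V) (i l : Fin (n + 1)),
      (‖x i‖ * ‖x l‖) * (‖S (x i)‖ * ‖S (x l)‖) ≤ C1 * C1 := by
    intro x i l
    calc (‖x i‖ * ‖x l‖) * (‖S (x i)‖ * ‖S (x l)‖) = (‖x i‖ * ‖S (x i)‖) * (‖x l‖ * ‖S (x l)‖) := by ring
      _ ≤ C1 * C1 := mul_le_mul (hC1 _) (hC1 _) (by positivity) hC10
  have bO : ∀ i l x, |fO i l x| ≤ C1 * C1 := by
    intro i l x
    simp only [hfO]
    rw [abs_mul]
    refine le_trans ?_ (hprod x i l)
    apply mul_le_mul (abs_real_inner_le_norm _ _) _ (abs_nonneg _) (by positivity)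
    refine (abs_real_inner_le_norm _ _).trans ?_
    exact mul_le_mul (norm_res_le _ _) (norm_res_le _ _) (norm_nonneg _) (norm_nonneg _)
  have bW : ∀ i l x, |fW i l x| ≤ C1 * C1 + C1 * C1 := by
    intro i l x
    refine (abs_sub _ _).trans (add_le_add ?_ ?_)
    · rw [abs_mul]
      refine le_trans ?_ (hprod x i l)
      exact mul_le_mul (abs_real_inner_le_norm _ _) (abs_real_inner_le_norm _ _) (abs_nonneg _) (by positivity)
    · rw [abs_mul]
      refine le_trans ?_ (hprod x i l)
      calc |⟪x i, S (x l)⟫| * |⟪S (x i), x l⟫| ≤ (‖x i‖ * ‖S (x l)‖) * (‖S (x i)‖ * ‖x l‖) :=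
            mul_le_mul (abs_real_inner_le_norm _ _) (abs_real_inner_le_norm _ _) (abs_nonneg _) (by positivity)
        _ = (‖x i‖ * ‖x l‖) * (‖S (x i)‖ * ‖S (x l)‖) := by ring
  have iO : ∀ i l, Integrable (fun x => wv x * pf F x * fO i l x) (gp V (n + 1)) := fun i l =>
    h.integrable_mul (mO i l) (bO i l)
  have iW : ∀ i l, Integrable (fun x => wv x * pf F x * fW i l x) (gp V (n + 1)) := fun i l =>
    h.integrable_mul (mW i l) (bW i l)
  set O : Fin (n + 1) → Fin (n + 1) → ℝ := fun i l => ∫ x, wv x * pf F x * fO i l x ∂(gp V (n + 1)) with hO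
  set W : Fin (n + 1) → Fin (n + 1) → ℝ := fun i l => ∫ x, wv x * pf F x * fW i l x ∂(gp V (n + 1)) with hW
  set k : ℝ := (Module.finrank ℝ V : ℝ) - (n + 1) with hk
  have hkpos : 0 < k := by
    have : ((n : ℝ) + 1) < (Module.finrank ℝ V : ℝ) := by exact_mod_cast hjd
    rw [hk]
    linarith
  have hOe : ∀ i l, i ≠ l → O i l = k * ee n F T i l := fun i l hil => h.pair1 hjd hil
  have hWe : ∀ i l, i ≠ l → W i l = -ee n F T i l := fun i l hil => h.pair2 hjd hil
  have hwp : ∀ x : Fin (n + 1) → V, 0 ≤ wv x * pf F x := fun x => mul_nonneg (wn_nonneg _) (h.pf_pos x).le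
  -- E2 and E3
  have hE2 : E2 (n + 1) F T = ∑ i, ∑ l, O i l := by
    unfold E2
    have h1 : (fun x : Fin (n + 1) → V => wv x * pf F x *
        ∑ i, ∑ l, ⟪x i, x l⟫ * ⟪rv x (sc F T (x i)), rv x (sc F T (x l))⟫) =
        fun x => ∑ i, ∑ l, wv x * pf F x * fO i l x := by
      funext x
      rw [Finset.mul_sum]
      refine Finset.sum_congr rfl fun i _ => ?_
      rw [Finset.mul_sum]
    rw [h1, integral_finsetSum _ fun i _ => integrable_finsetSum _ fun l _ => iO i l]
    refine Finset.sum_congr rfl fun i _ => ?_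
    rw [integral_finsetSum _ fun l _ => iO i l]
  have hdiagW : ∀ i x, fW i i x = ‖x i‖ ^ 2 * ‖S (x i)‖ ^ 2 := by
    intro i x
    simp only [hfW]
    have h1 : ⟪S (x i), x i⟫ = 0 := h.sc_orth (x i)
    rw [h1, mul_zero, sub_zero, real_inner_self_eq_norm_sq, real_inner_self_eq_norm_sq]
  have hE3 : E3 (n + 1) F T = ∑ i, W i i := by
    unfold E3
    have h1 : (fun x : Fin (n + 1) → V => wv x * pf F x * ∑ i, ‖x i‖ ^ 2 * ‖sc F T (x i)‖ ^ 2) =
        fun x => ∑ i, wv x * pf F x * fW i i x := by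
      funext x
      rw [Finset.mul_sum]
      refine Finset.sum_congr rfl fun i _ => ?_
      rw [hdiagW]
    rw [h1, integral_finsetSum _ fun i _ => iW i i]
  -- the wedge inequality
  have hpt : ∀ x : Fin (n + 1) → V, 0 ≤ ∑ i, ∑ l, (fW i l x - fO i l x) := by
    intro x
    have h1 := wedge_nonneg (fun i => x i) (fun i => S (x i) - rv x (S (x i)))
    refine h1.trans (le_of_eq (Finset.sum_congr rfl fun i _ => Finset.sum_congr rfl fun l _ => ?_))
    have hmem : ∀ i, rv x (x i) = 0 := fun i => res_mem_eq_zero (by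
      rw [List.mem_ofFn]
      exact ⟨i, rfl⟩)
    have e1 : ∀ i l, ⟪x i, rv x (S (x l))⟫ = 0 := by
      intro i l
      have := inner_res (List.ofFn x) (x i) (S (x l))
      unfold rv
      rw [← this]
      have h2 := hmem i
      unfold rv at h2
      rw [h2, inner_zero_left]
    have e2 : ∀ a b : V, ⟪a, rv x b⟫ = ⟪rv x a, rv x b⟫ := by
      intro a b
      unfold rv
      rw [inner_res_res, inner_res]
    have e3 : ∀ a b : V, ⟪rv x a, b⟫ = ⟪rv x a, rv x b⟫ := by
      intro a b
      unfold rv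
      rw [inner_res_res]
    simp only [hfW, hfO, inner_sub_left, inner_sub_right]
    rw [e1 i l, e3 (S (x i)) (x l), hmem l, inner_zero_right, e2 (S (x i)) (S (x l)), e3 (S (x i)) (S (x l))]
    ring
  have iWO : ∀ i l, Integrable (fun x => wv x * pf F x * fW i l x - wv x * pf F x * fO i l x) (gp V (n + 1)) :=
    fun i l => (iW i l).sub (iO i l)
  have hwedge : 0 ≤ ∑ i, ∑ l, (W i l - O i l) := by
    have h1 : ∑ i, ∑ l, (W i l - O i l) =
        ∫ x, wv x * pf F x * ∑ i, ∑ l, (fW i l x - fO i l x) ∂(gp V (n + 1)) := by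
      have h2 : (fun x : Fin (n + 1) → V => wv x * pf F x * ∑ i, ∑ l, (fW i l x - fO i l x)) =
          fun x => ∑ i, ∑ l, (wv x * pf F x * fW i l x - wv x * pf F x * fO i l x) := by
        funext x
        rw [Finset.mul_sum]
        refine Finset.sum_congr rfl fun i _ => ?_
        rw [Finset.mul_sum]
        exact Finset.sum_congr rfl fun l _ => by ring
      rw [h2, integral_finsetSum _ fun i _ => integrable_finsetSum _ fun l _ => iWO i l]
      refine Finset.sum_congr rfl fun i _ => ?_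
      rw [integral_finsetSum _ fun l _ => iWO i l]
      exact Finset.sum_congr rfl fun l _ => (integral_sub (iW i l) (iO i l)).symm
    rw [h1]
    exact integral_nonneg fun x => mul_nonneg (hwp x) (hpt x)
  -- the diagonal terms
  have hdiag : 0 ≤ ∑ i, (W i i - O i i) := by
    refine Finset.sum_nonneg fun i _ => ?_
    simp only [hW, hO]
    rw [← integral_sub (iW i i) (iO i i)]
    refine integral_nonneg fun x => ?_
    have h1 : fO i i x ≤ fW i i x := by
      rw [hdiagW]
      simp only [hfO]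
      rw [real_inner_self_eq_norm_sq, real_inner_self_eq_norm_sq]
      apply mul_le_mul_of_nonneg_left _ (by positivity)
      exact pow_le_pow_left₀ (norm_nonneg _) (norm_res_le _ _) 2
    have h2 := mul_le_mul_of_nonneg_left h1 (hwp x)
    simp only [Pi.zero_apply]
    linarith
  set D : ℝ := ∑ i, ∑ l ∈ Finset.univ.erase i, ee n F T i l with hD
  have hsplit : ∀ g : Fin (n + 1) → Fin (n + 1) → ℝ,
      ∑ i, ∑ l, g i l = ∑ i, g i i + ∑ i, ∑ l ∈ Finset.univ.erase i, g i l := by
    intro g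
    rw [← Finset.sum_add_distrib]
    refine Finset.sum_congr rfl fun i _ => ?_
    rw [Finset.add_sum_erase _ _ (Finset.mem_univ i)]
  have s1 : ∑ i, ∑ l ∈ Finset.univ.erase i, O i l = k * D := by
    rw [hD, Finset.mul_sum]
    refine Finset.sum_congr rfl fun i _ => ?_
    rw [Finset.mul_sum]
    refine Finset.sum_congr rfl fun l hl => ?_
    exact hOe i l (Finset.ne_of_mem_erase hl).symm
  have s2 : ∑ i, ∑ l ∈ Finset.univ.erase i, (W i l - O i l) = -((k + 1) * D) := by
    rw [hD, Finset.mul_sum, ← Finset.sum_neg_distrib]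
    refine Finset.sum_congr rfl fun i _ => ?_
    rw [Finset.mul_sum, ← Finset.sum_neg_distrib]
    refine Finset.sum_congr rfl fun l hl => ?_
    rw [hWe i l (Finset.ne_of_mem_erase hl).symm, hOe i l (Finset.ne_of_mem_erase hl).symm]
    ring
  rw [hsplit, s2] at hwedge
  rw [hE2, hE3, hsplit, s1]
  have h5 : ∑ i, (W i i - O i i) = ∑ i, W i i - ∑ i, O i i := Finset.sum_sub_distrib _ _
  rw [h5] at hwedge hdiag
  by_cases hD0 : D ≤ 0
  · have : k * D ≤ 0 := mul_nonpos_of_nonneg_of_nonpos hkpos.le hD0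
    linarith
  · push Not at hD0
    have : k * D ≤ (k + 1) * D := by nlinarith
    linarith

end Pool.Agent.FI75
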