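import Pool.Agent.HP89.A4
import Pool.Agent.FI75.Defs

/-! Module FI-RL (polar coordinates). `stdGaussian_density` (HP89.A4) turns both sides into integrals against
`volume.withDensity`; then `Measure.measurePreserving_homeomorphUnitSphereProd` (see the proof of `polar_hom` in HP89.A4) as
a `lintegral` statement: for measurable `f`, `∫⁻ f dvol = ∫⁻ θ, ∫⁻ r in Ioi 0, ofReal (r ^ (d-1)) * f (r • θ)`. With
`f x = ofReal (c exp(-‖x‖²/2)) * ρ ‖x‖ * ψ x` and `ψ (r • θ) = ψ θ` this factorises; apply it to `(ρ, ψ)`, `(ρ, 1)`,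
`(1, ψ)` and `(1, 1)` (total mass one). -/

set_option autoImplicit false

namespace Pool.Agent.FI75
open MeasureTheory ProbabilityTheory Set Filter Topology Metric
open Pool.Agent.HP89
open scoped RealInnerProductSpace ENNReal

variable {V : Type*} [NormedAddCommGroup V] [InnerProductSpace ℝ V] [FiniteDimensional ℝ V]
  [MeasurableSpace V] [BorelSpace V]

/-- the Gaussian integral of a product of a radial and an angular function -/
private theorem radial_aux [Nontrivial V] {ρ : ℝ → ℝ≥0∞} (hρ : Measurable ρ) {ψ : V → ℝ≥0∞}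
    (hψ : Measurable ψ) (hh : ∀ c : ℝ, 0 < c → ∀ x, ψ (c • x) = ψ x) :
    ∫⁻ x, ρ ‖x‖ * ψ x ∂(stdGaussian V) =
      (∫⁻ θ, ψ θ.1 ∂((volume : Measure V).toSphere)) *
        ∫⁻ r : Ioi (0 : ℝ), ENNReal.ofReal (cG V * Real.exp (-(1 / 2) * r.1 ^ 2)) * ρ r.1
          ∂(Measure.volumeIoiPow (Module.finrank ℝ V - 1)) := by
  have hm1 : Measurable fun r : ℝ => ENNReal.ofReal (cG V * Real.exp (-(1 / 2) * r ^ 2)) := by
    fun_prop
  have h0 : ∫⁻ x, ρ ‖x‖ * ψ x ∂(stdGaussian V) =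
      ∫⁻ x : V, ENNReal.ofReal (cG V * Real.exp (-(1 / 2) * ‖x‖ ^ 2)) * (ρ ‖x‖ * ψ x) := by
    rw [stdGaussian_density]
    exact lintegral_withDensity_eq_lintegral_mul _ (hm1.comp measurable_norm)
      ((hρ.comp measurable_norm).mul hψ)
  have h1 : ∫⁻ x : V, ENNReal.ofReal (cG V * Real.exp (-(1 / 2) * ‖x‖ ^ 2)) * (ρ ‖x‖ * ψ x) =
      ∫⁻ x : ({(0 : V)}ᶜ : Set V), ENNReal.ofReal (cG V * Real.exp (-(1 / 2) * ‖x.1‖ ^ 2)) *
        (ρ ‖x.1‖ * ψ x.1) ∂((volume : Measure V).comap (↑)) := by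
    rw [lintegral_subtype_comap (measurableSet_singleton _).compl fun x =>
      ENNReal.ofReal (cG V * Real.exp (-(1 / 2) * ‖x‖ ^ 2)) * (ρ ‖x‖ * ψ x),
      restrict_compl_singleton]
  have h2 : ∫⁻ x : ({(0 : V)}ᶜ : Set V), ENNReal.ofReal (cG V * Real.exp (-(1 / 2) * ‖x.1‖ ^ 2)) *
        (ρ ‖x.1‖ * ψ x.1) ∂((volume : Measure V).comap (↑)) =
      ∫⁻ p, ψ p.1.1 * (ENNReal.ofReal (cG V * Real.exp (-(1 / 2) * p.2.1 ^ 2)) * ρ p.2.1)
        ∂((volume : Measure V).toSphere.prod (.volumeIoiPow (Module.finrank ℝ V - 1))) := by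
    rw [← (volume : Measure V).measurePreserving_homeomorphUnitSphereProd.lintegral_comp_emb
      (Homeomorph.measurableEmbedding _)]
    refine lintegral_congr fun x => ?_
    have hx : 0 < ‖x.1‖ := norm_pos_iff.2 x.2
    simp only [homeomorphUnitSphereProd_apply_snd_coe, homeomorphUnitSphereProd_apply_fst_coe]
    rw [hh _ (inv_pos.2 hx)]
    ring
  rw [h0, h1, h2]
  exact lintegral_prod_mul (f := fun θ : sphere (0 : V) 1 => ψ θ.1)
    (g := fun r : Ioi (0 : ℝ) => ENNReal.ofReal (cG V * Real.exp (-(1 / 2) * r.1 ^ 2)) * ρ r.1)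
    (hψ.comp measurable_subtype_coe).aemeasurable
    ((hm1.mul hρ).comp measurable_subtype_coe).aemeasurable

theorem radial_lintegral (hd : 1 ≤ Module.finrank ℝ V) {ρ : ℝ → ℝ≥0∞} (hρ : Measurable ρ) {ψ : V → ℝ≥0∞}
    (hψ : Measurable ψ) (hh : ∀ c : ℝ, 0 < c → ∀ x, ψ (c • x) = ψ x) :
    ∫⁻ x, ρ ‖x‖ * ψ x ∂(stdGaussian V) =
      (∫⁻ x : V, ρ ‖x‖ ∂(stdGaussian V)) * ∫⁻ x, ψ x ∂(stdGaussian V) := by
  haveI : Nontrivial V := Module.nontrivial_of_finrank_pos (R := ℝ) (by omega)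
  have h1 := radial_aux hρ hψ hh
  have h2 := radial_aux (V := V) hρ (ψ := fun _ => 1) measurable_const (fun _ _ _ => rfl)
  have h3 := radial_aux (V := V) (ρ := fun _ => 1) measurable_const hψ hh
  have h4 := radial_aux (V := V) (ρ := fun _ => 1) measurable_const (ψ := fun _ => 1)
    measurable_const (fun _ _ _ => rfl)
  simp only [mul_one, one_mul] at h2 h3 h4
  rw [lintegral_one, measure_univ] at h4
  rw [h1, h2, h3]
  set a := ∫⁻ θ, ψ θ.1 ∂((volume : Measure V).toSphere)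
  set b := ∫⁻ r : Ioi (0 : ℝ), ENNReal.ofReal (cG V * Real.exp (-(1 / 2) * r.1 ^ 2)) * ρ r.1
    ∂(Measure.volumeIoiPow (Module.finrank ℝ V - 1))
  set c := ∫⁻ θ : sphere (0 : V) 1, 1 ∂((volume : Measure V).toSphere)
  set e := ∫⁻ r : Ioi (0 : ℝ), ENNReal.ofReal (cG V * Real.exp (-(1 / 2) * r.1 ^ 2))
    ∂(Measure.volumeIoiPow (Module.finrank ℝ V - 1))
  calc a * b = a * b * (c * e) := by rw [← h4, mul_one]
    _ = c * b * (a * e) := by ring

/-- only almost everywhere finite, real form. -/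
theorem radial_integral (hd : 1 ≤ Module.finrank ℝ V) {ψ : V → ℝ}
    (hψ : Measurable ψ) (h0 : ∀ x, 0 ≤ ψ x) {C : ℝ} (hC : ∀ x, ψ x ≤ C) (hh : ∀ c : ℝ, 0 < c → ∀ x, ψ (c • x) = ψ x) :
    ∫ x, ‖x‖ * ψ x ∂(stdGaussian V) = mG (Module.finrank ℝ V) * ∫ x, ψ x ∂(stdGaussian V) := by
  have h1 := radial_lintegral (V := V) hd (ρ := fun r => ENNReal.ofReal r) (by fun_prop)
    (ψ := fun x => ENNReal.ofReal (ψ x)) (by fun_prop) (fun c hc x => by rw [hh c hc x])
  rw [← integral_norm_gaussian,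
    integral_eq_lintegral_of_nonneg_ae (Eventually.of_forall fun x => mul_nonneg (norm_nonneg x) (h0 x))
      (by fun_prop),
    integral_eq_lintegral_of_nonneg_ae (Eventually.of_forall fun x : V => norm_nonneg x)
      (by fun_prop),
    integral_eq_lintegral_of_nonneg_ae (Eventually.of_forall h0) (by fun_prop),
    ← ENNReal.toReal_mul, ← h1]
  congr 1
  refine lintegral_congr fun x => ?_
  rw [ENNReal.ofReal_mul (norm_nonneg x)]

end Pool.Agent.FI75
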