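import Pool.Agent.FI75.C4a
import Pool.Agent.FI75.RL

/-! Module FI-C5 (the weights). -/

set_option autoImplicit false

namespace Pool.Agent.FI75
open MeasureTheory ProbabilityTheory Set Filter Topology Metric
open Pool.Agent.HP89
open scoped RealInnerProductSpace ENNReal

variable {V : Type*} [NormedAddCommGroup V] [InnerProductSpace ℝ V] [FiniteDimensional ℝ V]
  [MeasurableSpace V] [BorelSpace V]

theorem RC.k5 {j : ℕ} (hj : 1 ≤ j) (hjd : j < Module.finrank ℝ V) {F : V → ℝ} {T : V → V} (h : RC F T) {mq mk : ℝ}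
    (hmq : 0 ≤ mq) (hmk : 0 ≤ mk)
    (hLB : ∀ R : List V, R.length + 1 = j →
      mq * ∫ x, ‖x‖ * F x ∂(stdGaussian V) ≤ mk * ∫ x, ‖res R x‖ * F x ∂(stdGaussian V)) :
    mq * AA F * E3 j F T ≤ j * mk * JJ F T * E0 j F := by
  obtain ⟨n, rfl⟩ : ∃ n, j = n + 1 := ⟨j - 1, by omega⟩
  have hd : 1 ≤ Module.finrank ℝ V := by omega
  obtain ⟨C1, hC10, hC1⟩ := h.sc_bdd
  obtain ⟨C, hC⟩ := h.bdd
  have hC0 : 0 ≤ C := (abs_nonneg _).trans (hC 0).1
  have hFC : ∀ x, F x ≤ C := fun x => (le_abs_self _).trans (hC x).1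
  have hsm := h.measurable_sc
  have hx : ∀ i : Fin (n + 1), Measurable (fun x : Fin (n + 1) → V => x i) := fun i => measurable_pi_apply i
  set md := mG (Module.finrank ℝ V) with hmd
  have hmd0 : 0 ≤ md := mG_nonneg _
  set ψ : V → ℝ := fun y => ‖y‖ ^ 2 * ‖T y‖ ^ 2 / F y with hψ
  have mψ : Measurable ψ := by
    have h1 := h.mf
    have h2 := h.mT
    fun_prop
  have ψ0 : ∀ y, 0 ≤ ψ y := fun y => div_nonneg (by positivity) (h.F_pos y).le
  have hψs : ∀ y, F y * (‖y‖ ^ 2 * ‖sc F T y‖ ^ 2) = ψ y := by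
    intro y
    have hF := h.F_pos y
    simp only [hψ, sc]
    rw [norm_smul, norm_inv, Real.norm_of_nonneg hF.le]
    field_simp
  have ψC : ∀ y, ψ y ≤ C * C1 ^ 2 := by
    intro y
    rw [← hψs]
    apply mul_le_mul (hFC y) _ (by positivity) hC0
    rw [← mul_pow]
    exact pow_le_pow_left₀ (by positivity) (hC1 y) 2
  have ψh : ∀ c : ℝ, 0 < c → ∀ x, ψ (c • x) = ψ x := by
    intro c hc x
    simp only [hψ]
    rw [h.homf c hc.ne', h.homT c hc.ne', norm_smul, norm_smul, Real.norm_of_nonneg hc.le, norm_inv,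
      Real.norm_of_nonneg hc.le]
    congr 1
    field_simp
  have hJ : ∫ y, ‖y‖ * ψ y ∂(stdGaussian V) = md * JJ F T := radial_integral hd mψ ψ0 ψC ψh
  have hA : ∫ y, ‖y‖ * F y ∂(stdGaussian V) = md * AA F :=
    radial_integral hd h.mf (fun y => (h.F_pos y).le) hFC (fun c hc x => h.homf c hc.ne' x)
  have iyψ : Integrable (fun y => ‖y‖ * ψ y) (stdGaussian V) := by
    refine Integrable.mono' ((integrable_norm_gaussian (V := V)).mul_const (C * C1 ^ 2))
      (measurable_norm.mul mψ).aestronglyMeasurable (Eventually.of_forall fun y => ?_)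
    rw [Real.norm_eq_abs, abs_mul, abs_norm, abs_of_nonneg (ψ0 y)]
    exact mul_le_mul_of_nonneg_left (ψC y) (norm_nonneg _)
  set E' : ℝ := ∫ x', wv x' * pf F x' ∂(gp V n) with hE'
  have iE' : Integrable (fun x' : Fin n → V => wv x' * pf F x') (gp V n) := by
    have := h.integrable_mul (j := n) (φ := fun _ => (1 : ℝ)) measurable_const (C := 1) (fun _ => by simp)
    simpa using this
  have hw0 : ∀ x' : Fin n → V, 0 ≤ wv x' * pf F x' := fun x' => mul_nonneg (wn_nonneg _) (h.pf_pos x').le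
  have hE'0 : 0 ≤ E' := integral_nonneg hw0
  -- E3
  have m3 : ∀ i : Fin (n + 1), Measurable (fun x : Fin (n + 1) → V => ‖x i‖ ^ 2 * ‖sc F T (x i)‖ ^ 2) := fun i =>
    ((hx i).norm.pow_const 2).mul ((hsm.comp (hx i)).norm.pow_const 2)
  have b3 : ∀ (i : Fin (n + 1)) (x : Fin (n + 1) → V), |‖x i‖ ^ 2 * ‖sc F T (x i)‖ ^ 2| ≤ C1 ^ 2 := by
    intro i x
    rw [abs_of_nonneg (by positivity), ← mul_pow]
    exact pow_le_pow_left₀ (by positivity) (hC1 _) 2
  have i3 : ∀ i : Fin (n + 1), Integrable (fun x : Fin (n + 1) → V => wv x * pf F x *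
      (‖x i‖ ^ 2 * ‖sc F T (x i)‖ ^ 2)) (gp V (n + 1)) := fun i => h.integrable_mul (m3 i) (b3 i)
  have e3 : ∀ i : Fin (n + 1), ∫ x, wv x * pf F x * (‖x i‖ ^ 2 * ‖sc F T (x i)‖ ^ 2) ∂(gp V (n + 1)) ≤
      md * JJ F T * E' := by
    intro i
    rw [integral_insertNth i (i3 i)]
    have h1 : ∀ x' : Fin n → V, ∫ y, (wv (i.insertNth (α := fun _ => V) y x') * pf F (i.insertNth (α := fun _ => V) y x') *
        (‖(i.insertNth (α := fun _ => V) y x') i‖ ^ 2 * ‖sc F T ((i.insertNth (α := fun _ => V) y x') i)‖ ^ 2))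
          ∂(stdGaussian V) ≤ (wv x' * pf F x') * (md * JJ F T) := by
      intro x'
      rw [← hJ, ← integral_const_mul]
      apply integral_mono_of_nonneg
      · refine Eventually.of_forall fun y => ?_
        simp only [Pi.zero_apply]
        exact mul_nonneg (mul_nonneg (wn_nonneg _) (h.pf_pos _).le) (by positivity)
      · exact iyψ.const_mul _
      · refine Eventually.of_forall fun y => ?_
        simp only [Fin.insertNth_apply_same, wv_insertNth, pf_insertNth]
        have e1 : wv x' * ‖rv x' y‖ * (F y * pf F x') * (‖y‖ ^ 2 * ‖sc F T y‖ ^ 2) =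
            (wv x' * pf F x') * (‖rv x' y‖ * ψ y) := by
          rw [← hψs]
          ring
        rw [e1]
        apply mul_le_mul_of_nonneg_left _ (hw0 x')
        exact mul_le_mul_of_nonneg_right (norm_res_le _ _) (ψ0 y)
    calc ∫ x', ∫ y, (wv (i.insertNth (α := fun _ => V) y x') * pf F (i.insertNth (α := fun _ => V) y x') *
        (‖(i.insertNth (α := fun _ => V) y x') i‖ ^ 2 * ‖sc F T ((i.insertNth (α := fun _ => V) y x') i)‖ ^ 2))
          ∂(stdGaussian V) ∂(gp V n) ≤ ∫ x', (wv x' * pf F x') * (md * JJ F T) ∂(gp V n) :=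
          integral_mono (integrable_insertNth i (i3 i)) (iE'.mul_const _) h1
      _ = md * JJ F T * E' := by rw [integral_mul_const]; ring
  have hE3 : E3 (n + 1) F T ≤ ((n + 1 : ℕ) : ℝ) * (md * JJ F T * E') := by
    unfold E3
    have h1 : (fun x : Fin (n + 1) → V => wv x * pf F x * ∑ i, ‖x i‖ ^ 2 * ‖sc F T (x i)‖ ^ 2) =
        fun x => ∑ i, wv x * pf F x * (‖x i‖ ^ 2 * ‖sc F T (x i)‖ ^ 2) := by
      funext x
      rw [Finset.mul_sum]
    rw [h1, integral_finsetSum _ fun i _ => i3 i]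
    refine (Finset.sum_le_sum fun i _ => e3 i).trans (le_of_eq ?_)
    rw [Finset.sum_const, Finset.card_univ, Fintype.card_fin, nsmul_eq_mul]
  -- E0
  have i0 : Integrable (fun x : Fin (n + 1) → V => wv x * pf F x) (gp V (n + 1)) := by
    have := h.integrable_mul (j := n + 1) (φ := fun _ => (1 : ℝ)) measurable_const (C := 1) (fun _ => by simp)
    simpa using this
  have hE0 : mq * (md * AA F) * E' ≤ mk * E0 (n + 1) F := by
    unfold E0
    have hl : mq * (md * AA F) * E' = ∫ x', mq * (md * AA F) * (wv x' * pf F x') ∂(gp V n) :=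
      (integral_const_mul _ _).symm
    rw [integral_insertNth 0 i0, hl, ← integral_const_mul]
    apply integral_mono (iE'.const_mul _) ((integrable_insertNth 0 i0).const_mul _)
    intro x'
    simp only [wv_insertNth, pf_insertNth]
    have h1 := hLB (List.ofFn x') (by rw [List.length_ofFn])
    rw [hA] at h1
    have h2 : ∫ y, wv x' * ‖rv x' y‖ * (F y * pf F x') ∂(stdGaussian V) =
        (wv x' * pf F x') * ∫ y, ‖res (List.ofFn x') y‖ * F y ∂(stdGaussian V) := by
      rw [← integral_const_mul]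
      congr 1
      funext y
      unfold rv
      ring
    rw [h2]
    calc mq * (md * AA F) * (wv x' * pf F x') ≤
          (mk * ∫ y, ‖res (List.ofFn x') y‖ * F y ∂(stdGaussian V)) * (wv x' * pf F x') :=
          mul_le_mul_of_nonneg_right h1 (hw0 x')
      _ = mk * ((wv x' * pf F x') * ∫ y, ‖res (List.ofFn x') y‖ * F y ∂(stdGaussian V)) := by ring
  have hJ0 := h.JJ_nonneg
  have hA0 := h.AA_pos
  calc mq * AA F * E3 (n + 1) F T ≤ mq * AA F * (((n + 1 : ℕ) : ℝ) * (md * JJ F T * E')) :=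
        mul_le_mul_of_nonneg_left hE3 (mul_nonneg hmq hA0.le)
    _ = (((n + 1 : ℕ) : ℝ) * JJ F T) * (mq * (md * AA F) * E') := by ring
    _ ≤ (((n + 1 : ℕ) : ℝ) * JJ F T) * (mk * E0 (n + 1) F) :=
        mul_le_mul_of_nonneg_left hE0 (by positivity)
    _ = ((n + 1 : ℕ) : ℝ) * mk * JJ F T * E0 (n + 1) F := by ring

end Pool.Agent.FI75
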