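import Pool.Agent.FI75.C1a
import Pool.Agent.FI75.B3
import Pool.Agent.FI75.RL
import Pool.Agent.FI75.NM
import Pool.Agent.FI75.M1

/-! Module FI-C6 (lower bound for the weights of a projection body). For a measurable `G ≥ 0`, positively homogeneous of degree one,
`∫⁻ ofReal ((‖y‖^j)⁻¹ G y NN y) = c ∫⁻ ofReal (G y NN y)` with a constant `0 < c < ⊤` independent of `G`
(`radial_lintegral` with `ψ = G NN / ‖·‖`, twice). By `bpf` with `Φ x y = ofReal (pf F x * G y)` the left side is
`∫⁻ x, ofReal (wv x * pf F x) * ∫⁻ g, ofReal (G (rv x g))`. For `G = ‖·‖` and `wv x ≠ 0` the inner integral is `mG (d - j)`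
(`integral_norm_proj`, `finrank_orth_of_wn_ne_zero`), for `G = ‖res R ·‖` it is at least `mG (d + 1 - 2 j)`:
`‖res R (rv x g)‖ ≥ ‖res (R ++ List.ofFn x) g‖` (projection to the smaller space
`(span R)ᗮ ⊓ (span x)ᗮ`, which has dimension at least `d - |R| - j`; `mG_mono`). -/

set_option autoImplicit false

namespace Pool.Agent.FI75
open MeasureTheory ProbabilityTheory Set Filter Topology Metric
open Pool.Agent.HP89
open scoped RealInnerProductSpace ENNReal

variable {V : Type*} [NormedAddCommGroup V] [InnerProductSpace ℝ V] [FiniteDimensional ℝ V]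
  [MeasurableSpace V] [BorelSpace V]

omit [InnerProductSpace ℝ V] [FiniteDimensional ℝ V] in
private theorem meas_ni : Measurable (ni : V → ℝ≥0∞) := by
  unfold ni
  fun_prop

private theorem psi_hom {j : ℕ} {F : V → ℝ} {G : V → ℝ}
    (hGh : ∀ c : ℝ, 0 < c → ∀ x, G (c • x) = c * G x) (c : ℝ) (hc : 0 < c) (x : V) :
    ni (c • x) * ENNReal.ofReal (G (c • x) * NN j F (c • x)) =
      ni x * ENNReal.ofReal (G x * NN j F x) := by
  unfold ni
  rw [hGh c hc, NN_smul j F hc.ne', ← ENNReal.ofReal_mul (by positivity),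
    ← ENNReal.ofReal_mul (by positivity), norm_smul, Real.norm_eq_abs, abs_of_pos hc]
  congr 1
  rw [mul_inv]
  field_simp

private theorem lb_key {j : ℕ} (hj1 : 1 ≤ j) (hjd : j < Module.finrank ℝ V) {F : V → ℝ} {T : V → V}
    (h : RC F T) {G : V → ℝ} (hG : Measurable G) (hG0 : ∀ x, 0 ≤ G x)
    (hGh : ∀ c : ℝ, 0 < c → ∀ x, G (c • x) = c * G x) :
    ∫⁻ x, ENNReal.ofReal (wv x) * ∫⁻ g, ENNReal.ofReal (pf F x * G (rv x g)) ∂(stdGaussian V) ∂(gp V j) =
      (∫⁻ x : V, ENNReal.ofReal ((‖x‖ ^ (j - 1))⁻¹) ∂(stdGaussian V)) *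
        ∫⁻ y, ni y * ENNReal.ofReal (G y * NN j F y) ∂(stdGaussian V) := by
  have hΦ : Measurable (Function.uncurry fun (x : Fin j → V) (y : V) =>
      ENNReal.ofReal (pf F x * G y)) := by
    have h1 : Measurable (fun p : (Fin j → V) × V => pf F p.1 * G p.2) :=
      ((measurable_pf h.mf j).comp measurable_fst).mul (hG.comp measurable_snd)
    exact h1.ennreal_ofReal
  have h1 := bpf hjd hΦ
  have hinner : ∀ y : V, ∫⁻ g, ENNReal.ofReal (wv (ov y g) ^ 2) *
      ENNReal.ofReal (pf F (ov y g) * G y) ∂(gp V j) = ENNReal.ofReal (G y * NN j F y) := by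
    intro y
    have hi : Integrable (fun g => wv (ov y g) ^ 2 * pf F (ov y g)) (gp V j) := by
      have h2 := h.integrable_sq_mul (j := j) y (φ := fun _ => (1 : ℝ)) measurable_const (C := 1)
        (fun x => by simp)
      simpa only [mul_one] using h2
    have h2 : ∀ g : Fin j → V, ENNReal.ofReal (wv (ov y g) ^ 2) *
        ENNReal.ofReal (pf F (ov y g) * G y) =
        ENNReal.ofReal (wv (ov y g) ^ 2 * pf F (ov y g)) * ENNReal.ofReal (G y) := by
      intro g
      rw [← ENNReal.ofReal_mul (sq_nonneg _),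
        ← ENNReal.ofReal_mul (mul_nonneg (sq_nonneg _) (h.pf_pos _).le), mul_assoc]
    simp_rw [h2]
    rw [lintegral_mul_const' _ _ ENNReal.ofReal_ne_top,
      ← ofReal_integral_eq_lintegral_ofReal hi
        (Filter.Eventually.of_forall fun g => mul_nonneg (sq_nonneg _) (h.pf_pos _).le),
      mul_comm, ENNReal.ofReal_mul (hG0 y)]
    rfl
  rw [h1]
  simp_rw [hinner]
  have h3 : ∀ y : V, ni y ^ j * ENNReal.ofReal (G y * NN j F y) =
      ENNReal.ofReal ((‖y‖ ^ (j - 1))⁻¹) * (ni y * ENNReal.ofReal (G y * NN j F y)) := by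
    intro y
    have h4 : ni y ^ j = ENNReal.ofReal ((‖y‖ ^ (j - 1))⁻¹) * ni y := by
      obtain ⟨i, rfl⟩ : ∃ i, j = i + 1 := ⟨j - 1, by omega⟩
      rw [pow_succ, Nat.add_sub_cancel]
      unfold ni
      rw [← ENNReal.ofReal_pow (by positivity), inv_pow]
    rw [h4, mul_assoc]
  simp_rw [h3]
  exact radial_lintegral (V := V) (by omega) (ρ := fun r => ENNReal.ofReal ((r ^ (j - 1))⁻¹))
    (by fun_prop) (meas_ni.mul ((hG.mul (measurable_NN h.mf j)).ennreal_ofReal))
    (fun c hc x => psi_hom hGh c hc x)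

private theorem lb_key2 {j : ℕ} (hd : 1 ≤ Module.finrank ℝ V) {F : V → ℝ} {T : V → V}
    (h : RC F T) {G : V → ℝ} (hG : Measurable G)
    (hGh : ∀ c : ℝ, 0 < c → ∀ x, G (c • x) = c * G x) :
    ∫⁻ y, ENNReal.ofReal (G y * NN j F y) ∂(stdGaussian V) =
      (∫⁻ x : V, ENNReal.ofReal ‖x‖ ∂(stdGaussian V)) *
        ∫⁻ y, ni y * ENNReal.ofReal (G y * NN j F y) ∂(stdGaussian V) := by
  have h0 : G 0 = 0 := by
    have h1 := hGh 2 two_pos 0
    rw [smul_zero] at h1
    linarith
  have h1 : ∀ y : V, ENNReal.ofReal (G y * NN j F y) =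
      ENNReal.ofReal ‖y‖ * (ni y * ENNReal.ofReal (G y * NN j F y)) := by
    intro y
    by_cases hy : y = 0
    · rw [hy, h0, norm_zero]
      simp
    · have hy' : ‖y‖ ≠ 0 := norm_ne_zero_iff.2 hy
      unfold ni
      rw [← mul_assoc, ← ENNReal.ofReal_mul (norm_nonneg _), mul_inv_cancel₀ hy',
        ENNReal.ofReal_one, one_mul]
  have h2 : ∫⁻ y, ENNReal.ofReal (G y * NN j F y) ∂(stdGaussian V) =
      ∫⁻ y, ENNReal.ofReal ‖y‖ * (ni y * ENNReal.ofReal (G y * NN j F y)) ∂(stdGaussian V) :=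
    lintegral_congr h1
  rw [h2]
  exact radial_lintegral (V := V) hd (ρ := fun r => ENNReal.ofReal r)
    (by fun_prop) (meas_ni.mul ((hG.mul (measurable_NN h.mf j)).ennreal_ofReal))
    (fun c hc x => psi_hom hGh c hc x)

omit [MeasurableSpace V] [BorelSpace V] in
private theorem finrank_orth_ge (X : List V) :
    Module.finrank ℝ V ≤ Module.finrank ℝ (Submodule.span ℝ {x | x ∈ X})ᗮ + X.length := by
  classical
  have h1 : {x : V | x ∈ X} = (X.toFinset : Set V) := by
    ext x; simp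
  have h2 : Module.finrank ℝ (Submodule.span ℝ {x | x ∈ X}) ≤ X.length := by
    rw [h1]
    exact (finrank_span_finset_le_card X.toFinset).trans (List.toFinset_card_le X)
  have h3 := Submodule.finrank_add_finrank_orthogonal (𝕜 := ℝ) (Submodule.span ℝ {x | x ∈ X})
  omega

private theorem inner_R {j : ℕ} {R : List V} (hR : R.length + 1 ≤ j) (x : Fin j → V) :
    ENNReal.ofReal (mG (Module.finrank ℝ V + 1 - 2 * j)) ≤
      ∫⁻ g, ENNReal.ofReal ‖res R (rv x g)‖ ∂(stdGaussian V) := by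
  set SR := (Submodule.span ℝ {x | x ∈ R})ᗮ with hSR
  set Sx := (Submodule.span ℝ {y | y ∈ List.ofFn x})ᗮ with hSx
  have d1 := finrank_orth_ge R
  have d2 := finrank_orth_ge (List.ofFn x)
  rw [List.length_ofFn] at d2
  have d3 := Submodule.finrank_sup_add_finrank_inf_eq SR Sx
  have d4 := Submodule.finrank_le (SR ⊔ Sx)
  have hdim : Module.finrank ℝ V + 1 - 2 * j ≤ Module.finrank ℝ (SR ⊓ Sx : Submodule ℝ V) := by
    rw [← hSR] at d1
    rw [← hSx] at d2
    omega
  have hle : ∀ g : V, ‖(SR ⊓ Sx : Submodule ℝ V).starProjection g‖ ≤ ‖res R (rv x g)‖ := by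
    intro g
    have hP : ∀ (W : Submodule ℝ V), (SR ⊓ Sx : Submodule ℝ V) ≤ W → ∀ z : V,
        (SR ⊓ Sx : Submodule ℝ V).starProjection (W.starProjection z) =
          (SR ⊓ Sx : Submodule ℝ V).starProjection z := by
      intro W hW z
      have h1 : (SR ⊓ Sx : Submodule ℝ V).starProjection (z - W.starProjection z) = 0 := by
        rw [Submodule.starProjection_apply_eq_zero_iff]
        exact Submodule.orthogonal_le hW (Submodule.sub_starProjection_mem_orthogonal z)
      rw [map_sub, sub_eq_zero] at h1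
      exact h1.symm
    have e : (SR ⊓ Sx : Submodule ℝ V).starProjection g =
        (SR ⊓ Sx : Submodule ℝ V).starProjection (res R (rv x g)) := by
      unfold rv
      rw [res_eq R, res_eq (List.ofFn x), hP SR inf_le_left, hP Sx inf_le_right]
    rw [e]
    exact Submodule.norm_starProjection_apply_le _ _
  have hint : Integrable (fun g : V => ‖(SR ⊓ Sx : Submodule ℝ V).starProjection g‖) (stdGaussian V) := by
    refine Integrable.mono' (integrable_norm_gaussian (V := V)) (by fun_prop)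
      (Filter.Eventually.of_forall fun g => ?_)
    rw [norm_norm]
    exact Submodule.norm_starProjection_apply_le _ _
  calc ENNReal.ofReal (mG (Module.finrank ℝ V + 1 - 2 * j))
      ≤ ENNReal.ofReal (mG (Module.finrank ℝ (SR ⊓ Sx : Submodule ℝ V))) :=
        ENNReal.ofReal_le_ofReal (mG_mono hdim)
    _ = ∫⁻ g, ENNReal.ofReal ‖(SR ⊓ Sx : Submodule ℝ V).starProjection g‖ ∂(stdGaussian V) := by
        rw [← integral_norm_proj, ofReal_integral_eq_lintegral_ofReal hint
          (Filter.Eventually.of_forall fun g => norm_nonneg _)]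
    _ ≤ ∫⁻ g, ENNReal.ofReal ‖res R (rv x g)‖ ∂(stdGaussian V) :=
        lintegral_mono fun g => ENNReal.ofReal_le_ofReal (hle g)

private theorem inner_1 {j : ℕ} {x : Fin j → V} (hx : wv x ≠ 0) :
    ∫⁻ g, ENNReal.ofReal ‖rv x g‖ ∂(stdGaussian V) = ENNReal.ofReal (mG (Module.finrank ℝ V - j)) := by
  have d1 := finrank_orth_of_wn_ne_zero (X := List.ofFn x) hx
  rw [List.length_ofFn] at d1
  have h1 := integral_norm_proj (V := V) (Submodule.span ℝ {y | y ∈ List.ofFn x})ᗮ
  rw [d1] at h1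
  have hint : Integrable (fun g : V => ‖rv x g‖) (stdGaussian V) := by
    refine Integrable.mono' (integrable_norm_gaussian (V := V))
      (continuous_res (List.ofFn x)).norm.aestronglyMeasurable (Filter.Eventually.of_forall fun g => ?_)
    rw [norm_norm]
    exact norm_res_le _ _
  rw [← ofReal_integral_eq_lintegral_ofReal hint (Filter.Eventually.of_forall fun g => norm_nonneg _),
    ← h1]
  congr 1
  refine integral_congr_ae (Filter.Eventually.of_forall fun g => ?_)
  change ‖res (List.ofFn x) g‖ = _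
  rw [res_eq]

theorem RC.lb {j : ℕ} (hjd : j < Module.finrank ℝ V) {F : V → ℝ} {T : V → V} (h : RC F T)
    {R : List V} (hR : R.length + 1 ≤ j) :
    mG (Module.finrank ℝ V + 1 - 2 * j) * ∫ x, ‖x‖ * NN j F x ∂(stdGaussian V) ≤
      mG (Module.finrank ℝ V - j) * ∫ x, ‖res R x‖ * NN j F x ∂(stdGaussian V) := by
  have hj1 : 1 ≤ j := by omega
  obtain ⟨c, C, hc, hb⟩ := NN_bounds hjd h
  have hNN0 : ∀ y, 0 ≤ NN j F y := fun y => hc.le.trans (hb y).1
  have hrR : Measurable (res R : V → V) := (continuous_res R).measurable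
  have hmN := measurable_NN (V := V) h.mf j
  -- the two functions
  have hom1 : ∀ a : ℝ, 0 < a → ∀ x : V, ‖a • x‖ = a * ‖x‖ := fun a ha x => by
    rw [norm_smul, Real.norm_eq_abs, abs_of_pos ha]
  have homR : ∀ a : ℝ, 0 < a → ∀ x : V, ‖res R (a • x)‖ = a * ‖res R x‖ := fun a ha x => by
    rw [res_smul, hom1 a ha]
  have k1 := lb_key hj1 hjd h (G := fun x : V => ‖x‖) measurable_norm (fun x => norm_nonneg x) hom1
  have kR := lb_key hj1 hjd h (G := fun x : V => ‖res R x‖) hrR.norm (fun x => norm_nonneg _) homR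
  have l1 := lb_key2 (j := j) (by omega) h (G := fun x : V => ‖x‖) measurable_norm hom1
  have lR := lb_key2 (j := j) (by omega) h (G := fun x : V => ‖res R x‖) hrR.norm homR
  set c1 := ∫⁻ x : V, ENNReal.ofReal ((‖x‖ ^ (j - 1))⁻¹) ∂(stdGaussian V) with hc1
  set c2 := ∫⁻ x : V, ENNReal.ofReal ‖x‖ ∂(stdGaussian V) with hc2
  set I1 := ∫⁻ y : V, ni y * ENNReal.ofReal (‖y‖ * NN j F y) ∂(stdGaussian V) with hI1
  set IR := ∫⁻ y : V, ni y * ENNReal.ofReal (‖res R y‖ * NN j F y) ∂(stdGaussian V) with hIR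
  have hc1t : c1 ≠ ⊤ := (nmom_lt_top (V := V) (by omega)).ne
  have hc10 : c1 ≠ 0 := (nmom_pos (V := V) (by omega) _).ne'
  set mq := ENNReal.ofReal (mG (Module.finrank ℝ V + 1 - 2 * j)) with hmq
  set mk := ENNReal.ofReal (mG (Module.finrank ℝ V - j)) with hmk
  -- the comparison of the left sides
  have hcmp : mq * ∫⁻ x, ENNReal.ofReal (wv x) *
        ∫⁻ g, ENNReal.ofReal (pf F x * ‖rv x g‖) ∂(stdGaussian V) ∂(gp V j) ≤
      mk * ∫⁻ x, ENNReal.ofReal (wv x) *
        ∫⁻ g, ENNReal.ofReal (pf F x * ‖res R (rv x g)‖) ∂(stdGaussian V) ∂(gp V j) := by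
    rw [← lintegral_const_mul' _ _ (by rw [hmq]; exact ENNReal.ofReal_ne_top),
      ← lintegral_const_mul' _ _ (by rw [hmk]; exact ENNReal.ofReal_ne_top)]
    refine lintegral_mono fun x => ?_
    by_cases hx : wv x = 0
    · simp [hx]
    · have e1 : ∫⁻ g, ENNReal.ofReal (pf F x * ‖rv x g‖) ∂(stdGaussian V) =
          ENNReal.ofReal (pf F x) * mk := by
        rw [hmk, ← inner_1 hx, ← lintegral_const_mul' _ _ ENNReal.ofReal_ne_top]
        exact lintegral_congr fun g => ENNReal.ofReal_mul (h.pf_pos _).le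
      have e2 : ENNReal.ofReal (pf F x) * mq ≤
          ∫⁻ g, ENNReal.ofReal (pf F x * ‖res R (rv x g)‖) ∂(stdGaussian V) := by
        have e3 : ∫⁻ g, ENNReal.ofReal (pf F x * ‖res R (rv x g)‖) ∂(stdGaussian V) =
            ENNReal.ofReal (pf F x) * ∫⁻ g, ENNReal.ofReal ‖res R (rv x g)‖ ∂(stdGaussian V) := by
          rw [← lintegral_const_mul' _ _ ENNReal.ofReal_ne_top]
          exact lintegral_congr fun g => ENNReal.ofReal_mul (h.pf_pos _).le
        rw [e3]
        exact mul_le_mul_right (inner_R hR x) _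
      simp only
      rw [e1]
      calc mq * (ENNReal.ofReal (wv x) * (ENNReal.ofReal (pf F x) * mk))
          = mk * (ENNReal.ofReal (wv x) * (ENNReal.ofReal (pf F x) * mq)) := by ring
        _ ≤ mk * (ENNReal.ofReal (wv x) *
            ∫⁻ g, ENNReal.ofReal (pf F x * ‖res R (rv x g)‖) ∂(stdGaussian V)) := by gcongr
  have k1' : mq * (c1 * I1) ≤ mk * (c1 * IR) := by
    rw [← k1, ← kR]
    exact hcmp
  have k2 : mq * I1 ≤ mk * IR := by
    have e1 : mq * (c1 * I1) = c1 * (mq * I1) := by ring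
    have e2 : mk * (c1 * IR) = c1 * (mk * IR) := by ring
    rw [e1, e2] at k1'
    exact (ENNReal.mul_le_mul_iff_right hc10 hc1t).1 k1'
  have k3 : mq * ∫⁻ y : V, ENNReal.ofReal (‖y‖ * NN j F y) ∂(stdGaussian V) ≤
      mk * ∫⁻ y : V, ENNReal.ofReal (‖res R y‖ * NN j F y) ∂(stdGaussian V) := by
    rw [l1, lR]
    calc mq * (c2 * I1) = c2 * (mq * I1) := by ring
      _ ≤ c2 * (mk * IR) := by gcongr
      _ = mk * (c2 * IR) := by ring
  -- back to real integrals
  have hi1 : Integrable (fun y : V => ‖y‖ * NN j F y) (stdGaussian V) := by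
    refine Integrable.mono' ((integrable_norm_gaussian (V := V)).mul_const C)
      (measurable_norm.mul hmN).aestronglyMeasurable (Filter.Eventually.of_forall fun y => ?_)
    rw [Real.norm_of_nonneg (mul_nonneg (norm_nonneg _) (hNN0 y))]
    exact mul_le_mul_of_nonneg_left (hb y).2 (norm_nonneg _)
  have hiR : Integrable (fun y : V => ‖res R y‖ * NN j F y) (stdGaussian V) := by
    refine Integrable.mono' ((integrable_norm_gaussian (V := V)).mul_const C)
      (hrR.norm.mul hmN).aestronglyMeasurable (Filter.Eventually.of_forall fun y => ?_)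
    rw [Real.norm_of_nonneg (mul_nonneg (norm_nonneg _) (hNN0 y))]
    exact mul_le_mul (norm_res_le R y) (hb y).2 (hNN0 y) (norm_nonneg _)
  rw [← ofReal_integral_eq_lintegral_ofReal hi1
      (Filter.Eventually.of_forall fun y => mul_nonneg (norm_nonneg _) (hNN0 y)),
    ← ofReal_integral_eq_lintegral_ofReal hiR
      (Filter.Eventually.of_forall fun y => mul_nonneg (norm_nonneg _) (hNN0 y)),
    hmq, hmk, ← ENNReal.ofReal_mul (mG_nonneg _), ← ENNReal.ofReal_mul (mG_nonneg _)] at k3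
  refine (ENNReal.ofReal_le_ofReal_iff ?_).1 k3
  exact mul_nonneg (mG_nonneg _)
    (integral_nonneg fun y => mul_nonneg (norm_nonneg _) (hNN0 y))

end Pool.Agent.FI75
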