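import Pool.Agent.FI75.C2c
import Pool.Agent.FI75.C4d
import Pool.Agent.FI75.C5
import Pool.Agent.FI75.C6

/-! Module FI-C7: the contraction of the Fisher information. -/

set_option autoImplicit false

namespace Pool.Agent.FI75
open MeasureTheory ProbabilityTheory Set Filter Topology Metric
open Pool.Agent.HP89
open scoped RealInnerProductSpace ENNReal

variable {V : Type*} [NormedAddCommGroup V] [InnerProductSpace ℝ V] [FiniteDimensional ℝ V]
  [MeasurableSpace V] [BorelSpace V]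

/-- `θ = (j/(d-j)) m_{d-j}/m_{d-2j+1} < 1`. -/
theorem theta_lt_one {d j : ℕ} (hj : 1 ≤ j) (h2 : 2 * j < d) (h3 : 3 * d * j < d ^ 2 + j ^ 2) :
    (j : ℝ) * mG (d - j) < ((d : ℝ) - j) * mG (d + 1 - 2 * j) := by
  obtain ⟨q, hq⟩ : ∃ q, d + 1 - 2 * j = q + 1 ∧ d = q + 2 * j := ⟨d - 2 * j, by omega, by omega⟩
  obtain ⟨hq1, hq2⟩ := hq
  have hqpos : 1 ≤ q := by omega
  have hk : d - j = q + j := by omega
  have h4 : j ^ 2 < (q + j) * q := by
    subst hq2
    nlinarith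
  rw [hq1, hk]
  have h5 : mG (q + j) ^ 2 ≤ ((q + j : ℕ) : ℝ) := mG_sq_le _
  have h6 : (q : ℝ) ≤ mG (q + 1) ^ 2 := by
    have h7 := mG_mul q
    have h8 := mG_le_succ q
    have h9 := mG_nonneg q
    nlinarith [mG_nonneg (q + 1)]
  have h7 : 0 ≤ mG (q + j) := mG_nonneg _
  have h8 : 0 < mG (q + 1) := mG_pos (by omega)
  have h9 : ((d : ℝ) - j) = (q : ℝ) + j := by
    rw [hq2]
    push_cast
    ring
  rw [h9]
  have h10 : ((j : ℝ) * mG (q + j)) ^ 2 < (((q : ℝ) + j) * mG (q + 1)) ^ 2 := by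
    have h11 : ((j : ℝ)) ^ 2 < ((q : ℝ) + j) * q := by exact_mod_cast h4
    have hjp : (0 : ℝ) < (j : ℝ) := by exact_mod_cast hj
    have hqp : (0 : ℝ) < (q : ℝ) := by exact_mod_cast hqpos
    calc ((j : ℝ) * mG (q + j)) ^ 2 = (j : ℝ) ^ 2 * mG (q + j) ^ 2 := by ring
      _ ≤ (j : ℝ) ^ 2 * ((q : ℝ) + j) := by
          apply mul_le_mul_of_nonneg_left _ (by positivity)
          calc mG (q + j) ^ 2 ≤ ((q + j : ℕ) : ℝ) := h5
            _ = (q : ℝ) + j := by push_cast; ring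
      _ < (((q : ℝ) + j) * q) * ((q : ℝ) + j) := mul_lt_mul_of_pos_right h11 (by positivity)
      _ ≤ (((q : ℝ) + j) * mG (q + 1) ^ 2) * ((q : ℝ) + j) := by
          apply mul_le_mul_of_nonneg_right _ (by positivity)
          exact mul_le_mul_of_nonneg_left h6 (by positivity)
      _ = (((q : ℝ) + j) * mG (q + 1)) ^ 2 := by ring
  exact lt_of_pow_lt_pow_left₀ 2 (by positivity) h10

/-- contraction of the Fisher information for densities of the form `NN j F`. -/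
theorem RC.contraction {j : ℕ} (hj : 1 ≤ j) (h2 : 2 * j < Module.finrank ℝ V) {F : V → ℝ} {T : V → V} (h : RC F T) :
    ((Module.finrank ℝ V : ℝ) - j) * mG (Module.finrank ℝ V + 1 - 2 * j) *
        (JJ (NN j (NN j F)) (TT j (NN j F) (TT j F T)) * AA (NN j F)) ≤
      j * mG (Module.finrank ℝ V - j) * (JJ (NN j F) (TT j F T) * AA (NN j (NN j F))) := by
  have hd : 2 ≤ Module.finrank ℝ V := by omega
  have hjd : j < Module.finrank ℝ V := by omega
  have h' : RC (NN j F) (TT j F T) := h.next hd hjd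
  have h'' : RC (NN j (NN j F)) (TT j (NN j F) (TT j F T)) := h'.next hd hjd
  set F1 := NN j F
  set T1 := TT j F T
  set F2 := NN j F1
  set T2 := TT j F1 T1
  have k1 := h'.k123 hd hjd
  have k4 := h'.k4 hj hjd
  have k5 := h'.k5 hj hjd (mG_nonneg (Module.finrank ℝ V + 1 - 2 * j)) (mG_nonneg (Module.finrank ℝ V - j))
    (fun R hR => h.lb hjd hR.le)
  have hE0 : 0 < E0 j F1 := h'.E0_pos hjd.le
  have hA2 : 0 < AA F2 := h''.AA_pos
  have hA1 : 0 < AA F1 := h'.AA_pos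
  have hmq : 0 ≤ mG (Module.finrank ℝ V + 1 - 2 * j) := mG_nonneg _
  set mq := mG (Module.finrank ℝ V + 1 - 2 * j)
  set mk := mG (Module.finrank ℝ V - j)
  set k : ℝ := (Module.finrank ℝ V : ℝ) - j
  change k * JJ F2 T2 * E0 j F1 ≤ E2 j F1 T1 * AA F2 at k1
  have s1 : k * JJ F2 T2 * E0 j F1 ≤ E3 j F1 T1 * AA F2 :=
    k1.trans (mul_le_mul_of_nonneg_right k4 hA2.le)
  have s2 : (k * mq * (JJ F2 T2 * AA F1)) * E0 j F1 ≤ (j * mk * (JJ F1 T1 * AA F2)) * E0 j F1 := by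
    calc (k * mq * (JJ F2 T2 * AA F1)) * E0 j F1 = (mq * AA F1) * (k * JJ F2 T2 * E0 j F1) := by ring
      _ ≤ (mq * AA F1) * (E3 j F1 T1 * AA F2) :=
          mul_le_mul_of_nonneg_left s1 (mul_nonneg hmq hA1.le)
      _ = (mq * AA F1 * E3 j F1 T1) * AA F2 := by ring
      _ ≤ (j * mk * JJ F1 T1 * E0 j F1) * AA F2 := mul_le_mul_of_nonneg_right k5 hA2.le
      _ = (j * mk * (JJ F1 T1 * AA F2)) * E0 j F1 := by ring
  exact le_of_mul_le_mul_right s2 hE0

end Pool.Agent.FI75
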