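import Pool.Agent.HP89.A1b
import Pool.Agent.HP89.A3a
import Pool.Agent.FI75.Defs

/-! Module FI-D1 (Gram determinant and its expectation). `wv_sq_eq_det`: induction on `j`; `x 0 = res X (x 0) + p` with
`p` in the span of the other vectors: the Gram determinant is bilinear in (row 0, column 0), vanishes for `p` (linear
combination of the other rows / columns), and for `r = res X (x 0)` (orthogonal to the others) it is
`‖r‖² * det (Gram of the others)` (`Matrix.det_succ_row_zero`); or show first `det Gram (x) = 0` for dependent vectors.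
`lintegral_wv_sq_pi`: `det Gram = ∑ σ, sgn σ ∏ i ⟪x i, x (σ i)⟫`, `⟪u, v⟫ = ∑ s ⟪u, b s⟫ ⟪v, b s⟫`, expand the product
(`Finset.prod_univ_sum`), reorder `∏ i ⟪x (σ i), b (α i)⟫ = ∏ i ⟪x i, b (α (σ⁻¹ i))⟫`, and integrate
(`integral_fintype_prod_eq_prod`): `∑ α ∑ σ sgn σ ∏ i M (α i) (α (σ⁻¹ i)) = ∑ α det`. -/

set_option autoImplicit false

namespace Pool.Agent.FI75
open MeasureTheory ProbabilityTheory Set Filter Topology Metric
open Pool.Agent.HP89
open scoped RealInnerProductSpace ENNReal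

variable {V : Type*} [NormedAddCommGroup V] [InnerProductSpace ℝ V] [FiniteDimensional ℝ V]
  [MeasurableSpace V] [BorelSpace V]

omit [MeasurableSpace V] [BorelSpace V] in
private theorem res_facts {j : ℕ} (y : Fin j → V) (x0 : V) :
    (∃ c : Fin j → ℝ, res (List.ofFn y) x0 = x0 - ∑ k, c k • y k) ∧
    (∀ k, ⟪res (List.ofFn y) x0, y k⟫ = 0) ∧
    ⟪res (List.ofFn y) x0, x0⟫ = ‖res (List.ofFn y) x0‖ ^ 2 := by
  set K := Submodule.span ℝ {x | x ∈ List.ofFn y} with hK
  have hKr : K = Submodule.span ℝ (Set.range y) := by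
    rw [hK]
    congr 1
    ext a
    simp [List.mem_ofFn']
  have hr : res (List.ofFn y) x0 = Kᗮ.starProjection x0 := res_eq _ _
  have hmem : res (List.ofFn y) x0 ∈ Kᗮ := by
    rw [hr]
    exact Submodule.starProjection_apply_mem _ _
  have hsub : x0 - res (List.ofFn y) x0 ∈ K := by
    have h1 : x0 - Kᗮ.starProjection x0 ∈ Kᗮᗮ := Submodule.sub_starProjection_mem_orthogonal x0
    rw [Submodule.orthogonal_orthogonal] at h1
    rw [hr]
    exact h1
  refine ⟨?_, ?_, ?_⟩
  · have h1 := hsub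
    rw [hKr, Submodule.mem_span_range_iff_exists_fun] at h1
    obtain ⟨c, hc⟩ := h1
    refine ⟨c, ?_⟩
    rw [hc]
    abel
  · intro k
    rw [real_inner_comm]
    refine (Submodule.mem_orthogonal K _).1 hmem (y k) ?_
    refine Submodule.subset_span ?_
    exact (List.mem_ofFn' y _).2 ⟨k, rfl⟩
  · have h1 : ⟪res (List.ofFn y) x0, x0 - res (List.ofFn y) x0⟫ = 0 := by
      rw [real_inner_comm]
      exact (Submodule.mem_orthogonal K _).1 hmem _ hsub
    rw [inner_sub_right, real_inner_self_eq_norm_sq] at h1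
    linarith

omit [MeasurableSpace V] [BorelSpace V] in
theorem wv_sq_eq_det {j : ℕ} (x : Fin j → V) : wv x ^ 2 = (Matrix.of fun i l => ⟪x i, x l⟫).det := by
  induction j with
  | zero => simp [wv]
  | succ j ih =>
    set y : Fin j → V := fun i => x i.succ with hy
    have hl : List.ofFn x = x 0 :: List.ofFn y := List.ofFn_succ
    set r := res (List.ofFn y) (x 0) with hr
    have hwv : wv x ^ 2 = wv y ^ 2 * ‖r‖ ^ 2 := by
      unfold wv
      rw [hl, wn_cons, mul_pow]
    obtain ⟨⟨c, hc⟩, horth, hself⟩ := res_facts y (x 0)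
    rw [← hr] at hc horth hself
    set G : Matrix (Fin (j + 1)) (Fin (j + 1)) ℝ := Matrix.of fun i l => ⟪x i, x l⟫ with hG
    set c' : Fin (j + 1) → ℝ := Fin.cons 1 (fun k => - c k) with hc'
    have hrow : ∑ k, c' k • G k = fun l => ⟪r, x l⟫ := by
      funext l
      rw [Finset.sum_apply, Fin.sum_univ_succ, hc, inner_sub_left, sum_inner]
      simp only [hc', hG, Fin.cons_zero, Fin.cons_succ, Pi.smul_apply, Matrix.of_apply, smul_eq_mul,
        one_mul, hy, inner_smul_left, neg_mul, Finset.sum_neg_distrib]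
      simp [sub_eq_add_neg]
    have hdet : (G.updateRow 0 (fun l => ⟪r, x l⟫)).det = G.det := by
      rw [← hrow, Matrix.det_updateRow_sum]
      simp [hc']
    rw [← hdet, Matrix.det_succ_row_zero, Fin.sum_univ_succ]
    have hz : ∀ k : Fin j, (-1 : ℝ) ^ ((k.succ : Fin (j + 1)) : ℕ) *
        (G.updateRow 0 (fun l => ⟪r, x l⟫)) 0 k.succ *
        ((G.updateRow 0 (fun l => ⟪r, x l⟫)).submatrix Fin.succ k.succ.succAbove).det = 0 := by
      intro k
      rw [Matrix.updateRow_self, horth k]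
      simp
    rw [Finset.sum_eq_zero (fun k _ => hz k), add_zero, Matrix.updateRow_self, hself]
    have hsubm : (G.updateRow 0 (fun l => ⟪r, x l⟫)).submatrix Fin.succ (Fin.succAbove 0) =
        Matrix.of fun i l => ⟪y i, y l⟫ := by
      ext i l
      rw [Matrix.submatrix_apply, Matrix.updateRow_ne (Fin.succ_ne_zero i), Fin.zero_succAbove]
      rfl
    rw [hsubm, ← ih y, hwv]
    simp
    ring

omit [MeasurableSpace V] [BorelSpace V] in
private theorem wv_expand {j : ℕ} (x : Fin j → V) : wv x ^ 2 =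
    ∑ α : Fin j → Fin (Module.finrank ℝ V), ∑ σ : Equiv.Perm (Fin j),
      ((Equiv.Perm.sign σ : ℤ) : ℝ) * ∏ i, (⟪x i, stdOrthonormalBasis ℝ V (α (σ⁻¹ i))⟫ *
        ⟪x i, stdOrthonormalBasis ℝ V (α i)⟫) := by
  rw [wv_sq_eq_det, Matrix.det_apply', Finset.sum_comm]
  refine Finset.sum_congr rfl fun σ _ => ?_
  rw [← Finset.mul_sum]
  congr 1
  have h1 : ∀ i, (Matrix.of fun i l => ⟪x i, x l⟫) (σ i) i =
      ∑ s, ⟪x (σ i), stdOrthonormalBasis ℝ V s⟫ * ⟪x i, stdOrthonormalBasis ℝ V s⟫ := by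
    intro i
    rw [Matrix.of_apply, ← (stdOrthonormalBasis ℝ V).sum_inner_mul_inner (x (σ i)) (x i)]
    refine Finset.sum_congr rfl fun s _ => ?_
    rw [real_inner_comm (x i)]
  simp only [h1]
  rw [Finset.prod_univ_sum, Fintype.piFinset_univ]
  refine Finset.sum_congr rfl fun α _ => ?_
  rw [Finset.prod_mul_distrib, Finset.prod_mul_distrib]
  congr 1
  rw [← Equiv.prod_comp σ (fun i => ⟪x i, stdOrthonormalBasis ℝ V (α (σ⁻¹ i))⟫)]
  refine Finset.prod_congr rfl fun i _ => ?_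
  simp

theorem lintegral_wv_sq_pi (j : ℕ) (κ : Measure V) [IsFiniteMeasure κ] (hκ : Integrable (fun u => ‖u‖ ^ 2) κ) :
    ∫⁻ x, ENNReal.ofReal (wv x ^ 2) ∂(Measure.pi fun _ : Fin j => κ) =
      ENNReal.ofReal (∑ α : Fin j → Fin (Module.finrank ℝ V),
        (Matrix.of fun i l => ∫ u, ⟪u, stdOrthonormalBasis ℝ V (α i)⟫ * ⟪u, stdOrthonormalBasis ℝ V (α l)⟫ ∂κ).det) := by
  set b := stdOrthonormalBasis ℝ V with hb
  have hint1 : ∀ s t : Fin (Module.finrank ℝ V), Integrable (fun u : V => ⟪u, b s⟫ * ⟪u, b t⟫) κ := by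
    intro s t
    refine hκ.mono' ?_ (Eventually.of_forall fun u => ?_)
    · exact ((measurable_id.inner_const).mul (measurable_id.inner_const)).aestronglyMeasurable
    · rw [norm_mul]
      have h1 : ‖⟪u, b s⟫‖ ≤ ‖u‖ := by
        have := norm_inner_le_norm (𝕜 := ℝ) u (b s)
        rwa [b.norm_eq_one, mul_one] at this
      have h2 : ‖⟪u, b t⟫‖ ≤ ‖u‖ := by
        have := norm_inner_le_norm (𝕜 := ℝ) u (b t)
        rwa [b.norm_eq_one, mul_one] at this
      calc ‖⟪u, b s⟫‖ * ‖⟪u, b t⟫‖ ≤ ‖u‖ * ‖u‖ :=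
            mul_le_mul h1 h2 (norm_nonneg _) (norm_nonneg _)
        _ = ‖u‖ ^ 2 := by ring
  have hint2 : ∀ (α : Fin j → Fin (Module.finrank ℝ V)) (σ : Equiv.Perm (Fin j)),
      Integrable (fun x : Fin j → V => ((Equiv.Perm.sign σ : ℤ) : ℝ) *
        ∏ i, (⟪x i, b (α (σ⁻¹ i))⟫ * ⟪x i, b (α i)⟫)) (Measure.pi fun _ : Fin j => κ) := by
    intro α σ
    refine Integrable.const_mul ?_ _
    exact Integrable.fintype_prod (f := fun i (u : V) => ⟪u, b (α (σ⁻¹ i))⟫ * ⟪u, b (α i)⟫)
      (fun i => hint1 _ _)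
  have hint3 : Integrable (fun x : Fin j → V => wv x ^ 2) (Measure.pi fun _ : Fin j => κ) := by
    simp only [wv_expand]
    exact integrable_finsetSum _ fun α _ => integrable_finsetSum _ fun σ _ => hint2 α σ
  rw [← ofReal_integral_eq_lintegral_ofReal hint3 (Eventually.of_forall fun x => sq_nonneg _)]
  congr 1
  simp only [wv_expand]
  rw [integral_finsetSum _ fun α _ => integrable_finsetSum _ fun σ _ => hint2 α σ]
  refine Finset.sum_congr rfl fun α _ => ?_
  rw [integral_finsetSum _ fun σ _ => hint2 α σ, Matrix.det_apply',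
    ← Equiv.sum_comp (Equiv.inv (Equiv.Perm (Fin j)))]
  refine Finset.sum_congr rfl fun σ _ => ?_
  rw [integral_const_mul, integral_fintype_prod_eq_prod
    (f := fun i (u : V) => ⟪u, b (α (((Equiv.inv (Equiv.Perm (Fin j))) σ)⁻¹ i))⟫ * ⟪u, b (α i)⟫)]
  simp [Equiv.inv_apply]

end Pool.Agent.FI75
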