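import Pool.Agent.FI75.B4b
import Pool.Agent.FI75.M1

/-! Module FI-D10 (positivity of the density). Let `κ = kap j μ h`. For a list `Z` with `|Z| < j`: `κ {u | res Z u ≠ 0} > 0`:
by `lintegral_kap` with the indicator, `ort (rv W h) (rv W g) = res (h :: List.ofFn W) g`, and `ae_res_ne_zero` (`|Z| + (j + 1) < d`)
it equals `∫⁻ W, ofReal (wv W) * ni (rv W h)`, positive as `∫⁻ ofReal (wv W) ≠ 0` (`iter_ew_nil`) and `rv W h ≠ 0` almost
everywhere. Then `0 < iter κ l (fun Z => ew Z ^ 2) X` for `wn X ≠ 0`, `|X| + l ≤ j`, by induction on `l`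
(`lintegral_pos_iff_support` or: a positive function on a set of positive measure; measurability `lmeas_ew`, `LMeas.iter`). -/

set_option autoImplicit false

namespace Pool.Agent.FI75
open MeasureTheory ProbabilityTheory Set Filter Topology Metric
open Pool.Agent.HP89
open scoped RealInnerProductSpace ENNReal

variable {V : Type*} [NormedAddCommGroup V] [InnerProductSpace ℝ V] [FiniteDimensional ℝ V]
  [MeasurableSpace V] [BorelSpace V]

private theorem d10_sfinite (j : ℕ) (μ : Measure V) [IsFiniteMeasure μ] (h : V) :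
    SFinite (kap j μ h) := by
  unfold kap
  infer_instance

private theorem d10_ni_ne {y : V} (hy : y ≠ 0) : ni y ≠ 0 := by
  unfold ni
  have : 0 < ‖y‖⁻¹ := inv_pos.mpr (norm_pos_iff.mpr hy)
  exact (ENNReal.ofReal_pos.mpr this).ne'

private theorem d10_kap {j : ℕ} (hj : 2 * j < Module.finrank ℝ V) {μ : Measure V} [IsFiniteMeasure μ]
    (hne : iter μ j ew [] ≠ 0) {h : V} (hae : ∀ᵐ X ∂(Measure.pi fun _ : Fin j => μ), rv X h ≠ 0)
    (Z : List V) (hZ : Z.length < j) : kap j μ h {u | res Z u ≠ 0} ≠ 0 := by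
  have hms : MeasurableSet {u : V | res Z u ≠ 0} :=
    ((continuous_res Z).measurable (measurableSet_singleton (0 : V))).compl
  intro h0
  rw [← lintegral_indicator_one hms, lintegral_kap j μ h (measurable_one.indicator hms)] at h0
  have h1 : ∀ W : Fin j → V, ∫⁻ g, ({u : V | res Z u ≠ 0}.indicator (1 : V → ℝ≥0∞))
      (ort (rv W h) (rv W g)) ∂(stdGaussian V) = 1 := by
    intro W
    have h2 : ∀ᵐ g ∂(stdGaussian V), ({u : V | res Z u ≠ 0}.indicator (1 : V → ℝ≥0∞))
        (ort (rv W h) (rv W g)) = 1 := by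
      have h3 := ae_res_ne_zero (V := V) (X := Z) (Y := h :: List.ofFn W) (by
        rw [List.length_cons, List.length_ofFn]; omega)
      filter_upwards [h3] with g hg
      have h4 : ort (rv W h) (rv W g) ∈ {u : V | res Z u ≠ 0} := hg
      rw [Set.indicator_of_mem h4]
      rfl
    rw [lintegral_congr_ae h2, lintegral_one, measure_univ]
  simp_rw [h1, mul_one] at h0
  have hm1 : Measurable (fun W : Fin j → V => rv W h) :=
    (measurable_rv j).comp (measurable_id.prodMk measurable_const)
  have hm2 : Measurable (fun W : Fin j → V => ENNReal.ofReal (wv W) * ni (rv W h)) := by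
    refine (measurable_wv j).ennreal_ofReal.mul ?_
    unfold ni
    exact hm1.norm.inv.ennreal_ofReal
  rw [lintegral_eq_zero_iff hm2] at h0
  apply hne
  rw [iter_ew_nil, lintegral_eq_zero_iff (measurable_wv j).ennreal_ofReal]
  filter_upwards [h0, hae] with W hW hW2
  have h5 : ENNReal.ofReal (wv W) * ni (rv W h) = 0 := hW
  rcases mul_eq_zero.mp h5 with h6 | h6
  · exact h6
  · exact absurd h6 (d10_ni_ne hW2)

private theorem d10_lm : LMeas (fun Z : List V => ew Z ^ 2) := fun n => (lmeas_ew n).pow_const 2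

private theorem d10_iter {j : ℕ} (hj : 2 * j < Module.finrank ℝ V) {μ : Measure V} [IsFiniteMeasure μ]
    (hne : iter μ j ew [] ≠ 0) {h : V} (hae : ∀ᵐ X ∂(Measure.pi fun _ : Fin j => μ), rv X h ≠ 0)
    (l : ℕ) : ∀ X : List V, wn X ≠ 0 → X.length + l ≤ j →
      iter (kap j μ h) l (fun Z => ew Z ^ 2) X ≠ 0 := by
  have : SFinite (kap j μ h) := d10_sfinite j μ h
  induction l with
  | zero =>
    intro X hX _
    rw [iter_zero]
    refine pow_ne_zero 2 ?_
    unfold ew
    exact (ENNReal.ofReal_pos.mpr (lt_of_le_of_ne (wn_nonneg X) (Ne.symm hX))).ne'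
  | succ l ih =>
    intro X hX hl h0
    rw [iter_succ] at h0
    have hm : Measurable (fun x => iter (kap j μ h) l (fun Z => ew Z ^ 2) (x :: X)) :=
      (d10_lm.iter (kap j μ h) l).cons X
    rw [lintegral_eq_zero_iff hm] at h0
    apply d10_kap hj hne hae X (by omega)
    rw [Filter.EventuallyEq, ae_iff] at h0
    refine measure_mono_null (fun x hx => ?_) h0
    have hx' : res X x ≠ 0 := hx
    refine ih (x :: X) ?_ (by rw [List.length_cons]; omega)
    rw [wn_cons]
    exact mul_ne_zero hX (norm_ne_zero_iff.mpr hx')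

theorem Gd_pos {j : ℕ} (hj : 2 * j < Module.finrank ℝ V) {μ : Measure V} [IsFiniteMeasure μ]
    (hne : iter μ j ew [] ≠ 0) {h : V} (hae : ∀ᵐ X ∂(Measure.pi fun _ : Fin j => μ), rv X h ≠ 0) :
    0 < Gd j μ h := by
  unfold Gd
  rw [pos_iff_ne_zero]
  exact d10_iter hj hne hae j [] (by rw [wn_nil]; exact one_ne_zero) (by simp)

end Pool.Agent.FI75
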