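import Pool.Agent.FI75.R1

/-! Module FI-D8 (algebra of rotationally differentiable functions). Gradients: `0`, `T₁ + T₂`, `f₁ • T₂ + f₂ • T₁`; product rule
`HasDerivAt.mul` at `t = 0` (`rt_zero`). Finite sums and products by induction, determinant: `Matrix.det_apply'`.
`RC_of_RDf` is in FI-D12. -/

set_option autoImplicit false

namespace Pool.Agent.FI75
open MeasureTheory ProbabilityTheory Set Filter Topology Metric
open Pool.Agent.HP89
open scoped RealInnerProductSpace ENNReal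

variable {V : Type*} [NormedAddCommGroup V] [InnerProductSpace ℝ V] [FiniteDimensional ℝ V]
  [MeasurableSpace V] [BorelSpace V]

theorem RDf.const (c : ℝ) : RDf (fun _ : V => c) := by
  refine ⟨fun _ => 0, measurable_const, measurable_const, ⟨|c|, fun x => ?_⟩, ?_, ?_, ?_⟩
  · rw [norm_zero, mul_zero]
    exact ⟨le_rfl, abs_nonneg c⟩
  · intro c _ x; rfl
  · intro c _ x; rw [smul_zero]
  · intro A _ x _
    rw [inner_zero_left]
    exact hasDerivAt_const _ _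

theorem RDf.add {f g : V → ℝ} (hf : RDf f) (hg : RDf g) : RDf (fun x => f x + g x) := by
  obtain ⟨T₁, h₁⟩ := hf
  obtain ⟨T₂, h₂⟩ := hg
  obtain ⟨C₁, hC₁⟩ := h₁.bdd
  obtain ⟨C₂, hC₂⟩ := h₂.bdd
  refine ⟨fun x => T₁ x + T₂ x, h₁.mf.add h₂.mf, h₁.mT.add h₂.mT, ⟨C₁ + C₂, fun x => ⟨?_, ?_⟩⟩, ?_, ?_, ?_⟩
  · exact (abs_add_le _ _).trans (add_le_add (hC₁ x).1 (hC₂ x).1)
  · calc ‖x‖ * ‖T₁ x + T₂ x‖ ≤ ‖x‖ * (‖T₁ x‖ + ‖T₂ x‖) :=
          mul_le_mul_of_nonneg_left (norm_add_le _ _) (norm_nonneg _)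
      _ ≤ C₁ + C₂ := by
          rw [mul_add]
          exact add_le_add (hC₁ x).2 (hC₂ x).2
  · intro c hc x
    change f (c • x) + g (c • x) = f x + g x
    rw [h₁.homf c hc, h₂.homf c hc]
  · intro c hc x
    change T₁ (c • x) + T₂ (c • x) = c⁻¹ • (T₁ x + T₂ x)
    rw [h₁.homT c hc, h₂.homT c hc, smul_add]
  · intro A hA x hx
    rw [inner_add_left]
    exact (h₁.der A hA x hx).add (h₂.der A hA x hx)

theorem RDf.mul {f g : V → ℝ} (hf : RDf f) (hg : RDf g) : RDf (fun x => f x * g x) := by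
  obtain ⟨T₁, h₁⟩ := hf
  obtain ⟨T₂, h₂⟩ := hg
  obtain ⟨C₁, hC₁⟩ := h₁.bdd
  obtain ⟨C₂, hC₂⟩ := h₂.bdd
  have hC₁0 : 0 ≤ C₁ := (abs_nonneg _).trans (hC₁ 0).1
  have hC₂0 : 0 ≤ C₂ := (abs_nonneg _).trans (hC₂ 0).1
  refine ⟨fun x => f x • T₂ x + g x • T₁ x, h₁.mf.mul h₂.mf, (h₁.mf.smul h₂.mT).add (h₂.mf.smul h₁.mT),
    ⟨2 * (C₁ * C₂), fun x => ⟨?_, ?_⟩⟩, ?_, ?_, ?_⟩
  · rw [abs_mul]
    have h3 := mul_le_mul (hC₁ x).1 (hC₂ x).1 (abs_nonneg _) hC₁0
    have h4 := mul_nonneg hC₁0 hC₂0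
    linarith
  · have e1 : ‖f x • T₂ x‖ = |f x| * ‖T₂ x‖ := by rw [norm_smul, Real.norm_eq_abs]
    have e2 : ‖g x • T₁ x‖ = |g x| * ‖T₁ x‖ := by rw [norm_smul, Real.norm_eq_abs]
    calc ‖x‖ * ‖f x • T₂ x + g x • T₁ x‖ ≤ ‖x‖ * (‖f x • T₂ x‖ + ‖g x • T₁ x‖) :=
          mul_le_mul_of_nonneg_left (norm_add_le _ _) (norm_nonneg _)
      _ = |f x| * (‖x‖ * ‖T₂ x‖) + |g x| * (‖x‖ * ‖T₁ x‖) := by rw [e1, e2]; ring
      _ ≤ C₁ * C₂ + C₂ * C₁ := add_le_add
          (mul_le_mul (hC₁ x).1 (hC₂ x).2 (by positivity) hC₁0)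
          (mul_le_mul (hC₂ x).1 (hC₁ x).2 (by positivity) hC₂0)
      _ = 2 * (C₁ * C₂) := by ring
  · intro c hc x
    change f (c • x) * g (c • x) = f x * g x
    rw [h₁.homf c hc, h₂.homf c hc]
  · intro c hc x
    change f (c • x) • T₂ (c • x) + g (c • x) • T₁ (c • x) = c⁻¹ • (f x • T₂ x + g x • T₁ x)
    rw [h₁.homf c hc, h₂.homf c hc, h₁.homT c hc, h₂.homT c hc, smul_add, smul_comm (f x),
      smul_comm (g x)]
  · intro A hA x hx
    have h := (h₁.der A hA x hx).mul (h₂.der A hA x hx)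
    refine h.congr_deriv ?_
    rw [rt_zero, inner_add_left, real_inner_smul_left, real_inner_smul_left]
    ring

theorem RDf.sum {ι : Type*} (s : Finset ι) {f : ι → V → ℝ} (hf : ∀ i, RDf (f i)) : RDf (fun x => ∑ i ∈ s, f i x) := by
  classical
  induction s using Finset.induction_on with
  | empty => simpa only [Finset.sum_empty] using RDf.const (V := V) 0
  | insert a s ha ih =>
    simp only [Finset.sum_insert ha]
    exact (hf a).add ih

theorem RDf.prod {ι : Type*} (s : Finset ι) {f : ι → V → ℝ} (hf : ∀ i, RDf (f i)) : RDf (fun x => ∏ i ∈ s, f i x) := by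
  classical
  induction s using Finset.induction_on with
  | empty => simpa only [Finset.prod_empty] using RDf.const (V := V) 1
  | insert a s ha ih =>
    simp only [Finset.prod_insert ha]
    exact (hf a).mul ih

theorem RDf.det {n : ℕ} {M : V → Matrix (Fin n) (Fin n) ℝ} (h : ∀ i l, RDf (fun x => M x i l)) :
    RDf (fun x => (M x).det) := by
  simp only [Matrix.det_apply']
  refine RDf.sum _ fun σ => ?_
  exact (RDf.const _).mul (RDf.prod _ fun i => h (σ i) i)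

end Pool.Agent.FI75
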