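import Pool.Agent.FI75.R3
import Pool.Agent.FI75.C3b
import Pool.Agent.FI75.D8
import Pool.Agent.HP89.A2a

/-! Module FI-D12 (from `RDf` and pointwise positivity to the class `RC`). For unit vectors `|f u - f v| ≤ C * angle u v`
(`exists_rot`, `RD.lip`, `‖A‖ ≤ 1`), so `f` is continuous on the unit sphere (`InnerProductGeometry.continuousAt_angle`,
`angle u u = 0`), which is compact: minimum `c > 0`; by homogeneity `c ≤ f x` for `x ≠ 0`. `F x = if x = 0 then 1 else f x`,
gradient `ort x (T x)`: orthogonal to `x`, `⟪ort x (T x), A x⟫ = ⟪T x, A x⟫` as `⟪x, A x⟫ = 0`; `T 0 = 0` by `homT`. -/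

set_option autoImplicit false
set_option linter.unusedSectionVars false

namespace Pool.Agent.FI75
open MeasureTheory ProbabilityTheory Set Filter Topology Metric
open Pool.Agent.HP89
open scoped RealInnerProductSpace ENNReal

variable {V : Type*} [NormedAddCommGroup V] [InnerProductSpace ℝ V] [FiniteDimensional ℝ V]
  [MeasurableSpace V] [BorelSpace V]

private theorem RD.angle_le (hd : 2 ≤ Module.finrank ℝ V) {f : V → ℝ} {T : V → V} (h : RD f T)
    {C : ℝ} (hC0 : 0 ≤ C) (hC : ∀ x, ‖x‖ * ‖T x‖ ≤ C) {u v : V} (hu : ‖u‖ = 1) (hv : ‖v‖ = 1) :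
    |f v - f u| ≤ C * InnerProductGeometry.angle u v := by
  obtain ⟨A, hA, hA1, hAv⟩ := exists_rot hd hu hv
  have hu0 : u ≠ 0 := by
    intro h0
    rw [h0, norm_zero] at hu
    exact zero_ne_one hu
  have hn : ‖A‖ ≤ 1 := A.opNorm_le_bound zero_le_one fun x => by
    rw [one_mul]; exact hA1 x
  have h1 := h.lip hA hC hu0 (InnerProductGeometry.angle u v) 0
  rw [hAv, rt_zero, sub_zero, abs_of_nonneg (InnerProductGeometry.angle_nonneg u v)] at h1
  refine h1.trans ?_
  have h2 : C * ‖A‖ ≤ C := by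
    calc C * ‖A‖ ≤ C * 1 := mul_le_mul_of_nonneg_left hn hC0
      _ = C := mul_one C
  exact mul_le_mul_of_nonneg_right h2 (InnerProductGeometry.angle_nonneg u v)

theorem RDf.lower (hd : 2 ≤ Module.finrank ℝ V) {f : V → ℝ} (h : RDf f) (hpos : ∀ x, x ≠ 0 → 0 < f x) :
    ∃ c : ℝ, 0 < c ∧ ∀ x, x ≠ 0 → c ≤ f x := by
  obtain ⟨T, hT⟩ := h
  obtain ⟨C, hC⟩ := hT.bdd
  have hC0 : 0 ≤ C := (abs_nonneg _).trans (hC 0).1
  have hnt : Nontrivial V := Module.nontrivial_of_finrank_pos (R := ℝ) (by omega)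
  have hcont : ContinuousOn f (sphere (0 : V) 1) := by
    intro u hu
    have hu1 : ‖u‖ = 1 := by simpa using hu
    have hu0 : u ≠ 0 := by
      intro h0
      rw [h0, norm_zero] at hu1
      exact zero_ne_one hu1
    have hang : Tendsto (fun v : V => C * InnerProductGeometry.angle u v)
        (𝓝[sphere (0 : V) 1] u) (𝓝 0) := by
      have h1 : ContinuousAt (fun v : V => InnerProductGeometry.angle u v) u := by
        have h2 := InnerProductGeometry.continuousAt_angle (x := ((u, u) : V × V)) hu0 hu0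
        exact ContinuousAt.comp (x := u) (f := fun v : V => ((u, v) : V × V)) h2
          (by fun_prop)
      have h3 : Tendsto (fun v : V => C * InnerProductGeometry.angle u v) (𝓝 u)
          (𝓝 (C * InnerProductGeometry.angle u u)) := h1.tendsto.const_mul C
      rw [InnerProductGeometry.angle_self hu0, mul_zero] at h3
      exact h3.mono_left nhdsWithin_le_nhds
    rw [ContinuousWithinAt, tendsto_iff_norm_sub_tendsto_zero]
    refine squeeze_zero' (Eventually.of_forall fun _ => norm_nonneg _) ?_ hang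
    filter_upwards [self_mem_nhdsWithin] with v hv
    have hv1 : ‖v‖ = 1 := by simpa using hv
    rw [Real.norm_eq_abs]
    exact hT.angle_le hd hC0 (fun x => (hC x).2) hu1 hv1
  obtain ⟨x0, hx0⟩ := (NormedSpace.sphere_nonempty (x := (0 : V)) (r := 1)).2 zero_le_one
  obtain ⟨m, hm, hmin⟩ := (isCompact_sphere (0 : V) 1).exists_isMinOn ⟨x0, hx0⟩ hcont
  have hm1 : ‖m‖ = 1 := by simpa using hm
  have hm0 : m ≠ 0 := by
    intro h0
    rw [h0, norm_zero] at hm1
    exact zero_ne_one hm1
  refine ⟨f m, hpos m hm0, fun x hx => ?_⟩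
  have hn : ‖x‖ ≠ 0 := norm_ne_zero_iff.2 hx
  have h1 : f (‖x‖⁻¹ • x) = f x := hT.homf _ (inv_ne_zero hn) x
  rw [← h1]
  refine hmin ?_
  simp only [mem_sphere_iff_norm, sub_zero, norm_smul, norm_inv, norm_norm]
  exact inv_mul_cancel₀ hn

theorem RC_of_RDf (hd : 2 ≤ Module.finrank ℝ V) {f : V → ℝ} (h : RDf f) (hpos : ∀ x, x ≠ 0 → 0 < f x) :
    ∃ F T, RC F T ∧ ∀ x, x ≠ 0 → F x = f x := by
  classical
  obtain ⟨c, hc, hlow⟩ := h.lower hd hpos
  obtain ⟨T, hT⟩ := h
  obtain ⟨C, hC⟩ := hT.bdd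
  have hF : ∀ x, x ≠ 0 → (if x = 0 then (1 : ℝ) else f x) = f x := fun x hx => if_neg hx
  refine ⟨fun x => if x = 0 then 1 else f x, fun x => ort x (T x), ?_, hF⟩
  refine { mf := ?_, mT := ?_, bdd := ?_, homf := ?_, homT := ?_, der := ?_, pos := ?_, orth := ?_ }
  · exact Measurable.ite (measurableSet_singleton 0) measurable_const hT.mf
  · exact measurable_ort.comp (measurable_id.prodMk hT.mT)
  · refine ⟨max C 1, fun x => ⟨?_, ?_⟩⟩
    · by_cases hx : x = 0
      · simp [hx]
      · rw [hF x hx]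
        exact (hC x).1.trans (le_max_left _ _)
    · exact ((mul_le_mul_of_nonneg_left (norm_ort_le _ _) (norm_nonneg _)).trans (hC x).2).trans
        (le_max_left _ _)
  · intro c hc x
    by_cases hx : x = 0
    · simp [hx]
    · have hcx : c • x ≠ 0 := smul_ne_zero hc hx
      simp only [if_neg hx, if_neg hcx]
      exact hT.homf c hc x
  · intro c hc x
    rw [ort_smul_left hc, hT.homT c hc, ort_smul]
  · intro A hA x hx
    have h1 : (fun t : ℝ => if rt A t x = 0 then (1 : ℝ) else f (rt A t x)) =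
        fun t : ℝ => f (rt A t x) := by
      funext t
      exact if_neg (hA.rt_ne_zero t hx)
    rw [h1]
    have h2 : ⟪ort x (T x), A x⟫ = ⟪T x, A x⟫ := by
      have h3 : ⟪x, A x⟫ = 0 := by rw [real_inner_comm]; exact hA x
      rw [ort, inner_sub_left, real_inner_smul_left, h3, mul_zero, sub_zero]
    rw [h2]
    exact hT.der A hA x hx
  · refine ⟨min c 1, lt_min hc zero_lt_one, fun x => ?_⟩
    by_cases hx : x = 0
    · simp [hx]
    · simp only [if_neg hx]
      exact (min_le_left _ _).trans (hlow x hx)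
  · intro x
    rw [real_inner_comm]
    exact inner_ort x (T x)

end Pool.Agent.FI75
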