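import Pool.Agent.FI75.D1
import Pool.Agent.FI75.B4
import Pool.Agent.FI75.M1
import Pool.Agent.HP89.A2b

/-! Module FI-D2 (second moments of `kap`). All from `lintegral_kap` (and its form for integrals: `kap` is an image of a measure
with density, `integral_map`, `integral_withDensity_eq_integral_toReal_smul`, `integral_prod`): total mass
`∫⁻ ofReal (wv X) * ni (rv X y)`, `‖ort (rv X y) (rv X g)‖ ≤ ‖g‖`, `∫ ‖g‖² = d`, and
`ort (rv X y) (rv X g) = res (y :: List.ofFn X) g`, `integral_res_mul`,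
`⟪res (y :: X) a, b⟫ = ⟪res X a, b⟫ - ⟪res X y, a⟫ ⟪res X y, b⟫ / ‖res X y‖²`; `rr 0 v = ‖v‖`.
`Gd_eq`: `iter_eq_pi`, `ew Z ^ 2 = ofReal (wn Z ^ 2)`, `lintegral_wv_sq_pi`. `Gd_le`: `wv x ^ 2 ≤ ∏ ‖x i‖²` (`wn_le_prod`),
`lintegral_fintype_prod_eq_prod` / `lintegral_prod` by induction, `∫⁻ ‖u‖² dkap ≤ d * ∫⁻ ofReal (wv X) * ni (rv X y)`. -/

set_option autoImplicit false

namespace Pool.Agent.FI75
open MeasureTheory ProbabilityTheory Set Filter Topology Metric
open Pool.Agent.HP89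
open scoped RealInnerProductSpace ENNReal

variable {V : Type*} [NormedAddCommGroup V] [InnerProductSpace ℝ V] [FiniteDimensional ℝ V]
  [MeasurableSpace V] [BorelSpace V]

omit [FiniteDimensional ℝ V] [MeasurableSpace V] [BorelSpace V] in
private theorem fiD2_ort_rv {j : ℕ} (X : Fin j → V) (y g : V) :
    ort (rv X y) (rv X g) = res (y :: List.ofFn X) g := rfl

private theorem fiD2_meas {j : ℕ} (y : V) : Measurable
    (fun p : (Fin j → V) × V => ort (rv p.1 y) (rv p.1 p.2)) := by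
  have h1 : Measurable (fun p : (Fin j → V) × V => rv p.1 y) :=
    (measurable_rv j).comp (measurable_fst.prodMk measurable_const)
  exact measurable_ort.comp (h1.prodMk (measurable_rv j))

private theorem fiD2_measw {j : ℕ} (y : V) : Measurable
    (fun p : (Fin j → V) × V => ENNReal.ofReal (wv p.1) * ni (rv p.1 y)) := by
  have h1 : Measurable (fun p : (Fin j → V) × V => rv p.1 y) :=
    (measurable_rv j).comp (measurable_fst.prodMk measurable_const)
  have h2 : Measurable (fun p : (Fin j → V) × V => ENNReal.ofReal (wv p.1)) :=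
    ENNReal.measurable_ofReal.comp ((measurable_wv j).comp measurable_fst)
  have h3 : Measurable (fun p : (Fin j → V) × V => ni (rv p.1 y)) :=
    ENNReal.measurable_ofReal.comp (h1.norm.inv)
  exact h2.mul h3

theorem kap_finite {j : ℕ} {μ : Measure V} [IsFiniteMeasure μ] {y : V}
    (hfin : ∫⁻ X, ENNReal.ofReal (wv X) * ni (rv X y) ∂(Measure.pi fun _ : Fin j => μ) ≠ ⊤) :
    IsFiniteMeasure (kap j μ y) := by
  constructor
  have h := lintegral_kap j μ y (φ := fun _ => 1) measurable_const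
  rw [lintegral_one] at h
  rw [h]
  simp only [lintegral_one, measure_univ, mul_one]
  exact lt_top_iff_ne_top.2 hfin

/-- bound of the second moment of `kap` -/
private theorem fiD2_second {j : ℕ} {μ : Measure V} [IsFiniteMeasure μ] (y : V) :
    ∫⁻ u, ENNReal.ofReal (‖u‖ ^ 2) ∂(kap j μ y) ≤ (Module.finrank ℝ V : ℝ≥0∞) *
      ∫⁻ X, ENNReal.ofReal (wv X) * ni (rv X y) ∂(Measure.pi fun _ : Fin j => μ) := by
  rw [lintegral_kap j μ y (φ := fun u => ENNReal.ofReal (‖u‖ ^ 2)) (by fun_prop),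
    ← lintegral_const_mul' _ _ (ENNReal.natCast_ne_top _)]
  refine lintegral_mono fun X => ?_
  rw [mul_comm (Module.finrank ℝ V : ℝ≥0∞)]
  refine mul_le_mul_right ?_ _
  simp only [fiD2_ort_rv]
  have hi : Integrable (fun g : V => ‖res (y :: List.ofFn X) g‖ ^ 2) (stdGaussian V) := by
    refine integrable_norm_sq_gaussian.mono'
      (((continuous_res (y :: List.ofFn X)).norm.pow 2).aestronglyMeasurable)
      (Eventually.of_forall fun g => ?_)
    rw [Real.norm_of_nonneg (by positivity)]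
    have := norm_res_le (y :: List.ofFn X) g
    gcongr
  rw [← ofReal_integral_eq_lintegral_ofReal hi (Eventually.of_forall fun g => by positivity)]
  calc ENNReal.ofReal (∫ g, ‖res (y :: List.ofFn X) g‖ ^ 2 ∂(stdGaussian V))
      ≤ ENNReal.ofReal (Module.finrank ℝ V : ℝ) :=
        ENNReal.ofReal_le_ofReal (integral_norm_res_sq_le _)
    _ = (Module.finrank ℝ V : ℝ≥0∞) := by rw [ENNReal.ofReal_natCast]

theorem kap_integrable {j : ℕ} {μ : Measure V} [IsFiniteMeasure μ] {y : V}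
    (hfin : ∫⁻ X, ENNReal.ofReal (wv X) * ni (rv X y) ∂(Measure.pi fun _ : Fin j => μ) ≠ ⊤) :
    Integrable (fun u => ‖u‖ ^ 2) (kap j μ y) := by
  refine ⟨(by fun_prop : Measurable fun u : V => ‖u‖ ^ 2).aestronglyMeasurable, ?_⟩
  rw [hasFiniteIntegral_iff_ofReal (Eventually.of_forall fun u => by positivity)]
  refine lt_of_le_of_lt (fiD2_second y) ?_
  exact ENNReal.mul_lt_top (ENNReal.natCast_lt_top _) (lt_top_iff_ne_top.2 hfin)

omit [MeasurableSpace V] [BorelSpace V] in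
private theorem fiD2_res_res (X : List V) (a : V) : res X (res X a) = res X a := by
  rw [res_eq X (res X a), res_eq X a]
  exact congrArg (fun f => f a)
    (Submodule.isIdempotentElem_starProjection (Submodule.span ℝ {x | x ∈ X})ᗮ).eq

omit [MeasurableSpace V] [BorelSpace V] in
private theorem fiD2_point {j : ℕ} (X : Fin j → V) (y a b : V) :
    wv X * ‖rv X y‖⁻¹ * ⟪res (y :: List.ofFn X) a, b⟫ = wv X * ph 0 (List.ofFn X) y a b := by
  have h1 : ⟪res (List.ofFn X) y, res (List.ofFn X) a⟫ = ⟪res (List.ofFn X) y, a⟫ := by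
    rw [← inner_res, fiD2_res_res]
  have h2 : ⟪res (y :: List.ofFn X) a, b⟫ = ⟪res (List.ofFn X) a, b⟫ -
      ⟪res (List.ofFn X) y, a⟫ / ‖res (List.ofFn X) y‖ ^ 2 * ⟪res (List.ofFn X) y, b⟫ := by
    rw [res_cons]
    unfold ort
    rw [inner_sub_left, inner_smul_left, h1]
    simp
  have h3 : rr 0 (res (List.ofFn X) y) = ‖res (List.ofFn X) y‖ := by
    unfold rr
    rw [zero_pow two_ne_zero, zero_add, Real.sqrt_sq (norm_nonneg _)]
  unfold ph rv
  rw [h2, h3, div_eq_mul_inv]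
  ring

theorem kap_moment {j : ℕ} {μ : Measure V} [IsFiniteMeasure μ] {y : V}
    (hfin : ∫⁻ X, ENNReal.ofReal (wv X) * ni (rv X y) ∂(Measure.pi fun _ : Fin j => μ) ≠ ⊤) (a b : V) :
    ∫ u, ⟪u, a⟫ * ⟪u, b⟫ ∂(kap j μ y) = Mh 0 j μ y a b := by
  have hint : Integrable (fun u : V => ⟪u, a⟫ * ⟪u, b⟫) (kap j μ y) := by
    refine ((kap_integrable hfin).const_mul (‖a‖ * ‖b‖)).mono' (by fun_prop)
      (Eventually.of_forall fun u => ?_)
    rw [norm_mul]
    calc ‖⟪u, a⟫‖ * ‖⟪u, b⟫‖ ≤ (‖u‖ * ‖a‖) * (‖u‖ * ‖b‖) :=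
          mul_le_mul (norm_inner_le_norm _ _) (norm_inner_le_norm _ _) (norm_nonneg _)
            (by positivity)
      _ = ‖a‖ * ‖b‖ * ‖u‖ ^ 2 := by ring
  have hw : ∀ p : (Fin j → V) × V, ENNReal.ofReal (wv p.1) * ni (rv p.1 y) < ⊤ := fun p =>
    ENNReal.mul_lt_top ENNReal.ofReal_lt_top ENNReal.ofReal_lt_top
  have hwr : ∀ X : Fin j → V, (ENNReal.ofReal (wv X) * ni (rv X y)).toReal =
      wv X * ‖rv X y‖⁻¹ := by
    intro X
    unfold ni wv
    rw [ENNReal.toReal_mul, ENNReal.toReal_ofReal (wn_nonneg _),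
      ENNReal.toReal_ofReal (by positivity)]
  unfold kap at hint ⊢
  rw [integrable_map_measure (by fun_prop) (fiD2_meas y).aemeasurable,
    integrable_withDensity_iff_integrable_smul' (fiD2_measw y) (Eventually.of_forall hw)] at hint
  simp only [Function.comp_apply] at hint
  rw [integral_map (fiD2_meas y).aemeasurable (by fun_prop),
    integral_withDensity_eq_integral_toReal_smul (fiD2_measw y) (Eventually.of_forall hw),
    integral_prod _ hint]
  unfold Mh
  refine integral_congr_ae (Eventually.of_forall fun X => ?_)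
  simp only [hwr, smul_eq_mul, fiD2_ort_rv]
  rw [integral_const_mul, integral_res_mul, fiD2_point]

theorem Gd_eq {j : ℕ} {μ : Measure V} [IsFiniteMeasure μ] {y : V}
    (hfin : ∫⁻ X, ENNReal.ofReal (wv X) * ni (rv X y) ∂(Measure.pi fun _ : Fin j => μ) ≠ ⊤) :
    Gd j μ y = ENNReal.ofReal (∑ α : Fin j → Fin (Module.finrank ℝ V),
      (Matrix.of fun i l => Mh 0 j μ y (stdOrthonormalBasis ℝ V (α i)) (stdOrthonormalBasis ℝ V (α l))).det) := by
  have := kap_finite hfin
  have h1 := lintegral_wv_sq_pi j (kap j μ y) (kap_integrable hfin)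
  simp only [kap_moment hfin] at h1
  rw [← h1]
  unfold Gd
  rw [iter_eq_pi (kap j μ y) j (F := fun Z => ew Z ^ 2) (fun n => (lmeas_ew n).pow_const 2)]
  refine lintegral_congr fun X => ?_
  rw [List.append_nil]
  unfold ew wv
  rw [ENNReal.ofReal_pow (wn_nonneg _)]

private theorem fiD2_iter_le (κ : Measure V) (l : ℕ) (Y : List V) :
    iter κ l (fun Z => ew Z ^ 2) Y ≤ ew Y ^ 2 * (∫⁻ u, ENNReal.ofReal (‖u‖ ^ 2) ∂κ) ^ l := by
  induction l generalizing Y with
  | zero => simp [iter]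
  | succ l ih =>
    rw [iter_succ]
    calc ∫⁻ x, iter κ l (fun Z => ew Z ^ 2) (x :: Y) ∂κ
        ≤ ∫⁻ x, (ew Y ^ 2 * (∫⁻ u, ENNReal.ofReal (‖u‖ ^ 2) ∂κ) ^ l) *
            ENNReal.ofReal (‖x‖ ^ 2) ∂κ := by
          refine lintegral_mono fun x => (ih (x :: Y)).trans ?_
          have h1 : ew (x :: Y) ^ 2 ≤ ew Y ^ 2 * ENNReal.ofReal (‖x‖ ^ 2) := by
            unfold ew
            rw [← ENNReal.ofReal_pow (wn_nonneg _), ← ENNReal.ofReal_pow (wn_nonneg _),
              ← ENNReal.ofReal_mul (by positivity), wn_cons, mul_pow]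
            refine ENNReal.ofReal_le_ofReal ?_
            have := norm_res_le Y x
            gcongr
          calc ew (x :: Y) ^ 2 * (∫⁻ u, ENNReal.ofReal (‖u‖ ^ 2) ∂κ) ^ l
              ≤ (ew Y ^ 2 * ENNReal.ofReal (‖x‖ ^ 2)) * (∫⁻ u, ENNReal.ofReal (‖u‖ ^ 2) ∂κ) ^ l := by
                gcongr
            _ = _ := by ring
      _ = (ew Y ^ 2 * (∫⁻ u, ENNReal.ofReal (‖u‖ ^ 2) ∂κ) ^ l) *
            ∫⁻ x, ENNReal.ofReal (‖x‖ ^ 2) ∂κ := by
          rw [lintegral_const_mul _ (by fun_prop)]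
      _ = _ := by ring

theorem Gd_le {j : ℕ} {μ : Measure V} [IsFiniteMeasure μ] {y : V} {C : ℝ≥0∞} (hC : C ≠ ⊤)
    (hle : ∫⁻ X, ENNReal.ofReal (wv X) * ni (rv X y) ∂(Measure.pi fun _ : Fin j => μ) ≤ C) :
    Gd j μ y ≤ ((Module.finrank ℝ V : ℝ≥0∞) * C) ^ j := by
  unfold Gd
  refine (fiD2_iter_le _ _ _).trans ?_
  have h1 : ew ([] : List V) ^ 2 = 1 := by
    unfold ew wn
    simp
  rw [h1, one_mul]
  have h2 : ∫⁻ u, ENNReal.ofReal (‖u‖ ^ 2) ∂(kap j μ y) ≤ (Module.finrank ℝ V : ℝ≥0∞) * C :=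
    (fiD2_second y).trans (by gcongr)
  gcongr

end Pool.Agent.FI75
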