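import Pool.Agent.FI75.B4b
import Pool.Agent.FI75.NM
import Pool.Agent.FI75.C3b
import Pool.Agent.HP89.A1c
import Pool.Agent.HP89.A2b

/-! Module FI-D3 (uniform bound for a mixture of Gaussian measures on subspaces). -/

set_option autoImplicit false

namespace Pool.Agent.FI75
open MeasureTheory ProbabilityTheory Set Filter Topology Metric
open Pool.Agent.HP89
open scoped RealInnerProductSpace ENNReal

variable {V : Type*} [NormedAddCommGroup V] [InnerProductSpace ℝ V] [FiniteDimensional ℝ V]
  [MeasurableSpace V] [BorelSpace V]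

omit [MeasurableSpace V] [BorelSpace V] in
theorem res_res_of_subset {Y Z : List V} (h : ∀ x ∈ Y, x ∈ Z) (g : V) : res Z (res Y g) = res Z g := by
  have h1 : ∀ v, res Y (res Z v) = res Z v := by
    intro v
    rw [res_eq Y]
    rw [Submodule.starProjection_eq_self_iff]
    have h2 : res Z v ∈ (Submodule.span ℝ {x | x ∈ Z})ᗮ := by
      rw [res_eq]
      exact Submodule.starProjection_apply_mem _ _
    exact Submodule.orthogonal_le (Submodule.span_mono h) h2
  refine ext_inner_right ℝ fun v => ?_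
  rw [inner_res, inner_res, h1, inner_res]

omit [MeasurableSpace V] [BorelSpace V] in
theorem finrank_orth_ge (Z : List V) :
    Module.finrank ℝ V ≤ Z.length + Module.finrank ℝ (Submodule.span ℝ {x | x ∈ Z})ᗮ := by
  classical
  have h1 := Submodule.finrank_add_finrank_orthogonal (𝕜 := ℝ) (Submodule.span ℝ {x | x ∈ Z})
  have h2 : Module.finrank ℝ (Submodule.span ℝ {x | x ∈ Z}) ≤ Z.length := by
    have h3 : {x | x ∈ Z} = (↑Z.toFinset : Set V) := by
      ext x
      simp
    rw [h3]
    exact (finrank_span_finset_le_card Z.toFinset).trans Z.toFinset_card_le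
  omega

theorem measurable_ni' : Measurable (ni : V → ℝ≥0∞) :=
  ENNReal.measurable_ofReal.comp (measurable_norm.inv)

/-- pointwise bound. -/
theorem step_bound {a b : V} {G P : ℝ} (hb : b ≠ 0) (ha : ‖a‖ ≤ G) (hP0 : 0 < P) (hP : P ≤ ‖ort b a‖) :
    ENNReal.ofReal ‖a‖ * ni (ort a b) ≤ ENNReal.ofReal (G ^ 2 * (P ^ 1)⁻¹) * ni b := by
  unfold ni
  rw [← ENNReal.ofReal_mul (norm_nonneg _), ← ENNReal.ofReal_mul (by positivity)]
  apply ENNReal.ofReal_le_ofReal
  have hbpos : 0 < ‖b‖ := norm_pos_iff.2 hb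
  have hG : 0 ≤ G := (norm_nonneg _).trans ha
  by_cases h0 : ‖ort a b‖ = 0
  · rw [h0, inv_zero, mul_zero]
    positivity
  have hopos : 0 < ‖ort a b‖ := lt_of_le_of_ne (norm_nonneg _) (Ne.symm h0)
  have h1 := norm_mul_norm_ort a b
  have h2 := norm_mul_norm_ort b a
  have h3 : ‖a‖ * ‖ort a b‖ = ‖b‖ * ‖ort b a‖ := by
    have h4 : (‖a‖ * ‖ort a b‖) ^ 2 = (‖b‖ * ‖ort b a‖) ^ 2 := by
      rw [h1, h2, real_inner_comm]
      ring
    exact (pow_left_inj₀ (by positivity) (by positivity) two_ne_zero).1 h4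
  have hbo : 0 < ‖b‖ * ‖ort b a‖ := mul_pos hbpos (hP0.trans_le hP)
  have hapos : 0 < ‖a‖ := by
    rcases (norm_nonneg a).lt_or_eq with h | h
    · exact h
    · rw [← h, zero_mul] at h3
      rw [← h3] at hbo
      exact absurd hbo (lt_irrefl _)
  calc ‖a‖ * ‖ort a b‖⁻¹ = ‖a‖ ^ 2 / (‖a‖ * ‖ort a b‖) := by field_simp
    _ = ‖a‖ ^ 2 / (‖b‖ * ‖ort b a‖) := by rw [h3]
    _ ≤ G ^ 2 / (‖b‖ * P) := by
        apply div_le_div₀ (by positivity) (pow_le_pow_left₀ hapos.le ha 2) (by positivity)
        exact mul_le_mul_of_nonneg_left hP hbpos.le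
    _ = G ^ 2 * (P ^ 1)⁻¹ * ‖b‖⁻¹ := by
        rw [pow_one]
        field_simp

theorem stage2 {j : ℕ} (hj : 2 * j + 2 ≤ Module.finrank ℝ V) (μ : Measure V) [IsFiniteMeasure μ]
    (hμ : Integrable (fun x => ‖x‖) μ) :
    ∃ C : ℝ≥0∞, C ≠ ⊤ ∧ ∀ y : V,
      ∫⁻ X, ENNReal.ofReal (wv X) * ni (rv X y) ∂(Measure.pi fun _ : Fin j => nuw j μ) ≤ C * ni y := by
  have hfin := nuw_finite j μ hμ
  obtain ⟨C1, hC1, hW⟩ := nmom_proj (V := V) 1 2
  set I : ℝ≥0∞ := ∫⁻ W, ENNReal.ofReal (wv W) ∂(Measure.pi fun _ : Fin j => μ) with hI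
  have hItop : I ≠ ⊤ := by
    rw [hI, ← iter_ew_nil]
    exact (iter_ew_lt_top μ hμ j []).ne
  set K : ℝ≥0∞ := I * C1 with hK
  have hKtop : K ≠ ⊤ := ENNReal.mul_ne_top hItop hC1
  -- one step
  have hstep : ∀ (X : List V) (y : V), X.length + 1 ≤ j →
      ∫⁻ x, ENNReal.ofReal ‖res X x‖ * ni (res (x :: X) y) ∂(nuw j μ) ≤ K * ni (res X y) := by
    intro X y hX
    have hm : Measurable (fun x => ENNReal.ofReal ‖res X x‖ * ni (res (x :: X) y)) := by
      have m1 : Measurable (fun x : V => ENNReal.ofReal ‖res X x‖) :=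
        ENNReal.measurable_ofReal.comp (continuous_res X).measurable.norm
      have m2 : Measurable (fun x : V => ni (res (x :: X) y)) :=
        measurable_ni'.comp ((measurable_res_cons X).comp (measurable_id.prodMk measurable_const))
      exact m1.mul m2
    by_cases hb : res X y = 0
    · have h1 : ∀ x, ENNReal.ofReal ‖res X x‖ * ni (res (x :: X) y) = 0 := by
        intro x
        rw [res_cons, hb]
        have h2 : ort (res X x) (0 : V) = 0 := by simp [ort]
        rw [h2]
        simp [ni]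
      rw [lintegral_congr h1, lintegral_zero]
      exact zero_le
    rw [lintegral_nuw j μ hm]
    have h1 : ∀ W : Fin j → V, ENNReal.ofReal (wv W) *
        ∫⁻ g, ENNReal.ofReal ‖res X (rv W g)‖ * ni (res (rv W g :: X) y) ∂(stdGaussian V) ≤
        ENNReal.ofReal (wv W) * (C1 * ni (res X y)) := by
      intro W
      apply mul_le_mul' le_rfl
      set Z : List V := (y :: X) ++ List.ofFn W with hZ
      have hlen : Z.length = X.length + 1 + j := by
        rw [hZ, List.length_append, List.length_cons, List.length_ofFn]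
      have hd1 : 1 < Module.finrank ℝ (Submodule.span ℝ {x | x ∈ Z})ᗮ := by
        have := finrank_orth_ge Z
        omega
      have hae := ae_res_ne_zero' (V := V) (R := Z) (by omega)
      calc ∫⁻ g, ENNReal.ofReal ‖res X (rv W g)‖ * ni (res (rv W g :: X) y) ∂(stdGaussian V)
          ≤ ∫⁻ g, ENNReal.ofReal (‖g‖ ^ 2 *
              (‖(Submodule.span ℝ {x | x ∈ Z})ᗮ.starProjection g‖ ^ 1)⁻¹) * ni (res X y) ∂(stdGaussian V) := by
            apply lintegral_mono_ae
            filter_upwards [hae] with g hg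
            rw [res_cons, ← res_eq Z g]
            apply step_bound hb
            · exact (norm_res_le X _).trans (norm_res_le _ g)
            · exact norm_pos_iff.2 hg
            · have e1 : ort (res X y) (res X (rv W g)) = res (y :: X) (rv W g) := rfl
              have e2 : res Z (res (y :: X) (rv W g)) = res Z g := by
                rw [res_res_of_subset (fun x hx => List.mem_append_left _ hx)]
                exact res_res_of_subset (fun x hx => List.mem_append_right _ hx) g
              rw [e1, ← e2]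
              exact norm_res_le Z _
        _ = (∫⁻ g, ENNReal.ofReal (‖g‖ ^ 2 *
              (‖(Submodule.span ℝ {x | x ∈ Z})ᗮ.starProjection g‖ ^ 1)⁻¹) ∂(stdGaussian V)) * ni (res X y) := by
            exact lintegral_mul_const' _ _ ENNReal.ofReal_ne_top
        _ ≤ C1 * ni (res X y) := mul_le_mul' (hW _ hd1) le_rfl
    calc ∫⁻ W, ENNReal.ofReal (wv W) *
          ∫⁻ g, ENNReal.ofReal ‖res X (rv W g)‖ * ni (res (rv W g :: X) y) ∂(stdGaussian V)
            ∂(Measure.pi fun _ : Fin j => μ)
        ≤ ∫⁻ W, ENNReal.ofReal (wv W) * (C1 * ni (res X y)) ∂(Measure.pi fun _ : Fin j => μ) := lintegral_mono h1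
      _ = I * (C1 * ni (res X y)) := by
          exact lintegral_mul_const' _ _ (ENNReal.mul_ne_top hC1 ENNReal.ofReal_ne_top)
      _ = K * ni (res X y) := by rw [hK, mul_assoc]
  -- iteration
  have hiter : ∀ (l : ℕ) (X : List V) (y : V), X.length + l ≤ j →
      iter (nuw j μ) l (fun Z => ew Z * ni (res Z y)) X ≤ K ^ l * (ew X * ni (res X y)) := by
    intro l
    induction l with
    | zero =>
      intro X y _
      rw [iter_zero, pow_zero, one_mul]
    | succ l ih =>
      intro X y hX
      rw [iter_succ]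
      have h1 : ∀ x, iter (nuw j μ) l (fun Z => ew Z * ni (res Z y)) (x :: X) ≤
          K ^ l * ew X * (ENNReal.ofReal ‖res X x‖ * ni (res (x :: X) y)) := by
        intro x
        refine (ih (x :: X) y (by simp only [List.length_cons]; omega)).trans (le_of_eq ?_)
        have h2 : ew (x :: X) = ew X * ENNReal.ofReal ‖res X x‖ := by
          unfold ew
          rw [wn_cons, ENNReal.ofReal_mul (wn_nonneg X)]
        rw [h2]
        ring
      calc ∫⁻ x, iter (nuw j μ) l (fun Z => ew Z * ni (res Z y)) (x :: X) ∂(nuw j μ)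
          ≤ ∫⁻ x, K ^ l * ew X * (ENNReal.ofReal ‖res X x‖ * ni (res (x :: X) y)) ∂(nuw j μ) := lintegral_mono h1
        _ = K ^ l * ew X * ∫⁻ x, ENNReal.ofReal ‖res X x‖ * ni (res (x :: X) y) ∂(nuw j μ) := by
            exact lintegral_const_mul' _ _ (ENNReal.mul_ne_top (ENNReal.pow_ne_top hKtop) ENNReal.ofReal_ne_top)
        _ ≤ K ^ l * ew X * (K * ni (res X y)) := mul_le_mul' le_rfl (hstep X y (by omega))
        _ = K ^ (l + 1) * (ew X * ni (res X y)) := by ring
  refine ⟨K ^ j, ENNReal.pow_ne_top hKtop, fun y => ?_⟩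
  have hL : LMeas (fun Z : List V => ew Z * ni (res Z y)) := by
    intro n
    have m2 : Measurable (fun X : Fin n → V => ni (res (List.ofFn X) y)) :=
      measurable_ni'.comp ((measurable_res n).comp (measurable_id.prodMk measurable_const))
    exact (lmeas_ew n).mul m2
  have h1 := hiter j [] y (by simp)
  rw [iter_eq_pi (nuw j μ) j hL []] at h1
  simp only [List.append_nil, res_nil] at h1
  have h2 : ew ([] : List V) = 1 := by simp [ew]
  rw [h2, one_mul] at h1
  exact h1

end Pool.Agent.FI75
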