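import Pool.Agent.FI75.R1

/-! Module FI-R3 (a rotation which moves `u` to `v`). Let `θ = angle u v`. There is a unit vector `w ⊥ u` with
`v = cos θ • u + sin θ • w` (if `ort u v ≠ 0` normalise it, `‖ort u v‖ = sin θ`; else `v = ± u`, `sin θ = 0`, any unit
`w ⊥ u`, exists as `2 ≤ finrank`). `A x = ⟪u, x⟫ • w - ⟪w, x⟫ • u` (`exists_skew`), `‖A x‖ ≤ ‖x‖` (Bessel:
`⟪u,x⟫² + ⟪w,x⟫² ≤ ‖x‖²`), and `rt A t u = cos t • u + sin t • w`: the derivative of
`t ↦ rt A (-t) (cos t • u + sin t • w)` is zero. -/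

set_option autoImplicit false

namespace Pool.Agent.FI75
open MeasureTheory ProbabilityTheory Set Filter Topology Metric
open Pool.Agent.HP89
open scoped RealInnerProductSpace ENNReal

variable {V : Type*} [NormedAddCommGroup V] [InnerProductSpace ℝ V] [FiniteDimensional ℝ V]

omit [FiniteDimensional ℝ V] in
private theorem exists_unit_orth (hd : 2 ≤ Module.finrank ℝ V) {u : V} (hu : ‖u‖ = 1) :
    ∃ w : V, ‖w‖ = 1 ∧ ⟪u, w⟫ = 0 := by
  have hne : (ℝ ∙ u)ᗮ ≠ ⊥ := by
    intro h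
    rw [Submodule.orthogonal_eq_bot_iff] at h
    have hu0 : u ≠ 0 := by
      intro h0
      rw [h0, norm_zero] at hu
      exact zero_ne_one hu
    have h1 : Module.finrank ℝ (ℝ ∙ u) = 1 := finrank_span_singleton (K := ℝ) hu0
    rw [h, finrank_top] at h1
    omega
  obtain ⟨w, hw, hw0⟩ := Submodule.exists_mem_ne_zero_of_ne_bot hne
  have hw1 : ⟪u, w⟫ = 0 := (Submodule.mem_orthogonal_singleton_iff_inner_right (𝕜 := ℝ)).1 hw
  have hn : ‖w‖ ≠ 0 := norm_ne_zero_iff.2 hw0
  refine ⟨‖w‖⁻¹ • w, ?_, ?_⟩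
  · rw [norm_smul, norm_inv, norm_norm, inv_mul_cancel₀ hn]
  · rw [inner_smul_right, hw1, mul_zero]

omit [FiniteDimensional ℝ V] in
private theorem exists_frame (hd : 2 ≤ Module.finrank ℝ V) {u v : V} (hu : ‖u‖ = 1) (hv : ‖v‖ = 1) :
    ∃ w : V, ‖w‖ = 1 ∧ ⟪u, w⟫ = 0 ∧
      v = Real.cos (InnerProductGeometry.angle u v) • u +
        Real.sin (InnerProductGeometry.angle u v) • w := by
  set θ := InnerProductGeometry.angle u v with hθ
  have hc : Real.cos θ = ⟪u, v⟫ := by
    rw [hθ, InnerProductGeometry.cos_angle, hu, hv]; simp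
  have hs0 : 0 ≤ Real.sin θ := InnerProductGeometry.sin_angle_nonneg u v
  set p : V := v - Real.cos θ • u with hp
  have huu : ⟪u, u⟫ = (1 : ℝ) := by rw [real_inner_self_eq_norm_sq, hu]; norm_num
  have hvv : ⟪v, v⟫ = (1 : ℝ) := by rw [real_inner_self_eq_norm_sq, hv]; norm_num
  have hup : ⟪u, p⟫ = 0 := by
    rw [hp, inner_sub_right, inner_smul_right, huu, ← hc]; ring
  have hpp : ‖p‖ ^ 2 = Real.sin θ ^ 2 := by
    rw [← real_inner_self_eq_norm_sq, hp, inner_sub_left, inner_sub_right, inner_sub_right,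
      inner_smul_left, inner_smul_right, inner_smul_right, inner_smul_left, huu, hvv,
      real_inner_comm u v, ← hc, Real.sin_sq]
    simp
    ring
  have hpn : ‖p‖ = Real.sin θ := by
    have h := congrArg Real.sqrt hpp
    rwa [Real.sqrt_sq (norm_nonneg _), Real.sqrt_sq hs0] at h
  have hv' : v = Real.cos θ • u + p := by rw [hp]; abel
  by_cases h0 : p = 0
  · obtain ⟨w, hw1, hw2⟩ := exists_unit_orth hd hu
    refine ⟨w, hw1, hw2, ?_⟩
    have hs : Real.sin θ = 0 := by rw [← hpn, h0, norm_zero]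
    rw [hs, zero_smul, add_zero]
    rw [h0, add_zero] at hv'
    exact hv'
  · have hn : ‖p‖ ≠ 0 := norm_ne_zero_iff.2 h0
    refine ⟨‖p‖⁻¹ • p, ?_, ?_, ?_⟩
    · rw [norm_smul, norm_inv, norm_norm, inv_mul_cancel₀ hn]
    · rw [inner_smul_right, hup, mul_zero]
    · rw [← hpn, smul_smul, mul_inv_cancel₀ hn, one_smul]
      exact hv'

theorem exists_rot (hd : 2 ≤ Module.finrank ℝ V) {u v : V} (hu : ‖u‖ = 1) (hv : ‖v‖ = 1) :
    ∃ A : V →L[ℝ] V, Skew A ∧ (∀ x, ‖A x‖ ≤ ‖x‖) ∧ rt A (InnerProductGeometry.angle u v) u = v := by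
  obtain ⟨w, hw, huw, hvw⟩ := exists_frame hd hu hv
  set θ := InnerProductGeometry.angle u v with hθ
  obtain ⟨A, hA, hAx⟩ := exists_skew w u
  have huu : ⟪u, u⟫ = (1 : ℝ) := by rw [real_inner_self_eq_norm_sq, hu]; norm_num
  have hww : ⟪w, w⟫ = (1 : ℝ) := by rw [real_inner_self_eq_norm_sq, hw]; norm_num
  have hwu : ⟪w, u⟫ = 0 := by rw [real_inner_comm]; exact huw
  have hAu : A u = w := by rw [hAx, huu, hwu, one_smul, zero_smul, sub_zero]
  have hAw : A w = -u := by rw [hAx, huw, hww, zero_smul, one_smul, zero_sub]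
  refine ⟨A, hA, ?_, ?_⟩
  · intro x
    have h1 : ‖A x‖ ^ 2 = ⟪u, x⟫ ^ 2 + ⟪w, x⟫ ^ 2 := by
      rw [← real_inner_self_eq_norm_sq, hAx, inner_sub_left, inner_sub_right, inner_sub_right]
      simp only [inner_smul_left, inner_smul_right, huu, hww, huw, hwu]
      simp
      ring
    have h2 : 0 ≤ ‖x - ⟪u, x⟫ • u - ⟪w, x⟫ • w‖ ^ 2 := sq_nonneg _
    have h3 : ‖x - ⟪u, x⟫ • u - ⟪w, x⟫ • w‖ ^ 2 = ‖x‖ ^ 2 - (⟪u, x⟫ ^ 2 + ⟪w, x⟫ ^ 2) := by
      rw [← real_inner_self_eq_norm_sq, ← real_inner_self_eq_norm_sq]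
      simp only [inner_sub_left, inner_sub_right, inner_smul_left, inner_smul_right, huu, hww,
        huw, hwu, real_inner_comm u x, real_inner_comm w x]
      simp
      ring
    have h4 : ‖A x‖ ^ 2 ≤ ‖x‖ ^ 2 := by rw [h1]; linarith [h3 ▸ h2]
    exact (sq_le_sq₀ (norm_nonneg _) (norm_nonneg _)).1 h4
  · -- `rt A t u = cos t • u + sin t • w`
    have hder : ∀ t : ℝ, HasDerivAt (fun s : ℝ => Real.cos s • rt A (-s) u + Real.sin s • rt A (-s) w)
        0 t := by
      intro t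
      have hru : HasDerivAt (fun s : ℝ => rt A (-s) u) (-(rt A (-t) w)) t := by
        have h1 : HasDerivAt (fun s : ℝ => -s) (-1 : ℝ) t := (hasDerivAt_id t).neg
        have h := (hasDerivAt_rt A u (-t)).scomp t h1
        have e : A (rt A (-t) u) = rt A (-t) w := by
          rw [← rt_comm (A := A) (P := A) (fun _ => rfl) (-t) u, hAu]
        rw [e, neg_smul, one_smul] at h
        exact h
      have hrw : HasDerivAt (fun s : ℝ => rt A (-s) w) (rt A (-t) u) t := by
        have h1 : HasDerivAt (fun s : ℝ => -s) (-1 : ℝ) t := (hasDerivAt_id t).neg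
        have h := (hasDerivAt_rt A w (-t)).scomp t h1
        have e : A (rt A (-t) w) = -(rt A (-t) u) := by
          rw [← rt_comm (A := A) (P := A) (fun _ => rfl) (-t) w, hAw, map_neg]
        rw [e, neg_smul, one_smul, neg_neg] at h
        exact h
      have h := ((Real.hasDerivAt_cos t).smul hru).add ((Real.hasDerivAt_sin t).smul hrw)
      convert h using 1
      · rfl
      · rw [smul_neg, neg_smul]
        abel
    have hconst : ∀ t : ℝ, Real.cos t • rt A (-t) u + Real.sin t • rt A (-t) w = u := by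
      intro t
      have h := is_const_of_deriv_eq_zero (𝕜 := ℝ)
        (f := fun s : ℝ => Real.cos s • rt A (-s) u + Real.sin s • rt A (-s) w)
        (fun s => (hder s).differentiableAt) (fun s => (hder s).deriv) t 0
      simp only [neg_zero, Real.cos_zero, Real.sin_zero, rt_zero, one_smul, zero_smul,
        add_zero] at h
      exact h
    have h : rt A θ (Real.cos θ • rt A (-θ) u + Real.sin θ • rt A (-θ) w) = rt A θ u := by
      rw [hconst θ]
    rw [map_add, map_smul, map_smul] at h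
    have h1 : ∀ x : V, rt A θ (rt A (-θ) x) = x := by
      intro x
      have h2 := rt_neg_cancel A (-θ) x
      rwa [neg_neg] at h2
    rw [h1, h1, ← hvw] at h
    exact h.symm

end Pool.Agent.FI75
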