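import Pool.Agent.FI75.R2
import Pool.Agent.FI75.R3
import Pool.Agent.FI75.NM
import Pool.Agent.FI75.M1
import Pool.Agent.FI75.B4b

/-! Module FI-D4 (bounded densities). `iter_mono_measure`: induction on `l`, `lintegral_mono'`, `lintegral_smul_measure`.
`ae_rv_ne_zero`: it suffices to treat `gp V j` (`iter`, or absolute continuity of the product); almost surely
`wn (List.ofFn X ++ [h]) ≠ 0` (add the Gaussian vectors one after the other, `ae_res_ne_zero` with `Y = []`), and
`wn (X ++ [h]) = wn X * ‖res X h‖` (`wn_perm`). `stage3`: for `μ = γ` the left side `Ψ h` is invariant under rotations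
(`exists_rot`, `mp_rt_pi`, `wn_map`, `res_map`) and homogeneous of degree `-3`, so `Ψ h = ofReal ((‖h‖^3)⁻¹) * c`;
`∫⁻ Ψ h dγ(h) = ∫⁻ X, ofReal (wv X) * ∫⁻ h, ofReal ((‖rv X h‖^3)⁻¹) < ⊤` (`nmom_proj 3 0`, `finrank (span X)ᗮ ≥ d - j ≥ 4`)
and `nmom_pos` give `c < ⊤`; general `μ`: `iter_eq_pi` and `iter_mono_measure`. -/

set_option autoImplicit false

namespace Pool.Agent.FI75
open MeasureTheory ProbabilityTheory Set Filter Topology Metric
open Pool.Agent.HP89
open scoped RealInnerProductSpace ENNReal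

variable {V : Type*} [NormedAddCommGroup V] [InnerProductSpace ℝ V] [FiniteDimensional ℝ V]
  [MeasurableSpace V] [BorelSpace V]

theorem iter_mono_measure {μ ν : Measure V} {C : ℝ≥0∞} (hC : C ≠ ⊤) (h : μ ≤ C • ν) (l : ℕ) (F : List V → ℝ≥0∞)
    (X : List V) : iter μ l F X ≤ C ^ l * iter ν l F X := by
  induction l generalizing X with
  | zero => simp [iter_zero]
  | succ l ih =>
    rw [iter_succ, iter_succ]
    calc ∫⁻ x, iter μ l F (x :: X) ∂μ ≤ ∫⁻ x, C ^ l * iter ν l F (x :: X) ∂μ :=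
          lintegral_mono fun x => ih (x :: X)
      _ ≤ ∫⁻ x, C ^ l * iter ν l F (x :: X) ∂(C • ν) := lintegral_mono' h le_rfl
      _ = C * ∫⁻ x, C ^ l * iter ν l F (x :: X) ∂ν := by
          rw [lintegral_smul_measure, smul_eq_mul]
      _ = C ^ (l + 1) * ∫⁻ x, iter ν l F (x :: X) ∂ν := by
          rw [lintegral_const_mul' _ _ (ENNReal.pow_ne_top hC), ← mul_assoc, pow_succ, mul_comm C]

private theorem lmeas_ind : LMeas (fun Y : List V => if wn Y = 0 then (1 : ℝ≥0∞) else 0) := by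
  intro n
  refine Measurable.ite ?_ measurable_const measurable_const
  exact (measurable_wn n) (measurableSet_singleton 0)

private theorem iter_ind_zero (l : ℕ) (Y : List V) (hY : wn Y ≠ 0)
    (h : l + Y.length ≤ Module.finrank ℝ V) :
    iter (stdGaussian V) l (fun Y : List V => if wn Y = 0 then (1 : ℝ≥0∞) else 0) Y = 0 := by
  induction l generalizing Y with
  | zero => rw [iter_zero, if_neg hY]
  | succ l ih =>
    have h1 : Y.length + ([] : List V).length < Module.finrank ℝ V := by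
      simp only [List.length_nil]
      omega
    have key : ∫⁻ x, iter (stdGaussian V) l (fun Y : List V => if wn Y = 0 then (1 : ℝ≥0∞) else 0)
        (x :: Y) ∂(stdGaussian V) = ∫⁻ _, 0 ∂(stdGaussian V) := ?_
    · rw [iter_succ, key, lintegral_zero]
    refine lintegral_congr_ae ?_
    filter_upwards [ae_res_ne_zero h1] with x hx
    rw [res_nil] at hx
    refine ih (x :: Y) ?_ ?_
    · rw [wn_cons]
      exact mul_ne_zero hY (norm_ne_zero_iff.2 hx)
    · rw [List.length_cons]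
      omega

theorem ae_rv_ne_zero {j : ℕ} (hj : j < Module.finrank ℝ V) {μ : Measure V} [IsFiniteMeasure μ] {C : ℝ≥0∞} (hC : C ≠ ⊤)
    (hle : μ ≤ C • stdGaussian V) {h : V} (hh : h ≠ 0) :
    ∀ᵐ X ∂(Measure.pi fun _ : Fin j => μ), rv X h ≠ 0 := by
  have hw : wn [h] ≠ 0 := by
    rw [wn_singleton]
    exact norm_ne_zero_iff.2 hh
  have h0 : iter μ j (fun Y : List V => if wn Y = 0 then (1 : ℝ≥0∞) else 0) [h] = 0 := by
    refine le_antisymm ?_ (zero_le)
    refine (iter_mono_measure hC hle j _ [h]).trans ?_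
    rw [iter_ind_zero j [h] hw (by simp; omega), mul_zero]
  rw [iter_eq_pi μ j lmeas_ind] at h0
  have hm : Measurable (fun X : Fin j → V =>
      (if wn (List.ofFn X ++ [h]) = 0 then (1 : ℝ≥0∞) else 0)) := by
    refine Measurable.ite ?_ measurable_const measurable_const
    exact (continuous_wn j [h]).measurable (measurableSet_singleton 0)
  rw [lintegral_eq_zero_iff hm] at h0
  filter_upwards [h0] with X hX
  have hX1 : wn (List.ofFn X ++ [h]) ≠ 0 := by
    intro h2
    simp only [h2, if_true, Pi.zero_apply] at hX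
    exact one_ne_zero hX
  have hperm : (List.ofFn X ++ [h]).Perm (h :: List.ofFn X) := List.perm_append_singleton h _
  rw [wn_perm hperm, wn_cons] at hX1
  exact norm_ne_zero_iff.1 (right_ne_zero_of_mul hX1)

private theorem meas_norm3 (n : ℕ) : Measurable (fun p : (Fin n → V) × V =>
    ENNReal.ofReal ((‖res (List.ofFn p.1) p.2‖ ^ 3)⁻¹)) :=
  ((measurable_res n).norm.pow_const 3).inv.ennreal_ofReal

private theorem meas_norm3' (n : ℕ) (h : V) : Measurable (fun X : Fin n → V =>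
    ENNReal.ofReal ((‖res (List.ofFn X) h‖ ^ 3)⁻¹)) := by
  have h1 : Measurable (fun X : Fin n → V => (X, h)) := measurable_id.prodMk measurable_const
  have h2 : Measurable (fun X : Fin n → V => res (List.ofFn X) h) := (measurable_res n).comp h1
  exact (h2.norm.pow_const 3).inv.ennreal_ofReal

private theorem meas_prod (n : ℕ) (h : V) : Measurable (fun X : Fin n → V =>
    ENNReal.ofReal (wn (List.ofFn X)) * ENNReal.ofReal ((‖res (List.ofFn X) h‖ ^ 3)⁻¹)) :=
  (measurable_wn n).ennreal_ofReal.mul (meas_norm3' n h)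

private theorem meas_prod2 (n : ℕ) : Measurable (fun p : V × (Fin n → V) =>
    ENNReal.ofReal (wn (List.ofFn p.2)) * ENNReal.ofReal ((‖res (List.ofFn p.2) p.1‖ ^ 3)⁻¹)) := by
  have h1 : Measurable (fun p : V × (Fin n → V) => (p.2, p.1)) :=
    measurable_snd.prodMk measurable_fst
  have h2 : Measurable (fun p : V × (Fin n → V) => res (List.ofFn p.2) p.1) :=
    (measurable_res n).comp h1
  have h3 : Measurable (fun p : V × (Fin n → V) => wn (List.ofFn p.2)) :=
    (measurable_wn n).comp measurable_snd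
  exact h3.ennreal_ofReal.mul (h2.norm.pow_const 3).inv.ennreal_ofReal

/-- the Gaussian functional. -/
private noncomputable def Ph (j : ℕ) (μ : Measure V) (h : V) : ℝ≥0∞ :=
  ∫⁻ X, ENNReal.ofReal (wv X) * ENNReal.ofReal ((‖rv X h‖ ^ 3)⁻¹) ∂(Measure.pi fun _ : Fin j => μ)

private theorem Ph_le {j : ℕ} {μ : Measure V} [IsFiniteMeasure μ] {C : ℝ≥0∞} (hC : C ≠ ⊤)
    (hle : μ ≤ C • stdGaussian V) (h : V) : Ph j μ h ≤ C ^ j * Ph j (stdGaussian V) h := by
  have hF : LMeas (fun Y : List V => ENNReal.ofReal (wn Y) *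
      ENNReal.ofReal ((‖res Y h‖ ^ 3)⁻¹)) := by
    intro n
    exact meas_prod n h
  have h1 := iter_eq_pi μ j hF []
  have h2 := iter_eq_pi (stdGaussian V) j hF []
  have h3 := iter_mono_measure hC hle j (fun Y : List V => ENNReal.ofReal (wn Y) *
      ENNReal.ofReal ((‖res Y h‖ ^ 3)⁻¹)) []
  rw [h1, h2] at h3
  simp only [List.append_nil] at h3
  exact h3

private theorem Ph_smul {j : ℕ} (μ : Measure V) (c : ℝ) (h : V) :
    Ph j μ (c • h) = ENNReal.ofReal ((|c| ^ 3)⁻¹) * Ph j μ h := by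
  unfold Ph
  rw [← lintegral_const_mul' _ _ ENNReal.ofReal_ne_top]
  refine lintegral_congr fun X => ?_
  have h1 : ‖rv X (c • h)‖ = |c| * ‖rv X h‖ := by
    unfold rv
    rw [res_smul, norm_smul, Real.norm_eq_abs]
  rw [h1, mul_pow, mul_inv, ENNReal.ofReal_mul (by positivity)]
  ring

private theorem Ph_rt {j : ℕ} {A : V →L[ℝ] V} (hA : Skew A) (t : ℝ) (u : V) :
    Ph j (stdGaussian V) (rt A t u) = Ph j (stdGaussian V) u := by
  obtain ⟨e, he⟩ := hA.iso t
  unfold Ph
  have hm : Measurable (fun X : Fin j → V => ENNReal.ofReal (wv X) *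
      ENNReal.ofReal ((‖rv X (rt A t u)‖ ^ 3)⁻¹)) := meas_prod j (rt A t u)
  rw [← (mp_rt_pi hA t j).lintegral_comp hm]
  refine lintegral_congr fun X => ?_
  have h1 : List.ofFn (fun i => rt A t (X i)) = (List.ofFn X).map e.toLinearIsometry := by
    rw [List.map_ofFn]
    congr 1
    funext i
    exact (he (X i)).symm
  have h2 : wv (fun i => rt A t (X i)) = wv X := by
    unfold wv
    rw [h1, wn_map]
  have h3 : ‖rv (fun i => rt A t (X i)) (rt A t u)‖ = ‖rv X u‖ := by
    unfold rv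
    have h4 : rt A t u = e.toLinearIsometry u := (he u).symm
    rw [h1, h4, res_map, LinearIsometry.norm_map]
  rw [h2, h3]

theorem stage3 {j : ℕ} (hj : j + 4 ≤ Module.finrank ℝ V) {μ : Measure V} [IsFiniteMeasure μ] {C : ℝ≥0∞} (hC : C ≠ ⊤)
    (hle : μ ≤ C • stdGaussian V) :
    ∃ K : ℝ, 0 ≤ K ∧ ∀ h : V, h ≠ 0 →
      ∫⁻ X, ENNReal.ofReal (wv X) * ENNReal.ofReal ((‖rv X h‖ ^ 3)⁻¹) ∂(Measure.pi fun _ : Fin j => μ) ≤
        ENNReal.ofReal (K * (‖h‖ ^ 3)⁻¹) := by
  have hnt : Nontrivial V := Module.nontrivial_of_finrank_pos (R := ℝ) (by omega)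
  obtain ⟨u0, hu0⟩ : ∃ u0 : V, ‖u0‖ = 1 := exists_norm_eq V zero_le_one
  set c0 : ℝ≥0∞ := Ph j (stdGaussian V) u0 with hc0
  -- homogeneity and rotation invariance
  have hhom : ∀ h : V, Ph j (stdGaussian V) h = ENNReal.ofReal ((‖h‖ ^ 3)⁻¹) * c0 := by
    intro h
    by_cases hh : h = 0
    · rw [hh, ← zero_smul ℝ (0 : V), Ph_smul]
      simp
    · have hn : ‖h‖ ≠ 0 := norm_ne_zero_iff.2 hh
      have hv : ‖(‖h‖⁻¹ • h : V)‖ = 1 := by
        rw [norm_smul, norm_inv, norm_norm, inv_mul_cancel₀ hn]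
      obtain ⟨A, hA, -, hrot⟩ := exists_rot (by omega) hu0 hv
      have h1 : Ph j (stdGaussian V) (‖h‖⁻¹ • h) = c0 := by
        rw [← hrot, Ph_rt hA]
      have h2 : h = ‖h‖ • (‖h‖⁻¹ • h) := by
        rw [smul_smul, mul_inv_cancel₀ hn, one_smul]
      calc Ph j (stdGaussian V) h = Ph j (stdGaussian V) (‖h‖ • (‖h‖⁻¹ • h)) := by rw [← h2]
        _ = ENNReal.ofReal ((|‖h‖| ^ 3)⁻¹) * Ph j (stdGaussian V) (‖h‖⁻¹ • h) := Ph_smul _ _ _
        _ = ENNReal.ofReal ((‖h‖ ^ 3)⁻¹) * c0 := by rw [h1, abs_norm]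
  -- the constant is finite
  obtain ⟨C3, hC3, hC3'⟩ := nmom_proj (V := V) 3 0
  have hfin : ∫⁻ h, Ph j (stdGaussian V) h ∂(stdGaussian V) < ⊤ := by
    have hsw : ∫⁻ h, Ph j (stdGaussian V) h ∂(stdGaussian V) =
        ∫⁻ X, (∫⁻ h, ENNReal.ofReal (wv X) * ENNReal.ofReal ((‖rv X h‖ ^ 3)⁻¹) ∂(stdGaussian V))
          ∂(gp V j) := by
      unfold Ph
      refine lintegral_lintegral_swap ?_
      have hm : Measurable (fun p : V × (Fin j → V) => ENNReal.ofReal (wv p.2) *
          ENNReal.ofReal ((‖rv p.2 p.1‖ ^ 3)⁻¹)) := meas_prod2 j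
      exact hm.aemeasurable
    rw [hsw]
    have hb : ∀ X : Fin j → V, ∫⁻ h, ENNReal.ofReal (wv X) *
        ENNReal.ofReal ((‖rv X h‖ ^ 3)⁻¹) ∂(stdGaussian V) ≤ ENNReal.ofReal (wv X) * C3 := by
      intro X
      rw [lintegral_const_mul' _ _ ENNReal.ofReal_ne_top]
      by_cases hw : wv X = 0
      · rw [hw]; simp
      · refine mul_le_mul_right ?_ _
        have hfr : 3 < Module.finrank ℝ (Submodule.span ℝ {x | x ∈ List.ofFn X})ᗮ := by
          have hw' : wn (List.ofFn X) ≠ 0 := hw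
          rw [finrank_orth_of_wn_ne_zero hw', List.length_ofFn]
          omega
        refine le_trans (le_of_eq ?_) (hC3' _ hfr)
        refine lintegral_congr fun g => ?_
        rw [pow_zero, one_mul]
        unfold rv
        rw [res_eq]
    refine lt_of_le_of_lt (lintegral_mono hb) ?_
    rw [lintegral_mul_const' _ _ hC3]
    refine ENNReal.mul_lt_top ?_ (lt_top_iff_ne_top.2 hC3)
    have := iter_ew_lt_top (stdGaussian V) integrable_norm_gaussian j []
    rwa [iter_ew_nil] at this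
  have hc0fin : c0 ≠ ⊤ := by
    intro htop
    have h1 : ∫⁻ h, Ph j (stdGaussian V) h ∂(stdGaussian V) =
        (∫⁻ h : V, ENNReal.ofReal ((‖h‖ ^ 3)⁻¹) ∂(stdGaussian V)) * c0 := by
      rw [← lintegral_mul_const]
      · exact lintegral_congr fun h => hhom h
      · exact ((measurable_norm.pow_const 3).inv).ennreal_ofReal
    have h2 := nmom_pos (V := V) (by omega) 3
    rw [h1, htop, ENNReal.mul_top h2.ne'] at hfin
    exact lt_irrefl _ hfin
  refine ⟨(C ^ j * c0).toReal, ENNReal.toReal_nonneg, fun h _ => ?_⟩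
  have hfinal : Ph j μ h ≤ C ^ j * (ENNReal.ofReal ((‖h‖ ^ 3)⁻¹) * c0) := by
    rw [← hhom h]
    exact Ph_le hC hle h
  refine hfinal.trans (le_of_eq ?_)
  rw [ENNReal.ofReal_mul ENNReal.toReal_nonneg, ENNReal.ofReal_toReal
    (ENNReal.mul_ne_top (ENNReal.pow_ne_top hC) hc0fin)]
  ring

end Pool.Agent.FI75
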