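import Pool.Agent.HP89.A1a
import Pool.Agent.HP89.A2a
import Pool.Agent.FI75.Defs

/-! Module FI-D5 (calculus of `ph`). `P = res X` is linear (`res_add`, `res_smul`), selfadjoint (`inner_res`), `P (P h) = P h`,
`‖P h‖ ≤ ‖h‖`. With `ρ = rr ε (P h)`, `r = ‖P h‖`: `r ≤ ρ`, `ρ - r ≤ ε` (`ε ≥ 0`), so `|ρ⁻¹ - r⁻¹| ≤ ε / r²`,
`|ρ⁻³ - r⁻³| ≤ 3 ε / r⁴`, `|ρ⁻⁵ - r⁻⁵| ≤ 5 ε / r⁶`. Derivative of `ρ` in direction `v` is `⟪P h, v⟫ / ρ`. Homogeneity:
`rr 0 (c • v) = |c| * rr 0 v`. -/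

set_option autoImplicit false

namespace Pool.Agent.FI75
open MeasureTheory ProbabilityTheory Set Filter Topology Metric
open Pool.Agent.HP89
open scoped RealInnerProductSpace ENNReal

variable {V : Type*} [NormedAddCommGroup V] [InnerProductSpace ℝ V] [FiniteDimensional ℝ V]
  [MeasurableSpace V] [BorelSpace V]

omit [InnerProductSpace ℝ V] [FiniteDimensional ℝ V] [MeasurableSpace V] [BorelSpace V] in
private theorem rr_pos {ε : ℝ} (hε : 0 < ε) (v : V) : 0 < rr ε v := by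
  unfold rr
  positivity

omit [MeasurableSpace V] [BorelSpace V] in
private theorem res_res (X : List V) (g : V) : res X (res X g) = res X g := by
  rw [res_eq, res_eq]
  exact Submodule.starProjection_eq_self_iff.2 (Submodule.starProjection_apply_mem _ _)

omit [MeasurableSpace V] [BorelSpace V] in
theorem hasFDerivAt_ph {ε : ℝ} (hε : 0 < ε) (X : List V) (h a b : V) :
    HasFDerivAt (fun h => ph ε X h a b) (innerSL ℝ (gph ε X h a b)) h := by
  let L0 : V →ₗ[ℝ] V := { toFun := res X, map_add' := res_add X, map_smul' := res_smul X }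
  let L : V →L[ℝ] V := LinearMap.toContinuousLinearMap L0
  have hLx : ∀ x, L x = res X x := fun x => rfl
  have hP : HasFDerivAt (fun h => res X h) L h := L.hasFDerivAt
  have hρ0 : 0 < rr ε (res X h) := rr_pos hε _
  set ρ := rr ε (res X h) with hρdef
  have hρne : ρ ≠ 0 := hρ0.ne'
  have hsq : ε ^ 2 + ‖res X h‖ ^ 2 ≠ 0 := by positivity
  have hρ : HasFDerivAt (fun h => rr ε (res X h)) (ρ⁻¹ • innerSL ℝ (res X h)) h := by
    have h1 := (hP.norm_sq.const_add (ε ^ 2)).sqrt hsq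
    refine h1.congr_fderiv ?_
    ext v
    have e1 : ⟪res X h, res X v⟫ = ⟪res X h, v⟫ := by
      rw [← inner_res, res_res]
    have e2 : √(ε ^ 2 + ‖res X h‖ ^ 2) = ρ := rfl
    simp only [smul_apply, ContinuousLinearMap.comp_apply, hLx,
      innerSL_apply_apply, e1, e2, smul_eq_mul, nsmul_eq_mul, Nat.cast_ofNat]
    field_simp
  have hinv : HasFDerivAt (fun h => (rr ε (res X h))⁻¹) ((-(ρ ^ 2)⁻¹) • (ρ⁻¹ • innerSL ℝ (res X h))) h := by
    exact (hasDerivAt_inv hρne).comp_hasFDerivAt h hρ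
  have hinv3 : HasFDerivAt (fun h => (rr ε (res X h) ^ 3)⁻¹)
      ((-(3 * ρ ^ 2) / (ρ ^ 3) ^ 2) • (ρ⁻¹ • innerSL ℝ (res X h))) h := by
    have h1 : HasDerivAt (fun y : ℝ => (y ^ 3)⁻¹) (-(3 * ρ ^ 2) / (ρ ^ 3) ^ 2) ρ := by
      have h2 := (hasDerivAt_pow 3 ρ).fun_inv (pow_ne_zero 3 hρne)
      simpa using h2
    have h3 : HasFDerivAt ((fun y : ℝ => (y ^ 3)⁻¹) ∘ fun h => rr ε (res X h))
        ((-(3 * ρ ^ 2) / (ρ ^ 3) ^ 2) • (ρ⁻¹ • innerSL ℝ (res X h))) h := h1.comp_hasFDerivAt h hρ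
    exact h3
  have hin : ∀ c : V, HasFDerivAt (fun h => ⟪res X h, c⟫) (innerSL ℝ (res X c)) h := by
    intro c
    have e : (fun h => ⟪res X h, c⟫) = fun h => innerSL ℝ (res X c) h := by
      funext x
      rw [innerSL_apply_apply, inner_res, real_inner_comm]
    rw [e]
    exact (innerSL ℝ (res X c)).hasFDerivAt
  have htot := (hinv.const_mul ⟪res X a, b⟫).sub (((hin a).mul (hin b)).mul hinv3)
  refine htot.congr_fderiv ?_
  ext v
  simp only [gph, ← hρdef, sub_apply, add_apply, smul_apply, neg_apply, Pi.mul_apply,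
    innerSL_apply_apply, smul_eq_mul, inner_sub_left,
    inner_add_left, inner_neg_left, real_inner_smul_left, neg_smul]
  field_simp
  ring

omit [InnerProductSpace ℝ V] [FiniteDimensional ℝ V] [MeasurableSpace V] [BorelSpace V] in
private theorem rr_zero (v : V) : rr 0 v = ‖v‖ := by
  unfold rr
  rw [zero_pow two_ne_zero, zero_add, Real.sqrt_sq (norm_nonneg _)]

omit [FiniteDimensional ℝ V] [MeasurableSpace V] [BorelSpace V] in
theorem ph_smul {c : ℝ} (hc : c ≠ 0) (X : List V) (h a b : V) : ph 0 X (c • h) a b = |c|⁻¹ * ph 0 X h a b := by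
  have hk : |c| ≠ 0 := abs_ne_zero.2 hc
  have hcc : c * c = |c| * |c| := (abs_mul_abs_self c).symm
  unfold ph
  rw [res_smul, rr_zero, rr_zero, norm_smul, Real.norm_eq_abs, real_inner_smul_left,
    real_inner_smul_left, mul_pow, mul_inv, mul_inv]
  have e : c * c * (|c| ^ 3)⁻¹ = |c|⁻¹ := by
    rw [hcc]; field_simp
  linear_combination (-(⟪res X h, a⟫ * ⟪res X h, b⟫ * (‖res X h‖ ^ 3)⁻¹)) * e

omit [FiniteDimensional ℝ V] [MeasurableSpace V] [BorelSpace V] in
theorem gph_smul {c : ℝ} (hc : c ≠ 0) (X : List V) (h a b : V) :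
    gph 0 X (c • h) a b = (c⁻¹ * |c|⁻¹) • gph 0 X h a b := by
  have hk : |c| ≠ 0 := abs_ne_zero.2 hc
  have hcc : |c| ^ 2 = c ^ 2 := sq_abs c
  have e3 : c * (|c| ^ 3)⁻¹ = c⁻¹ * |c|⁻¹ := by
    have h1 : |c| ^ 3 = c ^ 2 * |c| := by rw [← hcc]; ring
    rw [h1]; field_simp
  have e5 : c * c * c * (|c| ^ 5)⁻¹ = c⁻¹ * |c|⁻¹ := by
    have h1 : |c| ^ 5 = c ^ 2 * c ^ 2 * |c| := by rw [← hcc]; ring
    rw [h1]; field_simp
  unfold gph
  simp only [res_smul, rr_zero, norm_smul, Real.norm_eq_abs, real_inner_smul_left, mul_pow,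
    mul_inv]
  match_scalars
  · linear_combination (-(⟪res X a, b⟫ * (‖res X h‖ ^ 3)⁻¹)) * e3 +
      (3 * ⟪res X h, a⟫ * ⟪res X h, b⟫ * (‖res X h‖ ^ 5)⁻¹) * e5
  · linear_combination (-(⟪res X h, b⟫ * (‖res X h‖ ^ 3)⁻¹)) * e3
  · linear_combination (-(⟪res X h, a⟫ * (‖res X h‖ ^ 3)⁻¹)) * e3

private theorem meas_res1 (j : ℕ) :
    Measurable (fun p : V × (Fin j → V) => res (List.ofFn p.2) p.1) :=
  (measurable_res j).comp (measurable_snd.prodMk measurable_fst)

private theorem meas_res2 (j : ℕ) (a : V) :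
    Measurable (fun p : V × (Fin j → V) => res (List.ofFn p.2) a) :=
  (measurable_res j).comp (measurable_snd.prodMk measurable_const)

private theorem meas_rr (ε : ℝ) (j : ℕ) :
    Measurable (fun p : V × (Fin j → V) => rr ε (res (List.ofFn p.2) p.1)) := by
  unfold rr
  exact (((meas_res1 j).norm.pow_const 2).const_add _).sqrt

theorem measurable_ph (ε : ℝ) (j : ℕ) (a b : V) :
    Measurable (fun p : V × (Fin j → V) => ph ε (List.ofFn p.2) p.1 a b) := by
  unfold ph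
  exact (((meas_res2 j a).inner measurable_const).mul (meas_rr ε j).inv).sub
    ((((meas_res1 j).inner measurable_const).mul ((meas_res1 j).inner measurable_const)).mul
      ((meas_rr ε j).pow_const 3).inv)

theorem measurable_gph (ε : ℝ) (j : ℕ) (a b : V) :
    Measurable (fun p : V × (Fin j → V) => gph ε (List.ofFn p.2) p.1 a b) := by
  unfold gph
  have i3 := ((meas_rr (V := V) ε j).pow_const 3).inv
  have i5 := ((meas_rr (V := V) ε j).pow_const 5).inv
  have m1 : Measurable (fun p : V × (Fin j → V) => -(⟪res (List.ofFn p.2) a, b⟫ *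
      (rr ε (res (List.ofFn p.2) p.1) ^ 3)⁻¹)) :=
    (((meas_res2 j a).inner measurable_const).mul i3).neg
  have m2 : ∀ c : V, Measurable (fun p : V × (Fin j → V) => ⟪res (List.ofFn p.2) p.1, c⟫) :=
    fun c => (meas_res1 j).inner measurable_const
  exact (((m1.smul (meas_res1 j)).sub (((m2 b).mul i3).smul (meas_res2 j a))).sub
    (((m2 a).mul i3).smul (meas_res2 j b))).add
    (((((m2 a).mul (m2 b)).const_mul 3).mul i5).smul (meas_res1 j))

end Pool.Agent.FI75
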