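import Pool.Agent.HP89.A1a
import Pool.Agent.FI75.Defs

/-! Module FI-D5b (bounds for `ph`, `gph`). `P = res X` is linear, selfadjoint (`inner_res`), `P (P h) = P h`, `‖P h‖ ≤ ‖h‖`. With
`ρ = rr ε (P h)`, `r = ‖P h‖`: `r ≤ ρ`, `ρ - r ≤ ε` (`ε ≥ 0`), so `|ρ⁻¹ - r⁻¹| ≤ ε / r²`, `|ρ⁻³ - r⁻³| ≤ 3 ε / r⁴`,
`|ρ⁻⁵ - r⁻⁵| ≤ 5 ε / r⁶`; `|⟪P h, a⟫| ≤ r ‖a‖`; `ρ = 0` only if `r = 0` and then `ph`, `gph` vanish (`x / 0 = 0`). -/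

set_option autoImplicit false
set_option linter.unusedSectionVars false

namespace Pool.Agent.FI75
open MeasureTheory ProbabilityTheory Set Filter Topology Metric
open Pool.Agent.HP89
open scoped RealInnerProductSpace ENNReal

variable {V : Type*} [NormedAddCommGroup V] [InnerProductSpace ℝ V] [FiniteDimensional ℝ V]
  [MeasurableSpace V] [BorelSpace V]

omit [InnerProductSpace ℝ V] [FiniteDimensional ℝ V] [MeasurableSpace V] [BorelSpace V] in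
private theorem rr_nn (ε : ℝ) (v : V) : 0 ≤ rr ε v := Real.sqrt_nonneg _

omit [InnerProductSpace ℝ V] [FiniteDimensional ℝ V] [MeasurableSpace V] [BorelSpace V] in
private theorem norm_le_rr (ε : ℝ) (v : V) : ‖v‖ ≤ rr ε v := by
  unfold rr
  apply Real.le_sqrt_of_sq_le
  nlinarith [sq_nonneg ε]

omit [InnerProductSpace ℝ V] [FiniteDimensional ℝ V] [MeasurableSpace V] [BorelSpace V] in
private theorem rr_le {ε : ℝ} (hε : 0 ≤ ε) (v : V) : rr ε v ≤ ‖v‖ + ε := by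
  unfold rr
  rw [Real.sqrt_le_iff]
  have := norm_nonneg v
  constructor
  · positivity
  · nlinarith [mul_nonneg hε this]

omit [InnerProductSpace ℝ V] [FiniteDimensional ℝ V] [MeasurableSpace V] [BorelSpace V] in
private theorem rr_zero' (v : V) : rr 0 v = ‖v‖ := by
  unfold rr
  rw [zero_pow two_ne_zero, zero_add, Real.sqrt_sq (norm_nonneg _)]

/-- powers of `r ≤ ρ` against inverse powers of `ρ` -/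
private theorem pow_mul_inv_le {r ρ : ℝ} (h0 : 0 ≤ r) (h1 : r ≤ ρ) (m n : ℕ) :
    r ^ m * (ρ ^ (m + n))⁻¹ ≤ (ρ ^ n)⁻¹ := by
  rcases (h0.trans h1).eq_or_lt with h2 | h2
  · subst h2
    have hr : r = 0 := le_antisymm h1 h0
    subst hr
    rcases Nat.eq_zero_or_pos m with hm | hm
    · subst hm; simp
    · rw [zero_pow hm.ne', zero_mul]
      positivity
  · rw [pow_add, mul_inv, ← mul_assoc]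
    have h3 : r ^ m * (ρ ^ m)⁻¹ ≤ 1 := by
      rw [← div_eq_mul_inv, div_le_one (by positivity)]
      exact pow_le_pow_left₀ h0 h1 m
    calc r ^ m * (ρ ^ m)⁻¹ * (ρ ^ n)⁻¹ ≤ 1 * (ρ ^ n)⁻¹ :=
          mul_le_mul_of_nonneg_right h3 (by positivity)
      _ = (ρ ^ n)⁻¹ := one_mul _

private theorem inv_facts {r ρ ε : ℝ} (h0 : 0 < r) (h1 : r ≤ ρ) (h2 : ρ ≤ r + ε) :
    0 < ρ⁻¹ ∧ ρ⁻¹ ≤ r⁻¹ ∧ r⁻¹ - ρ⁻¹ ≤ ε * r⁻¹ ^ 2 := by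
  have hρ : 0 < ρ := h0.trans_le h1
  have h3 : ρ⁻¹ ≤ r⁻¹ := inv_anti₀ h0 h1
  refine ⟨by positivity, h3, ?_⟩
  have h4 : r⁻¹ - ρ⁻¹ = (ρ - r) * (ρ⁻¹ * r⁻¹) := by
    field_simp
  rw [h4]
  have h5 : (ρ - r) * (ρ⁻¹ * r⁻¹) ≤ (ρ - r) * (r⁻¹ * r⁻¹) :=
    mul_le_mul_of_nonneg_left (mul_le_mul_of_nonneg_right h3 (by positivity)) (by linarith)
  have h6 : (ρ - r) * (r⁻¹ * r⁻¹) ≤ ε * (r⁻¹ * r⁻¹) :=
    mul_le_mul_of_nonneg_right (by linarith) (by positivity)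
  calc (ρ - r) * (ρ⁻¹ * r⁻¹) ≤ ε * (r⁻¹ * r⁻¹) := h5.trans h6
    _ = ε * r⁻¹ ^ 2 := by ring

private theorem cube_diff {a b e : ℝ} (ha : 0 < a) (hab : a ≤ b) (he : b - a ≤ e) :
    |a ^ 3 - b ^ 3| ≤ 3 * b ^ 2 * e := by
  have h1 : a ^ 3 ≤ b ^ 3 := pow_le_pow_left₀ ha.le hab 3
  rw [abs_of_nonpos (by linarith)]
  have h2 : -(a ^ 3 - b ^ 3) = (b - a) * (b ^ 2 + a * b + a ^ 2) := by ring
  rw [h2]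
  have hb : 0 < b := ha.trans_le hab
  have h3 : b ^ 2 + a * b + a ^ 2 ≤ 3 * b ^ 2 := by nlinarith
  calc (b - a) * (b ^ 2 + a * b + a ^ 2) ≤ e * (3 * b ^ 2) :=
        mul_le_mul he h3 (by positivity) (by linarith)
    _ = 3 * b ^ 2 * e := by ring

private theorem fifth_diff {a b e : ℝ} (ha : 0 < a) (hab : a ≤ b) (he : b - a ≤ e) :
    |a ^ 5 - b ^ 5| ≤ 5 * b ^ 4 * e := by
  have hb : 0 < b := ha.trans_le hab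
  have h1 : a ^ 5 ≤ b ^ 5 := pow_le_pow_left₀ ha.le hab 5
  rw [abs_of_nonpos (by linarith)]
  have h2 : -(a ^ 5 - b ^ 5) = (b - a) * (b ^ 4 + b ^ 3 * a + b ^ 2 * a ^ 2 + b * a ^ 3 + a ^ 4) := by
    ring
  rw [h2]
  have q1 : b ^ 3 * a ≤ b ^ 4 := by
    calc b ^ 3 * a ≤ b ^ 3 * b := mul_le_mul_of_nonneg_left hab (by positivity)
      _ = b ^ 4 := by ring
  have q2 : b ^ 2 * a ^ 2 ≤ b ^ 4 := by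
    calc b ^ 2 * a ^ 2 ≤ b ^ 2 * b ^ 2 :=
          mul_le_mul_of_nonneg_left (pow_le_pow_left₀ ha.le hab 2) (by positivity)
      _ = b ^ 4 := by ring
  have q3 : b * a ^ 3 ≤ b ^ 4 := by
    calc b * a ^ 3 ≤ b * b ^ 3 :=
          mul_le_mul_of_nonneg_left (pow_le_pow_left₀ ha.le hab 3) (by positivity)
      _ = b ^ 4 := by ring
  have q4 : a ^ 4 ≤ b ^ 4 := pow_le_pow_left₀ ha.le hab 4
  have h3 : b ^ 4 + b ^ 3 * a + b ^ 2 * a ^ 2 + b * a ^ 3 + a ^ 4 ≤ 5 * b ^ 4 := by linarith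
  calc (b - a) * (b ^ 4 + b ^ 3 * a + b ^ 2 * a ^ 2 + b * a ^ 3 + a ^ 4) ≤ e * (5 * b ^ 4) :=
        mul_le_mul he h3 (by positivity) (by linarith)
    _ = 5 * b ^ 4 * e := by ring

omit [FiniteDimensional ℝ V] [MeasurableSpace V] [BorelSpace V] in
private theorem pab_le (X : List V) (a b : V) : |⟪res X a, b⟫| ≤ ‖a‖ * ‖b‖ :=
  (abs_real_inner_le_norm _ _).trans (mul_le_mul_of_nonneg_right (norm_res_le X a) (norm_nonneg _))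

omit [MeasurableSpace V] [BorelSpace V] in
theorem abs_ph_le (ε : ℝ) (X : List V) (h a b : V) :
    |ph ε X h a b| ≤ 2 * ‖a‖ * ‖b‖ * (rr ε (res X h))⁻¹ := by
  set x := res X h with hx
  have h0 := norm_nonneg x
  have h1 := norm_le_rr ε x
  have hρ := rr_nn ε x
  set ρ := rr ε x with hρd
  have k1 := pow_mul_inv_le h0 h1 2 1
  rw [pow_one] at k1
  unfold ph
  rw [← hx, ← hρd]
  have t1 : |⟪res X a, b⟫ * ρ⁻¹| ≤ ‖a‖ * ‖b‖ * ρ⁻¹ := by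
    rw [abs_mul, abs_of_nonneg (inv_nonneg.2 hρ)]
    exact mul_le_mul_of_nonneg_right (pab_le X a b) (inv_nonneg.2 hρ)
  have t2 : |⟪x, a⟫ * ⟪x, b⟫ * (ρ ^ 3)⁻¹| ≤ ‖a‖ * ‖b‖ * ρ⁻¹ := by
    have hi : 0 ≤ (ρ ^ 3)⁻¹ := by positivity
    rw [abs_mul, abs_mul, abs_of_nonneg hi]
    calc |⟪x, a⟫| * |⟪x, b⟫| * (ρ ^ 3)⁻¹ ≤ (‖x‖ * ‖a‖) * (‖x‖ * ‖b‖) * (ρ ^ 3)⁻¹ := by
          refine mul_le_mul_of_nonneg_right ?_ hi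
          exact mul_le_mul (abs_real_inner_le_norm _ _) (abs_real_inner_le_norm _ _)
            (abs_nonneg _) (by positivity)
      _ = ‖a‖ * ‖b‖ * (‖x‖ ^ 2 * (ρ ^ (2 + 1))⁻¹) := by ring
      _ ≤ ‖a‖ * ‖b‖ * ρ⁻¹ := mul_le_mul_of_nonneg_left k1 (by positivity)
  calc |⟪res X a, b⟫ * ρ⁻¹ - ⟪x, a⟫ * ⟪x, b⟫ * (ρ ^ 3)⁻¹|
      ≤ |⟪res X a, b⟫ * ρ⁻¹| + |⟪x, a⟫ * ⟪x, b⟫ * (ρ ^ 3)⁻¹| := abs_sub _ _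
    _ ≤ ‖a‖ * ‖b‖ * ρ⁻¹ + ‖a‖ * ‖b‖ * ρ⁻¹ := add_le_add t1 t2
    _ = 2 * ‖a‖ * ‖b‖ * ρ⁻¹ := by ring

omit [FiniteDimensional ℝ V] [MeasurableSpace V] [BorelSpace V] in
/-- norm of the four terms of the gradient. -/
private theorem four_terms (X : List V) (x a b : V) (D3 D5 : ℝ) :
    ‖-((⟪res X a, b⟫ * D3) • x) - (⟪x, b⟫ * D3) • res X a - (⟪x, a⟫ * D3) • res X b
      + (3 * (⟪x, a⟫ * ⟪x, b⟫) * D5) • x‖ ≤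
      ‖a‖ * ‖b‖ * (3 * (‖x‖ * |D3|) + 3 * (‖x‖ ^ 3 * |D5|)) := by
  have t1 : ‖(⟪res X a, b⟫ * D3) • x‖ ≤ ‖a‖ * ‖b‖ * (‖x‖ * |D3|) := by
    rw [norm_smul, Real.norm_eq_abs, abs_mul]
    calc |⟪res X a, b⟫| * |D3| * ‖x‖ ≤ ‖a‖ * ‖b‖ * |D3| * ‖x‖ := by
          gcongr
          exact pab_le X a b
      _ = ‖a‖ * ‖b‖ * (‖x‖ * |D3|) := by ring
  have t2 : ∀ c d : V, ‖(⟪x, c⟫ * D3) • res X d‖ ≤ ‖d‖ * ‖c‖ * (‖x‖ * |D3|) := by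
    intro c d
    rw [norm_smul, Real.norm_eq_abs, abs_mul]
    calc |⟪x, c⟫| * |D3| * ‖res X d‖ ≤ (‖x‖ * ‖c‖) * |D3| * ‖d‖ := by
          gcongr
          · exact abs_real_inner_le_norm _ _
          · exact norm_res_le X d
      _ = ‖d‖ * ‖c‖ * (‖x‖ * |D3|) := by ring
  have t4 : ‖(3 * (⟪x, a⟫ * ⟪x, b⟫) * D5) • x‖ ≤ ‖a‖ * ‖b‖ * (3 * (‖x‖ ^ 3 * |D5|)) := by
    rw [norm_smul, Real.norm_eq_abs, abs_mul, abs_mul, abs_mul, abs_of_pos (by norm_num : (0 : ℝ) < 3)]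
    calc 3 * (|⟪x, a⟫| * |⟪x, b⟫|) * |D5| * ‖x‖ ≤ 3 * ((‖x‖ * ‖a‖) * (‖x‖ * ‖b‖)) * |D5| * ‖x‖ := by
          gcongr
          · exact abs_real_inner_le_norm _ _
          · exact abs_real_inner_le_norm _ _
      _ = ‖a‖ * ‖b‖ * (3 * (‖x‖ ^ 3 * |D5|)) := by ring
  have t3 := t2 a b
  have t2' := t2 b a
  calc _ ≤ ‖-((⟪res X a, b⟫ * D3) • x) - (⟪x, b⟫ * D3) • res X a - (⟪x, a⟫ * D3) • res X b‖ +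
        ‖(3 * (⟪x, a⟫ * ⟪x, b⟫) * D5) • x‖ := norm_add_le _ _
    _ ≤ (‖-((⟪res X a, b⟫ * D3) • x) - (⟪x, b⟫ * D3) • res X a‖ + ‖(⟪x, a⟫ * D3) • res X b‖) +
        ‖(3 * (⟪x, a⟫ * ⟪x, b⟫) * D5) • x‖ := by
        gcongr
        exact norm_sub_le _ _
    _ ≤ ((‖(⟪res X a, b⟫ * D3) • x‖ + ‖(⟪x, b⟫ * D3) • res X a‖) + ‖(⟪x, a⟫ * D3) • res X b‖) +
        ‖(3 * (⟪x, a⟫ * ⟪x, b⟫) * D5) • x‖ := by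
        gcongr
        refine (norm_sub_le _ _).trans ?_
        rw [norm_neg]
    _ ≤ ((‖a‖ * ‖b‖ * (‖x‖ * |D3|) + ‖a‖ * ‖b‖ * (‖x‖ * |D3|)) + ‖b‖ * ‖a‖ * (‖x‖ * |D3|)) +
        ‖a‖ * ‖b‖ * (3 * (‖x‖ ^ 3 * |D5|)) := by
        gcongr
    _ = ‖a‖ * ‖b‖ * (3 * (‖x‖ * |D3|) + 3 * (‖x‖ ^ 3 * |D5|)) := by ring

omit [MeasurableSpace V] [BorelSpace V] in
theorem norm_gph_le (ε : ℝ) (X : List V) (h a b : V) :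
    ‖gph ε X h a b‖ ≤ 6 * ‖a‖ * ‖b‖ * (rr ε (res X h) ^ 2)⁻¹ := by
  set x := res X h with hx
  have h0 := norm_nonneg x
  have h1 := norm_le_rr ε x
  have hρ := rr_nn ε x
  set ρ := rr ε x with hρd
  have k1 := pow_mul_inv_le h0 h1 1 2
  have k3 := pow_mul_inv_le h0 h1 3 2
  rw [pow_one] at k1
  have e : gph ε X h a b = -((⟪res X a, b⟫ * (ρ ^ 3)⁻¹) • x) - (⟪x, b⟫ * (ρ ^ 3)⁻¹) • res X a -
      (⟪x, a⟫ * (ρ ^ 3)⁻¹) • res X b + (3 * (⟪x, a⟫ * ⟪x, b⟫) * (ρ ^ 5)⁻¹) • x := by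
    unfold gph
    rw [← hx, ← hρd, neg_smul]
  rw [e]
  refine (four_terms X x a b _ _).trans ?_
  have i3 : 0 ≤ (ρ ^ 3)⁻¹ := by positivity
  have i5 : 0 ≤ (ρ ^ 5)⁻¹ := by positivity
  rw [abs_of_nonneg i3, abs_of_nonneg i5]
  calc ‖a‖ * ‖b‖ * (3 * (‖x‖ * (ρ ^ 3)⁻¹) + 3 * (‖x‖ ^ 3 * (ρ ^ 5)⁻¹))
      ≤ ‖a‖ * ‖b‖ * (3 * (ρ ^ 2)⁻¹ + 3 * (ρ ^ 2)⁻¹) := by
        refine mul_le_mul_of_nonneg_left ?_ (by positivity)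
        refine add_le_add ?_ ?_
        · exact mul_le_mul_of_nonneg_left k1 (by norm_num)
        · exact mul_le_mul_of_nonneg_left k3 (by norm_num)
    _ = 6 * ‖a‖ * ‖b‖ * (ρ ^ 2)⁻¹ := by ring

omit [MeasurableSpace V] [BorelSpace V] in
theorem abs_ph_sub_le {ε : ℝ} (hε : 0 ≤ ε) {X : List V} {h : V} (hX : res X h ≠ 0) (a b : V) :
    |ph ε X h a b - ph 0 X h a b| ≤ 4 * ‖a‖ * ‖b‖ * ε * (‖res X h‖ ^ 2)⁻¹ := by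
  set x := res X h with hx
  have h0 : 0 < ‖x‖ := norm_pos_iff.2 hX
  obtain ⟨f1, f2, f3⟩ := inv_facts h0 (norm_le_rr ε x) (rr_le hε x)
  set ρ := rr ε x with hρd
  have f4 := cube_diff f1 f2 f3
  have e : ph ε X h a b - ph 0 X h a b = ⟪res X a, b⟫ * (ρ⁻¹ - ‖x‖⁻¹) -
      ⟪x, a⟫ * ⟪x, b⟫ * (ρ⁻¹ ^ 3 - ‖x‖⁻¹ ^ 3) := by
    unfold ph
    rw [← hx, rr_zero', ← hρd, ← inv_pow, ← inv_pow]
    ring
  rw [e]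
  have t1 : |⟪res X a, b⟫ * (ρ⁻¹ - ‖x‖⁻¹)| ≤ ‖a‖ * ‖b‖ * (ε * ‖x‖⁻¹ ^ 2) := by
    rw [abs_mul]
    have h5 : |ρ⁻¹ - ‖x‖⁻¹| ≤ ε * ‖x‖⁻¹ ^ 2 := by
      rw [abs_of_nonpos (by linarith)]
      linarith
    exact mul_le_mul (pab_le X a b) h5 (abs_nonneg _) (by positivity)
  have t2 : |⟪x, a⟫ * ⟪x, b⟫ * (ρ⁻¹ ^ 3 - ‖x‖⁻¹ ^ 3)| ≤
      (‖x‖ * ‖a‖) * (‖x‖ * ‖b‖) * (3 * ‖x‖⁻¹ ^ 2 * (ε * ‖x‖⁻¹ ^ 2)) := by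
    rw [abs_mul, abs_mul]
    refine mul_le_mul ?_ f4 (abs_nonneg _) (by positivity)
    exact mul_le_mul (abs_real_inner_le_norm _ _) (abs_real_inner_le_norm _ _)
      (abs_nonneg _) (by positivity)
  calc |⟪res X a, b⟫ * (ρ⁻¹ - ‖x‖⁻¹) - ⟪x, a⟫ * ⟪x, b⟫ * (ρ⁻¹ ^ 3 - ‖x‖⁻¹ ^ 3)|
      ≤ ‖a‖ * ‖b‖ * (ε * ‖x‖⁻¹ ^ 2) + (‖x‖ * ‖a‖) * (‖x‖ * ‖b‖) * (3 * ‖x‖⁻¹ ^ 2 * (ε * ‖x‖⁻¹ ^ 2)) :=
        (abs_sub _ _).trans (add_le_add t1 t2)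
    _ = 4 * ‖a‖ * ‖b‖ * ε * (‖x‖ ^ 2)⁻¹ := by
        field_simp
        ring

omit [MeasurableSpace V] [BorelSpace V] in
theorem norm_gph_sub_le {ε : ℝ} (hε : 0 ≤ ε) {X : List V} {h : V} (hX : res X h ≠ 0) (a b : V) :
    ‖gph ε X h a b - gph 0 X h a b‖ ≤ 24 * ‖a‖ * ‖b‖ * ε * (‖res X h‖ ^ 3)⁻¹ := by
  set x := res X h with hx
  have h0 : 0 < ‖x‖ := norm_pos_iff.2 hX
  obtain ⟨f1, f2, f3⟩ := inv_facts h0 (norm_le_rr ε x) (rr_le hε x)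
  set ρ := rr ε x with hρd
  have f4 := cube_diff f1 f2 f3
  have f5 := fifth_diff f1 f2 f3
  have e : gph ε X h a b - gph 0 X h a b = -((⟪res X a, b⟫ * (ρ⁻¹ ^ 3 - ‖x‖⁻¹ ^ 3)) • x) -
      (⟪x, b⟫ * (ρ⁻¹ ^ 3 - ‖x‖⁻¹ ^ 3)) • res X a - (⟪x, a⟫ * (ρ⁻¹ ^ 3 - ‖x‖⁻¹ ^ 3)) • res X b +
      (3 * (⟪x, a⟫ * ⟪x, b⟫) * (ρ⁻¹ ^ 5 - ‖x‖⁻¹ ^ 5)) • x := by
    unfold gph
    rw [← hx, rr_zero', ← hρd, ← inv_pow, ← inv_pow, ← inv_pow, ← inv_pow]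
    module
  rw [e]
  refine (four_terms X x a b _ _).trans ?_
  calc ‖a‖ * ‖b‖ * (3 * (‖x‖ * |ρ⁻¹ ^ 3 - ‖x‖⁻¹ ^ 3|) + 3 * (‖x‖ ^ 3 * |ρ⁻¹ ^ 5 - ‖x‖⁻¹ ^ 5|))
      ≤ ‖a‖ * ‖b‖ * (3 * (‖x‖ * (3 * ‖x‖⁻¹ ^ 2 * (ε * ‖x‖⁻¹ ^ 2))) +
        3 * (‖x‖ ^ 3 * (5 * ‖x‖⁻¹ ^ 4 * (ε * ‖x‖⁻¹ ^ 2)))) := by
        gcongr
    _ = 24 * ‖a‖ * ‖b‖ * ε * (‖x‖ ^ 3)⁻¹ := by
        field_simp
        ring

end Pool.Agent.FI75
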