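import Pool.Agent.FI75.D5
import Pool.Agent.FI75.D5b
import Pool.Agent.FI75.B4b

/-! Module FI-D6a (derivative of the regularised Hessian). `hasFDerivAt_integral_of_dominated_of_fderiv_le`, bound
`wv W * 6 ‖a‖ ‖b‖ / ε²` (`rr ε ≥ ε`), `wv` integrable for `μ^j` (`iter_ew_nil`, `iter_ew_lt_top`), measurability
`measurable_ph`, `measurable_gph`, `measurable_wv`; `innerSL ℝ (∫ v) = ∫ innerSL ℝ v`
(`ContinuousLinearMap.integral_comp_comm`). -/

set_option autoImplicit false

namespace Pool.Agent.FI75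
open MeasureTheory ProbabilityTheory Set Filter Topology Metric
open Pool.Agent.HP89
open scoped RealInnerProductSpace ENNReal

variable {V : Type*} [NormedAddCommGroup V] [InnerProductSpace ℝ V] [FiniteDimensional ℝ V]
  [MeasurableSpace V] [BorelSpace V]

theorem integrable_wv_pi (j : ℕ) (μ : Measure V) [IsFiniteMeasure μ] (hμ : Integrable (fun x => ‖x‖) μ) :
    Integrable (fun W : Fin j → V => wv W) (Measure.pi fun _ : Fin j => μ) := by
  refine ⟨(measurable_wv j).aestronglyMeasurable, ?_⟩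
  have h0 : 0 ≤ᵐ[Measure.pi fun _ : Fin j => μ] fun W : Fin j → V => wv W :=
    Eventually.of_forall fun W => wn_nonneg _
  rw [hasFiniteIntegral_iff_ofReal h0, ← iter_ew_nil]
  exact iter_ew_lt_top μ hμ j []

omit [FiniteDimensional ℝ V] [MeasurableSpace V] [BorelSpace V] in
private theorem rr_sq (ε : ℝ) (v : V) : rr ε v ^ 2 = ε ^ 2 + ‖v‖ ^ 2 :=
  Real.sq_sqrt (by positivity)

omit [FiniteDimensional ℝ V] [MeasurableSpace V] [BorelSpace V] in
private theorem le_rr {ε : ℝ} (hε : 0 < ε) (v : V) : ε ≤ rr ε v := by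
  unfold rr
  refine Real.le_sqrt_of_sq_le ?_
  nlinarith [sq_nonneg ‖v‖]

theorem hasFDerivAt_Mh_reg {ε : ℝ} (hε : 0 < ε) (j : ℕ) (μ : Measure V) [IsFiniteMeasure μ]
    (hμ : Integrable (fun x => ‖x‖) μ) (h a b : V) :
    HasFDerivAt (fun h => Mh ε j μ h a b) (innerSL ℝ (Tm ε j μ h a b)) h := by
  have hint := integrable_wv_pi j μ hμ
  have mph : ∀ h : V, Measurable (fun W : Fin j → V => ph ε (List.ofFn W) h a b) := fun h =>
    (measurable_ph ε j a b).comp (measurable_const.prodMk measurable_id)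
  have mgph : ∀ h : V, Measurable (fun W : Fin j → V => gph ε (List.ofFn W) h a b) := fun h =>
    (measurable_gph ε j a b).comp (measurable_const.prodMk measurable_id)
  have hw0 : ∀ W : Fin j → V, 0 ≤ wv W := fun W => wn_nonneg _
  have bph : ∀ (h : V) (W : Fin j → V), |ph ε (List.ofFn W) h a b| ≤ 2 * ‖a‖ * ‖b‖ * ε⁻¹ := by
    intro h W
    refine (abs_ph_le ε _ h a b).trans (mul_le_mul_of_nonneg_left ?_ (by positivity))
    exact inv_anti₀ hε (le_rr hε _)
  have bgph : ∀ (h : V) (W : Fin j → V), ‖gph ε (List.ofFn W) h a b‖ ≤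
      6 * ‖a‖ * ‖b‖ * (ε ^ 2)⁻¹ := by
    intro h W
    refine (norm_gph_le ε _ h a b).trans (mul_le_mul_of_nonneg_left ?_ (by positivity))
    exact inv_anti₀ (by positivity) (pow_le_pow_left₀ hε.le (le_rr hε _) 2)
  have mF' : ∀ h : V, AEStronglyMeasurable
      (fun W : Fin j → V => wv W • innerSL ℝ (gph ε (List.ofFn W) h a b))
      (Measure.pi fun _ : Fin j => μ) := fun h =>
    (measurable_wv j).aestronglyMeasurable.smul
      ((innerSL ℝ).continuous.comp_aestronglyMeasurable (mgph h).aestronglyMeasurable)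
  have bF' : ∀ (h : V) (W : Fin j → V), ‖wv W • innerSL ℝ (gph ε (List.ofFn W) h a b)‖ ≤
      wv W * (6 * ‖a‖ * ‖b‖ * (ε ^ 2)⁻¹) := by
    intro h W
    rw [norm_smul, Real.norm_of_nonneg (hw0 W), innerSL_apply_norm]
    exact mul_le_mul_of_nonneg_left (bgph h W) (hw0 W)
  have key := hasFDerivAt_integral_of_dominated_of_fderiv_le (𝕜 := ℝ)
    (μ := Measure.pi fun _ : Fin j => μ) (x₀ := h) (s := univ)
    (F := fun h W => wv W * ph ε (List.ofFn W) h a b)
    (F' := fun h W => wv W • innerSL ℝ (gph ε (List.ofFn W) h a b))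
    (bound := fun W => wv W * (6 * ‖a‖ * ‖b‖ * (ε ^ 2)⁻¹)) univ_mem
    (Eventually.of_forall fun h => ((measurable_wv j).mul (mph h)).aestronglyMeasurable)
    ?_ (mF' h) (Eventually.of_forall fun W h _ => bF' h W) (hint.mul_const _)
    (Eventually.of_forall fun W h _ => ?_)
  · have e1 : ∫ W, wv W • innerSL ℝ (gph ε (List.ofFn W) h a b) ∂(Measure.pi fun _ : Fin j => μ) =
        innerSL ℝ (Tm ε j μ h a b) := by
      have i1 : Integrable (fun W : Fin j → V => wv W • innerSL ℝ (gph ε (List.ofFn W) h a b))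
          (Measure.pi fun _ : Fin j => μ) :=
        (hint.mul_const (6 * ‖a‖ * ‖b‖ * (ε ^ 2)⁻¹)).mono' (mF' h)
          (Eventually.of_forall fun W => bF' h W)
      have i2 : Integrable (fun W : Fin j → V => wv W • gph ε (List.ofFn W) h a b)
          (Measure.pi fun _ : Fin j => μ) := by
        refine (hint.mul_const (6 * ‖a‖ * ‖b‖ * (ε ^ 2)⁻¹)).mono'
          ((measurable_wv j).aestronglyMeasurable.smul (mgph h).aestronglyMeasurable)
          (Eventually.of_forall fun W => ?_)
        rw [norm_smul, Real.norm_of_nonneg (hw0 W)]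
        exact mul_le_mul_of_nonneg_left (bgph h W) (hw0 W)
      refine ContinuousLinearMap.ext fun v => ?_
      rw [ContinuousLinearMap.integral_apply i1, innerSL_apply_apply, real_inner_comm]
      unfold Tm
      rw [← integral_inner i2 v]
      refine integral_congr_ae (Eventually.of_forall fun W => ?_)
      change wv W * ⟪gph ε (List.ofFn W) h a b, v⟫ = ⟪v, wv W • gph ε (List.ofFn W) h a b⟫
      rw [inner_smul_right, real_inner_comm]
    rw [e1] at key
    exact key
  · refine (hint.mul_const (2 * ‖a‖ * ‖b‖ * ε⁻¹)).mono'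
      ((measurable_wv j).mul (mph h)).aestronglyMeasurable (Eventually.of_forall fun W => ?_)
    rw [norm_mul, Real.norm_of_nonneg (hw0 W), Real.norm_eq_abs]
    exact mul_le_mul_of_nonneg_left (bph h W) (hw0 W)
  · exact (hasFDerivAt_ph hε (List.ofFn W) h a b).const_mul (wv W)

end Pool.Agent.FI75
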