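import Pool.Agent.FI75.D6a

/-! Module FI-D6b (the limit `ε → 0`). On the open set `{h | δ < ‖h‖}` use
`hasFDerivAt_of_tendstoUniformlyOn` with `ε = 1 / (n + 1)`: `‖Tm ε h - Tm 0 h‖ ≤ 24 ‖a‖ ‖b‖ ε ∫ wv ‖rv W h‖⁻³ ≤
24 ‖a‖ ‖b‖ ε K δ⁻³` (`norm_gph_sub_le`), and `|Mh ε h - Mh 0 h| ≤ 4 ‖a‖ ‖b‖ ε ∫ wv ‖rv W h‖⁻²` (`abs_ph_sub_le`),
`‖rv W h‖⁻² ≤ ‖h‖ ‖rv W h‖⁻³`. `hne` is used for `res ≠ 0` in the two lemmas. `Mh_Tm_bound`: `abs_ph_le`, `norm_gph_le` with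
`ε = 0` (`rr 0 v = ‖v‖`) and `‖rv W h‖⁻¹ ≤ ‖h‖² ‖rv W h‖⁻³`, `‖rv W h‖⁻² ≤ ‖h‖ ‖rv W h‖⁻³` (also true for
`rv W h = 0`: all zero). -/

set_option autoImplicit false

namespace Pool.Agent.FI75
open MeasureTheory ProbabilityTheory Set Filter Topology Metric
open Pool.Agent.HP89
open scoped RealInnerProductSpace ENNReal

variable {V : Type*} [NormedAddCommGroup V] [InnerProductSpace ℝ V] [FiniteDimensional ℝ V]
  [MeasurableSpace V] [BorelSpace V]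

private theorem d6_int (j : ℕ) (μ : Measure V) [IsFiniteMeasure μ] {K : ℝ} (hK0 : 0 ≤ K) {h : V}
    (hK : ∫⁻ X, ENNReal.ofReal (wv X) * ENNReal.ofReal ((‖rv X h‖ ^ 3)⁻¹) ∂(Measure.pi fun _ : Fin j => μ) ≤
        ENNReal.ofReal (K * (‖h‖ ^ 3)⁻¹)) :
    Integrable (fun X : Fin j → V => wv X * (‖rv X h‖ ^ 3)⁻¹) (Measure.pi fun _ : Fin j => μ) ∧
      ∫ X, wv X * (‖rv X h‖ ^ 3)⁻¹ ∂(Measure.pi fun _ : Fin j => μ) ≤ K * (‖h‖ ^ 3)⁻¹ := by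
  have hm : Measurable (fun X : Fin j → V => wv X * (‖rv X h‖ ^ 3)⁻¹) :=
    (measurable_wv j).mul ((((measurable_rv j).comp
      (measurable_id.prodMk measurable_const)).norm.pow_const 3).inv)
  have hnn : ∀ X : Fin j → V, 0 ≤ wv X * (‖rv X h‖ ^ 3)⁻¹ :=
    fun X => mul_nonneg (wn_nonneg _) (by positivity)
  have hl : ∫⁻ X, ENNReal.ofReal (wv X * (‖rv X h‖ ^ 3)⁻¹) ∂(Measure.pi fun _ : Fin j => μ) ≤
      ENNReal.ofReal (K * (‖h‖ ^ 3)⁻¹) := by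
    refine le_trans (le_of_eq ?_) hK
    congr 1
    funext X
    exact ENNReal.ofReal_mul (wn_nonneg _)
  constructor
  · refine ⟨hm.aestronglyMeasurable, ?_⟩
    rw [hasFiniteIntegral_iff_ofReal (ae_of_all _ hnn)]
    exact hl.trans_lt ENNReal.ofReal_lt_top
  · rw [integral_eq_lintegral_of_nonneg_ae (ae_of_all _ hnn) hm.aestronglyMeasurable]
    exact ENNReal.toReal_le_of_le_ofReal (by positivity) hl

private theorem d6_dom {E : Type*} [NormedAddCommGroup E] [NormedSpace ℝ E] (j : ℕ) (μ : Measure V)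
    [IsFiniteMeasure μ] {K : ℝ} (hK0 : 0 ≤ K) {h : V}
    (hK : ∫⁻ X, ENNReal.ofReal (wv X) * ENNReal.ofReal ((‖rv X h‖ ^ 3)⁻¹) ∂(Measure.pi fun _ : Fin j => μ) ≤
        ENNReal.ofReal (K * (‖h‖ ^ 3)⁻¹)) {F : (Fin j → V) → E}
    (hF : AEStronglyMeasurable F (Measure.pi fun _ : Fin j => μ)) {c : ℝ} (hc : 0 ≤ c)
    (hb : ∀ᵐ X ∂(Measure.pi fun _ : Fin j => μ), ‖F X‖ ≤ c * (wv X * (‖rv X h‖ ^ 3)⁻¹)) :
    Integrable F (Measure.pi fun _ : Fin j => μ) ∧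
      ‖∫ X, F X ∂(Measure.pi fun _ : Fin j => μ)‖ ≤ c * (K * (‖h‖ ^ 3)⁻¹) := by
  obtain ⟨h1, h2⟩ := d6_int j μ hK0 hK
  refine ⟨(h1.const_mul c).mono' hF hb, ?_⟩
  refine (norm_integral_le_of_norm_le (h1.const_mul c) hb).trans ?_
  rw [integral_const_mul]
  exact mul_le_mul_of_nonneg_left h2 hc

omit [FiniteDimensional ℝ V] [MeasurableSpace V] [BorelSpace V] in
private theorem rr_zero (v : V) : rr 0 v = ‖v‖ := by
  unfold rr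
  rw [zero_pow (by norm_num), zero_add, Real.sqrt_sq (norm_nonneg _)]

omit [FiniteDimensional ℝ V] [MeasurableSpace V] [BorelSpace V] in
private theorem rr_inv_le {ε : ℝ} {v : V} (hv : v ≠ 0 ∨ ε = 0) : (rr ε v)⁻¹ ≤ ‖v‖⁻¹ := by
  rcases hv with hv | rfl
  · refine inv_anti₀ (norm_pos_iff.2 hv) ?_
    unfold rr
    refine Real.le_sqrt_of_sq_le ?_
    nlinarith [sq_nonneg ε]
  · rw [rr_zero]

omit [FiniteDimensional ℝ V] [MeasurableSpace V] [BorelSpace V] in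
private theorem inv_b {j : ℕ} (X : Fin j → V) (h : V) :
    ‖rv X h‖⁻¹ ≤ ‖h‖ ^ 2 * (‖rv X h‖ ^ 3)⁻¹ ∧ (‖rv X h‖ ^ 2)⁻¹ ≤ ‖h‖ * (‖rv X h‖ ^ 3)⁻¹ := by
  have h1 : ‖rv X h‖ ≤ ‖h‖ := norm_res_le _ _
  by_cases h0 : ‖rv X h‖ = 0
  · rw [h0]; simp
  · have e1 : ‖rv X h‖⁻¹ = ‖rv X h‖ ^ 2 * (‖rv X h‖ ^ 3)⁻¹ := by field_simp
    have e2 : (‖rv X h‖ ^ 2)⁻¹ = ‖rv X h‖ * (‖rv X h‖ ^ 3)⁻¹ := by field_simp
    constructor
    · rw [e1]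
      exact mul_le_mul_of_nonneg_right (pow_le_pow_left₀ (norm_nonneg _) h1 2) (by positivity)
    · rw [e2]
      exact mul_le_mul_of_nonneg_right h1 (by positivity)

omit [MeasurableSpace V] [BorelSpace V] in
private theorem d6_ph {ε : ℝ} {j : ℕ} {X : Fin j → V} {h : V} (a b : V) (hX : rv X h ≠ 0 ∨ ε = 0) :
    ‖wv X * ph ε (List.ofFn X) h a b‖ ≤ (2 * ‖a‖ * ‖b‖ * ‖h‖ ^ 2) * (wv X * (‖rv X h‖ ^ 3)⁻¹) := by
  have hw : 0 ≤ wv X := wn_nonneg _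
  rw [norm_mul, Real.norm_eq_abs, abs_of_nonneg hw, Real.norm_eq_abs]
  have h1 : |ph ε (List.ofFn X) h a b| ≤ 2 * ‖a‖ * ‖b‖ * (‖h‖ ^ 2 * (‖rv X h‖ ^ 3)⁻¹) := by
    refine (abs_ph_le ε _ h a b).trans (mul_le_mul_of_nonneg_left ?_ (by positivity))
    exact (rr_inv_le (v := rv X h) hX).trans (inv_b X h).1
  calc wv X * |ph ε (List.ofFn X) h a b| ≤ wv X * (2 * ‖a‖ * ‖b‖ * (‖h‖ ^ 2 * (‖rv X h‖ ^ 3)⁻¹)) :=
        mul_le_mul_of_nonneg_left h1 hw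
    _ = _ := by ring

omit [MeasurableSpace V] [BorelSpace V] in
private theorem d6_gph {ε : ℝ} {j : ℕ} {X : Fin j → V} {h : V} (a b : V) (hX : rv X h ≠ 0 ∨ ε = 0) :
    ‖wv X • gph ε (List.ofFn X) h a b‖ ≤ (6 * ‖a‖ * ‖b‖ * ‖h‖) * (wv X * (‖rv X h‖ ^ 3)⁻¹) := by
  have hw : 0 ≤ wv X := wn_nonneg _
  rw [norm_smul, Real.norm_eq_abs, abs_of_nonneg hw]
  have h1 : ‖gph ε (List.ofFn X) h a b‖ ≤ 6 * ‖a‖ * ‖b‖ * (‖h‖ * (‖rv X h‖ ^ 3)⁻¹) := by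
    refine (norm_gph_le ε _ h a b).trans (mul_le_mul_of_nonneg_left ?_ (by positivity))
    refine le_trans ?_ (inv_b X h).2
    rw [← inv_pow, ← inv_pow]
    have h2 : 0 ≤ (rr ε (res (List.ofFn X) h))⁻¹ := inv_nonneg.2 (Real.sqrt_nonneg _)
    exact pow_le_pow_left₀ h2 (rr_inv_le (v := rv X h) hX) 2
  calc wv X * ‖gph ε (List.ofFn X) h a b‖ ≤ wv X * (6 * ‖a‖ * ‖b‖ * (‖h‖ * (‖rv X h‖ ^ 3)⁻¹)) :=
        mul_le_mul_of_nonneg_left h1 hw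
    _ = _ := by ring

private theorem meas_ph (ε : ℝ) (j : ℕ) (μ : Measure V) (h a b : V) :
    AEStronglyMeasurable (fun X : Fin j → V => wv X * ph ε (List.ofFn X) h a b)
      (Measure.pi fun _ : Fin j => μ) :=
  ((measurable_wv j).mul ((measurable_ph ε j a b).comp measurable_prodMk_left)).aestronglyMeasurable

private theorem meas_gph (ε : ℝ) (j : ℕ) (μ : Measure V) (h a b : V) :
    AEStronglyMeasurable (fun X : Fin j → V => wv X • gph ε (List.ofFn X) h a b)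
      (Measure.pi fun _ : Fin j => μ) :=
  ((measurable_wv j).smul ((measurable_gph ε j a b).comp measurable_prodMk_left)).aestronglyMeasurable

/-- the two differences -/
private theorem d6_sub (j : ℕ) (μ : Measure V) [IsFiniteMeasure μ] {K : ℝ} (hK0 : 0 ≤ K) {h : V}
    (hK : ∫⁻ X, ENNReal.ofReal (wv X) * ENNReal.ofReal ((‖rv X h‖ ^ 3)⁻¹) ∂(Measure.pi fun _ : Fin j => μ) ≤
        ENNReal.ofReal (K * (‖h‖ ^ 3)⁻¹))
    (hne : ∀ᵐ X ∂(Measure.pi fun _ : Fin j => μ), rv X h ≠ 0) {ε : ℝ} (hε : 0 ≤ ε) (a b : V) :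
    |Mh ε j μ h a b - Mh 0 j μ h a b| ≤ (4 * ‖a‖ * ‖b‖ * ‖h‖ * ε) * (K * (‖h‖ ^ 3)⁻¹) ∧
      ‖Tm ε j μ h a b - Tm 0 j μ h a b‖ ≤ (24 * ‖a‖ * ‖b‖ * ε) * (K * (‖h‖ ^ 3)⁻¹) := by
  have i1 : ∀ ε : ℝ, Integrable (fun X : Fin j → V => wv X * ph ε (List.ofFn X) h a b)
      (Measure.pi fun _ : Fin j => μ) := fun ε =>
    (d6_dom j μ hK0 hK (meas_ph ε j μ h a b) (c := 2 * ‖a‖ * ‖b‖ * ‖h‖ ^ 2) (by positivity) (by
      filter_upwards [hne] with X hX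
      exact d6_ph a b (Or.inl hX))).1
  have i2 : ∀ ε : ℝ, Integrable (fun X : Fin j → V => wv X • gph ε (List.ofFn X) h a b)
      (Measure.pi fun _ : Fin j => μ) := fun ε =>
    (d6_dom j μ hK0 hK (meas_gph ε j μ h a b) (c := 6 * ‖a‖ * ‖b‖ * ‖h‖) (by positivity) (by
      filter_upwards [hne] with X hX
      exact d6_gph a b (Or.inl hX))).1
  constructor
  · rw [Mh, Mh, ← integral_sub (i1 ε) (i1 0), ← Real.norm_eq_abs]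
    refine (d6_dom j μ hK0 hK ((i1 ε).sub (i1 0)).1 (by positivity) ?_).2
    filter_upwards [hne] with X hX
    have hw : 0 ≤ wv X := wn_nonneg _
    rw [Pi.sub_apply, ← mul_sub, norm_mul, Real.norm_eq_abs, abs_of_nonneg hw, Real.norm_eq_abs]
    have h1 := abs_ph_sub_le hε (X := List.ofFn X) (h := h) hX a b
    calc wv X * |ph ε (List.ofFn X) h a b - ph 0 (List.ofFn X) h a b|
        ≤ wv X * (4 * ‖a‖ * ‖b‖ * ε * (‖h‖ * (‖rv X h‖ ^ 3)⁻¹)) := by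
          refine mul_le_mul_of_nonneg_left (h1.trans ?_) hw
          exact mul_le_mul_of_nonneg_left (inv_b X h).2 (by positivity)
      _ = _ := by ring
  · rw [Tm, Tm, ← integral_sub (i2 ε) (i2 0)]
    refine (d6_dom j μ hK0 hK ((i2 ε).sub (i2 0)).1 (by positivity) ?_).2
    filter_upwards [hne] with X hX
    have hw : 0 ≤ wv X := wn_nonneg _
    rw [Pi.sub_apply, ← smul_sub, norm_smul, Real.norm_eq_abs, abs_of_nonneg hw]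
    have h1 := norm_gph_sub_le hε (X := List.ofFn X) (h := h) hX a b
    calc wv X * ‖gph ε (List.ofFn X) h a b - gph 0 (List.ofFn X) h a b‖
        ≤ wv X * (24 * ‖a‖ * ‖b‖ * ε * (‖rv X h‖ ^ 3)⁻¹) := mul_le_mul_of_nonneg_left h1 hw
      _ = _ := by ring

theorem hasFDerivAt_Mh (j : ℕ) (μ : Measure V) [IsFiniteMeasure μ]
    (hμ : Integrable (fun x => ‖x‖) μ) {K : ℝ} (hK0 : 0 ≤ K) (hK : ∀ h : V, h ≠ 0 →
      ∫⁻ X, ENNReal.ofReal (wv X) * ENNReal.ofReal ((‖rv X h‖ ^ 3)⁻¹) ∂(Measure.pi fun _ : Fin j => μ) ≤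
        ENNReal.ofReal (K * (‖h‖ ^ 3)⁻¹))
    (hne : ∀ h : V, h ≠ 0 → ∀ᵐ X ∂(Measure.pi fun _ : Fin j => μ), rv X h ≠ 0) {h : V} (hh : h ≠ 0) (a b : V) :
    HasFDerivAt (fun h => Mh 0 j μ h a b) (innerSL ℝ (Tm 0 j μ h a b)) h := by
  have hδ : 0 < ‖h‖ / 2 := half_pos (norm_pos_iff.2 hh)
  have hne0 : ∀ x : V, ‖h‖ / 2 < ‖x‖ → x ≠ 0 := fun x hx => norm_pos_iff.1 (hδ.trans hx)
  have hεt : Tendsto (fun n : ℕ => 1 / ((n : ℝ) + 1)) atTop (𝓝 0) := tendsto_one_div_add_atTop_nhds_zero_nat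
  have hεp : ∀ n : ℕ, 0 < 1 / ((n : ℝ) + 1) := fun n => Nat.one_div_pos_of_nat
  refine hasFDerivAt_of_tendstoUniformlyOn (l := atTop) (s := {x : V | ‖h‖ / 2 < ‖x‖})
    (f := fun (n : ℕ) x => Mh (1 / ((n : ℝ) + 1)) j μ x a b)
    (f' := fun (n : ℕ) x => innerSL ℝ (Tm (1 / ((n : ℝ) + 1)) j μ x a b))
    (g' := fun x => innerSL ℝ (Tm 0 j μ x a b))
    (isOpen_lt continuous_const continuous_norm) ?_ ?_ ?_ ?_
  · rw [Metric.tendstoUniformlyOn_iff]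
    intro η hη
    have h1 : Tendsto (fun n : ℕ => (24 * ‖a‖ * ‖b‖ * (1 / ((n : ℝ) + 1))) *
        (K * ((‖h‖ / 2) ^ 3)⁻¹)) atTop (𝓝 0) := by
      have := (hεt.const_mul (24 * ‖a‖ * ‖b‖)).mul_const (K * ((‖h‖ / 2) ^ 3)⁻¹)
      simpa using this
    filter_upwards [h1.eventually (gt_mem_nhds hη)] with n hn x hx
    have hx0 : x ≠ 0 := hne0 x hx
    have h2 := (d6_sub j μ hK0 (hK x hx0) (hne x hx0) (hεp n).le a b).2
    rw [dist_eq_norm, ← map_sub, innerSL_apply_norm, norm_sub_rev]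
    refine h2.trans_lt (lt_of_le_of_lt ?_ hn)
    refine mul_le_mul_of_nonneg_left (mul_le_mul_of_nonneg_left ?_ hK0) (by positivity)
    exact inv_anti₀ (by positivity) (pow_le_pow_left₀ hδ.le (le_of_lt hx) 3)
  · intro n x hx
    exact hasFDerivAt_Mh_reg (hεp n) j μ hμ x a b
  · intro x hx
    have hx0 : x ≠ 0 := hne0 x hx
    rw [tendsto_iff_norm_sub_tendsto_zero]
    have h1 : Tendsto (fun n : ℕ => (4 * ‖a‖ * ‖b‖ * ‖x‖ * (1 / ((n : ℝ) + 1))) *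
        (K * (‖x‖ ^ 3)⁻¹)) atTop (𝓝 0) := by
      have := (hεt.const_mul (4 * ‖a‖ * ‖b‖ * ‖x‖)).mul_const (K * (‖x‖ ^ 3)⁻¹)
      simpa using this
    refine squeeze_zero (fun n => norm_nonneg _) (fun n => ?_) h1
    rw [Real.norm_eq_abs]
    exact (d6_sub j μ hK0 (hK x hx0) (hne x hx0) (hεp n).le a b).1
  · show ‖h‖ / 2 < ‖h‖
    exact half_lt_self (norm_pos_iff.2 hh)

theorem Mh_Tm_bound (j : ℕ) (μ : Measure V) [IsFiniteMeasure μ] (hμ : Integrable (fun x => ‖x‖) μ) {K : ℝ}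
    (hK0 : 0 ≤ K) (hK : ∀ h : V, h ≠ 0 →
      ∫⁻ X, ENNReal.ofReal (wv X) * ENNReal.ofReal ((‖rv X h‖ ^ 3)⁻¹) ∂(Measure.pi fun _ : Fin j => μ) ≤
        ENNReal.ofReal (K * (‖h‖ ^ 3)⁻¹)) {h : V} (hh : h ≠ 0) (a b : V) :
    |Mh 0 j μ h a b| ≤ 2 * ‖a‖ * ‖b‖ * K * ‖h‖⁻¹ ∧ ‖Tm 0 j μ h a b‖ ≤ 6 * ‖a‖ * ‖b‖ * K * (‖h‖ ^ 2)⁻¹ := by
  have h0 : ‖h‖ ≠ 0 := norm_ne_zero_iff.2 hh
  constructor
  · rw [Mh, ← Real.norm_eq_abs]
    refine (d6_dom j μ hK0 (hK h hh) (meas_ph 0 j μ h a b) (c := 2 * ‖a‖ * ‖b‖ * ‖h‖ ^ 2)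
      (by positivity) (ae_of_all _ fun X => d6_ph a b (Or.inr rfl))).2.trans (le_of_eq ?_)
    field_simp
  · rw [Tm]
    refine (d6_dom j μ hK0 (hK h hh) (meas_gph 0 j μ h a b) (c := 6 * ‖a‖ * ‖b‖ * ‖h‖)
      (by positivity) (ae_of_all _ fun X => d6_gph a b (Or.inr rfl))).2.trans (le_of_eq ?_)
    field_simp

end Pool.Agent.FI75
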