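import Pool.Agent.FI75.D4
import Pool.Agent.FI75.D6b

/-! Module FI-D9 (the Hessian is rotationally differentiable). Gradient `T h = ‖h‖ • Tm 0 j μ h a b`. Measurability:
`StronglyMeasurable.integral_prod_right` with `measurable_ph`, `measurable_gph`, `measurable_wv`. Homogeneity: `ph_smul`,
`gph_smul`. Bounds: `Mh_Tm_bound` (`h = 0`: factor `‖h‖`). Derivative: `hasFDerivAt_Mh` composed with `hasDerivAt_rt` at `t = 0`
(`rt_zero`), `‖rt A t h‖ = ‖h‖`. `K` and the almost sure statement come from `stage3`, `ae_rv_ne_zero`. -/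

set_option autoImplicit false

namespace Pool.Agent.FI75
open MeasureTheory ProbabilityTheory Set Filter Topology Metric
open Pool.Agent.HP89
open scoped RealInnerProductSpace ENNReal

variable {V : Type*} [NormedAddCommGroup V] [InnerProductSpace ℝ V] [FiniteDimensional ℝ V]
  [MeasurableSpace V] [BorelSpace V]

omit [FiniteDimensional ℝ V] [BorelSpace V] in
private theorem Mh_smul (j : ℕ) (μ : Measure V) (a b : V) {c : ℝ} (hc : c ≠ 0) (h : V) :
    Mh 0 j μ (c • h) a b = |c|⁻¹ * Mh 0 j μ h a b := by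
  unfold Mh
  rw [← integral_const_mul]
  refine integral_congr_ae (Filter.Eventually.of_forall fun W => ?_)
  simp only
  rw [ph_smul hc]
  ring

omit [FiniteDimensional ℝ V] [BorelSpace V] in
private theorem Tm_smul (j : ℕ) (μ : Measure V) (a b : V) {c : ℝ} (hc : c ≠ 0) (h : V) :
    Tm 0 j μ (c • h) a b = (c⁻¹ * |c|⁻¹) • Tm 0 j μ h a b := by
  unfold Tm
  rw [← integral_smul]
  refine integral_congr_ae (Filter.Eventually.of_forall fun W => ?_)
  simp only
  rw [gph_smul hc, smul_comm]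

private theorem measurable_Mh (j : ℕ) (μ : Measure V) [IsFiniteMeasure μ] (a b : V) :
    Measurable (fun h => Mh 0 j μ h a b) := by
  have h1 : Measurable (fun p : V × (Fin j → V) => wv p.2 * ph 0 (List.ofFn p.2) p.1 a b) :=
    ((measurable_wv j).comp measurable_snd).mul (measurable_ph 0 j a b)
  exact (h1.stronglyMeasurable.integral_prod_right
    (ν := Measure.pi fun _ : Fin j => μ)).measurable

private theorem measurable_Tm (j : ℕ) (μ : Measure V) [IsFiniteMeasure μ] (a b : V) :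
    Measurable (fun h => Tm 0 j μ h a b) := by
  have h1 : Measurable (fun p : V × (Fin j → V) => wv p.2 • gph 0 (List.ofFn p.2) p.1 a b) :=
    ((measurable_wv j).comp measurable_snd).smul (measurable_gph 0 j a b)
  exact (h1.stronglyMeasurable.integral_prod_right
    (ν := Measure.pi fun _ : Fin j => μ)).measurable

theorem RDf_Mh {j : ℕ} (hj : j + 4 ≤ Module.finrank ℝ V) {μ : Measure V} [IsFiniteMeasure μ]
    (hμ : Integrable (fun x => ‖x‖) μ) {C : ℝ≥0∞} (hC : C ≠ ⊤) (hle : μ ≤ C • stdGaussian V) (a b : V) :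
    RDf (fun h => ‖h‖ * Mh 0 j μ h a b) := by
  obtain ⟨K, hK0, hK⟩ := stage3 hj hC hle
  have hne : ∀ h : V, h ≠ 0 → ∀ᵐ X ∂(Measure.pi fun _ : Fin j => μ), rv X h ≠ 0 := fun h hh =>
    ae_rv_ne_zero (by omega) hC hle hh
  refine ⟨fun h => ‖h‖ • Tm 0 j μ h a b, ?_, ?_, ?_, ?_, ?_, ?_⟩
  · exact measurable_norm.mul (measurable_Mh j μ a b)
  · exact measurable_norm.smul (measurable_Tm j μ a b)
  · refine ⟨6 * ‖a‖ * ‖b‖ * K, fun x => ?_⟩
    have hab : 0 ≤ ‖a‖ * ‖b‖ * K := by positivity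
    by_cases hx : x = 0
    · subst hx
      simp only [norm_zero, zero_mul, abs_zero]
      constructor <;> linarith
    · obtain ⟨b1, b2⟩ := Mh_Tm_bound j μ hμ hK0 hK hx a b
      have hx0 : 0 < ‖x‖ := norm_pos_iff.2 hx
      constructor
      · rw [abs_mul, abs_norm]
        calc ‖x‖ * |Mh 0 j μ x a b| ≤ ‖x‖ * (2 * ‖a‖ * ‖b‖ * K * ‖x‖⁻¹) :=
              mul_le_mul_of_nonneg_left b1 hx0.le
          _ = 2 * (‖a‖ * ‖b‖ * K) := by field_simp
          _ ≤ 6 * ‖a‖ * ‖b‖ * K := by linarith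
      · rw [norm_smul, norm_norm]
        calc ‖x‖ * (‖x‖ * ‖Tm 0 j μ x a b‖) ≤ ‖x‖ * (‖x‖ * (6 * ‖a‖ * ‖b‖ * K * (‖x‖ ^ 2)⁻¹)) :=
              mul_le_mul_of_nonneg_left (mul_le_mul_of_nonneg_left b2 hx0.le) hx0.le
          _ = 6 * ‖a‖ * ‖b‖ * K := by field_simp
  · intro c hc x
    have hc' : |c| ≠ 0 := abs_ne_zero.2 hc
    rw [Mh_smul j μ a b hc, norm_smul, Real.norm_eq_abs]
    field_simp
  · intro c hc x
    have hc' : |c| ≠ 0 := abs_ne_zero.2 hc
    rw [Tm_smul j μ a b hc, norm_smul, Real.norm_eq_abs, smul_smul, smul_smul]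
    congr 1
    field_simp
  · intro A hA x hx
    have h1 : HasFDerivAt (fun h => Mh 0 j μ h a b) (innerSL ℝ (Tm 0 j μ x a b)) (rt A 0 x) := by
      rw [rt_zero]
      exact hasFDerivAt_Mh j μ hμ hK0 hK hne hx a b
    have h2 := h1.comp_hasDerivAt (0 : ℝ) (hasDerivAt_rt A x 0)
    have h3 := h2.const_mul ‖x‖
    rw [rt_zero] at h3
    have h4 : (fun t : ℝ => ‖rt A t x‖ * Mh 0 j μ (rt A t x) a b) =
        fun t : ℝ => ‖x‖ * ((fun h => Mh 0 j μ h a b) ∘ fun s : ℝ => rt A s x) t := by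
      funext t
      rw [hA.norm_rt]
      rfl
    rw [h4]
    have h5 : ⟪‖x‖ • Tm 0 j μ x a b, A x⟫ = ‖x‖ * (innerSL ℝ (Tm 0 j μ x a b)) (A x) := by
      rw [innerSL_apply_apply, real_inner_smul_left]
    rw [h5]
    exact h3

end Pool.Agent.FI75
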