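import Pool.Agent.FI75.NM
import Pool.Agent.HP89.A3b

/-! Module FI-E1 (radial factors under the cosine transform). `radial_lintegral` twice with
`ψ y = ofReal (|⟪y, u⟫| / ‖y‖ * G y)` (homogeneous of degree `0`), `ρ r = ofReal (r * (r ^ j)⁻¹)` and `ρ r = ofReal r`; the
constant is `c = (∫⁻ ofReal (‖y‖ * (‖y‖^j)⁻¹)) / (∫⁻ ofReal ‖y‖)`, finite and positive (`nmom_lt_top` for `s = j - 1`,
`mG_pos`). `integral_cosT`: Fubini, `integral_abs_inner`, `radial_integral`. -/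

set_option autoImplicit false

namespace Pool.Agent.FI75
open MeasureTheory ProbabilityTheory Set Filter Topology Metric
open Pool.Agent.HP89
open scoped RealInnerProductSpace ENNReal

variable {V : Type*} [NormedAddCommGroup V] [InnerProductSpace ℝ V] [FiniteDimensional ℝ V]
  [MeasurableSpace V] [BorelSpace V]

private theorem e1_ae (hd : 1 ≤ Module.finrank ℝ V) : ∀ᵐ x : V ∂(stdGaussian V), x ≠ 0 := by
  have hN : Nontrivial V := Module.nontrivial_of_finrank_pos (R := ℝ) (by omega)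
  have h0 : (stdGaussian V) {(0 : V)} = 0 := by
    rw [stdGaussian_density, withDensity_apply _ (measurableSet_singleton _)]
    simp
  rw [ae_iff]
  simpa using h0

/-- the radial moment is positive -/
private theorem e1_pos (hd : 1 ≤ Module.finrank ℝ V) (j : ℕ) :
    ∫⁻ x : V, ENNReal.ofReal (‖x‖ * (‖x‖ ^ j)⁻¹) ∂(stdGaussian V) ≠ 0 := by
  intro h
  rw [lintegral_eq_zero_iff (by fun_prop)] at h
  have h1 : ∀ᵐ x : V ∂(stdGaussian V), False := by
    filter_upwards [h, e1_ae (V := V) hd] with x hx hx0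
    have hx' : 0 < ‖x‖ := norm_pos_iff.2 hx0
    have h2 : ENNReal.ofReal (‖x‖ * (‖x‖ ^ j)⁻¹) = 0 := hx
    rw [ENNReal.ofReal_eq_zero] at h2
    have h3 : 0 < ‖x‖ * (‖x‖ ^ j)⁻¹ := by positivity
    linarith
  rw [Filter.eventually_false_iff_eq_bot, ae_eq_bot] at h1
  have h2 : (stdGaussian V) univ = 1 := measure_univ
  rw [h1] at h2
  simp at h2

private theorem e1_fin {j : ℕ} (hj : j ≤ Module.finrank ℝ V) (hd : 1 ≤ Module.finrank ℝ V) :
    ∫⁻ x : V, ENNReal.ofReal (‖x‖ * (‖x‖ ^ j)⁻¹) ∂(stdGaussian V) ≠ ⊤ := by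
  rcases j with _ | k
  · have h1 : ∀ x : V, ENNReal.ofReal (‖x‖ * (‖x‖ ^ 0)⁻¹) = ENNReal.ofReal ‖x‖ := fun x => by simp
    simp only [h1]
    exact (integrable_norm_gaussian (V := V)).lintegral_lt_top.ne
  · refine ne_top_of_le_ne_top (nmom_lt_top (V := V) (s := k) (by omega)).ne
      (lintegral_mono fun x => ENNReal.ofReal_le_ofReal ?_)
    by_cases hx : x = 0
    · rw [hx, norm_zero, zero_mul]
      positivity
    · have hx' : ‖x‖ ≠ 0 := norm_ne_zero_iff.2 hx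
      refine le_of_eq ?_
      rw [pow_succ]
      field_simp

private theorem e1_int {G : V → ℝ} (hG : Measurable G) (h0 : ∀ y, 0 ≤ G y) {C : ℝ}
    (hC : ∀ y, G y ≤ C) (u : V) : Integrable (fun x => |⟪x, u⟫| * G x) (stdGaussian V) := by
  refine ((integrable_norm_gaussian (V := V)).const_mul (‖u‖ * C)).mono'
    (by fun_prop) (Eventually.of_forall fun x => ?_)
  rw [Real.norm_of_nonneg (mul_nonneg (abs_nonneg _) (h0 x))]
  calc |⟪x, u⟫| * G x ≤ (‖x‖ * ‖u‖) * C :=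
        mul_le_mul (abs_real_inner_le_norm _ _) (hC x) (h0 x) (by positivity)
    _ = ‖u‖ * C * ‖x‖ := by ring

theorem cos_radial {j : ℕ} (hj : j ≤ Module.finrank ℝ V) (hd : 1 ≤ Module.finrank ℝ V) :
    ∃ c : ℝ, 0 < c ∧ ∀ G : V → ℝ, Measurable G → (∀ y, 0 ≤ G y) → (∃ C, ∀ y, G y ≤ C) →
      (∀ a : ℝ, a ≠ 0 → ∀ y, G (a • y) = G y) → ∀ u,
      ∫⁻ y, ENNReal.ofReal |⟪y, u⟫| * ENNReal.ofReal ((‖y‖ ^ j)⁻¹ * G y) ∂(stdGaussian V) =
        ENNReal.ofReal (c * cosT G u) := by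
  obtain ⟨A, hA⟩ : ∃ A : ℝ≥0∞, A = ∫⁻ x : V, ENNReal.ofReal (‖x‖ * (‖x‖ ^ j)⁻¹) ∂(stdGaussian V) :=
    ⟨_, rfl⟩
  obtain ⟨B, hB⟩ : ∃ B : ℝ≥0∞, B = ∫⁻ x : V, ENNReal.ofReal ‖x‖ ∂(stdGaussian V) := ⟨_, rfl⟩
  have hA0 : A ≠ 0 := by rw [hA]; exact e1_pos hd j
  have hAT : A ≠ ⊤ := by rw [hA]; exact e1_fin hj hd
  have hB0 : B ≠ 0 := by
    have h1 := e1_pos (V := V) hd 0
    rw [hB]
    simpa using h1
  have hBT : B ≠ ⊤ := by rw [hB]; exact (integrable_norm_gaussian (V := V)).lintegral_lt_top.ne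
  have hQT : A / B ≠ ⊤ := ENNReal.div_ne_top hAT hB0
  refine ⟨(A / B).toReal, ENNReal.toReal_pos (ENNReal.div_ne_zero.2 ⟨hA0, hBT⟩) hQT,
    fun G hG h0 hbd hh u => ?_⟩
  obtain ⟨C, hC⟩ := hbd
  have hψm : Measurable fun y : V => ENNReal.ofReal (|⟪y, u⟫| * ‖y‖⁻¹ * G y) := by fun_prop
  have hψh : ∀ c : ℝ, 0 < c → ∀ y : V, ENNReal.ofReal (|⟪c • y, u⟫| * ‖c • y‖⁻¹ * G (c • y)) =
      ENNReal.ofReal (|⟪y, u⟫| * ‖y‖⁻¹ * G y) := by
    intro c hc y
    congr 1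
    rw [hh c hc.ne', real_inner_smul_left, abs_mul, norm_smul, Real.norm_eq_abs, mul_inv,
      abs_of_pos hc]
    have : c ≠ 0 := hc.ne'
    field_simp
  have h1 : ∫⁻ y, ENNReal.ofReal |⟪y, u⟫| * ENNReal.ofReal ((‖y‖ ^ j)⁻¹ * G y) ∂(stdGaussian V) =
      A * ∫⁻ y, ENNReal.ofReal (|⟪y, u⟫| * ‖y‖⁻¹ * G y) ∂(stdGaussian V) := by
    rw [hA, ← radial_lintegral hd (ρ := fun r => ENNReal.ofReal (r * (r ^ j)⁻¹)) (by fun_prop)
      hψm hψh]
    refine lintegral_congr_ae ?_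
    filter_upwards [e1_ae (V := V) hd] with y hy
    have hy' : 0 < ‖y‖ := norm_pos_iff.2 hy
    rw [← ENNReal.ofReal_mul (abs_nonneg _), ← ENNReal.ofReal_mul (by positivity)]
    congr 1
    field_simp
  have h2 : ENNReal.ofReal (cosT G u) =
      B * ∫⁻ y, ENNReal.ofReal (|⟪y, u⟫| * ‖y‖⁻¹ * G y) ∂(stdGaussian V) := by
    rw [hB, ← radial_lintegral hd (ρ := fun r => ENNReal.ofReal r) (by fun_prop) hψm hψh]
    unfold cosT
    rw [ofReal_integral_eq_lintegral_ofReal (e1_int hG h0 hC u)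
      (Eventually.of_forall fun x => mul_nonneg (abs_nonneg _) (h0 x))]
    refine lintegral_congr_ae ?_
    filter_upwards [e1_ae (V := V) hd] with y hy
    have hy' : 0 < ‖y‖ := norm_pos_iff.2 hy
    rw [← ENNReal.ofReal_mul hy'.le]
    congr 1
    field_simp
  rw [h1, ENNReal.ofReal_mul ENNReal.toReal_nonneg, ENNReal.ofReal_toReal hQT, h2, ← mul_assoc,
    ENNReal.div_mul_cancel hB0 hBT]

theorem integral_cosT (hd : 1 ≤ Module.finrank ℝ V) {G : V → ℝ} (hG : Measurable G) (h0 : ∀ y, 0 ≤ G y) {C : ℝ}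
    (hC : ∀ y, G y ≤ C) (hh : ∀ a : ℝ, a ≠ 0 → ∀ y, G (a • y) = G y) :
    ∫ u, cosT G u ∂(stdGaussian V) = √(2 / Real.pi) * mG (Module.finrank ℝ V) * AA G := by
  have hC0 : 0 ≤ C := (h0 0).trans (hC 0)
  unfold cosT AA
  rw [integral_integral_swap (f := fun (u x : V) => |⟪x, u⟫| * G x)]
  · have h1 : ∀ x : V, ∫ u, |⟪x, u⟫| * G x ∂(stdGaussian V) = √(2 / Real.pi) * (‖x‖ * G x) := by
      intro x
      rw [integral_mul_const, integral_abs_inner]
      ring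
    simp only [h1]
    rw [integral_const_mul, radial_integral hd hG h0 hC (fun c hc x => hh c hc.ne' x)]
    ring
  · have h2 : Integrable (fun z : V × V => ‖z.1‖ * ‖z.2‖) ((stdGaussian V).prod (stdGaussian V)) :=
      (integrable_norm_gaussian (V := V)).mul_prod (integrable_norm_gaussian (V := V))
    have hm : Measurable fun z : V × V => |⟪z.2, z.1⟫| * G z.2 :=
      (measurable_snd.inner measurable_fst).abs.mul (hG.comp measurable_snd)
    refine (h2.const_mul C).mono' hm.aestronglyMeasurable (Eventually.of_forall fun z => ?_)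
    change ‖|⟪z.2, z.1⟫| * G z.2‖ ≤ C * (‖z.1‖ * ‖z.2‖)
    rw [Real.norm_of_nonneg (mul_nonneg (abs_nonneg _) (h0 _))]
    calc |⟪z.2, z.1⟫| * G z.2 ≤ (‖z.2‖ * ‖z.1‖) * C :=
          mul_le_mul (abs_real_inner_le_norm _ _) (hC _) (h0 _) (by positivity)
      _ = C * (‖z.1‖ * ‖z.2‖) := by ring

end Pool.Agent.FI75
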