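import Pool.Agent.FI75.R3
import Pool.Agent.FI75.R2
import Pool.Agent.FI75.C3b
import Pool.Agent.FI75.C0
import Pool.Agent.FI75.RL

/-! Module FI-E2 (the Fisher information controls the distance to a constant). Let `A`, `θ = angle u v ≤ π` as in `exists_rot`,
`x_t = rt A t x`. `φ t = cosT F (rt A t u) = ∫ |⟪x, u⟫| F (x_t) dγ`, with derivative
`∫ |⟪x, u⟫| ⟪T x_t, A x_t⟫`, of absolute value at most `∫ ‖x‖ ‖T x‖ ‖x‖ dγ = m_d ∫ ‖x‖ ‖T x‖ dγ ≤ m_d √(JJ F T * AA F)`. -/

set_option autoImplicit false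

namespace Pool.Agent.FI75
open MeasureTheory ProbabilityTheory Set Filter Topology Metric
open Pool.Agent.HP89
open scoped RealInnerProductSpace ENNReal

variable {V : Type*} [NormedAddCommGroup V] [InnerProductSpace ℝ V] [FiniteDimensional ℝ V]
  [MeasurableSpace V] [BorelSpace V]

private lemma e2_meas {F : V → ℝ} {T : V → V} (h : RC F T) : Measurable (fun x : V => ‖x‖ * ‖T x‖) :=
  measurable_norm.mul h.mT.norm

private lemma e2_cs {F : V → ℝ} {T : V → V} (h : RC F T) :
    ∫ x, ‖x‖ * ‖T x‖ ∂(stdGaussian V) ≤ √(JJ F T * AA F) := by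
  obtain ⟨C, hC⟩ := h.bdd
  have hI1 : Integrable (fun x : V => ‖x‖ * ‖T x‖) (stdGaussian V) := by
    refine Integrable.mono' (integrable_const C) (e2_meas h).aestronglyMeasurable ?_
    refine Eventually.of_forall fun x => ?_
    rw [Real.norm_eq_abs, abs_of_nonneg (by positivity)]
    exact (hC x).2
  have hI2 := h.integrable_JJ
  have hI3 := h.integrable_F
  have hA := h.AA_pos
  set I := ∫ x, ‖x‖ * ‖T x‖ ∂(stdGaussian V) with hI
  have key : ∀ l : ℝ, 0 ≤ JJ F T - 2 * l * I + l ^ 2 * AA F := by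
    intro l
    have e : JJ F T - 2 * l * I + l ^ 2 * AA F = ∫ x, (‖x‖ ^ 2 * ‖T x‖ ^ 2 / F x -
        (2 * l) * (‖x‖ * ‖T x‖) + l ^ 2 * F x) ∂(stdGaussian V) := by
      have h1 : Integrable (fun x : V => (2 * l) * (‖x‖ * ‖T x‖)) (stdGaussian V) := hI1.const_mul _
      have h2 : Integrable (fun x : V => ‖x‖ ^ 2 * ‖T x‖ ^ 2 / F x - (2 * l) * (‖x‖ * ‖T x‖))
        (stdGaussian V) := hI2.sub h1
      have h3 : Integrable (fun x : V => l ^ 2 * F x) (stdGaussian V) := hI3.const_mul _
      rw [integral_add h2 h3, integral_sub hI2 h1, integral_const_mul, integral_const_mul]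
      rfl
    rw [e]
    refine integral_nonneg fun x => ?_
    have hF := h.F_pos x
    have e2 : ‖x‖ ^ 2 * ‖T x‖ ^ 2 / F x - (2 * l) * (‖x‖ * ‖T x‖) + l ^ 2 * F x =
        (‖x‖ * ‖T x‖ - l * F x) ^ 2 / F x := by
      field_simp
      ring
    simp only [Pi.zero_apply]
    rw [e2]
    positivity
  have h4 := key (I / AA F)
  have h5 : I ^ 2 ≤ JJ F T * AA F := by
    have e : JJ F T - 2 * (I / AA F) * I + (I / AA F) ^ 2 * AA F = JJ F T - I ^ 2 / AA F := by
      field_simp
      ring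
    rw [e] at h4
    have : I ^ 2 / AA F ≤ JJ F T := by linarith
    rwa [div_le_iff₀ hA] at this
  exact Real.le_sqrt_of_sq_le h5

theorem RC.cosT_dist (hd : 2 ≤ Module.finrank ℝ V) {F : V → ℝ} {T : V → V} (h : RC F T) {u v : V} (hu : ‖u‖ = 1)
    (hv : ‖v‖ = 1) :
    |cosT F u - cosT F v| ≤ Real.pi * mG (Module.finrank ℝ V) * √(JJ F T * AA F) := by
  obtain ⟨A, hA, hAn, hAuv⟩ := exists_rot hd hu hv
  obtain ⟨C, hC⟩ := h.bdd
  have hC2 : ∀ x, ‖x‖ * ‖T x‖ ≤ C := fun x => (hC x).2
  have hC0 : 0 ≤ C := (by positivity : (0:ℝ) ≤ ‖(0:V)‖ * ‖T 0‖).trans (hC2 0)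
  set θ := InnerProductGeometry.angle u v with hθ
  let φ : ℝ → ℝ := fun t => ∫ y, |⟪y, u⟫| * F (rt A t y) ∂(stdGaussian V)
  have hmeasF : ∀ t, Measurable (fun y : V => F (rt A t y)) := fun t =>
    h.mf.comp (rt A t).continuous.measurable
  have hmeasin : Measurable (fun y : V => |⟪y, u⟫|) := by fun_prop
  have hφ : ∀ t, cosT F (rt A t u) = φ t := by
    intro t
    have hm : AEStronglyMeasurable (fun x : V => |⟪x, rt A t u⟫| * F x) (stdGaussian V) := by
      have : Measurable (fun x : V => |⟪x, rt A t u⟫|) := by fun_prop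
      exact (this.mul h.mf).aestronglyMeasurable
    have e1 : ∫ x, |⟪x, rt A t u⟫| * F x ∂(stdGaussian V) =
        ∫ y, |⟪rt A t y, rt A t u⟫| * F (rt A t y) ∂(stdGaussian V) := by
      conv_lhs => rw [← map_rt hA t]
      rw [integral_map (rt A t).continuous.measurable.aemeasurable]
      rw [map_rt hA t]
      exact hm
    unfold cosT
    rw [e1]
    refine integral_congr_ae (Eventually.of_forall fun y => ?_)
    simp only [hA.inner_rt]
  have hne : ∀ᵐ y : V ∂(stdGaussian V), y ≠ 0 := by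
    have h1 := ae_res_ne_zero (V := V) (X := []) (Y := []) (by simp only [List.length_nil]; omega)
    filter_upwards [h1] with y hy
    rintro rfl
    exact hy (by simp)
  have hintn : Integrable (fun y : V => ‖y‖) (stdGaussian V) := integrable_norm_gaussian
  have hder : ∀ t, HasDerivAt φ
      (∫ y, |⟪y, u⟫| * ⟪T (rt A t y), A (rt A t y)⟫ ∂(stdGaussian V)) t := by
    intro t
    refine (hasDerivAt_integral_of_dominated_loc_of_lip (F := fun s y => |⟪y, u⟫| * F (rt A s y))
      (bound := fun y => ‖y‖ * (C * ‖A‖)) (s := univ) (Filter.univ_mem) ?_ ?_ ?_ ?_ ?_ ?_).2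
    · exact Eventually.of_forall fun s => (hmeasin.mul (hmeasF s)).aestronglyMeasurable
    · refine Integrable.mono' (hintn.mul_const C) (hmeasin.mul (hmeasF t)).aestronglyMeasurable ?_
      refine Eventually.of_forall fun y => ?_
      rw [Real.norm_eq_abs, abs_mul, abs_abs]
      have h1 : |⟪y, u⟫| ≤ ‖y‖ := by
        have := abs_real_inner_le_norm y u
        rwa [hu, mul_one] at this
      exact mul_le_mul h1 (hC _).1 (abs_nonneg _) (norm_nonneg _)
    · have h2 : Measurable (fun y : V => ⟪T (rt A t y), A (rt A t y)⟫) :=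
        (h.mT.comp (rt A t).continuous.measurable).inner
          (A.continuous.measurable.comp (rt A t).continuous.measurable)
      exact (hmeasin.mul h2).aestronglyMeasurable
    · filter_upwards [hne] with y hy
      rw [lipschitzOnWith_univ]
      refine LipschitzWith.of_dist_le_mul fun s s' => ?_
      rw [Real.dist_eq, Real.dist_eq, ← mul_sub, abs_mul, abs_abs]
      have h1 : |⟪y, u⟫| ≤ ‖y‖ := by
        have := abs_real_inner_le_norm y u
        rwa [hu, mul_one] at this
      have h2 := h.toRD.lip hA hC2 hy s s'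
      have h3 : ((Real.nnabs (‖y‖ * (C * ‖A‖)) : NNReal) : ℝ) = ‖y‖ * (C * ‖A‖) := by
        rw [Real.coe_nnabs, abs_of_nonneg (by positivity)]
      rw [h3]
      calc |⟪y, u⟫| * |F (rt A s y) - F (rt A s' y)| ≤ ‖y‖ * (C * ‖A‖ * |s - s'|) :=
            mul_le_mul h1 h2 (abs_nonneg _) (norm_nonneg _)
        _ = _ := by ring
    · exact hintn.mul_const _
    · filter_upwards [hne] with y hy
      have h1 : HasDerivAt (fun s : ℝ => F (rt A s (rt A t y))) ⟪T (rt A t y), A (rt A t y)⟫ 0 :=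
        h.der A hA (rt A t y) (hA.rt_ne_zero t hy)
      have h2 : HasDerivAt (fun s : ℝ => F (rt A (s - t) (rt A t y)))
          ⟪T (rt A t y), A (rt A t y)⟫ t := by
        have h3 : HasDerivAt (fun s : ℝ => s - t) 1 t := (hasDerivAt_id t).sub_const t
        have h4 := HasDerivAt.comp_of_eq t h1 h3 (by simp)
        rw [mul_one] at h4
        exact h4
      have h5 : (fun s : ℝ => F (rt A (s - t) (rt A t y))) = fun s => F (rt A s y) := by
        funext s
        rw [← rt_add, sub_add_cancel]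
      rw [h5] at h2
      exact h2.const_mul _
  have hbound : ∀ t, |∫ y, |⟪y, u⟫| * ⟪T (rt A t y), A (rt A t y)⟫ ∂(stdGaussian V)| ≤
      mG (Module.finrank ℝ V) * √(JJ F T * AA F) := by
    intro t
    have h0 : Integrable (fun y : V => ‖y‖ * (‖y‖ * ‖T y‖)) (stdGaussian V) := by
      refine Integrable.mono' (hintn.mul_const C) (measurable_norm.mul (e2_meas h)).aestronglyMeasurable ?_
      refine Eventually.of_forall fun y => ?_
      rw [Real.norm_eq_abs, abs_of_nonneg (by positivity)]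
      exact mul_le_mul_of_nonneg_left (hC2 y) (norm_nonneg _)
    have h1 : |∫ y, |⟪y, u⟫| * ⟪T (rt A t y), A (rt A t y)⟫ ∂(stdGaussian V)| ≤
        ∫ y, (fun x : V => ‖x‖ * (‖x‖ * ‖T x‖)) (rt A t y) ∂(stdGaussian V) := by
      rw [← Real.norm_eq_abs]
      refine norm_integral_le_of_norm_le ((mp_rt hA t).integrable_comp_of_integrable h0) ?_
      refine Eventually.of_forall fun y => ?_
      rw [Real.norm_eq_abs, abs_mul, abs_abs]
      simp only
      have h1 : |⟪y, u⟫| ≤ ‖rt A t y‖ := by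
        have := abs_real_inner_le_norm y u
        rwa [hu, mul_one, ← hA.norm_rt t y] at this
      have h2 : |⟪T (rt A t y), A (rt A t y)⟫| ≤ ‖rt A t y‖ * ‖T (rt A t y)‖ := by
        refine (abs_real_inner_le_norm _ _).trans ?_
        rw [mul_comm]
        exact mul_le_mul_of_nonneg_right (hAn _) (norm_nonneg _)
      exact mul_le_mul h1 h2 (abs_nonneg _) (norm_nonneg _)
    have h2 : ∫ y, (fun x : V => ‖x‖ * (‖x‖ * ‖T x‖)) (rt A t y) ∂(stdGaussian V) =
        ∫ x, ‖x‖ * (‖x‖ * ‖T x‖) ∂(stdGaussian V) := by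
      have hmm : AEStronglyMeasurable (fun x : V => ‖x‖ * (‖x‖ * ‖T x‖))
          ((stdGaussian V).map (fun x => rt A t x)) := by
        exact (measurable_norm.mul (e2_meas h)).aestronglyMeasurable
      rw [← integral_map (rt A t).continuous.measurable.aemeasurable hmm, map_rt hA t]
    have h3 : ∫ x, ‖x‖ * (‖x‖ * ‖T x‖) ∂(stdGaussian V) =
        mG (Module.finrank ℝ V) * ∫ x, ‖x‖ * ‖T x‖ ∂(stdGaussian V) := by
      refine radial_integral (by omega) (e2_meas h) (fun x => by positivity) hC2 ?_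
      intro c hc x
      rw [h.homT c hc.ne', norm_smul, norm_smul, norm_inv, Real.norm_eq_abs, abs_of_pos hc]
      field_simp
    have hm0 : 0 ≤ mG (Module.finrank ℝ V) := integral_nonneg fun x => norm_nonneg _
    rw [h2, h3] at h1
    exact h1.trans (mul_le_mul_of_nonneg_left (e2_cs h) hm0)
  have hmv := (convex_univ : Convex ℝ (univ : Set ℝ)).norm_image_sub_le_of_norm_hasDerivWithin_le
    (f := φ) (f' := fun t => ∫ y, |⟪y, u⟫| * ⟪T (rt A t y), A (rt A t y)⟫ ∂(stdGaussian V))
    (C := mG (Module.finrank ℝ V) * √(JJ F T * AA F))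
    (fun t _ => (hder t).hasDerivWithinAt) (fun t _ => by rw [Real.norm_eq_abs]; exact hbound t)
    (mem_univ θ) (mem_univ 0)
  rw [← hφ, ← hφ, rt_zero, hAuv] at hmv
  rw [Real.norm_eq_abs, Real.norm_eq_abs] at hmv
  refine hmv.trans ?_
  have hθ0 : 0 ≤ θ := InnerProductGeometry.angle_nonneg u v
  have hθ1 : θ ≤ Real.pi := InnerProductGeometry.angle_le_pi u v
  have hm0 : 0 ≤ mG (Module.finrank ℝ V) := integral_nonneg fun x => norm_nonneg _
  have e : |0 - θ| = θ := by rw [zero_sub, abs_neg, abs_of_nonneg hθ0]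
  rw [e]
  have : 0 ≤ mG (Module.finrank ℝ V) * √(JJ F T * AA F) := by positivity
  calc mG (Module.finrank ℝ V) * √(JJ F T * AA F) * θ ≤ mG (Module.finrank ℝ V) * √(JJ F T * AA F) * Real.pi :=
        mul_le_mul_of_nonneg_left hθ1 this
    _ = _ := by ring

end Pool.Agent.FI75
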