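import Pool.Agent.FI75.B3
import Pool.Agent.FI75.B4b
import Pool.Agent.FI75.E1
import Pool.Agent.FI75.C1a

/-! Module FI-E3 (the next density). `lintegral_pi_dm`: `lintegral_prod` by induction on `j` (`iter_eq_pi`, or
`measurePreserving_piFinSuccAbove`), `lintegral_withDensity_eq_lintegral_mul`. `nuw_dm`: `lintegral_nuw`, `lintegral_pi_dm`, `bpf` with
`Φ x y = ofReal (pf F x) * φ y`. `gen_next_RC`: `φ y = ofReal |⟪y, u⟫|`, `cos_radial` for `G = NN j F`; the integral of `|⟪x, u⟫|`
against `nuw j (dm F)` is finite, `∫ |⟪x,u⟫| d(dm G) = cosT G u` (`cosT_eq`). -/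

set_option autoImplicit false

namespace Pool.Agent.FI75
open MeasureTheory ProbabilityTheory Set Filter Topology Metric
open Pool.Agent.HP89
open scoped RealInnerProductSpace ENNReal

variable {V : Type*} [NormedAddCommGroup V] [InnerProductSpace ℝ V] [FiniteDimensional ℝ V]
  [MeasurableSpace V] [BorelSpace V]

theorem cosT_eq {G : V → ℝ} (hG : Measurable G) (h0 : ∀ y, 0 ≤ G y) (u : V) :
    ∫ x, |⟪x, u⟫| ∂(dm G) = cosT G u := by
  unfold dm cosT
  rw [integral_withDensity_eq_integral_toReal_smul hG.ennreal_ofReal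
    (Eventually.of_forall fun x => ENNReal.ofReal_lt_top)]
  refine integral_congr_ae (Eventually.of_forall fun x => ?_)
  change (ENNReal.ofReal (G x)).toReal • |⟪x, u⟫| = |⟪x, u⟫| * G x
  rw [ENNReal.toReal_ofReal (h0 x), smul_eq_mul, mul_comm]

private theorem dm_le' {G : V → ℝ} {C : ℝ} (hC : ∀ y, G y ≤ C) :
    dm G ≤ ENNReal.ofReal C • stdGaussian V := by
  unfold dm
  rw [← withDensity_const]
  refine withDensity_mono (Eventually.of_forall fun x => ?_)
  exact ENNReal.ofReal_le_ofReal (hC x)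

theorem dm_finite {G : V → ℝ} (hG : Measurable G) {C : ℝ} (hC : ∀ y, G y ≤ C) :
    IsFiniteMeasure (dm G) := by
  refine ⟨lt_of_le_of_lt (dm_le' hC univ) ?_⟩
  rw [Measure.smul_apply, measure_univ, smul_eq_mul, mul_one]
  exact ENNReal.ofReal_lt_top

theorem dm_integrable {G : V → ℝ} (hG : Measurable G) {C : ℝ} (hC : ∀ y, G y ≤ C) :
    Integrable (fun x => ‖x‖) (dm G) :=
  (integrable_norm_gaussian.smul_measure ENNReal.ofReal_ne_top).mono_measure (dm_le' hC)

theorem dm_le {G : V → ℝ} {C : ℝ} (hC : ∀ y, G y ≤ C) :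
    dm G ≤ ENNReal.ofReal C • stdGaussian V := dm_le' hC

theorem lintegral_pi_dm (j : ℕ) {F : V → ℝ} (hF : Measurable F) (h0 : ∀ y, 0 ≤ F y) {C : ℝ} (hC : ∀ y, F y ≤ C)
    {f : (Fin j → V) → ℝ≥0∞} (hf : Measurable f) :
    ∫⁻ x, f x ∂(Measure.pi fun _ : Fin j => dm F) = ∫⁻ x, ENNReal.ofReal (pf F x) * f x ∂(gp V j) := by
  have := dm_finite hF hC
  induction j with
  | zero =>
    rw [lintegral_unique, lintegral_unique, Measure.pi_univ, Measure.pi_univ]
    unfold pf
    simp
  | succ n ih =>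
    let e := MeasurableEquiv.piFinSuccAbove (fun _ : Fin (n + 1) => V) 0
    have e0 : ∀ p : V × (Fin n → V), e.symm p = (Fin.cons p.1 p.2 : Fin (n + 1) → V) := by
      intro p
      exact Fin.insertNth_zero' (β := V) p.1 p.2
    have e1 : ∀ (μ : Measure V) [SigmaFinite μ] (h : (Fin (n + 1) → V) → ℝ≥0∞), Measurable h →
        ∫⁻ x, h x ∂(Measure.pi fun _ : Fin (n + 1) => μ) =
          ∫⁻ a, ∫⁻ b, h (Fin.cons a b) ∂(Measure.pi fun _ : Fin n => μ) ∂μ := by
      intro μ _ h hh
      have h1 := (measurePreserving_piFinSuccAbove (fun _ : Fin (n + 1) => μ) 0).symm e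
      have h2 : Measurable (fun p : V × (Fin n → V) => h (e.symm p)) := hh.comp e.symm.measurable
      rw [← h1.lintegral_comp hh, lintegral_prod _ h2.aemeasurable]
      refine lintegral_congr fun a => lintegral_congr fun b => ?_
      rw [e0 (a, b)]
    have hcons : Measurable (fun p : V × (Fin n → V) => (Fin.cons p.1 p.2 : Fin (n + 1) → V)) := by
      have h1 := e.symm.measurable
      have h2 : (fun p : V × (Fin n → V) => (Fin.cons p.1 p.2 : Fin (n + 1) → V)) = e.symm := by
        funext p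
        exact (e0 p).symm
      rw [h2]
      exact h1
    have hm0 : Measurable (fun x : Fin (n + 1) → V => ENNReal.ofReal (pf F x) * f x) :=
      (measurable_pf hF (n + 1)).ennreal_ofReal.mul hf
    rw [e1 (dm F) f hf, e1 (stdGaussian V) _ hm0]
    have e2 : ∀ a : V, ∫⁻ b, f (Fin.cons a b) ∂(Measure.pi fun _ : Fin n => dm F) =
        ∫⁻ b, ENNReal.ofReal (pf F b) * f (Fin.cons a b) ∂(gp V n) := fun a =>
      ih (hf.comp (hcons.comp (measurable_const.prodMk measurable_id)))
    simp_rw [e2]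
    have hm : Measurable (fun p : V × (Fin n → V) => ENNReal.ofReal (pf F p.2) * f (Fin.cons p.1 p.2)) :=
      (((measurable_pf hF n).comp measurable_snd).ennreal_ofReal).mul (hf.comp hcons)
    have hm2 : Measurable (fun a : V => ∫⁻ b, ENNReal.ofReal (pf F b) * f (Fin.cons a b) ∂(gp V n)) :=
      hm.lintegral_prod_right'
    unfold dm
    rw [lintegral_withDensity_eq_lintegral_mul _ hF.ennreal_ofReal hm2]
    refine lintegral_congr fun a => ?_
    simp only [Pi.mul_apply]
    have hm3 : Measurable (fun b : Fin n → V => ENNReal.ofReal (pf F b) * f (Fin.cons a b)) :=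
      hm.comp (measurable_const.prodMk measurable_id)
    rw [← lintegral_const_mul _ hm3]
    refine lintegral_congr fun b => ?_
    rw [← mul_assoc, ← ENNReal.ofReal_mul (h0 a)]
    congr 2
    unfold pf
    rw [Fin.prod_univ_succ]
    simp

private theorem nuw_dm_int {F : V → ℝ} {T : V → V} (h : RC F T) {j : ℕ} (y : V) :
    Integrable (fun g => wv (ov y g) ^ 2 * pf F (ov y g)) (gp V j) := by
  have h1 := h.integrable_sq_mul (j := j) y (φ := fun _ => (1 : ℝ)) measurable_const (C := 1)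
    (fun x => by simp)
  simpa only [mul_one] using h1

theorem RC.nuw_dm {j : ℕ} (hj : j < Module.finrank ℝ V) {F : V → ℝ} {T : V → V} (h : RC F T) {φ : V → ℝ≥0∞}
    (hφ : Measurable φ) :
    ∫⁻ x, φ x ∂(nuw j (dm F)) = ∫⁻ y, φ y * ENNReal.ofReal ((‖y‖ ^ j)⁻¹ * NN j F y) ∂(stdGaussian V) := by
  obtain ⟨C, hC⟩ := h.bdd
  have hFC : ∀ x, F x ≤ C := fun x => (le_abs_self _).trans (hC x).1
  have hF0 : ∀ x, 0 ≤ F x := fun x => (h.F_pos x).le
  have := dm_finite h.mf hFC
  have hm1 : Measurable (fun X : Fin j → V => ∫⁻ g, φ (rv X g) ∂(stdGaussian V)) :=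
    Measurable.lintegral_prod_right' (f := fun p : (Fin j → V) × V => φ (rv p.1 p.2))
      (hφ.comp (measurable_rv j))
  have hm2 : Measurable (fun X : Fin j → V => ENNReal.ofReal (wv X) *
      ∫⁻ g, φ (rv X g) ∂(stdGaussian V)) := (measurable_wv j).ennreal_ofReal.mul hm1
  rw [lintegral_nuw j (dm F) hφ, lintegral_pi_dm j h.mf hF0 hFC hm2]
  have hΦ : Measurable (Function.uncurry fun (X : Fin j → V) (y : V) =>
      ENNReal.ofReal (pf F X) * φ y) :=
    ((measurable_pf h.mf j).comp measurable_fst).ennreal_ofReal.mul (hφ.comp measurable_snd)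
  have key := bpf hj hΦ
  have hl : ∀ X : Fin j → V, ENNReal.ofReal (pf F X) * (ENNReal.ofReal (wv X) *
      ∫⁻ g, φ (rv X g) ∂(stdGaussian V)) = ENNReal.ofReal (wv X) *
      ∫⁻ g, ENNReal.ofReal (pf F X) * φ (rv X g) ∂(stdGaussian V) := by
    intro X
    have hm3 : Measurable (fun g : V => φ (rv X g)) := hφ.comp ((measurable_rv j).comp
      (measurable_const.prodMk measurable_id))
    rw [lintegral_const_mul _ hm3]
    ring
  simp_rw [hl]
  rw [key]
  refine lintegral_congr fun y => ?_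
  have hov : Measurable (fun g : Fin j → V => ov y g) :=
    (measurable_ov j).comp (measurable_const.prodMk measurable_id)
  have e1 : ∀ g : Fin j → V, ENNReal.ofReal (wv (ov y g) ^ 2) *
      (ENNReal.ofReal (pf F (ov y g)) * φ y) =
      ENNReal.ofReal (wv (ov y g) ^ 2 * pf F (ov y g)) * φ y := by
    intro g
    rw [ENNReal.ofReal_mul (sq_nonneg _), mul_assoc]
  simp_rw [e1]
  have hm4 : Measurable (fun g : Fin j → V => ENNReal.ofReal (wv (ov y g) ^ 2 * pf F (ov y g))) :=
    ((((measurable_wv j).comp hov).pow_const 2).mul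
      ((measurable_pf h.mf j).comp hov)).ennreal_ofReal
  rw [lintegral_mul_const _ hm4, ← ofReal_integral_eq_lintegral_ofReal (nuw_dm_int h y)
    (Eventually.of_forall fun g => mul_nonneg (sq_nonneg _) (h.pf_pos _).le)]
  change ni y ^ j * (ENNReal.ofReal (NN j F y) * φ y) = _
  unfold ni
  rw [← ENNReal.ofReal_pow (by positivity), ENNReal.ofReal_mul (by positivity), inv_pow]
  ring

/-- general form for a density of `nuw j (nuw j μ)`. -/
theorem GenC.density {j : ℕ} (hj : j < Module.finrank ℝ V) {G : V → ℝ} (hG : Measurable G) (h0 : ∀ y, 0 ≤ G y) {C : ℝ}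
    (hC : ∀ y, G y ≤ C) (hh : ∀ a : ℝ, a ≠ 0 → ∀ y, G (a • y) = G y) {ν : Measure V}
    (hν : ∀ φ : V → ℝ≥0∞, Measurable φ →
      ∫⁻ x, φ x ∂ν = ∫⁻ y, φ y * ENNReal.ofReal ((‖y‖ ^ j)⁻¹ * G y) ∂(stdGaussian V)) {S : V → ℝ}
    (hS : GenC S ν) : GenC S (dm G) := by
  obtain ⟨c, hc, hcos⟩ := cos_radial (V := V) hj.le (by omega)
  obtain ⟨c₁, hc₁, hS⟩ := hS
  refine ⟨c₁ * c, by positivity, fun u hu => ?_⟩
  have hm : Measurable (fun x : V => |⟪x, u⟫|) := by fun_prop
  rw [hS u hu, cosT_eq hG h0, integral_eq_lintegral_of_nonneg_ae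
    (Eventually.of_forall fun x => abs_nonneg _) hm.aestronglyMeasurable,
    hν _ hm.ennreal_ofReal, hcos G hG h0 ⟨C, hC⟩ hh u, ENNReal.toReal_ofReal, mul_assoc]
  refine mul_nonneg hc.le ?_
  unfold cosT
  exact integral_nonneg fun x => mul_nonneg (abs_nonneg _) (h0 x)

theorem GenC.next_RC {j : ℕ} (hj : j < Module.finrank ℝ V) {F : V → ℝ} {T : V → V} (h : RC F T) {S : V → ℝ}
    (hS : GenC S (nuw j (dm F))) : GenC S (dm (NN j F)) := by
  obtain ⟨c, C, hc, hb⟩ := NN_bounds hj h
  exact GenC.density hj (measurable_NN h.mf j) (fun y => hc.le.trans (hb y).1)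
    (fun y => (hb y).2) (fun a ha y => NN_smul j F ha y) (fun φ hφ => h.nuw_dm hj hφ) hS

end Pool.Agent.FI75
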