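import Pool.Agent.FI75.D2
import Pool.Agent.FI75.D9
import Pool.Agent.FI75.D10
import Pool.Agent.FI75.D12
import Pool.Agent.HP89.A2b

/-! Module FI-E4: the density of `nuw j (nuw j μ)` belongs to the class `RC` if `μ` has a bounded density. -/

set_option autoImplicit false

namespace Pool.Agent.FI75
open MeasureTheory ProbabilityTheory Set Filter Topology Metric
open Pool.Agent.HP89
open scoped RealInnerProductSpace ENNReal

variable {V : Type*} [NormedAddCommGroup V] [InnerProductSpace ℝ V] [FiniteDimensional ℝ V]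
  [MeasurableSpace V] [BorelSpace V]

theorem base {j : ℕ} (hj : j + 4 ≤ Module.finrank ℝ V) (h2 : 2 * j < Module.finrank ℝ V) {μ : Measure V}
    [IsFiniteMeasure μ] (hμ : Integrable (fun x => ‖x‖) μ) {C : ℝ≥0∞} (hC : C ≠ ⊤) (hle : μ ≤ C • stdGaussian V)
    (hne : iter μ j ew [] ≠ 0) :
    ∃ (F : V → ℝ) (T : V → V), RC F T ∧ ∀ y, y ≠ 0 → Gd j μ y = ENNReal.ofReal ((‖y‖ ^ j)⁻¹ * F y) := by
  have hd2 : 2 ≤ Module.finrank ℝ V := by omega
  set b := stdOrthonormalBasis ℝ V with hb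
  set f : V → ℝ := fun y => ∑ α : Fin j → Fin (Module.finrank ℝ V),
    (Matrix.of fun i l => ‖y‖ * Mh 0 j μ y (b (α i)) (b (α l))).det with hf
  have hRD : RDf f := by
    apply RDf.sum
    intro α
    apply RDf.det
    intro i l
    exact RDf_Mh hj hμ hC hle (b (α i)) (b (α l))
  obtain ⟨K, hK0, hK⟩ := stage3 hj hC hle
  have hfin : ∀ y : V, y ≠ 0 →
      ∫⁻ X, ENNReal.ofReal (wv X) * ni (rv X y) ∂(Measure.pi fun _ : Fin j => μ) ≠ ⊤ := by
    intro y hy
    have h1 : ∀ X : Fin j → V, ENNReal.ofReal (wv X) * ni (rv X y) ≤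
        ENNReal.ofReal (‖y‖ ^ 2) * (ENNReal.ofReal (wv X) * ENNReal.ofReal ((‖rv X y‖ ^ 3)⁻¹)) := by
      intro X
      rw [← mul_assoc, mul_comm (ENNReal.ofReal (‖y‖ ^ 2)), mul_assoc]
      apply mul_le_mul' le_rfl
      unfold ni
      rw [← ENNReal.ofReal_mul (by positivity)]
      apply ENNReal.ofReal_le_ofReal
      by_cases h0 : ‖rv X y‖ = 0
      · rw [h0]; simp
      · have h3 : 0 < ‖rv X y‖ := lt_of_le_of_ne (norm_nonneg _) (Ne.symm h0)
        have h4 : ‖rv X y‖ ≤ ‖y‖ := norm_res_le _ _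
        rw [← div_eq_mul_inv, le_div_iff₀ (by positivity)]
        have : ‖rv X y‖⁻¹ * ‖rv X y‖ ^ 3 = ‖rv X y‖ ^ 2 := by field_simp
        rw [this]
        exact pow_le_pow_left₀ h3.le h4 2
    refine ne_top_of_le_ne_top ?_ (lintegral_mono h1)
    rw [lintegral_const_mul' _ _ ENNReal.ofReal_ne_top]
    exact ENNReal.mul_ne_top ENNReal.ofReal_ne_top (ne_top_of_le_ne_top ENNReal.ofReal_ne_top (hK y hy))
  have hGd : ∀ y : V, y ≠ 0 → Gd j μ y = ENNReal.ofReal ((‖y‖ ^ j)⁻¹ * f y) := by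
    intro y hy
    rw [Gd_eq (hfin y hy)]
    congr 1
    rw [hf]
    simp only []
    have h1 : ∀ α : Fin j → Fin (Module.finrank ℝ V),
        (Matrix.of fun i l => ‖y‖ * Mh 0 j μ y (b (α i)) (b (α l))).det =
          ‖y‖ ^ j * (Matrix.of fun i l => Mh 0 j μ y (b (α i)) (b (α l))).det := by
      intro α
      have h2 : (Matrix.of fun i l => ‖y‖ * Mh 0 j μ y (b (α i)) (b (α l))) =
          ‖y‖ • (Matrix.of fun i l : Fin j => Mh 0 j μ y (b (α i)) (b (α l))) := by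
        ext i l
        simp
      rw [h2, Matrix.det_smul]
      simp
    rw [Finset.sum_congr rfl (fun α _ => h1 α), ← Finset.mul_sum, ← mul_assoc,
      inv_mul_cancel₀ (pow_ne_zero j (norm_ne_zero_iff.2 hy)), one_mul]
  have hpos : ∀ x, x ≠ 0 → 0 < f x := by
    intro x hx
    have h1 := Gd_pos h2 hne (ae_rv_ne_zero (by omega) hC hle hx)
    rw [hGd x hx, ENNReal.ofReal_pos] at h1
    have h3 : 0 < (‖x‖ ^ j)⁻¹ := by
      have := norm_pos_iff.2 hx
      positivity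
    exact (pos_iff_pos_of_mul_pos h1).1 h3
  obtain ⟨F, T, hRC, hF⟩ := RC_of_RDf hd2 hRD hpos
  exact ⟨F, T, hRC, fun y hy => by rw [hGd y hy, hF y hy]⟩

end Pool.Agent.FI75
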