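import Pool.Agent.FI75.B6
import Pool.Agent.FI75.D3
import Pool.Agent.FI75.E3
import Pool.Agent.FI75.E4
import Pool.Agent.HP89.F1

/-! Module FI-E5: densities of the bodies of a chain. -/

set_option autoImplicit false

namespace Pool.Agent.FI75
open MeasureTheory ProbabilityTheory Set Filter Topology Metric
open Pool.Agent.HP89
open Pool.Agent.Helper82.Proj1 (supp shadow kappa)
open scoped RealInnerProductSpace ENNReal Pointwise

variable {V : Type*} [NormedAddCommGroup V] [InnerProductSpace ℝ V] [FiniteDimensional ℝ V]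
  [MeasurableSpace V] [BorelSpace V]

theorem ni_pow (y : V) (j : ℕ) : ni y ^ j = ENNReal.ofReal ((‖y‖ ^ j)⁻¹) := by
  unfold ni
  rw [← ENNReal.ofReal_pow (inv_nonneg.2 (norm_nonneg y)), inv_pow]

/-- one step of the chain: `nuw j μ` generates the next body. -/
theorem gen_next {j : ℕ} (hj : j < Module.finrank ℝ V) {K P : Set V} (hK : CC K) (hP : CC P) {s : ℝ} (hs : 0 < s)
    (h : IsPB j K (s • P)) (hne : ∃ u, ‖u‖ = 1 ∧ supp P u ≠ 0) {μ : Measure V} [IsFiniteMeasure μ]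
    (hμ : Integrable (fun x => ‖x‖) μ) (hg : GenC (supp K) μ) :
    GenC (supp P) (nuw j μ) ∧ iter μ j ew [] ≠ 0 := by
  obtain ⟨c, hc, hcu⟩ := hg
  have hfin' : IsFiniteMeasure ((ENNReal.ofReal c) • μ) := Measure.smul_finite _ ENNReal.ofReal_ne_top
  have hint' : Integrable (fun x => ‖x‖) ((ENNReal.ofReal c) • μ) := hμ.smul_measure ENNReal.ofReal_ne_top
  have hgen : ∀ u, ‖u‖ = 1 → supp K u = ∫ x, |⟪x, u⟫| ∂((ENNReal.ofReal c) • μ) := by
    intro u hu
    rw [integral_smul_measure, ENNReal.toReal_ofReal hc.le, smul_eq_mul]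
    exact hcu u hu
  have key : ∀ u, ‖u‖ = 1 → supp P u = s⁻¹ * (2 ^ j / (j.factorial : ℝ)) * c ^ j * (iter μ j ew [u]).toReal := by
    intro u hu
    have h4 := geoII hj hK h hint' hgen hu
    rw [supp_smul_left hP hs.le, iter_smul_measure _ _ _ _ ENNReal.ofReal_ne_top, ENNReal.toReal_mul,
      ENNReal.toReal_pow, ENNReal.toReal_ofReal hc.le] at h4
    have := hs.ne'
    field_simp
    field_simp at h4
    linarith
  have hpi : 0 < √(2 / Real.pi) := Real.sqrt_pos.2 (by positivity)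
  constructor
  · refine ⟨s⁻¹ * (2 ^ j / (j.factorial : ℝ)) * c ^ j * (√(2 / Real.pi))⁻¹, by positivity, fun u hu => ?_⟩
    rw [key u hu, nuw_cos j μ hμ u]
    field_simp
  · intro h0
    obtain ⟨u, hu, hne⟩ := hne
    apply hne
    rw [key u hu]
    have h1 := iter_ew_singleton_le μ j u
    rw [h0, mul_zero] at h1
    rw [le_antisymm h1 (zero_le)]
    simp

/-- stage 2: a bounded density. -/
theorem gen_bounded {j : ℕ} (hj : 2 * j + 2 ≤ Module.finrank ℝ V) {μ : Measure V} [IsFiniteMeasure μ]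
    (hμ : Integrable (fun x => ‖x‖) μ) {S : V → ℝ} (hS : GenC S (nuw j (nuw j (nuw j μ)))) :
    ∃ (G : V → ℝ) (C : ℝ), Measurable G ∧ (∀ y, 0 ≤ G y) ∧ (∀ y, G y ≤ C) ∧ GenC S (dm G) := by
  have hfin := nuw_finite j μ hμ
  have hint := nuw_integrable j μ hμ
  obtain ⟨C, hC, hCy⟩ := stage2 hj μ hμ
  set ν := nuw j μ
  have hd1 : 1 ≤ Module.finrank ℝ V := by omega
  have hni : ∀ y : V, ni y ≠ ⊤ := fun y => ENNReal.ofReal_ne_top
  have hle : ∀ y, Gd j ν y ≤ ((Module.finrank ℝ V : ℝ≥0∞) * C) ^ j * ni y ^ j := by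
    intro y
    rw [← mul_pow, mul_assoc]
    exact Gd_le (ENNReal.mul_ne_top hC (hni y)) (hCy y)
  set D : ℝ≥0∞ := ((Module.finrank ℝ V : ℝ≥0∞) * C) ^ j with hD
  have hDtop : D ≠ ⊤ := ENNReal.pow_ne_top (ENNReal.mul_ne_top (ENNReal.natCast_ne_top _) hC)
  set G' : V → ℝ≥0∞ := fun y => ENNReal.ofReal (‖y‖ ^ j) * Gd j ν y with hG'
  have hG'le : ∀ y, G' y ≤ D := by
    intro y
    calc G' y ≤ ENNReal.ofReal (‖y‖ ^ j) * (D * ni y ^ j) := mul_le_mul' le_rfl (hle y)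
      _ = D * (ENNReal.ofReal (‖y‖ ^ j) * ENNReal.ofReal ((‖y‖ ^ j)⁻¹)) := by
          rw [ni_pow]
          ring
      _ ≤ D * 1 := by
          apply mul_le_mul' le_rfl
          rw [← ENNReal.ofReal_mul (by positivity), ← ENNReal.ofReal_one]
          apply ENNReal.ofReal_le_ofReal
          exact mul_inv_le_one
      _ = D := mul_one _
  have hG'top : ∀ y, G' y ≠ ⊤ := fun y => ne_top_of_le_ne_top hDtop (hG'le y)
  have hGm : Measurable (fun y => (G' y).toReal) := by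
    apply Measurable.ennreal_toReal
    exact (ENNReal.measurable_ofReal.comp (measurable_norm.pow_const j)).mul (measurable_Gd j ν)
  refine ⟨fun y => (G' y).toReal, D.toReal, hGm, fun y => ENNReal.toReal_nonneg,
    fun y => ENNReal.toReal_mono hDtop (hG'le y), ?_⟩
  have hhom : ∀ a : ℝ, a ≠ 0 → ∀ y, (G' (a • y)).toReal = (G' y).toReal := by
    intro a ha y
    congr 1
    simp only [hG']
    rw [Gd_smul j ν ha, norm_smul, Real.norm_eq_abs, mul_pow, ENNReal.ofReal_mul (by positivity)]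
    have h1 : ENNReal.ofReal (|a| ^ j) * ENNReal.ofReal ((|a| ^ j)⁻¹) = 1 := by
      rw [← ENNReal.ofReal_mul (by positivity), mul_inv_cancel₀ (pow_ne_zero j (abs_ne_zero.2 ha)),
        ENNReal.ofReal_one]
    calc ENNReal.ofReal (|a| ^ j) * ENNReal.ofReal (‖y‖ ^ j) * (ENNReal.ofReal ((|a| ^ j)⁻¹) * Gd j ν y)
        = (ENNReal.ofReal (|a| ^ j) * ENNReal.ofReal ((|a| ^ j)⁻¹)) * (ENNReal.ofReal (‖y‖ ^ j) * Gd j ν y) := by ring
      _ = ENNReal.ofReal (‖y‖ ^ j) * Gd j ν y := by rw [h1, one_mul]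
  refine GenC.density (j := j) (by omega) hGm (fun y => ENNReal.toReal_nonneg)
    (fun y => ENNReal.toReal_mono hDtop (hG'le y)) hhom (fun φ hφ => ?_) hS
  rw [nuw_nuw (by omega) ν hint hφ]
  have hV : Nontrivial V := Module.nontrivial_of_finrank_pos (R := ℝ) (by omega)
  have hae : ∀ᵐ y ∂(stdGaussian V), y ≠ 0 := by
    have h1 := ae_ort_ne_zero (V := V) (by omega) 0
    filter_upwards [h1] with y hy
    intro h0
    apply hy
    rw [h0]
    simp [ort]
  apply lintegral_congr_ae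
  filter_upwards [hae] with y hy
  congr 1
  have hn : ‖y‖ ^ j ≠ 0 := pow_ne_zero j (norm_ne_zero_iff.2 hy)
  rw [ENNReal.ofReal_mul (by positivity), ENNReal.ofReal_toReal (hG'top y)]
  simp only [hG']
  rw [← mul_assoc, ← ENNReal.ofReal_mul (by positivity), inv_mul_cancel₀ hn, ENNReal.ofReal_one, one_mul]

/-- stage 3: a density in the class `RC`. -/
theorem gen_RC {j : ℕ} (hj : j + 4 ≤ Module.finrank ℝ V) (h2 : 2 * j < Module.finrank ℝ V) {μ : Measure V}
    [IsFiniteMeasure μ] (hμ : Integrable (fun x => ‖x‖) μ) {C : ℝ≥0∞} (hC : C ≠ ⊤) (hle : μ ≤ C • stdGaussian V)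
    (hne : iter μ j ew [] ≠ 0) {S : V → ℝ} (hS : GenC S (nuw j (nuw j μ))) :
    ∃ (F : V → ℝ) (T : V → V), RC F T ∧ GenC S (dm F) := by
  obtain ⟨F, T, hRC, hF⟩ := base hj h2 hμ hC hle hne
  obtain ⟨C', hC'⟩ := hRC.bdd
  refine ⟨F, T, hRC, GenC.density (j := j) (by omega) hRC.mf (fun y => (hRC.F_pos y).le)
    (fun y => (le_abs_self _).trans (hC' y).1) hRC.homf (fun φ hφ => ?_) hS⟩
  rw [nuw_nuw (by omega) μ hμ hφ]
  have hae : ∀ᵐ y ∂(stdGaussian V), y ≠ 0 := by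
    have h1 := ae_ort_ne_zero (V := V) (by omega) 0
    filter_upwards [h1] with y hy
    intro h0
    apply hy
    rw [h0]
    simp [ort]
  apply lintegral_congr_ae
  filter_upwards [hae] with y hy
  rw [hF y hy]

/-- all bodies of a chain have densities in the class `RC`. -/
theorem chain_RC {j m : ℕ} (hj : j + 4 ≤ Module.finrank ℝ V) (h2 : 2 * j + 2 ≤ Module.finrank ℝ V) (hm : 1 ≤ m)
    (D : ℕ → Set V) (hD : ∀ n, CC (D n)) (hper : ∀ n, D (n + m) = D n)
    (s : ℕ → ℝ) (hs : ∀ n, 0 < s n) (hpb : ∀ n, IsPB j (D n) (s n • D (n + 1)))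
    (hne : ∀ n, ∃ u, ‖u‖ = 1 ∧ supp (D n) u ≠ 0) (n : ℕ) :
    ∃ (F : V → ℝ) (T : V → V), RC F T ∧ GenC (supp (D n)) (dm F) := by
  have hjd : j < Module.finrank ℝ V := by omega
  have hzon1 : ∀ n, Zon (supp (D (n + 1))) := by
    intro n
    have h1 := (geoI hjd (hD n) (hpb n)).smul (inv_nonneg.2 (hs n).le)
    refine h1.congr ?_
    intro u hu
    rw [supp_smul_left (hD (n + 1)) (hs n).le]
    have := (hs n).ne'
    field_simp
  have hperk : ∀ k n, D (n + k * m) = D n := by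
    intro k
    induction k with
    | zero => intro n; simp
    | succ k ih =>
      intro n
      rw [show n + (k + 1) * m = (n + k * m) + m by ring, hper, ih]
  have hstep : ∀ n (μ : Measure V), IsFiniteMeasure μ → Integrable (fun x => ‖x‖) μ → GenC (supp (D n)) μ →
      GenC (supp (D (n + 1))) (nuw j μ) ∧ iter μ j ew [] ≠ 0 := by
    intro n μ h1 h3 h4
    exact gen_next hjd (hD n) (hD (n + 1)) (hs n) (hpb n) (hne (n + 1)) h3 h4
  -- choose the starting index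
  obtain ⟨n0, hn0⟩ : ∃ n0, n0 + 1 + 5 = n + 6 * m := ⟨n + 6 * m - 6, by omega⟩
  obtain ⟨μ0, hfin0, hint0, hμ0⟩ := hzon1 n0
  have g0 : GenC (supp (D (n0 + 1))) μ0 := ⟨1, one_pos, fun u hu => by rw [one_mul]; exact hμ0 u hu⟩
  obtain ⟨g1, -⟩ := hstep _ μ0 hfin0 hint0 g0
  have f1 := nuw_finite j μ0 hint0
  have i1 := nuw_integrable j μ0 hint0
  obtain ⟨g2, -⟩ := hstep _ _ f1 i1 g1
  have f2 := nuw_finite j _ i1
  have i2 := nuw_integrable j _ i1
  obtain ⟨g3, -⟩ := hstep _ _ f2 i2 g2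
  obtain ⟨G, C, hGm, hG0, hGC, g3'⟩ := gen_bounded h2 hint0 g3
  have f3 := dm_finite hGm hGC
  have i3 := dm_integrable hGm hGC
  obtain ⟨g4, hne3⟩ := hstep _ _ f3 i3 g3'
  have f4 := nuw_finite j _ i3
  have i4 := nuw_integrable j _ i3
  obtain ⟨g5, -⟩ := hstep _ _ f4 i4 g4
  obtain ⟨F, T, hRC, hF⟩ := gen_RC hj (by omega) i3 ENNReal.ofReal_ne_top (dm_le hGC) hne3 g5
  refine ⟨F, T, hRC, ?_⟩
  have h6 : D (n0 + 1 + 1 + 1 + 1 + 1 + 1) = D n := by
    rw [← hperk 6 n]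
    congr 1
  rwa [h6] at hF

end Pool.Agent.FI75
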