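import Pool.Agent.FI75.C7
import Pool.Agent.FI75.E2
import Pool.Agent.FI75.E5

/-! Module FI-E6: chains of zonoids: all `D n` have constant support function on the sphere. -/

set_option autoImplicit false

namespace Pool.Agent.FI75
open MeasureTheory ProbabilityTheory Set Filter Topology Metric
open Pool.Agent.HP89
open Pool.Agent.Helper82.Proj1 (supp shadow kappa)
open scoped RealInnerProductSpace ENNReal Pointwise

variable {V : Type*} [NormedAddCommGroup V] [InnerProductSpace ℝ V] [FiniteDimensional ℝ V]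
  [MeasurableSpace V] [BorelSpace V]

/-- the iterated densities. -/
noncomputable def dens (j : ℕ) (p : (V → ℝ) × (V → V)) : ℕ → (V → ℝ) × (V → V)
  | 0 => p
  | n + 1 => (NN j (dens j p n).1, TT j (dens j p n).1 (dens j p n).2)

theorem dens_RC {j : ℕ} (hd : 2 ≤ Module.finrank ℝ V) (hj : j < Module.finrank ℝ V) {p : (V → ℝ) × (V → V)}
    (hp : RC p.1 p.2) (n : ℕ) : RC (dens j p n).1 (dens j p n).2 := by
  induction n with
  | zero => exact hp
  | succ n ih => exact ih.next hd hj

theorem cosT_smul (F : V → ℝ) {a : ℝ} (ha : 0 ≤ a) (u : V) : cosT F (a • u) = a * cosT F u := by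
  unfold cosT
  rw [← integral_const_mul]
  congr 1
  ext x
  rw [inner_smul_right, abs_mul, abs_of_nonneg ha]
  ring

/-- the bound for one density. -/
theorem dist_bound (hd : 2 ≤ Module.finrank ℝ V) {F : V → ℝ} {T : V → V} (hRC : RC F T) {K : Set V} (hK : CC K)
    (hg : GenC (supp K) (dm F)) {u v : V} (hu : ‖u‖ = 1) (hv : ‖v‖ = 1) :
    |supp K u - supp K v| ≤
      Real.pi * (√(2 / Real.pi))⁻¹ * (∫ x, supp K x ∂(stdGaussian V)) * √(JJ F T / AA F) := by
  obtain ⟨c, hc, hcu⟩ := hg
  have hm := mG_pos (n := Module.finrank ℝ V) (by omega)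
  obtain ⟨C, hC⟩ := hRC.bdd
  have hA := hRC.AA_pos
  have hJ := hRC.JJ_nonneg
  have hcu' : ∀ u : V, ‖u‖ = 1 → supp K u = c * cosT F u := by
    intro u hu
    rw [hcu u hu, cosT_eq hRC.mf (fun y => (hRC.F_pos y).le)]
  have hall : ∀ x : V, supp K x = c * cosT F x := by
    intro x
    by_cases hx : x = 0
    · have h1 := supp_smul_right hK le_rfl (0 : V)
      have h2 := cosT_smul F le_rfl (0 : V)
      simp only [zero_smul, zero_mul] at h1 h2
      rw [hx, h1, h2, mul_zero]
    · have hn : ‖x‖ ≠ 0 := norm_ne_zero_iff.2 hx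
      have h1 : x = ‖x‖ • (‖x‖⁻¹ • x) := by rw [smul_smul, mul_inv_cancel₀ hn, one_smul]
      rw [h1, supp_smul_right hK (norm_nonneg x), cosT_smul F (norm_nonneg x),
        hcu' _ (by rw [norm_smul, norm_inv, norm_norm, inv_mul_cancel₀ hn])]
      ring
  have hint : ∫ x, supp K x ∂(stdGaussian V) = c * (√(2 / Real.pi) * mG (Module.finrank ℝ V) * AA F) := by
    rw [← integral_cosT (by omega) hRC.mf (fun y => (hRC.F_pos y).le) (fun y => (le_abs_self _).trans (hC y).1)
      hRC.homf, ← integral_const_mul]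
    exact integral_congr_ae (ae_of_all _ hall)
  have hpi : 0 < √(2 / Real.pi) := Real.sqrt_pos.2 (by positivity)
  rw [hall u, hall v, ← mul_sub, abs_mul, abs_of_pos hc, hint]
  have h3 : √(JJ F T * AA F) = AA F * √(JJ F T / AA F) := by
    rw [← Real.sqrt_sq hA.le, ← Real.sqrt_mul (by positivity), Real.sqrt_sq hA.le]
    congr 1
    field_simp
  have h4 := hRC.cosT_dist hd hu hv
  rw [h3] at h4
  calc c * |cosT F u - cosT F v| ≤ c * (Real.pi * mG (Module.finrank ℝ V) * (AA F * √(JJ F T / AA F))) :=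
        mul_le_mul_of_nonneg_left h4 hc.le
    _ = Real.pi * (√(2 / Real.pi))⁻¹ * (c * (√(2 / Real.pi) * mG (Module.finrank ℝ V) * AA F)) *
          √(JJ F T / AA F) := by
        field_simp

theorem chain_const {j m : ℕ} (hj : 1 ≤ j) (h4 : j + 4 ≤ Module.finrank ℝ V) (h2 : 2 * j + 2 ≤ Module.finrank ℝ V)
    (hθ : (j : ℝ) * mG (Module.finrank ℝ V - j) <
      ((Module.finrank ℝ V : ℝ) - j) * mG (Module.finrank ℝ V + 1 - 2 * j)) (hm : 1 ≤ m)
    (D : ℕ → Set V) (hD : ∀ n, CC (D n)) (hper : ∀ n, D (n + m) = D n)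
    (s : ℕ → ℝ) (hs : ∀ n, 0 < s n) (hpb : ∀ n, IsPB j (D n) (s n • D (n + 1)))
    (hne : ∀ n, ∃ u, ‖u‖ = 1 ∧ supp (D n) u ≠ 0) (n : ℕ) {u v : V} (hu : ‖u‖ = 1) (hv : ‖v‖ = 1) :
    supp (D n) u = supp (D n) v := by
  have hjd : j < Module.finrank ℝ V := by omega
  have hd : 2 ≤ Module.finrank ℝ V := by omega
  obtain ⟨F, T, hRC, hF⟩ := chain_RC h4 h2 hm D hD hper s hs hpb hne n
  set p : (V → ℝ) × (V → V) := (F, T) with hp
  have hRCi : ∀ i, RC (dens j p i).1 (dens j p i).2 := dens_RC hd hjd hRC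
  have hgen : ∀ i, GenC (supp (D (n + i))) (dm (dens j p i).1) := by
    intro i
    induction i with
    | zero => exact hF
    | succ i ih =>
      obtain ⟨C, hC⟩ := (hRCi i).bdd
      have hC' : ∀ y, (dens j p i).1 y ≤ C := fun y => (le_abs_self _).trans (hC y).1
      have f1 := dm_finite (hRCi i).mf hC'
      have i1 := dm_integrable (hRCi i).mf hC'
      have g1 := (gen_next hjd (hD (n + i)) (hD (n + i + 1)) (hs (n + i)) (hpb (n + i)) (hne (n + i + 1)) i1 ih).1
      exact GenC.next_RC hjd (hRCi i) g1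
  set r : ℕ → ℝ := fun i => JJ (dens j p i).1 (dens j p i).2 / AA (dens j p i).1 with hr
  set k : ℝ := (Module.finrank ℝ V : ℝ) - j with hk
  have hkpos : 0 < k := by
    have : (j : ℝ) < (Module.finrank ℝ V : ℝ) := by exact_mod_cast hjd
    rw [hk]
    linarith
  have hmq : 0 < mG (Module.finrank ℝ V + 1 - 2 * j) := mG_pos (by omega)
  set θ : ℝ := ((j : ℝ) * mG (Module.finrank ℝ V - j)) / (k * mG (Module.finrank ℝ V + 1 - 2 * j)) with hθdef
  have hθ0 : 0 ≤ θ := div_nonneg (mul_nonneg (Nat.cast_nonneg _) (mG_nonneg _)) (by positivity)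
  have hθ1 : θ < 1 := by
    rw [hθdef, div_lt_one (by positivity)]
    exact hθ
  have hr0 : ∀ i, 0 ≤ r i := fun i => div_nonneg (hRCi i).JJ_nonneg (hRCi i).AA_pos.le
  have hstep : ∀ i, r (i + 2) ≤ θ * r (i + 1) := by
    intro i
    have h1 := (hRCi i).contraction hj (by omega)
    have hA1 := (hRCi (i + 1)).AA_pos
    have hA2 := (hRCi (i + 2)).AA_pos
    change k * mG (Module.finrank ℝ V + 1 - 2 * j) *
      (JJ (dens j p (i + 2)).1 (dens j p (i + 2)).2 * AA (dens j p (i + 1)).1) ≤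
      j * mG (Module.finrank ℝ V - j) *
        (JJ (dens j p (i + 1)).1 (dens j p (i + 1)).2 * AA (dens j p (i + 2)).1) at h1
    simp only [hr]
    rw [hθdef, div_mul_div_comm, div_le_div_iff₀ hA2 (by positivity)]
    linarith
  have hpow : ∀ i, r (i + 1) ≤ θ ^ i * r 1 := by
    intro i
    induction i with
    | zero => simp
    | succ i ih =>
      calc r (i + 1 + 1) ≤ θ * r (i + 1) := hstep i
        _ ≤ θ * (θ ^ i * r 1) := mul_le_mul_of_nonneg_left ih hθ0
        _ = θ ^ (i + 1) * r 1 := by ring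
  have hperk : ∀ k, D (n + k * m) = D n := by
    intro k
    induction k with
    | zero => simp
    | succ k ih => rw [show n + (k + 1) * m = (n + k * m) + m by ring, hper, ih]
  -- the limit
  set W : ℝ := Real.pi * (√(2 / Real.pi))⁻¹ * (∫ x, supp (D n) x ∂(stdGaussian V)) with hW
  have hbound : ∀ i : ℕ, |supp (D n) u - supp (D n) v| ≤ W * √(θ ^ (((i + 1) * m) - 1) * r 1) := by
    intro i
    have h1 := dist_bound hd (hRCi ((i + 1) * m)) (hD (n + (i + 1) * m)) (hgen ((i + 1) * m)) hu hv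
    rw [hperk (i + 1)] at h1
    have hWle : 0 ≤ W ∨ W < 0 := le_or_gt 0 W
    obtain ⟨l, hl⟩ : ∃ l, (i + 1) * m = l + 1 := ⟨(i + 1) * m - 1, by
      have : 1 ≤ (i + 1) * m := Nat.mul_pos (by omega) hm
      omega⟩
    rcases hWle with hW0 | hW0
    · refine h1.trans (mul_le_mul_of_nonneg_left (Real.sqrt_le_sqrt ?_) hW0)
      rw [hl]
      exact hpow l
    · -- impossible unless the left side vanishes
      have h5 : W * √(r ((i + 1) * m)) ≤ 0 := mul_nonpos_of_nonpos_of_nonneg hW0.le (Real.sqrt_nonneg _)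
      have h6 : |supp (D n) u - supp (D n) v| ≤ 0 := h1.trans h5
      have h7 : |supp (D n) u - supp (D n) v| = 0 := le_antisymm h6 (abs_nonneg _)
      have h8 : W * √(r ((i + 1) * m)) = 0 := le_antisymm h5 (h7 ▸ h1)
      exfalso
      obtain ⟨c, hc, hcu⟩ := hgen 0
      have hA := (hRCi 0).AA_pos
      -- the mean width is nonnegative
      have h9 : 0 ≤ ∫ x, supp (D n) x ∂(stdGaussian V) := by
        apply integral_nonneg
        intro x
        simp only [Pi.zero_apply]
        by_cases hx : x = 0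
        · have h1 := supp_smul_right (hD n) le_rfl (0 : V)
          simp only [zero_smul, zero_mul] at h1
          rw [hx, h1]
        · have hn : ‖x‖ ≠ 0 := norm_ne_zero_iff.2 hx
          have h1 : x = ‖x‖ • (‖x‖⁻¹ • x) := by rw [smul_smul, mul_inv_cancel₀ hn, one_smul]
          rw [h1, supp_smul_right (hD n) (norm_nonneg x)]
          apply mul_nonneg (norm_nonneg x)
          have h10 := hcu (‖x‖⁻¹ • x) (by rw [norm_smul, norm_inv, norm_norm, inv_mul_cancel₀ hn])
          rw [add_zero] at h10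
          rw [h10]
          exact mul_nonneg hc.le (integral_nonneg fun _ => abs_nonneg _)
      have h10 : 0 ≤ W := by
        rw [hW]
        positivity
      linarith
  have hlim : Tendsto (fun i : ℕ => W * √(θ ^ (((i + 1) * m) - 1) * r 1)) atTop (𝓝 0) := by
    have h1 : Tendsto (fun i : ℕ => ((i + 1) * m) - 1) atTop atTop := by
      apply tendsto_atTop_mono (f := fun i : ℕ => i) _ tendsto_id
      intro i
      have : i + 1 ≤ (i + 1) * m := Nat.le_mul_of_pos_right _ hm
      omega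
    have h3 : Tendsto (fun i : ℕ => θ ^ (((i + 1) * m) - 1)) atTop (𝓝 0) :=
      (tendsto_pow_atTop_nhds_zero_of_lt_one hθ0 hθ1).comp h1
    have h5 : Tendsto (fun i : ℕ => √(θ ^ (((i + 1) * m) - 1) * r 1)) atTop (𝓝 (√(0 * r 1))) :=
      (h3.mul_const _).sqrt
    rw [zero_mul, Real.sqrt_zero] at h5
    have h6 := h5.const_mul W
    rwa [mul_zero] at h6
  have hfinal : |supp (D n) u - supp (D n) v| ≤ 0 :=
    ge_of_tendsto hlim (Eventually.of_forall hbound)
  have := abs_nonpos_iff.1 hfinal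
  linarith

end Pool.Agent.FI75
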