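import Pool.Agent.FI75.E7

/-! Module FI-E8: the polynomial range. -/

set_option autoImplicit false

namespace Pool.Agent.FI75
open MeasureTheory ProbabilityTheory Set Filter Topology Metric
open Pool.Agent.HP89 hiding chain_const ball_of_chain
open Pool.Agent.Helper82.Proj1
open scoped RealInnerProductSpace ENNReal Pointwise

variable {V : Type*} [NormedAddCommGroup V] [InnerProductSpace ℝ V] [FiniteDimensional ℝ V]
  [MeasurableSpace V] [BorelSpace V]

theorem ball_of_chain_golden {j m : ℕ} (hj : 1 ≤ j) (h2 : 2 * j < Module.finrank ℝ V)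
    (h3 : 3 * Module.finrank ℝ V * j < Module.finrank ℝ V ^ 2 + j ^ 2) (hm : 1 ≤ m)
    (C : ℕ → Set V) (hC : ∀ i, CC (C i)) (hint : (interior (C 0)).Nonempty)
    (hpb : ∀ i < m, IsPB j (C i) (C (i + 1))) {c : ℝ} (hc : 0 < c) {x : V}
    (hH : C m = (fun y => c • y + x) '' C 0) : ∃ (y : V) (r : ℝ), 0 < r ∧ C 0 = closedBall y r := by
  rcases Nat.lt_or_ge j 2 with h1 | h1
  · have hj1 : j = 1 := by omega
    subst hj1
    exact Pool.Agent.HP89.ball_of_chain hj (by omega) hm C hC hint hpb hc hH
  · set d := Module.finrank ℝ V with hd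
    have h4 : 2 * j + 2 ≤ d := by
      by_contra hcon
      have h5 : d = 2 * j + 1 := by omega
      rw [h5] at h3
      nlinarith
    exact ball_of_chain hj (by omega) h4 (theta_lt_one hj h2 h3) hm C hC hint hpb hc hH

end Pool.Agent.FI75
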