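import Pool.Agent.FI75.Defs

/-! Module FI-R1 (rotations). `rt A t = exp (t A)` in the Banach algebra `V →L[ℝ] V`. Tools: `hasDerivAt_exp_smul_const`,
`NormedSpace.exp_add_of_commute` (for `s • A`, `t • A`), `Commute` lemmas of `NormedSpace.exp` (or: both sides of `rt_comm`
and `rt_of_apply_eq_zero` have derivative `0` after applying `rt A (-t)`), evaluation at `x` is a continuous linear map.
`Skew.inner`: polarise `⟪A (x+y), x+y⟫ = 0`. `inner_rt`: the function `t ↦ ⟪rt A t x, rt A t y⟫` has derivative `0`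
(`is_const_of_deriv_eq_zero`). `iso`: `LinearIsometryEquiv` from the linear map `rt A t` with inverse `rt A (-t)`. -/

set_option autoImplicit false

namespace Pool.Agent.FI75
open MeasureTheory ProbabilityTheory Set Filter Topology Metric
open Pool.Agent.HP89
open scoped RealInnerProductSpace ENNReal

variable {V : Type*} [NormedAddCommGroup V] [InnerProductSpace ℝ V] [FiniteDimensional ℝ V]

theorem rt_zero (A : V →L[ℝ] V) (x : V) : rt A 0 x = x := by
  simp [rt]

theorem rt_add (A : V →L[ℝ] V) (s t : ℝ) (x : V) : rt A (s + t) x = rt A s (rt A t x) := by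
  have : CompleteSpace V := FiniteDimensional.complete ℝ V
  letI : NormedAlgebra ℚ (V →L[ℝ] V) := NormedAlgebra.restrictScalars ℚ ℝ _
  have hc : Commute (s • A) (t • A) := ((Commute.refl A).smul_left s).smul_right t
  unfold rt
  rw [add_smul, NormedSpace.exp_add_of_commute hc]
  rfl

theorem rt_neg_cancel (A : V →L[ℝ] V) (t : ℝ) (x : V) : rt A (-t) (rt A t x) = x := by
  rw [← rt_add, neg_add_cancel, rt_zero]

theorem hasDerivAt_rt (A : V →L[ℝ] V) (x : V) (t : ℝ) : HasDerivAt (fun s : ℝ => rt A s x) (A (rt A t x)) t := by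
  have : CompleteSpace V := FiniteDimensional.complete ℝ V
  have h := hasDerivAt_exp_smul_const' A t
  exact (ContinuousLinearMap.apply ℝ V x).hasFDerivAt.comp_hasDerivAt t h

private theorem hasDerivAt_rt' (A : V →L[ℝ] V) (x : V) (t : ℝ) :
    HasDerivAt (fun s : ℝ => rt A s x) (rt A t (A x)) t := by
  have : CompleteSpace V := FiniteDimensional.complete ℝ V
  have h := hasDerivAt_exp_smul_const A t
  exact (ContinuousLinearMap.apply ℝ V x).hasFDerivAt.comp_hasDerivAt t h

theorem rt_of_apply_eq_zero {A : V →L[ℝ] V} {x : V} (h : A x = 0) (t : ℝ) : rt A t x = x := by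
  have h1 : ∀ s, HasDerivAt (fun s : ℝ => rt A s x) 0 s := by
    intro s
    have := hasDerivAt_rt' A x s
    rwa [h, map_zero] at this
  have h2 := is_const_of_deriv_eq_zero (fun s => (h1 s).differentiableAt) (fun s => (h1 s).deriv) t 0
  rw [h2, rt_zero]

theorem rt_comm {A P : V →L[ℝ] V} (h : ∀ x, A (P x) = P (A x)) (t : ℝ) (x : V) : rt A t (P x) = P (rt A t x) := by
  have : CompleteSpace V := FiniteDimensional.complete ℝ V
  have hc : Commute A P := by
    ext x
    exact h x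
  have hc' : Commute (NormedSpace.exp (t • A)) P := (hc.smul_left t).exp_left
  exact congrArg (fun T : V →L[ℝ] V => T x) hc'.eq

theorem Skew.inner {A : V →L[ℝ] V} (hA : Skew A) (x y : V) : ⟪A x, y⟫ = -⟪x, A y⟫ := by
  have h := hA (x + y)
  rw [map_add, inner_add_left, inner_add_right, inner_add_right, hA x, hA y,
    real_inner_comm x (A y)] at h
  linarith

theorem Skew.inner_rt {A : V →L[ℝ] V} (hA : Skew A) (t : ℝ) (x y : V) : ⟪rt A t x, rt A t y⟫ = ⟪x, y⟫ := by
  have h1 : ∀ s, HasDerivAt (fun s : ℝ => ⟪rt A s x, rt A s y⟫) 0 s := by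
    intro s
    have h := (hasDerivAt_rt A x s).inner ℝ (hasDerivAt_rt A y s)
    rw [hA.inner] at h
    simpa using h
  have h2 := is_const_of_deriv_eq_zero (fun s => (h1 s).differentiableAt) (fun s => (h1 s).deriv) t 0
  rw [h2, rt_zero, rt_zero]

theorem Skew.norm_rt {A : V →L[ℝ] V} (hA : Skew A) (t : ℝ) (x : V) : ‖rt A t x‖ = ‖x‖ := by
  rw [norm_eq_sqrt_real_inner, hA.inner_rt, ← norm_eq_sqrt_real_inner]

theorem Skew.rt_ne_zero {A : V →L[ℝ] V} (hA : Skew A) (t : ℝ) {x : V} (hx : x ≠ 0) : rt A t x ≠ 0 := by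
  rw [← norm_ne_zero_iff, hA.norm_rt]
  exact norm_ne_zero_iff.2 hx

theorem Skew.iso {A : V →L[ℝ] V} (hA : Skew A) (t : ℝ) : ∃ e : V ≃ₗᵢ[ℝ] V, ∀ x, e x = rt A t x := by
  let li : V →ₗᵢ[ℝ] V := ⟨((rt A t : V →L[ℝ] V) : V →ₗ[ℝ] V), fun x => hA.norm_rt t x⟩
  exact ⟨li.toLinearIsometryEquiv rfl, fun x => rfl⟩

/-- skew maps of rank two. -/
theorem exists_skew (a b : V) : ∃ A : V →L[ℝ] V, Skew A ∧ ∀ x, A x = ⟪b, x⟫ • a - ⟪a, x⟫ • b := by
  have h : ∀ x, ((innerSL ℝ b).smulRight a - (innerSL ℝ a).smulRight b : V →L[ℝ] V) x =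
      ⟪b, x⟫ • a - ⟪a, x⟫ • b := fun x => by simp
  refine ⟨(innerSL ℝ b).smulRight a - (innerSL ℝ a).smulRight b, fun x => ?_, h⟩
  rw [h, inner_sub_left, inner_smul_left, inner_smul_left]
  simp only [conj_trivial]
  ring

end Pool.Agent.FI75
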